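import Pool.Agent.SYQ.Defs
import Pool.Agent.SYH.SgM

/-!
# SYQ/Vol: volume

`vol_smooth`: `lintegral_abs_det_fderiv_eq_addHaar_image` for the smooth injective map `f` on `A`; `|det| = 1` (`det_of_symp_pm` for `jac f x`, and the determinant of
`fderiv ℝ f x` is the determinant of `jac f x`: `LinearMap.det_toMatrix'`).
`vol_le_ap`: (1) `A ⊆ W` compact, `f n → e` uniformly on `W`: for `ε > 0` and large `n`: `f n '' A ⊆ cthickening ε (e '' A)`, so `volume A = volume (f n '' A) ≤
volume (cthickening ε (e '' A))`, which tends to `volume (e '' A)` as `ε → 0` (`tendsto_measure_cthickening_of_isCompact`).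
(2) `A ⊆ W` measurable: inner regularity (`MeasurableSet.measure_eq_iSup_isCompact`), `e '' C ⊆ e '' A`.
(3) `A ⊆ e.source` measurable: countably many `W_k` cover `e.source` (`TopologicalSpace.isOpen_iUnion_countable`); `A_k = A ∩ W_k \ ⋃_{l<k} W_l` (`disjointed`): the sets `e '' A_k` are
disjoint and measurable (`MeasurableSet.image_of_continuousOn_injOn`): `volume A = Σ volume A_k ≤ Σ volume (e '' A_k) = volume (e '' A)`.
`mpre_ap`: as `SYH/SgM.mpre_pm`.
-/

open MeasureTheory Set Filter Topology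
open scoped ContDiff Matrix ENNReal

namespace Pool.Agent.SYQ

open Pool.Agent.SYH

variable {α : ℝ} {e : OpenPartialHomeomorph R4 R4}

theorem vol_smooth {f : R4 → R4} {W A : Set R4} (hW : IsOpen W) (hf : ContDiffOn ℝ ∞ f W)
    (hi : InjOn f W) (hJ : ∀ y ∈ W, (jac f y)ᵀ * J * jac f y = J) (hA : MeasurableSet A)
    (hs : A ⊆ W) : volume (f '' A) = volume A := by
  have hd : ∀ x ∈ A, HasFDerivWithinAt f (fderiv ℝ f x) A x := by
    intro x hx
    have h1 : DifferentiableAt ℝ f x :=
      (hf.differentiableOn (by simp)).differentiableAt (hW.mem_nhds (hs hx))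
    exact h1.hasFDerivAt.hasFDerivWithinAt
  have hdet : ∀ x ∈ A, |(fderiv ℝ f x).det| = 1 := by
    intro x hx
    have h1 := det_of_symp_pm (Or.inl (hJ x (hs hx)))
    have h2 : jac f x = LinearMap.toMatrix' (fderiv ℝ f x : R4 →ₗ[ℝ] R4) := by
      ext b a
      rw [LinearMap.toMatrix'_apply]
      simp only [jac, Matrix.of_apply, ContinuousLinearMap.coe_coe]
    rw [h2, LinearMap.det_toMatrix'] at h1
    exact h1
  have h3 := lintegral_abs_det_fderiv_eq_addHaar_image volume hA hd (hi.mono hs)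
  rw [← h3, setLIntegral_congr_fun hA (g := fun _ => 1)
    (fun x hx => by simp only [hdet x hx, ENNReal.ofReal_one])]
  simp

private theorem Vol_cpt (h : Ap α e) {x : R4} (hx : x ∈ e.source) :
    ∃ W, IsOpen W ∧ x ∈ W ∧ W ⊆ e.source ∧ ∀ A, A ⊆ W → MeasurableSet A →
      volume A ≤ volume (e '' A) := by
  obtain ⟨W, hW, hxW, hWs, f, L, hf, hi, hJ, hu, _⟩ := h x hx
  refine ⟨W, hW, hxW, hWs, fun A hA hm => ?_⟩
  have hc : ∀ C, C ⊆ W → IsCompact C → volume C ≤ volume (e '' C) := by
    intro C hC hCc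
    have hec : IsCompact (e '' C) :=
      hCc.image_of_continuousOn (e.continuousOn.mono (hC.trans hWs))
    have h1 := (tendsto_measure_cthickening_of_isCompact (μ := (volume : Measure R4)) hec).mono_left
      (nhdsWithin_le_nhds (s := Ioi (0 : ℝ)))
    refine ge_of_tendsto h1 ?_
    filter_upwards [self_mem_nhdsWithin] with ε hε
    obtain ⟨n, hn⟩ := (Metric.tendstoUniformlyOn_iff.1 hu ε hε).exists
    rw [← vol_smooth hW (hf n) (hi n) (hJ n) hCc.measurableSet hC]
    refine measure_mono ?_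
    rintro _ ⟨y, hy, rfl⟩
    refine Metric.mem_cthickening_of_dist_le (f n y) (e y) ε _ ⟨y, hy, rfl⟩ ?_
    rw [dist_comm]
    exact (hn y (hC hy)).le
  rw [hm.measure_eq_iSup_isCompact]
  refine iSup_le fun C => iSup_le fun hCA => iSup_le fun hCc => ?_
  exact (hc C (hCA.trans hA) hCc).trans (measure_mono (image_mono hCA))

theorem vol_le_ap (h : Ap α e) {A : Set R4} (hA : A ⊆ e.source) (hm : MeasurableSet A) :
    volume A ≤ volume (e '' A) := by
  rcases A.eq_empty_or_nonempty with rfl | hne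
  · simp
  choose! W hW hxW hWs hWv using fun x (hx : x ∈ e.source) => Vol_cpt h hx
  obtain ⟨T, hTc, hT⟩ := TopologicalSpace.isOpen_iUnion_countable
    (fun x : e.source => W x.1) (fun x => hW x.1 x.2)
  have hTne : T.Nonempty := by
    obtain ⟨a, ha⟩ := hne
    have h1 : a ∈ ⋃ x : e.source, W x.1 := mem_iUnion.2 ⟨⟨a, hA ha⟩, hxW a (hA ha)⟩
    rw [← hT] at h1
    obtain ⟨i, hi⟩ := mem_iUnion.1 h1
    obtain ⟨hi', _⟩ := mem_iUnion.1 hi
    exact ⟨i, hi'⟩
  obtain ⟨g, hg⟩ := hTc.exists_eq_range hTne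
  set G : ℕ → Set R4 := fun k => W (g k).1 with hG
  have hcov : A ⊆ ⋃ k, G k := by
    intro a ha
    have h1 : a ∈ ⋃ x : e.source, W x.1 := mem_iUnion.2 ⟨⟨a, hA ha⟩, hxW a (hA ha)⟩
    rw [← hT, hg, biUnion_range] at h1
    exact h1
  have hGm : ∀ k, MeasurableSet (G k) := fun k => (hW _ (g k).2).measurableSet
  set D : ℕ → Set R4 := fun k => A ∩ disjointed G k with hD
  have hDm : ∀ k, MeasurableSet (D k) := fun k =>
    hm.inter (MeasurableSet.disjointed hGm k)
  have hDd : Pairwise (Function.onFun Disjoint D) := by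
    intro i j hij
    exact (disjoint_disjointed G hij).mono inter_subset_right inter_subset_right
  have hDA : ∀ k, D k ⊆ A := fun k => inter_subset_left
  have hDU : A = ⋃ k, D k := by
    rw [hD, ← inter_iUnion, iUnion_disjointed, inter_eq_left.2 hcov]
  have hDG : ∀ k, D k ⊆ G k := fun k => inter_subset_right.trans (disjointed_subset G k)
  have himd : Pairwise (Function.onFun Disjoint fun k => e '' D k) := by
    intro i j hij
    refine Set.disjoint_left.2 ?_
    rintro _ ⟨y, hy, rfl⟩ ⟨z, hz, hyz⟩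
    have h1 : z = y := e.injOn (hA (hDA j hz)) (hA (hDA i hy)) hyz
    subst h1
    exact Set.disjoint_left.1 (hDd hij) hy hz
  have himm : ∀ k, MeasurableSet (e '' D k) := fun k =>
    (hDm k).image_of_continuousOn_injOn (e.continuousOn.mono ((hDA k).trans hA))
      (e.injOn.mono ((hDA k).trans hA))
  calc volume A = ∑' k, volume (D k) := by
        conv_lhs => rw [hDU]
        exact measure_iUnion hDd hDm
    _ ≤ ∑' k, volume (e '' D k) := ENNReal.tsum_le_tsum fun k =>
        hWv _ (g k).2 (D k) (hDG k) (hDm k)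
    _ = volume (⋃ k, e '' D k) := (measure_iUnion himd himm).symm
    _ = volume (e '' A) := by rw [← image_iUnion, ← hDU]

theorem mpre_ap (h : Ap α e) (h' : Ap α e.symm) : MPre e := by
  intro A hA hAm
  apply le_antisymm
  · have hm : MeasurableSet (e '' A) :=
      hAm.image_of_continuousOn_injOn (e.continuousOn.mono hA) (e.injOn.mono hA)
    have hsub : e '' A ⊆ e.symm.source := by
      rintro _ ⟨x, hx, rfl⟩
      exact e.map_source (hA hx)
    have h1 := vol_le_ap h' hsub hm
    have h2 : e.symm '' (e '' A) = A := by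
      ext y
      constructor
      · rintro ⟨_, ⟨x, hx, rfl⟩, rfl⟩
        rw [e.left_inv (hA hx)]; exact hx
      · intro hy
        exact ⟨e y, ⟨y, hy, rfl⟩, e.left_inv (hA hy)⟩
    rwa [h2] at h1
  · exact vol_le_ap h hA hAm

end Pool.Agent.SYQ
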