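import Pool.Agent.SYQ.QO
import Pool.Agent.SYQ.Vol

/-!
# SYQ/MnQ: no Hölder symplectic atlas on the four-sphere
-/

open MeasureTheory Set Filter Topology
open scoped ContDiff Matrix ENNReal

namespace Pool.Agent.SYQ

open Pool.Agent.SYH

theorem no_at {α : ℝ} {ι : Type*} (A : At α S4 ι) : False := by
  have : CompactSpace S4 := inferInstance
  have : Nonempty S4 := ⟨⟨EuclideanSpace.single 0 1, by simp⟩⟩
  choose c hc using A.cov
  obtain ⟨σ, hσ⟩ := SYT.glob A.sys c hc
  obtain ⟨n, c', N, h, b, κ, F⟩ := A.fam_of_coh hc hσ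
  exact At.no_fam F

theorem no_atlas_hol {α : ℝ} (h1 : 2 / 3 < α) (h2 : α ≤ 1) {ι : Type*}
    (x : ι → OpenPartialHomeomorph S4 R4) (hc : ∀ m, ∃ i, m ∈ (x i).source)
    (ht : ∀ i j, Ap α ((x i).symm.trans (x j))) : False := by
  have hm : ∀ i j, MPre ((x i).symm.trans (x j)) := by
    intro i j
    refine mpre_ap (ht i j) ?_
    have h := ht j i
    rwa [OpenPartialHomeomorph.trans_symm_eq_symm_trans_symm, OpenPartialHomeomorph.symm_symm]
  exact no_at ⟨h1, h2, x, hc, ht, hm⟩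

end Pool.Agent.SYQ
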