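import Pool.Agent.SYQ.CvC

/-!
# SYQ/ApA: Hölder symplectic homeomorphisms

`Ap.sub`: `W' = W ∩ e'.source`.  `Ap.cv`: components: `|f n y b - f n z b| ≤ ‖f n y - f n z‖ ≤ L ‖y - z‖ ^ α`; uniform limits satisfy the same estimate.
`Ap.lh`: `LH.loc` and `Ap.cv` (`lim`).
-/

open MeasureTheory Set Filter Topology
open scoped ContDiff Matrix ENNReal

namespace Pool.Agent.SYQ

open Pool.Agent.SYH

variable {α : ℝ} {e e' : OpenPartialHomeomorph R4 R4}

theorem Ap.sub (h : Ap α e) (hs : e'.source ⊆ e.source) (he : ∀ x ∈ e'.source, e' x = e x) :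
    Ap α e' := by
  intro x hx
  obtain ⟨W, hW, hxW, hWs, f, L, h1, h2, h3, h4, h5⟩ := h x (hs hx)
  refine ⟨W ∩ e'.source, hW.inter e'.open_source, ⟨hxW, hx⟩, inter_subset_right, f, L,
    fun n => (h1 n).mono inter_subset_left, fun n => (h2 n).mono inter_subset_left,
    fun n y hy => h3 n y hy.1, ?_, fun n y hy z hz => h5 n y hy.1 z hz.1⟩
  exact (h4.mono inter_subset_left).congr_right fun y hy => (he y hy.2).symm

/-- the approximation near a point, in terms of `Cv` -/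
theorem Ap.cv (h0 : 0 < α) (h : Ap α e) {x : R4} (hx : x ∈ e.source) :
    ∃ W, IsOpen W ∧ x ∈ W ∧ W ⊆ e.source ∧ ∃ f : ℕ → R4 → R4,
      (∀ n, ContDiffOn ℝ ∞ (f n) W) ∧ (∀ n, ∀ y ∈ W, (jac (f n) y)ᵀ * J * jac (f n) y = J) ∧
      ∀ b, Cv α W atTop (fun n y => f n y b) (fun y => e y b) := by
  obtain ⟨W, hW, hxW, hWs, f, L, h1, h2, h3, h4, h5⟩ := h x hx
  have hb : ∀ b n, ∀ y ∈ W, ∀ z ∈ W, |f n y b - f n z b| ≤ L * ‖y - z‖ ^ α := by
    intro b n y hy z hz
    refine le_trans ?_ (h5 n y hy z hz)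
    have := norm_le_pi_norm (f n y - f n z) b
    rwa [Pi.sub_apply, Real.norm_eq_abs] at this
  refine ⟨W, hW, hxW, hWs, f, h1, h3, fun b => ⟨?_, ?_, ?_⟩⟩
  · intro K hK _
    refine ⟨L, fun y hy z hz => ?_⟩
    have t1 : Tendsto (fun n => |f n y b - f n z b|) atTop (𝓝 |e y b - e z b|) := by
      have e1 := (continuous_apply b).continuousAt.tendsto.comp
        (h4.tendsto_at (hK hy))
      have e2 := (continuous_apply b).continuousAt.tendsto.comp
        (h4.tendsto_at (hK hz))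
      exact (e1.sub e2).abs
    exact le_of_tendsto t1 (Eventually.of_forall fun n => hb b n y (hK hy) z (hK hz))
  · intro K hK _
    have := (Pi.uniformContinuous_proj (fun _ : Fin 4 => ℝ) b).comp_tendstoUniformlyOn
      (h4.mono hK)
    exact this
  · intro K hK _
    exact ⟨L, Eventually.of_forall fun n y hy z hz => hb b n y (hK hy) z (hK hz)⟩

theorem Ap.lh (h0 : 0 < α) (h : Ap α e) (b : Fin 4) : LH α e.source (fun x => e x b) := by
  refine LH.loc h0 fun x hx => ?_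
  obtain ⟨W, hW, hxW, -, f, -, -, hc⟩ := Ap.cv h0 h hx
  exact ⟨W, hW, hxW, (hc b).lim.mono inter_subset_left⟩

end Pool.Agent.SYQ
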