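import Pool.Agent.SYQ.Defs

/-!
# SYQ/Asc: Arzela-Ascoli along an ultrafilter

For `x ∈ B = ball z R` the sequence `F n x` is bounded (`F n z = 0`), so it converges along `U` (`isCompact_Icc`, `IsCompact.ultrafilter_le_nhds'`) to some `G x`; `|G x - G y| ≤ C ‖x - y‖ ^ α`.
Uniform convergence on `B`: `ε > 0`, a finite `δ`-net `x_1, .., x_N` of `B` (`B` is totally bounded) with `C δ ^ α < ε`; eventually along `U` `|F n x_i - G x_i| < ε` for all `i`, then
`|F n x - G x| < 3 ε`.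
-/

open MeasureTheory Set Filter Topology
open scoped ContDiff Matrix ENNReal

namespace Pool.Agent.SYQ

open Pool.Agent.SYH

theorem asc {α : ℝ} (hα : 0 < α) (U : Ultrafilter ℕ) {z : R4} {R C : ℝ} {F : ℕ → R4 → ℝ}
    (hz : ∀ n, F n z = 0) (hR : 0 < R)
    (h : ∀ n, ∀ y ∈ Metric.ball z R, ∀ y' ∈ Metric.ball z R, |F n y - F n y'| ≤ C * ‖y - y'‖ ^ α) :
    ∃ G : R4 → ℝ, Cv α (Metric.ball z R) (U : Filter ℕ) F G := by
  have hC : ∀ t : ℝ, 0 ≤ t → C * t ^ α ≤ |C| * t ^ α := fun t ht =>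
    mul_le_mul_of_nonneg_right (le_abs_self C) (Real.rpow_nonneg ht α)
  have hzB : z ∈ Metric.ball z R := Metric.mem_ball_self hR
  have hex : ∀ x ∈ Metric.ball z R, ∃ g : ℝ, Tendsto (fun n => F n x) (U : Filter ℕ) (𝓝 g) := by
    intro x hx
    have hb : ∀ n, F n x ∈ Set.Icc (-(|C| * R ^ α)) (|C| * R ^ α) := by
      intro n
      have h1 := h n x hx z hzB
      rw [hz n, sub_zero] at h1
      have h2 : ‖x - z‖ ≤ R := by
        rw [← dist_eq_norm]
        exact (Metric.mem_ball.1 hx).le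
      have h3 : C * ‖x - z‖ ^ α ≤ |C| * R ^ α := by
        refine (hC _ (norm_nonneg _)).trans ?_
        exact mul_le_mul_of_nonneg_left (Real.rpow_le_rpow (norm_nonneg _) h2 hα.le)
          (abs_nonneg C)
      exact abs_le.1 (h1.trans h3)
    obtain ⟨g, -, hg⟩ := (isCompact_Icc (a := -(|C| * R ^ α)) (b := |C| * R ^ α)).ultrafilter_le_nhds'
      (U.map (fun n => F n x)) (Ultrafilter.mem_map.2 (Filter.univ_mem' hb))
    exact ⟨g, hg⟩
  choose! G hG using hex
  have hGG : ∀ y ∈ Metric.ball z R, ∀ y' ∈ Metric.ball z R,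
      |G y - G y'| ≤ C * ‖y - y'‖ ^ α := by
    intro y hy y' hy'
    have h1 : Tendsto (fun n => |F n y - F n y'|) (U : Filter ℕ) (𝓝 |G y - G y'|) :=
      ((hG y hy).sub (hG y' hy')).abs
    exact le_of_tendsto h1 (Filter.Eventually.of_forall fun n => h n y hy y' hy')
  refine ⟨G, ?_, ?_, ?_⟩
  · intro K hK _
    exact ⟨C, fun x hx y hy => hGG x (hK hx) y (hK hy)⟩
  · intro K hK hKc
    rw [Metric.tendstoUniformlyOn_iff]
    intro ε hε
    obtain ⟨δ, hδ⟩ : ∃ δ : ℝ, δ = (ε / (3 * (|C| + 1))) ^ (1 / α) := ⟨_, rfl⟩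
    have hq : 0 < ε / (3 * (|C| + 1)) := by positivity
    have hδ0 : 0 < δ := by rw [hδ]; exact Real.rpow_pos_of_pos hq _
    have hδα : δ ^ α = ε / (3 * (|C| + 1)) := by
      rw [hδ, ← Real.rpow_mul hq.le, one_div, inv_mul_cancel₀ hα.ne', Real.rpow_one]
    have hCδ : ∀ t : ℝ, 0 ≤ t → t ≤ δ → C * t ^ α < ε / 3 := by
      intro t ht htδ
      have h1 : C * t ^ α ≤ |C| * δ ^ α := (hC t ht).trans
        (mul_le_mul_of_nonneg_left (Real.rpow_le_rpow ht htδ hα.le) (abs_nonneg C))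
      refine lt_of_le_of_lt h1 ?_
      rw [hδα]
      have h2 : |C| * (ε / (3 * (|C| + 1))) = ε / 3 * (|C| / (|C| + 1)) := by
        field_simp
      rw [h2]
      have h3 : |C| / (|C| + 1) < 1 := by
        rw [div_lt_one (by positivity)]
        linarith
      nlinarith
    obtain ⟨t, htK, htf, hcov⟩ := hKc.finite_cover_balls hδ0
    have hev : ∀ᶠ n in (U : Filter ℕ), ∀ i ∈ t, |G i - F n i| < ε / 3 := by
      rw [Filter.eventually_all_finite htf]
      intro i hi
      have h1 := (Metric.tendsto_nhds.1 (hG i (hK (htK hi)))) (ε / 3) (by positivity)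
      filter_upwards [h1] with n hn
      rw [abs_sub_comm, ← Real.dist_eq]
      exact hn
    filter_upwards [hev] with n hn x hx
    obtain ⟨i, hi, hxi⟩ := Set.mem_iUnion₂.1 (hcov hx)
    have hd : ‖x - i‖ ≤ δ := by
      rw [← dist_eq_norm]
      exact (Metric.mem_ball.1 hxi).le
    have h1 := hGG x (hK hx) i (hK (htK hi))
    have h2 := h n x (hK hx) i (hK (htK hi))
    have h3 := hCδ _ (norm_nonneg (x - i)) hd
    have h4 := hn i hi
    rw [Real.dist_eq]
    have h5 : G x - F n x = (G x - G i) + (G i - F n i) - (F n x - F n i) := by ring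
    rw [h5]
    have h6 := abs_sub (G x - G i + (G i - F n i)) (F n x - F n i)
    have h7 := abs_add_le (G x - G i) (G i - F n i)
    linarith
  · intro K hK _
    exact ⟨C, Filter.Eventually.of_forall fun n x hx y hy => h n x (hK hx) y (hK hy)⟩

end Pool.Agent.SYQ
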