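import Pool.Agent.SYQ.Defs

/-!
# SYQ/BrS: the Poisson bracket of smooth functions

`br_mul`, `br_add`: `pd_mul`, `pd_add`.  `int_cyc`: `v br u w + u br v w = br (v u) w` (`br_mul`), `∫ br (v u) w = 0` (integrate by parts: `br f w = ∂_0 f ∂_1 w - ..`,
`∫ ∂_0 f ∂_1 w = - ∫ f ∂_0 ∂_1 w`, `pd_comm`), and `br v w = - br w v`.
`br_comp`: at `x`: `pd a (u ∘ f) = Σ_b (∂_a f_b) (pd b u) ∘ f`, i.e. the gradient of `u ∘ f` is `(jac f x)ᵀ *ᵥ` the gradient of `u`; `pair_symp` (`SYH/Par`).
-/

open MeasureTheory Set Filter Topology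
open scoped ContDiff Matrix ENNReal

namespace Pool.Agent.SYQ

open Pool.Agent.SYH

variable {u u' v w : R4 → ℝ} {x : R4}

theorem br_anti (u w : R4 → ℝ) (x : R4) : br w u x = - br u w x := by
  simp only [br, pair]
  ring

theorem br_const (c : ℝ) (w : R4 → ℝ) (x : R4) : br (fun _ => c) w x = 0 := by
  simp [br, pair, pd]

theorem br_add (hu : DifferentiableAt ℝ u x) (hu' : DifferentiableAt ℝ u' x) (w : R4 → ℝ) :
    br (fun y => u y + u' y) w x = br u w x + br u' w x := by
  simp only [br, pair, pd_add _ hu hu']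
  ring

theorem br_smul (c : ℝ) (hu : DifferentiableAt ℝ u x) (w : R4 → ℝ) :
    br (fun y => c * u y) w x = c * br u w x := by
  simp only [br, pair, pd_const_mul _ c hu]
  ring

theorem br_mul (hu : DifferentiableAt ℝ u x) (hu' : DifferentiableAt ℝ u' x) (w : R4 → ℝ) :
    br (fun y => u y * u' y) w x = u x * br u' w x + u' x * br u w x := by
  simp only [br, pair, pd_mul _ hu hu']
  ring

theorem br_congr (hu : u =ᶠ[𝓝 x] u') (hw : v =ᶠ[𝓝 x] w) : br u v x = br u' w x := by
  simp only [br, pair, pd, hu.fderiv_eq, hw.fderiv_eq]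

theorem br_smooth (hu : ContDiff ℝ ∞ u) (hw : ContDiff ℝ ∞ w) : ContDiff ℝ ∞ (br u w) := by
  have h := fun a => pd_smooth a hu
  have h' := fun a => pd_smooth a hw
  exact (((h 0).mul (h' 1)).sub ((h 1).mul (h' 0))).add (((h 2).mul (h' 3)).sub ((h 3).mul (h' 2)))

theorem br_pdOn {Ω : Set R4} (hΩ : IsOpen Ω) (hu : ContDiffOn ℝ ∞ u Ω) (a : Fin 4) :
    ContDiffOn ℝ ∞ (pd a u) Ω :=
  (hu.fderiv_of_isOpen hΩ (m := ∞) (by norm_cast)).clm_apply contDiffOn_const

theorem br_contOn {Ω : Set R4} (hΩ : IsOpen Ω) (hu : ContDiffOn ℝ ∞ u Ω)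
    (hw : ContDiffOn ℝ ∞ w Ω) : ContDiffOn ℝ ∞ (br u w) Ω := by
  have h := fun a => br_pdOn hΩ hu a
  have h' := fun a => br_pdOn hΩ hw a
  exact (((h 0).mul (h' 1)).sub ((h 1).mul (h' 0))).add (((h 2).mul (h' 3)).sub ((h 3).mul (h' 2)))

/-- the integral of a bracket -/
theorem br_int (hu : ContDiff ℝ ∞ u) (hw : ContDiff ℝ ∞ w) (hc : HasCompactSupport u) :
    ∫ x, br u w x = 0 := by
  have ht : Test univ u := ⟨hu, hc, subset_univ _⟩
  have hT : ∀ b, Test univ (fun x => pd b w x * u x) := fun b => ht.mul (pd_smooth b hw)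
  have hI : ∀ a b, Integrable (pd a (fun x => pd b w x * u x)) := fun a b =>
    ((hT b).pd a).smooth.continuous.integrable_of_hasCompactSupport ((hT b).pd a).cpt
  have hz : ∀ a b, ∫ x, pd a (fun x => pd b w x * u x) x = 0 := fun a b => int_pd (hT b) a
  have hp : ∀ a b x, pd a (fun x => pd b w x * u x) x = pd b w x * pd a u x +
      pd a (pd b w) x * u x := fun a b x =>
    pd_mul a (((pd_smooth b hw).differentiable (by simp)) x) ((hu.differentiable (by simp)) x)
  have e : ∀ x, br u w x = (pd 0 (fun x => pd 1 w x * u x) x - pd 1 (fun x => pd 0 w x * u x) x) +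
      (pd 2 (fun x => pd 3 w x * u x) x - pd 3 (fun x => pd 2 w x * u x) x) := by
    intro x
    rw [hp, hp, hp, hp, pd_comm 0 1 hw, pd_comm 2 3 hw]
    simp only [br, pair]
    ring
  simp_rw [e]
  rw [integral_add (f := fun x => pd 0 (fun x => pd 1 w x * u x) x -
      pd 1 (fun x => pd 0 w x * u x) x) (g := fun x => pd 2 (fun x => pd 3 w x * u x) x -
      pd 3 (fun x => pd 2 w x * u x) x) ((hI 0 1).sub (hI 1 0)) ((hI 2 3).sub (hI 3 2)),
    integral_sub (hI 0 1) (hI 1 0), integral_sub (hI 2 3) (hI 3 2), hz, hz, hz, hz]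
  simp

theorem int_cyc (hv : ContDiff ℝ ∞ v) (hu : ContDiff ℝ ∞ u) (hw : ContDiff ℝ ∞ w)
    (hc : HasCompactSupport v) : ∫ x, v x * br u w x = ∫ x, u x * br w v x := by
  have hd : ∀ x, DifferentiableAt ℝ v x := fun x => (hv.differentiable (by simp)) x
  have hd' : ∀ x, DifferentiableAt ℝ u x := fun x => (hu.differentiable (by simp)) x
  have h0 : ∫ x, br (fun y => v y * u y) w x = 0 := br_int (hv.mul hu) hw hc.mul_right
  have e : ∀ x, br (fun y => v y * u y) w x = v x * br u w x - u x * br w v x := by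
    intro x
    rw [br_mul (hd x) (hd' x), br_anti v w]
    ring
  simp_rw [e] at h0
  have i1 : Integrable (fun x => v x * br u w x) :=
    (hv.mul (br_smooth hu hw)).continuous.integrable_of_hasCompactSupport hc.mul_right
  have hcb : HasCompactSupport (br w v) := by
    refine hc.mono' fun x hx => ?_
    by_contra hx'
    apply hx
    simp only [br, pair, pd_eq_zero _ hx']
    ring
  have i2 : Integrable (fun x => u x * br w v x) :=
    (hu.mul (br_smooth hw hv)).continuous.integrable_of_hasCompactSupport hcb.mul_left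
  rw [integral_sub i1 i2] at h0
  linarith

theorem br_comp {f : R4 → R4} (hf : DifferentiableAt ℝ f x) (hJ : (jac f x)ᵀ * J * jac f x = J)
    (hu : DifferentiableAt ℝ u (f x)) (hw : DifferentiableAt ℝ w (f x)) :
    br (fun y => u (f y)) (fun y => w (f y)) x = br u w (f x) := by
  have key : ∀ {g : R4 → ℝ}, DifferentiableAt ℝ g (f x) →
      (fun a => pd a (fun y => g (f y)) x) = (jac f x)ᵀ *ᵥ (fun a => pd a g (f x)) := by
    intro g hg
    funext a
    have h1 : fderiv ℝ (fun y => g (f y)) x = (fderiv ℝ g (f x)).comp (fderiv ℝ f x) :=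
      fderiv_fun_comp x hg hf
    rw [pd, h1, ContinuousLinearMap.comp_apply, fderiv_eq_sum]
    rfl
  rw [br, key hu, key hw, pair_symp hJ]
  rfl

/-- the bracket of the coordinates and the components of the standard primitive -/
theorem br_lam (x : R4) : ∑ b : Fin 4, br (fun y => y b) (fun y => lam0 y b) x = -2 := by
  have h1 : ∀ a b : Fin 4, pd a (fun y : R4 => y b) x = (Pi.single a (1 : ℝ) : R4) b := by
    intro a b
    have h2 : HasFDerivAt (fun y : R4 => y b) (ContinuousLinearMap.proj b : R4 →L[ℝ] ℝ) x :=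
      (ContinuousLinearMap.proj b : R4 →L[ℝ] ℝ).hasFDerivAt
    rw [pd, h2.fderiv]
    rfl
  have hd : ∀ b : Fin 4, DifferentiableAt ℝ (fun y : R4 => y b) x := fun b =>
    (differentiableAt_apply b x)
  have e0 : (fun y : R4 => lam0 y 0) = fun y => (-(1 / 2) : ℝ) * y 1 := by
    funext y
    simp only [lam0, J, Pi.smul_apply, smul_eq_mul, Matrix.vecMul, dotProduct, Fin.sum_univ_four]
    simp [Matrix.of_apply]
  have e1 : (fun y : R4 => lam0 y 1) = fun y => (1 / 2 : ℝ) * y 0 := by
    funext y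
    simp only [lam0, J, Pi.smul_apply, smul_eq_mul, Matrix.vecMul, dotProduct, Fin.sum_univ_four]
    simp [Matrix.of_apply]
  have e2 : (fun y : R4 => lam0 y 2) = fun y => (-(1 / 2) : ℝ) * y 3 := by
    funext y
    simp only [lam0, J, Pi.smul_apply, smul_eq_mul, Matrix.vecMul, dotProduct, Fin.sum_univ_four]
    simp [Matrix.of_apply]
  have e3 : (fun y : R4 => lam0 y 3) = fun y => (1 / 2 : ℝ) * y 2 := by
    funext y
    simp only [lam0, J, Pi.smul_apply, smul_eq_mul, Matrix.vecMul, dotProduct, Fin.sum_univ_four]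
    simp [Matrix.of_apply]
  rw [Fin.sum_univ_four, e0, e1, e2, e3]
  simp only [br, pair, pd_const_mul _ _ (hd _), h1]
  simp
  norm_num

end Pool.Agent.SYQ
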