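import Pool.Agent.SYQ.Inv
import Pool.Agent.SYH.ChV

/-!
# SYQ/CC1: change of charts, one function smooth in each chart; the first function smooth in the target

`pl e V` is `V ∘ e` on `e.source` and vanishes off the compact set `C = e.symm '' tsupport V ⊆ e.source`; `Vc α e.source (pl e V)` (`Vc.of_lh`, `LH.comp`, `Ap.lh`, `LH.congr`).
`κ` a test function on `e.source`, `κ = 1` near `C`.
`T (pl e V) a (w ∘ e) = T (pl e V) (κ a) (w ∘ e)` (`T_congr`) `= T (κ a) (w ∘ e) (pl e V)` (`T_cyc`) `= T (κ a) (w ∘ e) (V ∘ e)` (`T_congr` on `e.source`) `= ∫ κ a · (br w V) ∘ e` (`inv0`)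
`= ∫_{e.source} a · (br w V) ∘ e` (`br w V (e x) ≠ 0` only if `e x ∈ tsupport V`, where `κ x = 1`) `= ∫_{e.target} a ∘ e.symm · br w V` (`int_comp`, `MPre e`).
On the other side, `κ'` a test function on `e.target`, `κ' = 1` near `tsupport V`: `T V (a ∘ e.symm) w = T V (κ' a ∘ e.symm) w = T (κ' a ∘ e.symm) w V` (`T_cyc`)
`= ∫ κ' a ∘ e.symm · br w V` (`T_smooth`) `= ∫_{e.target} a ∘ e.symm · br w V`.
(`a ∘ e.symm` is `LH α` on `e.target`: `Ap.lh` for `e.symm`, `LH.comp`.)
-/

open MeasureTheory Set Filter Topology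
open scoped ContDiff Matrix ENNReal

namespace Pool.Agent.SYQ

open Pool.Agent.SYH

variable {α : ℝ} {e : OpenPartialHomeomorph R4 R4} {V a w : R4 → ℝ}

theorem CC1_le : (1 : WithTop ℕ∞) ≤ ((⊤ : ℕ∞) : WithTop ℕ∞) := by
  exact_mod_cast le_top

theorem CC1_comp (h0 : 0 < α) (h : Ap α e) (hV : ContDiffOn ℝ ∞ V e.target) :
    LH α e.source (fun x => V (e x)) :=
  LH.comp e.open_source e.open_target h0 (fun b => h.lh h0 b) (fun _ hx => e.map_source hx)
    (hV.of_le CC1_le)

theorem CC1_cpt (hV : Test e.target V) : IsCompact (e.symm '' tsupport V) :=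
  hV.cpt.image_of_continuousOn (e.symm.continuousOn.mono hV.supp)

theorem CC1_sub (hV : Test e.target V) : e.symm '' tsupport V ⊆ e.source := by
  rintro _ ⟨z, hz, rfl⟩
  exact e.map_target (hV.supp hz)

theorem CC1_mem {x : R4} (hx : x ∈ e.source) (hz : e x ∈ tsupport V) :
    x ∈ e.symm '' tsupport V := ⟨e x, hz, e.left_inv hx⟩

theorem CC1_zero {x : R4} (hx : x ∉ e.symm '' tsupport V) : pl e V x = 0 := by
  unfold pl
  by_cases hs : x ∈ e.source
  · rw [indicator_of_mem hs]
    exact image_eq_zero_of_notMem_tsupport fun hz => hx (CC1_mem hs hz)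
  · exact indicator_of_notMem hs _

theorem CC1_on {x : R4} (hx : x ∈ e.source) : pl e V x = V (e x) := by
  unfold pl
  rw [indicator_of_mem hx]

theorem CC1_tsupp (hV : Test e.target V) : tsupport (pl e V) ⊆ e.symm '' tsupport V := by
  refine closure_minimal (fun x hx => ?_) (CC1_cpt hV).isClosed
  by_contra hc
  exact hx (CC1_zero hc)

theorem CC1_br {z : R4} (hz : z ∉ tsupport V) : br w V z = 0 := by
  unfold br pair
  show pd 0 w z * pd 1 V z - pd 1 w z * pd 0 V z +
      (pd 2 w z * pd 3 V z - pd 3 w z * pd 2 V z) = 0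
  rw [pd_eq_zero 0 hz, pd_eq_zero 1 hz, pd_eq_zero 2 hz, pd_eq_zero 3 hz]
  ring

theorem pl_vc (h1 : 2 / 3 < α) (h2 : α ≤ 1) (h : Ap α e) (hV : Test e.target V) :
    Vc α e.source (pl e V) := by
  have h0 : 0 < α := by linarith
  refine Vc.of_lh e.open_source h0 (CC1_cpt hV) (CC1_sub hV) ?_ (fun x hx => CC1_zero hx)
  exact (CC1_comp h0 h hV.smooth.contDiffOn).congr fun x hx => CC1_on hx

theorem cc1 (h1 : 2 / 3 < α) (h2 : α ≤ 1) (h : Ap α e) (h' : Ap α e.symm) (hm : MPre e)
    (hV : Test e.target V) (ha : ContDiffOn ℝ ∞ a e.source) (hw : ContDiffOn ℝ ∞ w e.target) :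
    T (pl e V) a (fun x => w (e x)) = T V (fun z => a (e.symm z)) w := by
  have h0 : 0 < α := by linarith
  have E := Exq.of h1 h2
  have ha' : LH α e.source a := LH.of_smooth e.open_source h0 h2 (ha.of_le CC1_le)
  have hw' : LH α e.target w := LH.of_smooth e.open_target h0 h2 (hw.of_le CC1_le)
  have hwe : LH α e.source (fun x => w (e x)) := CC1_comp h0 h hw
  have hVo : ContDiffOn ℝ ∞ V e.target := hV.smooth.contDiffOn
  have has : LH α e.target (fun z => a (e.symm z)) :=
    CC1_comp (e := e.symm) h0 h' (by simpa using ha)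
  have hpl := pl_vc h1 h2 h hV
  have hVv : Vc α e.target V := Vc.of_test hV h0 h2
  -- the left side
  obtain ⟨κ, hκ, -, O, hO, hCO, hOs, hκ1⟩ := cut_ex e.open_source (CC1_cpt hV) (CC1_sub hV)
  have hκa : Vc α e.source (fun x => κ x * a x) :=
    Vc.mul_lh e.open_source h0 (Vc.of_test hκ h0 h2) ha'
  have l1 : T (pl e V) (fun x => κ x * a x) (fun x => w (e x)) =
      T (pl e V) a (fun x => w (e x)) :=
    T_congr hpl.cpt hO ((CC1_tsupp hV).trans hCO) (fun x hx => by rw [hκ1 x hx, one_mul])
      (fun _ _ => rfl)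
  have l2 := T_cyc E e.open_source hpl hκa hwe
  have l3 : T (fun x => κ x * a x) (fun x => w (e x)) (pl e V) =
      T (fun x => κ x * a x) (fun x => w (e x)) (fun x => V (e x)) :=
    T_congr hκa.cpt e.open_source hκa.supp (fun _ _ => rfl) (fun x hx => CC1_on hx)
  have l4 := inv0 h1 h2 h hκa hw hVo
  have l5 : ∫ x, κ x * a x * br w V (e x) = ∫ x in e.source, a x * br w V (e x) := by
    rw [← setIntegral_eq_integral_of_forall_compl_eq_zero (s := e.source)]
    · refine setIntegral_congr_fun e.open_source.measurableSet fun x hx => ?_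
      show κ x * a x * br w V (e x) = a x * br w V (e x)
      by_cases hz : e x ∈ tsupport V
      · rw [hκ1 x (hCO (CC1_mem hx hz)), one_mul]
      · rw [CC1_br hz, mul_zero, mul_zero]
    · intro x hx
      have : κ x = 0 := image_eq_zero_of_notMem_tsupport fun hc => hx (hκ.supp hc)
      rw [this, zero_mul, zero_mul]
  have l6 : ∫ x in e.source, a x * br w V (e x) =
      ∫ z in e.target, a (e.symm z) * br w V z := by
    have h3 := int_comp hm e.open_target.measurableSet Subset.rfl
      (fun z => a (e.symm z) * br w V z)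
    have h4 : e.source ∩ e ⁻¹' e.target = e.source := by
      ext y
      exact ⟨fun h => h.1, fun h => ⟨h, e.map_source h⟩⟩
    rw [h4] at h3
    rw [← h3]
    refine setIntegral_congr_fun e.open_source.measurableSet fun x hx => ?_
    show a x * br w V (e x) = a (e.symm (e x)) * br w V (e x)
    rw [e.left_inv hx]
  -- the right side
  obtain ⟨κ', hκ', -, O', hO', hCO', hOs', hκ1'⟩ := cut_ex e.open_target hV.cpt hV.supp
  have hκa' : Vc α e.target (fun z => κ' z * a (e.symm z)) :=
    Vc.mul_lh e.open_target h0 (Vc.of_test hκ' h0 h2) has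
  have r1 : T V (fun z => κ' z * a (e.symm z)) w = T V (fun z => a (e.symm z)) w :=
    T_congr hV.cpt hO' hCO' (fun x hx => by rw [hκ1' x hx, one_mul]) (fun _ _ => rfl)
  have r2 := T_cyc E e.open_target hVv hκa' hw'
  have r3 := T_smooth h0 h2 e.open_target hκa' hw hVo
  have r4 : ∫ z, κ' z * a (e.symm z) * br w V z =
      ∫ z in e.target, a (e.symm z) * br w V z := by
    rw [← setIntegral_eq_integral_of_forall_compl_eq_zero (s := e.target)]
    · refine setIntegral_congr_fun e.open_target.measurableSet fun z _ => ?_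
      show κ' z * a (e.symm z) * br w V z = a (e.symm z) * br w V z
      by_cases hz : z ∈ tsupport V
      · rw [hκ1' z (hCO' hz), one_mul]
      · rw [CC1_br hz, mul_zero, mul_zero]
    · intro x hx
      have : κ' x = 0 := image_eq_zero_of_notMem_tsupport fun hc => hx (hκ'.supp hc)
      rw [this, zero_mul, zero_mul]
  rw [← l1, l2, l3, l4, l5, l6, ← r1, r2, r3, r4]

end Pool.Agent.SYQ
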