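import Pool.Agent.SYQ.CC1

/-!
# SYQ/CC2: change of charts, one function smooth in each chart

`V = pl e.symm v`, of class `Vc α e.target`, `V_δ = mol δ V` (`Vc.mol_test`: test functions on `e.target`, zero off a fixed compact `K ⊆ e.target`).  `cc1`:
`T (pl e V_δ) a (w ∘ e) = T V_δ (a ∘ e.symm) w`.  Let `δ → 0` (`𝓝[>] 0`).
Right side: `T_cv` with the exponents `(α, α, 1)` (`α + α + 1 > 2`; `Cv.mol` for `V`; `a ∘ e.symm` is `LH α` on `e.target`, `w` is `LH 1`).
Left side: on `e.source`, `pl e V_δ = V_δ ∘ e → V ∘ e = v` in `Cv (α * α)` by `Cv.hcomp` (`HB.mol`, `HB.mol_sub`: `V_δ` is `HB α L` and tends to `V` uniformly); zero off the compact set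
`e.symm '' K`; `T_cv` with the exponents `(α * α, 1, α)`: `α² + 1 + α > 2` since `α > 2/3`.  (`v` vanishes off `e.source`, and `V (e x) = v x` on `e.source`.)
-/

open MeasureTheory Set Filter Topology
open scoped ContDiff Matrix ENNReal

namespace Pool.Agent.SYQ

open Pool.Agent.SYH

variable {α : ℝ} {e : OpenPartialHomeomorph R4 R4} {v a w : R4 → ℝ}

theorem cc2 (h1 : 2 / 3 < α) (h2 : α ≤ 1) (h : Ap α e) (h' : Ap α e.symm) (hm : MPre e)
    (hv : Vc α e.source v) (hv' : Vc α e.target (pl e.symm v)) (ha : ContDiffOn ℝ ∞ a e.source)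
    (hw : ContDiffOn ℝ ∞ w e.target) :
    T v a (fun x => w (e x)) = T (pl e.symm v) (fun z => a (e.symm z)) w := by
  have h0 : 0 < α := by linarith
  obtain ⟨V, hV⟩ : ∃ V, V = pl e.symm v := ⟨_, rfl⟩
  rw [← hV] at hv' ⊢
  have hsy : e.symm.source = e.target := rfl
  have hVe : ∀ x ∈ e.source, V (e x) = v x := by
    intro x hx
    have h3 : e x ∈ e.symm.source := by
      rw [hsy]
      exact e.map_source hx
    rw [hV]
    unfold pl
    rw [Set.indicator_of_mem h3, e.left_inv hx]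
  obtain ⟨K, hKt, hKc, hKV, hKm⟩ := Vc.mol_test e.open_target h0 hv'
  have hlm : LH α e.target (fun z => a (e.symm z)) :=
    LH.comp e.open_target e.open_source h0 (fun b => Ap.lh h0 h' b) e.mapsTo_symm
      (ha.of_le (by simp))
  have hlw : LH 1 e.target w := LH.of_smooth e.open_target one_pos le_rfl (hw.of_le (by simp))
  have hla : LH 1 e.source a := LH.of_smooth e.open_source one_pos le_rfl (ha.of_le (by simp))
  have hlwe : LH α e.source (fun x => w (e x)) :=
    LH.comp e.open_source e.open_target h0 (fun b => Ap.lh h0 h b) e.mapsTo (hw.of_le (by simp))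
  have hR : Tendsto (fun δ => T (mol δ V) (fun z => a (e.symm z)) w) (𝓝[>] (0 : ℝ))
      (𝓝 (T V (fun z => a (e.symm z)) w)) := by
    have E : Exq α α 1 := ⟨h0, h2, h0, h2, one_pos, le_rfl, by linarith⟩
    exact T_cv E e.open_target hKc hKt (hKm.mono fun δ hδ => hδ.2) hKV
      (Cv.mol e.open_target h0 (hv'.lh e.target)) (Cv.const _ hlm) (Cv.const _ hlw)
  have hL : Tendsto (fun δ => T (pl e (mol δ V)) a (fun x => w (e x))) (𝓝[>] (0 : ℝ))
      (𝓝 (T v a (fun x => w (e x)))) := by
    have E : Exq (α * α) 1 α :=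
      ⟨mul_pos h0 h0, by nlinarith, one_pos, le_rfl, h0, h2, by nlinarith⟩
    have hKs : e.symm '' K ⊆ e.source := by
      rintro _ ⟨z, hz, rfl⟩
      exact e.map_target (hKt hz)
    have hKc' : IsCompact (e.symm '' K) :=
      hKc.image_of_continuousOn (e.continuousOn_symm.mono hKt)
    have hmem : ∀ x ∈ e.source, x ∉ e.symm '' K → e x ∉ K := by
      intro x hx hx' hc
      exact hx' ⟨e x, hc, e.left_inv hx⟩
    refine T_cv (Ω := e.source) (K := e.symm '' K) E e.open_source hKc' hKs ?_ ?_ ?_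
      (Cv.const _ hla) (Cv.const _ hlwe)
    · refine hKm.mono fun δ hδ x hx => ?_
      unfold pl
      by_cases hxs : x ∈ e.source
      · rw [Set.indicator_of_mem hxs]
        exact hδ.2 _ (hmem x hxs hx)
      · rw [Set.indicator_of_notMem hxs]
    · intro x hx
      by_cases hxs : x ∈ e.source
      · rw [← hVe x hxs]
        exact hKV _ (hmem x hxs hx)
      · exact image_eq_zero_of_notMem_tsupport (fun hc => hxs (hv.supp hc))
    · obtain ⟨L, hHB⟩ := hv'.hb
      have hpos : ∀ᶠ δ in 𝓝[>] (0 : ℝ), 0 < δ := eventually_mem_nhdsWithin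
      have hun : TendstoUniformly (fun δ => mol δ V) V (𝓝[>] (0 : ℝ)) := by
        rw [Metric.tendstoUniformly_iff]
        intro ε hε
        have ht : Tendsto (fun δ : ℝ => L * δ ^ α) (𝓝[>] (0 : ℝ)) (𝓝 0) := by
          have h4 : Tendsto (fun δ : ℝ => L * δ ^ α) (𝓝 (0 : ℝ)) (𝓝 (L * (0 : ℝ) ^ α)) :=
            ((Real.continuousAt_rpow_const 0 α (Or.inr h0.le)).tendsto).const_mul L
          rw [Real.zero_rpow h0.ne', mul_zero] at h4
          exact h4.mono_left nhdsWithin_le_nhds
        filter_upwards [hpos, ht.eventually (gt_mem_nhds hε)] with δ hδ hδ2 x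
        rw [dist_comm, Real.dist_eq]
        exact lt_of_le_of_lt (HB.mol_sub hHB h0 hδ x) hδ2
      have hcv : Cv (α * α) e.source (𝓝[>] (0 : ℝ)) (fun δ x => mol δ V (e x))
          (fun x => V (e x)) :=
        Cv.hcomp h0 hHB (hpos.mono fun δ hδ => HB.mol hHB h0 hδ) hun (fun b => Ap.lh h0 h b)
      refine hcv.congr (Eventually.of_forall fun δ x hx => ?_) (fun x hx => (hVe x hx).symm)
      unfold pl
      rw [Set.indicator_of_mem hx]
  have he : ∀ᶠ δ in 𝓝[>] (0 : ℝ),
      T (mol δ V) (fun z => a (e.symm z)) w = T (pl e (mol δ V)) a (fun x => w (e x)) :=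
    hKm.mono fun δ hδ => (cc1 h1 h2 h h' hm hδ.1 ha hw).symm
  exact tendsto_nhds_unique hL (hR.congr' he)

end Pool.Agent.SYQ
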