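import Pool.Agent.SYQ.HoA

/-!
# SYQ/MoH: mollification of Hölder functions

`ker_scale`: `ker δ` is the normed `ContDiffBump` with the radii `δ/2 < δ`; the quotient of the radii is `2` for all `δ`, so
`ContDiffBump.toFun` (`= someContDiffBumpBase.toFun 2 ((δ/2)⁻¹ • t)`) is the function for `δ = 1` at `δ⁻¹ • t`, and its integral is `δ ^ 4` times the
integral for `δ = 1` (`Measure.integral_comp_inv_smul` or so; `finrank ℝ R4 = 4`).
`HB.mol`: `mol δ u x = ∫ ker δ t * u (x - t)`, `ker δ ≥ 0`, `∫ ker δ = 1`.  `HB.mol_sub`: `mol_close`.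
`HB.pd_mol`: `pd_mol` and `∫ pd a (ker δ) = 0` (`int_pd`): `pd a (mol δ u) x = ∫ (u y - u x) pd a (ker δ) (x - y) dy`; the integrand vanishes for
`‖x - y‖ > δ`, and `∫ |pd a (ker δ)| = δ⁻¹ ∫ |pd a (ker 1)|` (`ker_scale`), `C = Σ_a ∫ |pd a (ker 1)|`.
-/

open MeasureTheory Set Filter Topology
open scoped ContDiff Matrix ENNReal

namespace Pool.Agent.SYQ

open Pool.Agent.SYH

variable {β L δ : ℝ} {u : R4 → ℝ}

theorem ker_scale (h : 0 < δ) (t : R4) : SYH.ker δ t = δ⁻¹ ^ 4 * SYH.ker 1 (δ⁻¹ • t) := by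
  have h1 : (0 : ℝ) < 1 := one_pos
  have e : ∀ s : R4, (⟨δ / 2, δ, by positivity, by linarith⟩ : ContDiffBump (0 : R4)) s =
      (⟨1 / 2, 1, by positivity, by linarith⟩ : ContDiffBump (0 : R4)) (δ⁻¹ • s) := by
    intro s
    simp only [ContDiffBump.apply, sub_zero]
    congr 1
    · field_simp
    · rw [smul_smul]
      congr 1
      field_simp
  have hI : ∫ s, (⟨δ / 2, δ, by positivity, by linarith⟩ : ContDiffBump (0 : R4)) s =
      δ ^ 4 * ∫ s, (⟨1 / 2, 1, by positivity, by linarith⟩ : ContDiffBump (0 : R4)) s := by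
    simp_rw [e]
    rw [Measure.integral_comp_inv_smul (volume : Measure R4)
      (fun s => (⟨1 / 2, 1, by positivity, by linarith⟩ : ContDiffBump (0 : R4)) s) δ]
    have : Module.finrank ℝ R4 = 4 := by simp
    rw [this, abs_of_nonneg (by positivity), smul_eq_mul]
  unfold SYH.ker
  rw [dif_pos h, dif_pos h1]
  simp only [ContDiffBump.normed_def]
  rw [hI, e t]
  field_simp

theorem HB.mol (h : HB β L u) (h0 : 0 < β) (hδ : 0 < δ) : HB β L (SYH.mol δ u) := by
  have hli : LocallyIntegrable u := (h.cont h0).locallyIntegrable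
  constructor
  · intro x
    have h1 : ‖∫ t, SYH.ker δ t * u (x - t)‖ ≤ ∫ t, SYH.ker δ t * L := by
      refine norm_integral_le_of_norm_le ((ker_integrable δ).mul_const L)
        (Eventually.of_forall fun t => ?_)
      rw [norm_mul, Real.norm_of_nonneg (ker_nonneg δ t)]
      exact mul_le_mul_of_nonneg_left (h.le _) (ker_nonneg δ t)
    rw [integral_mul_const, ker_int hδ, one_mul] at h1
    exact h1
  · intro x y
    have e : SYH.mol δ u x - SYH.mol δ u y = ∫ t, SYH.ker δ t * (u (x - t) - u (y - t)) := by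
      unfold SYH.mol
      rw [← integral_sub (ker_mul_integrable δ hli x) (ker_mul_integrable δ hli y)]
      refine integral_congr_ae (Eventually.of_forall fun t => ?_)
      simp only
      ring
    have h1 : ‖∫ t, SYH.ker δ t * (u (x - t) - u (y - t))‖ ≤
        ∫ t, SYH.ker δ t * (L * ‖x - y‖ ^ β) := by
      refine norm_integral_le_of_norm_le ((ker_integrable δ).mul_const _)
        (Eventually.of_forall fun t => ?_)
      rw [norm_mul, Real.norm_of_nonneg (ker_nonneg δ t)]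
      refine mul_le_mul_of_nonneg_left ?_ (ker_nonneg δ t)
      have := h.hd (x - t) (y - t)
      rwa [sub_sub_sub_cancel_right] at this
    rw [integral_mul_const, ker_int hδ, one_mul, ← e] at h1
    exact h1

theorem HB.mol_sub (h : HB β L u) (h0 : 0 < β) (hδ : 0 < δ) (x : R4) :
    |SYH.mol δ u x - u x| ≤ L * δ ^ β := by
  refine mol_close hδ (h.cont h0).locallyIntegrable fun t ht => ?_
  refine (h.hd _ _).trans ?_
  refine mul_le_mul_of_nonneg_left ?_ h.nonneg
  have : x - t - x = -t := by abel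
  rw [this, norm_neg]
  exact Real.rpow_le_rpow (norm_nonneg _) ht.le h0.le

theorem moh_pdker_scale (h : 0 < δ) (a : Fin 4) (t : R4) :
    pd a (SYH.ker δ) t = δ⁻¹ ^ 4 * (δ⁻¹ * pd a (SYH.ker 1) (δ⁻¹ • t)) := by
  have e : SYH.ker δ = fun t => δ⁻¹ ^ 4 * SYH.ker 1 (δ⁻¹ • t) := funext (ker_scale h)
  have hs : HasFDerivAt (fun t : R4 => δ⁻¹ • t) (δ⁻¹ • ContinuousLinearMap.id ℝ R4) t :=
    (hasFDerivAt_id t).const_smul δ⁻¹
  have hk : HasFDerivAt (SYH.ker 1) (fderiv ℝ (SYH.ker 1) (δ⁻¹ • t)) (δ⁻¹ • t) :=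
    (((ker_smooth 1).differentiable (by simp)) _).hasFDerivAt
  have h2 := (hk.comp t hs).const_mul (δ⁻¹ ^ 4)
  have h3 : HasFDerivAt (SYH.ker δ) (δ⁻¹ ^ 4 • (fderiv ℝ (SYH.ker 1) (δ⁻¹ • t)).comp
      (δ⁻¹ • ContinuousLinearMap.id ℝ R4)) t := by
    rw [e]
    exact h2
  rw [pd, h3.fderiv]
  simp [pd]

theorem moh_pdker_int (a : Fin 4) (x : R4) :
    Integrable (fun y => pd a (SYH.ker δ) (x - y)) := by
  have := pd_ker_integrable δ (f := fun _ => (1 : ℝ)) (locallyIntegrable_const 1) a x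
  simpa using this

theorem moh_pdker_zero (a : Fin 4) {t : R4} (ht : δ < ‖t‖) : pd a (SYH.ker δ) t = 0 := by
  refine pd_eq_zero a fun hm => ?_
  have hsub : tsupport (SYH.ker δ) ⊆ Metric.closedBall 0 δ := by
    refine closure_minimal (fun s hs => ?_) Metric.isClosed_closedBall
    rw [mem_closedBall_zero_iff]
    by_contra hc
    exact hs (ker_supp (not_le.1 hc).le)
  have := hsub hm
  rw [mem_closedBall_zero_iff] at this
  linarith

theorem HB.pd_mol : ∃ C, 0 ≤ C ∧ ∀ (β L : ℝ) (u : R4 → ℝ) (δ : ℝ) (a : Fin 4) (x : R4),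
    0 < β → HB β L u → 0 < δ → |pd a (SYH.mol δ u) x| ≤ C * L * δ ^ (β - 1) := by
  refine ⟨∑ a, ∫ t, |pd a (SYH.ker 1) t|, Finset.sum_nonneg fun a _ =>
    integral_nonneg fun t => abs_nonneg _, fun β L u δ a x h0 h hδ => ?_⟩
  have hL := h.nonneg
  have hli : LocallyIntegrable u := (h.cont h0).locallyIntegrable
  have hz : ∫ y, pd a (SYH.ker δ) (x - y) = 0 := by
    rw [integral_sub_left_eq_self (fun y => pd a (SYH.ker δ) y) volume x]
    exact int_pd ⟨ker_smooth δ, ker_cpt δ, subset_univ _⟩ a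
  have e : pd a (SYH.mol δ u) x = ∫ y, (u y - u x) * pd a (SYH.ker δ) (x - y) := by
    have h1 : ∀ y, (u y - u x) * pd a (SYH.ker δ) (x - y) =
        u y * pd a (SYH.ker δ) (x - y) - u x * pd a (SYH.ker δ) (x - y) := fun y => by ring
    simp_rw [h1]
    rw [integral_sub (pd_ker_integrable δ hli a x) ((moh_pdker_int a x).const_mul _),
      integral_const_mul, hz, mul_zero, sub_zero]
    exact SYH.pd_mol δ hli a x
  have h2 : ‖∫ y, (u y - u x) * pd a (SYH.ker δ) (x - y)‖ ≤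
      ∫ y, (L * δ ^ β) * |pd a (SYH.ker δ) (x - y)| := by
    refine norm_integral_le_of_norm_le ((moh_pdker_int a x).abs.const_mul _)
      (Eventually.of_forall fun y => ?_)
    rw [norm_mul, Real.norm_eq_abs, Real.norm_eq_abs]
    by_cases hy : δ < ‖x - y‖
    · rw [moh_pdker_zero a hy]
      simp
    · refine mul_le_mul_of_nonneg_right ?_ (abs_nonneg _)
      refine (h.hd y x).trans (mul_le_mul_of_nonneg_left ?_ hL)
      rw [norm_sub_rev]
      exact Real.rpow_le_rpow (norm_nonneg _) (not_lt.1 hy) h0.le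
  have h3 : ∫ y, |pd a (SYH.ker δ) (x - y)| = δ⁻¹ * ∫ t, |pd a (SYH.ker 1) t| := by
    rw [integral_sub_left_eq_self (fun y => |pd a (SYH.ker δ) y|) volume x]
    have h4 : ∀ t, |pd a (SYH.ker δ) t| = δ⁻¹ ^ 4 * (δ⁻¹ * |pd a (SYH.ker 1) (δ⁻¹ • t)|) := by
      intro t
      rw [moh_pdker_scale hδ, abs_mul, abs_mul, abs_of_pos (inv_pos.2 hδ),
        abs_of_nonneg (by positivity)]
    simp_rw [h4]
    rw [integral_const_mul, integral_const_mul, Measure.integral_comp_inv_smul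
      (volume : Measure R4) (fun t => |pd a (SYH.ker 1) t|) δ]
    have : Module.finrank ℝ R4 = 4 := by simp
    rw [this, abs_of_nonneg (by positivity), smul_eq_mul]
    field_simp
  rw [integral_const_mul, h3, ← e, Real.norm_eq_abs] at h2
  refine h2.trans ?_
  have h5 : ∫ t, |pd a (SYH.ker 1) t| ≤ ∑ a, ∫ t, |pd a (SYH.ker 1) t| :=
    Finset.single_le_sum (f := fun a => ∫ t, |pd a (SYH.ker 1) t|)
      (fun a _ => integral_nonneg fun t => abs_nonneg _) (Finset.mem_univ a)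
  have h6 : L * δ ^ β * (δ⁻¹ * ∫ t, |pd a (SYH.ker 1) t|) =
      (∫ t, |pd a (SYH.ker 1) t|) * L * δ ^ (β - 1) := by
    rw [Real.rpow_sub_one hδ.ne']
    field_simp
  rw [h6]
  exact mul_le_mul_of_nonneg_right (mul_le_mul_of_nonneg_right h5 hL) (by positivity)

end Pool.Agent.SYQ
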