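import Pool.Agent.SYQ.VcA
import Pool.Agent.SYQ.MoH

/-!
# SYQ/CvA: convergence with bounded Hölder constants

`Cv.mul`: on a compact set the functions are eventually uniformly bounded (uniform convergence; `LH.cont`).
`Cv.mol`: let `K ⊆ Ω` be compact, `K' ⊆ Ω` a compact neighbourhood, `closedBall x r ⊆ K'` for `x ∈ K`.  For `δ < r`, `x ∈ K`:
`mol δ u x = ∫ ker δ t * u (x - t)` only involves `u` on `K'`, where `|u y - u z| ≤ L ‖y - z‖ ^ β`: as `HB.mol`, `HB.mol_sub` (or: replace `u` by `κ u` with a cutoff function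
`κ = 1` near `K'`, `κ u` is `HB`).
`Vc.mol_test`: `HB.cont`, `mol_smooth`; `mol δ v x = 0` if `closedBall x δ` does not meet `tsupport v`; `K` = a compact neighbourhood of `tsupport v` in `Ω`.
-/

open MeasureTheory Set Filter Topology
open scoped ContDiff Matrix ENNReal

namespace Pool.Agent.SYQ

open Pool.Agent.SYH

variable {β β' L : ℝ} {Ω Ω' : Set R4} {κ : Type*} {l l' : Filter κ} {us vs : κ → R4 → ℝ}
  {u v : R4 → ℝ}

theorem Cv.mono (h : Cv β Ω l us u) (hs : Ω' ⊆ Ω) : Cv β Ω' l us u where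
  lim := h.lim.mono hs
  un K hK hc := h.un K (hK.trans hs) hc
  bd K hK hc := h.bd K (hK.trans hs) hc

theorem Cv.le (h : Cv β Ω l us u) (hl : l' ≤ l) : Cv β Ω l' us u where
  lim := h.lim
  un K hK hc := fun V hV => (h.un K hK hc V hV).filter_mono hl
  bd K hK hc := by
    obtain ⟨L, hL⟩ := h.bd K hK hc
    exact ⟨L, hL.filter_mono hl⟩

theorem Cv.const (l : Filter κ) (h : LH β Ω u) : Cv β Ω l (fun _ => u) u where
  lim := h
  un K hK hc := fun V hV => Eventually.of_forall fun _ x _ => refl_mem_uniformity hV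
  bd K hK hc := by
    obtain ⟨L, hL⟩ := h K hK hc
    exact ⟨L, Eventually.of_forall fun _ => hL⟩

theorem Cv.add (h : Cv β Ω l us u) (h' : Cv β Ω l vs v) :
    Cv β Ω l (fun k x => us k x + vs k x) (fun x => u x + v x) where
  lim := h.lim.add h'.lim
  un K hK hc := by
    rw [Metric.tendstoUniformlyOn_iff]
    intro ε hε
    have h1 := Metric.tendstoUniformlyOn_iff.1 (h.un K hK hc) (ε / 2) (by positivity)
    have h2 := Metric.tendstoUniformlyOn_iff.1 (h'.un K hK hc) (ε / 2) (by positivity)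
    filter_upwards [h1, h2] with k hk1 hk2 x hx
    have a1 := hk1 x hx
    have a2 := hk2 x hx
    rw [Real.dist_eq] at a1 a2 ⊢
    have : u x + v x - (us k x + vs k x) = (u x - us k x) + (v x - vs k x) := by ring
    rw [this]
    linarith [abs_add_le (u x - us k x) (v x - vs k x)]
  bd K hK hc := by
    obtain ⟨L, hL⟩ := h.bd K hK hc
    obtain ⟨L', hL'⟩ := h'.bd K hK hc
    refine ⟨L + L', ?_⟩
    filter_upwards [hL, hL'] with k hk1 hk2 x hx y hy
    have a1 := hk1 x hx y hy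
    have a2 := hk2 x hx y hy
    have : us k x + vs k x - (us k y + vs k y) = (us k x - us k y) + (vs k x - vs k y) := by ring
    rw [this, add_mul]
    linarith [abs_add_le (us k x - us k y) (vs k x - vs k y)]

theorem Cv.smul (h : Cv β Ω l us u) (t : ℝ) :
    Cv β Ω l (fun k x => t * us k x) (fun x => t * u x) where
  lim := h.lim.smul t
  un K hK hc := by
    rw [Metric.tendstoUniformlyOn_iff]
    intro ε hε
    have h1 := Metric.tendstoUniformlyOn_iff.1 (h.un K hK hc) (ε / (|t| + 1)) (by positivity)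
    filter_upwards [h1] with k hk1 x hx
    have a1 := hk1 x hx
    rw [Real.dist_eq] at a1 ⊢
    rw [← mul_sub, abs_mul]
    rw [lt_div_iff₀ (by positivity)] at a1
    nlinarith [abs_nonneg t, abs_nonneg (u x - us k x)]
  bd K hK hc := by
    obtain ⟨L, hL⟩ := h.bd K hK hc
    refine ⟨|t| * L, ?_⟩
    filter_upwards [hL] with k hk1 x hx y hy
    have a1 := hk1 x hx y hy
    rw [← mul_sub, abs_mul, mul_assoc]
    exact mul_le_mul_of_nonneg_left a1 (abs_nonneg t)

private theorem CvA_bdd (hΩ : IsOpen Ω) (h0 : 0 < β) (h : Cv β Ω l us u) {K : Set R4}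
    (hK : K ⊆ Ω) (hc : IsCompact K) :
    ∃ M, 0 ≤ M ∧ (∀ x ∈ K, |u x| ≤ M) ∧ ∀ᶠ k in l, ∀ x ∈ K, |us k x| ≤ M := by
  obtain ⟨C, hC⟩ := hc.exists_bound_of_continuousOn ((h.lim.cont hΩ h0).mono hK)
  refine ⟨|C| + 1, by positivity, fun x hx => ?_, ?_⟩
  · have := hC x hx
    rw [Real.norm_eq_abs] at this
    linarith [le_abs_self C]
  · have h1 := Metric.tendstoUniformlyOn_iff.1 (h.un K hK hc) 1 (by norm_num)
    filter_upwards [h1] with k hk x hx
    have a1 := hk x hx
    rw [Real.dist_eq] at a1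
    have a2 := hC x hx
    rw [Real.norm_eq_abs] at a2
    have a3 : |us k x| ≤ |u x| + |u x - us k x| := by
      have := abs_sub_abs_le_abs_sub (us k x) (u x)
      rw [abs_sub_comm] at this
      linarith
    linarith [le_abs_self C]

theorem Cv.mul (hΩ : IsOpen Ω) (h0 : 0 < β) (h : Cv β Ω l us u) (h' : Cv β Ω l vs v) :
    Cv β Ω l (fun k x => us k x * vs k x) (fun x => u x * v x) where
  lim := h.lim.mul hΩ h0 h'.lim
  un K hK hc := by
    obtain ⟨M, hM0, hM1, hM2⟩ := CvA_bdd hΩ h0 h hK hc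
    obtain ⟨M', hM0', hM1', hM2'⟩ := CvA_bdd hΩ h0 h' hK hc
    rw [Metric.tendstoUniformlyOn_iff]
    intro ε hε
    have h1 := Metric.tendstoUniformlyOn_iff.1 (h.un K hK hc) (ε / (2 * (M' + 1))) (by positivity)
    have h2 := Metric.tendstoUniformlyOn_iff.1 (h'.un K hK hc) (ε / (2 * (M + 1))) (by positivity)
    filter_upwards [h1, h2, hM2] with k hk1 hk2 hk3 x hx
    have a1 := hk1 x hx
    have a2 := hk2 x hx
    have a3 := hk3 x hx
    have a4 := hM1' x hx
    rw [Real.dist_eq] at a1 a2 ⊢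
    rw [lt_div_iff₀ (by positivity)] at a1 a2
    have e : u x * v x - us k x * vs k x = (u x - us k x) * v x + us k x * (v x - vs k x) := by
      ring
    have b1 : |(u x - us k x) * v x| ≤ |u x - us k x| * M' := by
      rw [abs_mul]; exact mul_le_mul_of_nonneg_left a4 (abs_nonneg _)
    have b2 : |us k x * (v x - vs k x)| ≤ M * |v x - vs k x| := by
      rw [abs_mul]; exact mul_le_mul_of_nonneg_right a3 (abs_nonneg _)
    rw [e]
    have b3 := abs_add_le ((u x - us k x) * v x) (us k x * (v x - vs k x))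
    nlinarith [abs_nonneg (u x - us k x), abs_nonneg (v x - vs k x)]
  bd K hK hc := by
    obtain ⟨M, hM0, hM1, hM2⟩ := CvA_bdd hΩ h0 h hK hc
    obtain ⟨M', hM0', hM1', hM2'⟩ := CvA_bdd hΩ h0 h' hK hc
    obtain ⟨L, hL⟩ := h.bd K hK hc
    obtain ⟨L', hL'⟩ := h'.bd K hK hc
    refine ⟨M * L' + M' * L, ?_⟩
    filter_upwards [hL, hL', hM2, hM2'] with k hk1 hk2 hk3 hk4 x hx y hy
    have a1 := hk1 x hx y hy
    have a2 := hk2 x hx y hy
    have e : us k x * vs k x - us k y * vs k y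
        = us k x * (vs k x - vs k y) + vs k y * (us k x - us k y) := by ring
    have b1 : |us k x * (vs k x - vs k y)| ≤ M * (L' * ‖x - y‖ ^ β) := by
      rw [abs_mul]
      exact mul_le_mul (hk3 x hx) a2 (abs_nonneg _) hM0
    have b2 : |vs k y * (us k x - us k y)| ≤ M' * (L * ‖x - y‖ ^ β) := by
      rw [abs_mul]
      exact mul_le_mul (hk4 y hy) a1 (abs_nonneg _) hM0'
    rw [e, add_mul, mul_assoc, mul_assoc]
    linarith [abs_add_le (us k x * (vs k x - vs k y)) (vs k y * (us k x - us k y))]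

theorem Cv.congr (h : Cv β Ω l us u) (hs : ∀ᶠ k in l, ∀ x ∈ Ω, vs k x = us k x)
    (hv : ∀ x ∈ Ω, v x = u x) : Cv β Ω l vs v where
  lim := h.lim.congr hv
  un K hK hc := by
    rw [Metric.tendstoUniformlyOn_iff]
    intro ε hε
    have h1 := Metric.tendstoUniformlyOn_iff.1 (h.un K hK hc) ε hε
    filter_upwards [h1, hs] with k hk1 hk2 x hx
    rw [hv x (hK hx), hk2 x (hK hx)]
    exact hk1 x hx
  bd K hK hc := by
    obtain ⟨L, hL⟩ := h.bd K hK hc
    refine ⟨L, ?_⟩
    filter_upwards [hL, hs] with k hk1 hk2 x hx y hy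
    rw [hk2 x (hK hx), hk2 y (hK hy)]
    exact hk1 x hx y hy

private theorem CvA_mem {K : Set R4} {r : ℝ} {x t : R4} (hx : x ∈ K) (ht : ‖t‖ ≤ r) :
    x - t ∈ Metric.cthickening r K := by
  refine Metric.mem_cthickening_of_dist_le (x - t) x r K hx ?_
  rw [dist_eq_norm]
  simpa using ht

/-- a continuous function which agrees with `u` on a thickening of `K` -/
private theorem CvA_ext (hΩ : IsOpen Ω) (h0 : 0 < β) (h : LH β Ω u) {K : Set R4}
    (hK : K ⊆ Ω) (hc : IsCompact K) :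
    ∃ r > 0, ∃ w : R4 → ℝ, Continuous w ∧ (∀ x ∈ Metric.cthickening r K, w x = u x) ∧
      Metric.cthickening r K ⊆ Ω ∧ IsCompact (Metric.cthickening r K) := by
  obtain ⟨r, hr, hr'⟩ := hc.exists_cthickening_subset_open hΩ hK
  have hc' : IsCompact (Metric.cthickening r K) := hc.cthickening
  obtain ⟨κ, hκ, -, O, hO, hKO, hOΩ, hκ1⟩ := cut_ex hΩ hc' hr'
  refine ⟨r, hr, fun x => κ x * u x, ?_, fun x hx => ?_, hr', hc'⟩
  · refine ContinuousOn.continuous_of_tsupport_subset (s := Ω)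
      (hκ.smooth.continuous.continuousOn.mul (h.cont hΩ h0)) hΩ ?_
    exact (tsupport_mul_subset_left (f := κ) (g := u)).trans hκ.supp
  · show κ x * u x = u x
    rw [hκ1 x (hKO hx), one_mul]

private theorem CvA_mol_eq {K : Set R4} {r δ : ℝ} {w : R4 → ℝ} (hδ : δ ≤ r)
    (hw : ∀ x ∈ Metric.cthickening r K, w x = u x) {x : R4} (hx : x ∈ K) :
    SYH.mol δ u x = SYH.mol δ w x := by
  unfold SYH.mol
  refine integral_congr_ae (ae_of_all _ fun t => ?_)
  show SYH.ker δ t * u (x - t) = SYH.ker δ t * w (x - t)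
  rcases lt_or_ge ‖t‖ δ with ht | ht
  · rw [hw (x - t) (CvA_mem hx (ht.le.trans hδ))]
  · rw [ker_supp ht, zero_mul, zero_mul]

theorem Cv.mol (hΩ : IsOpen Ω) (h0 : 0 < β) (h : LH β Ω u) :
    Cv β Ω (𝓝[>] (0 : ℝ)) (fun δ => SYH.mol δ u) u where
  lim := h
  un K hK hc := by
    obtain ⟨r, hr, w, hwc, hw, hrΩ, hrc⟩ := CvA_ext hΩ h0 h hK hc
    obtain ⟨L, hL⟩ := h _ hrΩ hrc
    rw [Metric.tendstoUniformlyOn_iff]
    intro ε hε
    have hli : LocallyIntegrable w := hwc.locallyIntegrable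
    have ht : Tendsto (fun δ : ℝ => |L| * δ ^ β) (𝓝[>] (0 : ℝ)) (𝓝 0) := by
      have h1 : Tendsto (fun δ : ℝ => δ ^ β) (𝓝 (0 : ℝ)) (𝓝 ((0 : ℝ) ^ β)) :=
        (Real.continuousAt_rpow_const 0 β (Or.inr h0.le)).tendsto
      rw [Real.zero_rpow h0.ne'] at h1
      simpa using (h1.mono_left nhdsWithin_le_nhds).const_mul |L|
    have h2 : ∀ᶠ δ : ℝ in 𝓝[>] (0 : ℝ), |L| * δ ^ β < ε := ht.eventually (gt_mem_nhds hε)
    have h3 : ∀ᶠ δ : ℝ in 𝓝[>] (0 : ℝ), δ < r :=
      (gt_mem_nhds hr).filter_mono nhdsWithin_le_nhds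
    have h4 : ∀ᶠ δ : ℝ in 𝓝[>] (0 : ℝ), 0 < δ := self_mem_nhdsWithin
    filter_upwards [h2, h3, h4] with δ hδ2 hδ3 hδ4 x hx
    rw [Real.dist_eq, abs_sub_comm, CvA_mol_eq hδ3.le hw hx]
    have hx' : w x = u x := hw x (Metric.self_subset_cthickening K hx)
    rw [← hx']
    refine lt_of_le_of_lt (mol_close hδ4 hli fun t ht => ?_) hδ2
    have m1 : x - t ∈ Metric.cthickening r K := CvA_mem hx (ht.le.trans hδ3.le)
    have m2 : x ∈ Metric.cthickening r K := Metric.self_subset_cthickening K hx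
    rw [hw _ m1, hw _ m2]
    refine (hL _ m1 _ m2).trans ?_
    have e : ‖x - t - x‖ = ‖t‖ := by
      rw [show x - t - x = -t by abel, norm_neg]
    rw [e]
    refine mul_le_mul (le_abs_self L) (Real.rpow_le_rpow (norm_nonneg _) ht.le h0.le)
      (Real.rpow_nonneg (norm_nonneg _) _) (abs_nonneg _)
  bd K hK hc := by
    obtain ⟨r, hr, w, hwc, hw, hrΩ, hrc⟩ := CvA_ext hΩ h0 h hK hc
    obtain ⟨L, hL⟩ := h _ hrΩ hrc
    have hli : LocallyIntegrable w := hwc.locallyIntegrable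
    refine ⟨L, ?_⟩
    have h3 : ∀ᶠ δ : ℝ in 𝓝[>] (0 : ℝ), δ < r :=
      (gt_mem_nhds hr).filter_mono nhdsWithin_le_nhds
    have h4 : ∀ᶠ δ : ℝ in 𝓝[>] (0 : ℝ), 0 < δ := self_mem_nhdsWithin
    filter_upwards [h3, h4] with δ hδ3 hδ4 x hx y hy
    rw [CvA_mol_eq hδ3.le hw hx, CvA_mol_eq hδ3.le hw hy]
    have e1 : SYH.mol δ w x - SYH.mol δ w y = ∫ t, SYH.ker δ t * (w (x - t) - w (y - t)) := by
      simp_rw [mul_sub]
      rw [integral_sub (ker_mul_integrable δ hli x) (ker_mul_integrable δ hli y)]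
      rfl
    have e2 : ‖∫ t, SYH.ker δ t * (w (x - t) - w (y - t))‖
        ≤ ∫ t, SYH.ker δ t * (L * ‖x - y‖ ^ β) := by
      refine norm_integral_le_of_norm_le ((ker_integrable δ).mul_const _)
        (ae_of_all _ fun t => ?_)
      rw [Real.norm_eq_abs, abs_mul, abs_of_nonneg (ker_nonneg δ t)]
      rcases lt_or_ge ‖t‖ δ with ht | ht
      · refine mul_le_mul_of_nonneg_left ?_ (ker_nonneg δ t)
        have m1 : x - t ∈ Metric.cthickening r K := CvA_mem hx (ht.le.trans hδ3.le)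
        have m2 : y - t ∈ Metric.cthickening r K := CvA_mem hy (ht.le.trans hδ3.le)
        rw [hw _ m1, hw _ m2]
        have := hL _ m1 _ m2
        rwa [show x - t - (y - t) = x - y by abel] at this
      · rw [ker_supp ht]; simp
    rw [integral_mul_const, ker_int hδ4, one_mul, Real.norm_eq_abs] at e2
    rw [e1]
    exact e2

theorem Vc.mol_test (hΩ : IsOpen Ω) (h0 : 0 < β) (h : Vc β Ω v) :
    ∃ K ⊆ Ω, IsCompact K ∧ (∀ x ∉ K, v x = 0) ∧ ∀ᶠ δ in 𝓝[>] (0 : ℝ),
      Test Ω (SYH.mol δ v) ∧ ∀ x ∉ K, SYH.mol δ v x = 0 := by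
  have hts : IsCompact (tsupport v) := h.cpt
  obtain ⟨r, hr, hr'⟩ := hts.exists_cthickening_subset_open hΩ h.supp
  have hKc : IsCompact (Metric.cthickening r (tsupport v)) := hts.cthickening
  obtain ⟨L, hL⟩ := h.hb
  have hcont : Continuous v := hL.cont h0
  refine ⟨Metric.cthickening r (tsupport v), hr', hKc, fun x hx => ?_, ?_⟩
  · refine image_eq_zero_of_notMem_tsupport fun hx' => hx ?_
    exact Metric.self_subset_cthickening _ hx'
  · have h3 : ∀ᶠ δ : ℝ in 𝓝[>] (0 : ℝ), δ < r :=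
      (gt_mem_nhds hr).filter_mono nhdsWithin_le_nhds
    have h4 : ∀ᶠ δ : ℝ in 𝓝[>] (0 : ℝ), 0 < δ := self_mem_nhdsWithin
    filter_upwards [h3, h4] with δ hδ3 hδ4
    have hz : ∀ x ∉ Metric.cthickening r (tsupport v), SYH.mol δ v x = 0 := by
      intro x hx
      unfold SYH.mol
      have : (fun t => SYH.ker δ t * v (x - t)) = fun _ => (0 : ℝ) := by
        funext t
        rcases lt_or_ge ‖t‖ δ with ht | ht
        · have : v (x - t) = 0 := by
            refine image_eq_zero_of_notMem_tsupport fun hx' => hx ?_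
            have := CvA_mem (r := r) (t := -t) hx' (by rw [norm_neg]; exact ht.le.trans hδ3.le)
            simpa using this
          rw [this, mul_zero]
        · rw [ker_supp ht, zero_mul]
      rw [this]
      simp
    refine ⟨⟨mol_smooth δ hcont.locallyIntegrable, HasCompactSupport.intro hKc hz, ?_⟩, hz⟩
    refine (closure_minimal (fun x hx => ?_) hKc.isClosed).trans hr'
    by_contra hx'
    exact hx (hz x hx')

end Pool.Agent.SYQ
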