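import Pool.Agent.SYQ.CvA

/-!
# SYQ/CvC: convergence and compositions

`Cv.comp`: `K ⊆ Ω` compact; `φ '' K ⊆ Ω'` is compact; `S ⊆ Ω'` a compact neighbourhood of it which is contained in finitely many closed balls of `Ω'` .. `U` is uniformly
continuous on `S`; `fs k x ∈ S` for `x ∈ K` and all large `k` (`‖fs k x - φ x‖ = max_b`), so `U ∘ fs k → U ∘ φ` uniformly on `K`.  Hölder constants: `U` is
`C¹`, so `LH 1 Ω' U` (`LH.of_smooth`): there is `C` with `|U y - U z| ≤ C ‖y - z‖` for `y, z ∈ S`; so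
`|U (fs k x) - U (fs k y)| ≤ C max_b |fs k x b - fs k y b|`.  `lim`: `LH.comp`.
`Cv.hcomp`: `|Vs k (φ x) - Vs k (φ y)| ≤ L ‖φ x - φ y‖ ^ α ≤ L (C ‖x - y‖ ^ α) ^ α` on compact sets; the limit `V` satisfies the same estimate if `l ≠ ⊥` (and is
`HB α L` by assumption); `sup |Vs k - V| → 0`.
-/

open MeasureTheory Set Filter Topology
open scoped ContDiff Matrix ENNReal

namespace Pool.Agent.SYQ

open Pool.Agent.SYH

variable {α β L : ℝ} {Ω Ω' : Set R4} {κ : Type*} {l : Filter κ}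

private theorem cvc_norm (v : R4) {C : ℝ} (hC : 0 ≤ C) (h : ∀ b, |v b| ≤ C) : ‖v‖ ≤ C :=
  (pi_norm_le_iff_of_nonneg hC).2 fun b => by rw [Real.norm_eq_abs]; exact h b

/-- a common Hölder constant for the coordinates -/
private theorem cvc_hol {x y : R4} {f : R4 → R4} {M : Fin 4 → ℝ}
    (h : ∀ b, |f x b - f y b| ≤ M b * ‖x - y‖ ^ β) :
    ‖f x - f y‖ ≤ (∑ b, |M b|) * ‖x - y‖ ^ β := by
  have h1 : 0 ≤ ‖x - y‖ ^ β := Real.rpow_nonneg (norm_nonneg _) _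
  refine cvc_norm _ (mul_nonneg (Finset.sum_nonneg fun b _ => abs_nonneg _) h1) fun b => ?_
  refine (h b).trans (mul_le_mul_of_nonneg_right ?_ h1)
  exact (le_abs_self _).trans (Finset.single_le_sum (f := fun b => |M b|)
    (fun b _ => abs_nonneg _) (Finset.mem_univ b))

private theorem cvc_un {K : Set R4} {fs : κ → R4 → R4} {φ : R4 → R4}
    (h : ∀ b, TendstoUniformlyOn (fun k x => fs k x b) (fun x => φ x b) l K) :
    TendstoUniformlyOn fs φ l K := by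
  rw [Metric.tendstoUniformlyOn_iff]
  intro ε hε
  have h1 : ∀ᶠ k in l, ∀ b, ∀ x ∈ K, dist (φ x b) (fs k x b) < ε := by
    rw [Filter.eventually_all]
    intro b
    exact Metric.tendstoUniformlyOn_iff.1 (h b) ε hε
  filter_upwards [h1] with k hk x hx
  exact (dist_pi_lt_iff hε).2 fun b => hk b x hx

private theorem cvc_cont (hΩ : IsOpen Ω) (h0 : 0 < β) {φ : R4 → R4}
    (hφ : ∀ b, LH β Ω (fun x => φ x b)) : ContinuousOn φ Ω :=
  continuousOn_pi.2 fun b => LH.cont hΩ h0 (hφ b)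

/-- a compact neighbourhood of the image -/
private theorem cvc_nb (hΩ : IsOpen Ω) (hΩ' : IsOpen Ω') (h0 : 0 < β) {fs : κ → R4 → R4}
    {φ : R4 → R4} (hf : ∀ b, Cv β Ω l (fun k x => fs k x b) (fun x => φ x b))
    (hm : MapsTo φ Ω Ω') {K : Set R4} (hK : IsCompact K) (hs : K ⊆ Ω) :
    ∃ S ⊆ Ω', IsCompact S ∧ (∀ x ∈ K, φ x ∈ S) ∧ ∀ᶠ k in l, ∀ x ∈ K, fs k x ∈ S := by
  have hc : ContinuousOn φ K := (cvc_cont hΩ h0 fun b => (hf b).lim).mono hs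
  have hK' : IsCompact (φ '' K) := hK.image_of_continuousOn hc
  obtain ⟨δ, hδ, hδs⟩ := hK'.exists_cthickening_subset_open hΩ'
    (by rintro _ ⟨x, hx, rfl⟩; exact hm (hs hx))
  refine ⟨_, hδs, hK'.cthickening, fun x hx => Metric.self_subset_cthickening _ ⟨x, hx, rfl⟩, ?_⟩
  have h1 := Metric.tendstoUniformlyOn_iff.1 (cvc_un fun b => (hf b).un K hs hK) δ hδ
  filter_upwards [h1] with k hk x hx
  refine Metric.mem_cthickening_of_dist_le _ (φ x) _ _ ⟨x, hx, rfl⟩ ?_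
  rw [dist_comm]
  exact (hk x hx).le

theorem Cv.comp (hΩ : IsOpen Ω) (hΩ' : IsOpen Ω') (h0 : 0 < β) {fs : κ → R4 → R4} {φ : R4 → R4}
    {U : R4 → ℝ} (hf : ∀ b, Cv β Ω l (fun k x => fs k x b) (fun x => φ x b))
    (hm : MapsTo φ Ω Ω') (hU : ContDiffOn ℝ 1 U Ω') :
    Cv β Ω l (fun k x => U (fs k x)) (fun x => U (φ x)) := by
  refine ⟨LH.comp hΩ hΩ' h0 (fun b => (hf b).lim) hm hU, fun K hs hK => ?_, fun K hs hK => ?_⟩
  · obtain ⟨S, hS, hSc, hφ, hfk⟩ := cvc_nb hΩ hΩ' h0 hf hm hK hs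
    have hu : UniformContinuousOn U S :=
      hSc.uniformContinuousOn_of_continuous (hU.continuousOn.mono hS)
    rw [Metric.uniformContinuousOn_iff] at hu
    rw [Metric.tendstoUniformlyOn_iff]
    intro ε hε
    obtain ⟨δ, hδ, hδU⟩ := hu ε hε
    have h1 := Metric.tendstoUniformlyOn_iff.1 (cvc_un fun b => (hf b).un K hs hK) δ hδ
    filter_upwards [h1, hfk] with k hk hk' x hx
    exact hδU _ (hφ x hx) _ (hk' x hx) (hk x hx)
  · obtain ⟨S, hS, hSc, hφ, hfk⟩ := cvc_nb hΩ hΩ' h0 hf hm hK hs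
    obtain ⟨C, hC⟩ := LH.of_smooth hΩ' one_pos le_rfl hU S hS hSc
    choose M hM using fun b => (hf b).bd K hs hK
    refine ⟨|C| * ∑ b, |M b|, ?_⟩
    filter_upwards [Filter.eventually_all.2 hM, hfk] with k hk hk' x hx y hy
    have h2 := hC _ (hk' x hx) _ (hk' y hy)
    rw [Real.rpow_one] at h2
    have h3 : ‖fs k x - fs k y‖ ≤ (∑ b, |M b|) * ‖x - y‖ ^ β :=
      cvc_hol (f := fs k) fun b => hk b x hx y hy
    calc |U (fs k x) - U (fs k y)| ≤ C * ‖fs k x - fs k y‖ := h2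
      _ ≤ |C| * ‖fs k x - fs k y‖ := mul_le_mul_of_nonneg_right (le_abs_self _) (norm_nonneg _)
      _ ≤ |C| * ((∑ b, |M b|) * ‖x - y‖ ^ β) := mul_le_mul_of_nonneg_left h3 (abs_nonneg _)
      _ = |C| * (∑ b, |M b|) * ‖x - y‖ ^ β := by ring

theorem Cv.maps (hΩ : IsOpen Ω) (hΩ' : IsOpen Ω') (h0 : 0 < β) {fs : κ → R4 → R4} {φ : R4 → R4}
    (hf : ∀ b, Cv β Ω l (fun k x => fs k x b) (fun x => φ x b)) (hm : MapsTo φ Ω Ω')
    {K : Set R4} (hK : IsCompact K) (hs : K ⊆ Ω) : ∀ᶠ k in l, ∀ x ∈ K, fs k x ∈ Ω' := by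
  obtain ⟨S, hS, -, -, hfk⟩ := cvc_nb hΩ hΩ' h0 hf hm hK hs
  filter_upwards [hfk] with k hk x hx
  exact hS (hk x hx)

theorem Cv.hcomp (h0 : 0 < α) {Vs : κ → R4 → ℝ} {V : R4 → ℝ} {φ : R4 → R4}
    (hV : HB α L V) (hVs : ∀ᶠ k in l, HB α L (Vs k)) (hc : TendstoUniformly Vs V l)
    (hφ : ∀ b, LH α Ω (fun x => φ x b)) :
    Cv (α * α) Ω l (fun k x => Vs k (φ x)) (fun x => V (φ x)) := by
  have key : ∀ K ⊆ Ω, IsCompact K → ∃ M : ℝ, ∀ W : R4 → ℝ, HB α L W → ∀ x ∈ K, ∀ y ∈ K,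
      |W (φ x) - W (φ y)| ≤ M * ‖x - y‖ ^ (α * α) := by
    intro K hs hK
    choose M hM using fun b => hφ b K hs hK
    refine ⟨L * (∑ b, |M b|) ^ α, fun W hW x hx y hy => ?_⟩
    have h1 : ‖φ x - φ y‖ ≤ (∑ b, |M b|) * ‖x - y‖ ^ α :=
      cvc_hol (f := φ) fun b => hM b x hx y hy
    have h2 : 0 ≤ ∑ b, |M b| := Finset.sum_nonneg fun b _ => abs_nonneg _
    calc |W (φ x) - W (φ y)| ≤ L * ‖φ x - φ y‖ ^ α := hW.hd _ _
      _ ≤ L * ((∑ b, |M b|) * ‖x - y‖ ^ α) ^ α :=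
        mul_le_mul_of_nonneg_left (Real.rpow_le_rpow (norm_nonneg _) h1 h0.le) hV.nonneg
      _ = L * (∑ b, |M b|) ^ α * ‖x - y‖ ^ (α * α) := by
        rw [Real.mul_rpow h2 (Real.rpow_nonneg (norm_nonneg _) _),
          ← Real.rpow_mul (norm_nonneg _), mul_assoc]
  refine ⟨fun K hs hK => ?_, fun K hs hK => ?_, fun K hs hK => ?_⟩
  · obtain ⟨M, hM⟩ := key K hs hK
    exact ⟨M, hM V hV⟩
  · exact (hc.comp φ).tendstoUniformlyOn
  · obtain ⟨M, hM⟩ := key K hs hK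
    exact ⟨M, hVs.mono fun k hk => hM _ hk⟩

end Pool.Agent.SYQ
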