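import Pool.Agent.SYH.Par
import Pool.Agent.SYH.Mol
import Pool.Agent.SYT.Cvx

/-!
# SYQ/Defs: symplectic atlases of Hölder class

`MP_9a66f1_gt`: the four-sphere has no topological symplectic atlas whose transition maps are `C⁰`-limits of smooth symplectic
embeddings which are bounded in the Hölder space `C^{0,α}`, `α > 2/3`.
Basic notions (`R4`, `J`, `pd`, `Test`, `MPre`, `lam0`, `pair`, `ker`, `mol`) are in `Pool/Agent/SYH`.
The trilinear form `T v u w = ∫ v {u, w}` (`= ∫ v du ∧ dw ∧ ω₀`) is defined for Hölder functions with exponents of sum `> 2`.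
-/

open MeasureTheory Set Filter Topology
open scoped ContDiff Matrix ENNReal

namespace Pool.Agent.SYQ

open Pool.Agent.SYH

/-- the Hölder norm of exponent `β` is at most `L` -/
structure HB (β L : ℝ) (u : R4 → ℝ) : Prop where
  le : ∀ x, |u x| ≤ L
  hd : ∀ x y, |u x - u y| ≤ L * ‖x - y‖ ^ β

/-- locally Hölder continuous -/
def LH (β : ℝ) (Ω : Set R4) (u : R4 → ℝ) : Prop :=
  ∀ K ⊆ Ω, IsCompact K → ∃ L, ∀ x ∈ K, ∀ y ∈ K, |u x - u y| ≤ L * ‖x - y‖ ^ β

/-- a Hölder function with compact support in `Ω` -/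
structure Vc (β : ℝ) (Ω : Set R4) (v : R4 → ℝ) : Prop where
  hb : ∃ L, HB β L v
  cpt : HasCompactSupport v
  supp : tsupport v ⊆ Ω

/-- convergence: uniformly on compact sets, with bounded Hölder constants -/
structure Cv (β : ℝ) (Ω : Set R4) {κ : Type*} (l : Filter κ) (us : κ → R4 → ℝ) (u : R4 → ℝ) :
    Prop where
  lim : LH β Ω u
  un : ∀ K ⊆ Ω, IsCompact K → TendstoUniformlyOn us u l K
  bd : ∀ K ⊆ Ω, IsCompact K → ∃ L, ∀ᶠ k in l, ∀ x ∈ K, ∀ y ∈ K,
    |us k x - us k y| ≤ L * ‖x - y‖ ^ β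

/-- the Poisson bracket -/
noncomputable def br (u w : R4 → ℝ) (x : R4) : ℝ := pair (fun a => pd a u x) (fun a => pd a w x)

noncomputable def sc (n : ℕ) : ℝ := 1 / 2 ^ n

noncomputable def Tn (n : ℕ) (v u w : R4 → ℝ) : ℝ :=
  ∫ x, v x * br (mol (sc n) u) (mol (sc n) w) x

/-- `∫ v {u, w}` -/
noncomputable def T (v u w : R4 → ℝ) : ℝ := limUnder atTop fun n => Tn n v u w

/-- admissible exponents -/
structure Exq (β₁ β₂ β₃ : ℝ) : Prop where
  p1 : 0 < β₁
  q1 : β₁ ≤ 1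
  p2 : 0 < β₂
  q2 : β₂ ≤ 1
  p3 : 0 < β₃
  q3 : β₃ ≤ 1
  s : 2 < β₁ + β₂ + β₃

/-- the Jacobi matrix: `jac f x b a = ∂_a f_b (x)` -/
noncomputable def jac (f : R4 → R4) (x : R4) : Matrix (Fin 4) (Fin 4) ℝ :=
  Matrix.of fun b a => fderiv ℝ f x (Pi.single a 1) b

/-- near every point `e` is the uniform limit of smooth symplectic embeddings, bounded in `C^{0,α}` -/
def Ap (α : ℝ) (e : OpenPartialHomeomorph R4 R4) : Prop :=
  ∀ x ∈ e.source, ∃ W, IsOpen W ∧ x ∈ W ∧ W ⊆ e.source ∧ ∃ (f : ℕ → R4 → R4) (L : ℝ),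
    (∀ n, ContDiffOn ℝ ∞ (f n) W) ∧ (∀ n, InjOn (f n) W) ∧
    (∀ n, ∀ y ∈ W, (jac (f n) y)ᵀ * J * jac (f n) y = J) ∧
    TendstoUniformlyOn f e atTop W ∧
    ∀ n, ∀ y ∈ W, ∀ z ∈ W, ‖f n y - f n z‖ ≤ L * ‖y - z‖ ^ α

/-- the function `u ∘ e`, extended by zero -/
noncomputable def pl (e : OpenPartialHomeomorph R4 R4) (u : R4 → ℝ) : R4 → ℝ :=
  e.source.indicator fun x => u (e x)

/-- a symplectic atlas of class `C^{0,α}` -/
structure At (α : ℝ) (M : Type*) [TopologicalSpace M] (ι : Type*) where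
  h1 : 2 / 3 < α
  h2 : α ≤ 1
  x : ι → OpenPartialHomeomorph M R4
  cov : ∀ m, ∃ i, m ∈ (x i).source
  ap : ∀ i j, Ap α ((x i).symm.trans (x j))
  mp : ∀ i j, MPre ((x i).symm.trans (x j))

namespace At

variable {α : ℝ} {M : Type*} [TopologicalSpace M] {ι : Type*} (A : At α M ι)

/-- the transition map from chart `i` to chart `j` -/
noncomputable def tr (i j : ι) : OpenPartialHomeomorph R4 R4 := (A.x i).symm.trans (A.x j)

/-- the set `V` in the chart `i` -/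
def D (i : ι) (V : Set M) : Set R4 := (A.x i).target ∩ (A.x i).symm ⁻¹' V

/-- the function `u` in the chart `i` -/
noncomputable def lc (i : ι) (u : M → ℝ) : R4 → ℝ := fun y => u ((A.x i).symm y)

/-- the function `u` in the chart `i`, extended by zero -/
noncomputable def ex (i : ι) (u : M → ℝ) : R4 → ℝ := (A.x i).target.indicator (A.lc i u)

/-- `u` is locally Hölder continuous on `V`, in every chart -/
def HC (V : Set M) (u : M → ℝ) : Prop := ∀ i, LH α (A.D i V) (A.lc i u)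

/-- `u` is smooth on `V` in the chart `i` -/
def SC (i : ι) (V : Set M) (u : M → ℝ) : Prop := ContDiffOn ℝ ∞ (A.lc i u) (A.D i V)

/-- `∫ v du ∧ λ_j ∧ ω`, in the chart `r` -/
noncomputable def Lam (r j : ι) (v u : R4 → ℝ) : ℝ :=
  ∑ b, T (fun y => v y * lam0 (A.tr r j y) b) u (fun y => A.tr r j y b)

/-- `df = λ_j - λ_i` on `O`, weakly in every chart -/
structure Fo (i j : ι) (O : Set M) (f : M → ℝ) : Prop where
  op : IsOpen O
  sub : O ⊆ (A.x i).source ∩ (A.x j).source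
  hc : A.HC O f
  eq : ∀ r v u, Test (A.D r O) v → Test (A.D r O) u →
    ∫ y, A.lc r f y * br v u y = A.Lam r j v u - A.Lam r i v u

/-- `df = λ_j - λ_i` near `m` -/
def Fg (i j : ι) (m : M) (f : M → ℝ) : Prop := ∃ O, m ∈ O ∧ A.Fo i j O f

/-- `f` is Hölder continuous near `m`, in every chart -/
def Pg (m : M) (f : M → ℝ) : Prop := ∃ O, IsOpen O ∧ m ∈ O ∧ A.HC O f

/-- `f` and `g` agree near `m` -/
def Eg (_A : At α M ι) (m : M) (f g : M → ℝ) : Prop := ∀ᶠ m' in 𝓝 m, f m' = g m'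

/-- `∫ v du ∧ (λ_i + dh) ∧ ω`, in the chart `i` -/
noncomputable def B (i : ι) (h : M → ℝ) (v u : M → ℝ) : ℝ :=
  T (A.ex i v) (A.lc i u) (A.lc i h) + A.Lam i i (A.ex i v) (A.lc i u)

end At

end Pool.Agent.SYQ
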