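import Pool.Agent.SYQ.TA1

/-!
# SYQ/TA2: smooth functions; cyclic symmetry

`mol_pd`: differentiate `mol δ f x = ∫ ker δ t * f (x - t) dt` under the integral, or `pd_mol` and integration by parts.
`T_smooth`: `κ` from `cut_ex` for `tsupport v`; `T_congr`: replace `u, w` by `κ u, κ w` (smooth with compact support; `contDiff` near the points of `tsupport κ`).  By `mol_pd` and
`mol_close` (uniform continuity of `pd a (κ u)`) `pd a (mol (sc n) (κ u)) → pd a (κ u)` uniformly, so `Tn n v (κ u) (κ w) → ∫ v br (κ u) (κ w) = ∫ v br u w` (`br_congr` on `O`); `T_lim`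
for the exponents `(β₁, 1, 1)`: choose `Exq β₁ 1 1`; uniqueness of the limit.
`T_cyc`: replace `w` by `κ w` (`κ` for `tsupport v ∪ tsupport u`), so all three are `HB` with compact support.  With `f_n = mol (sc n) f`:
`|Tn n v u w - ∫ v_n br u_n w_n| ≤ ∫ |v - v_n| |br u_n w_n| ≤ C (sc n) ^ (β₁ + β₂ + β₃ - 2) → 0` (`HB.mol_sub`, `HB.pd_mol`; the integrand vanishes off a ball),
`|Tn n u w v - ∫ u_n br w_n v_n| → 0` in the same way, and `∫ v_n br u_n w_n = ∫ u_n br w_n v_n` (`int_cyc`).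
-/

open MeasureTheory Set Filter Topology
open scoped ContDiff Matrix ENNReal

namespace Pool.Agent.SYQ

open Pool.Agent.SYH

variable {β₁ β₂ β₃ : ℝ} {Ω : Set R4} {v v' u u' w w' : R4 → ℝ}

private theorem TA2_cpt_of {v : R4 → ℝ} (hc : HasCompactSupport v) :
    ∃ R : ℝ, ∀ x, R < ‖x‖ → v x = 0 := by
  have hb : Bornology.IsBounded (tsupport v) := hc.isBounded
  obtain ⟨R, hR⟩ := hb.subset_closedBall (0 : R4)
  refine ⟨R, fun x hx => ?_⟩
  by_contra h
  have h1 := hR (subset_tsupport v h)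
  rw [Metric.mem_closedBall, dist_zero_right] at h1
  linarith

private theorem TA2_sc_pos (n : ℕ) : 0 < sc n := by unfold sc; positivity

private theorem TA2_sc_le (n : ℕ) : sc n ≤ 1 := by
  unfold sc
  rw [div_le_one (by positivity)]
  exact one_le_pow₀ (by norm_num)

private theorem TA2_sc_lim : Tendsto sc atTop (𝓝 0) := by
  have h : Tendsto (fun n : ℕ => ((1 : ℝ) / 2) ^ n) atTop (𝓝 0) :=
    tendsto_pow_atTop_nhds_zero_of_lt_one (by norm_num) (by norm_num)
  refine h.congr fun n => ?_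
  unfold sc
  rw [div_pow, one_pow]

private theorem TA2_rpow_lim {θ : ℝ} (h : 0 < θ) : Tendsto (fun n => sc n ^ θ) atTop (𝓝 0) := by
  have := TA2_sc_lim.rpow_const (p := θ) (Or.inr h.le)
  rwa [Real.zero_rpow h.ne'] at this

theorem mol_pd {f : R4 → ℝ} (hf : ContDiff ℝ ∞ f) (hc : HasCompactSupport f) {δ : ℝ} (hδ : 0 < δ)
    (a : Fin 4) (x : R4) : pd a (mol δ f) x = mol δ (pd a f) x := by
  have e : mol δ f = convolution (ker δ) f (ContinuousLinearMap.mul ℝ ℝ) volume := by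
    funext x
    unfold mol
    rw [convolution_def]
    rfl
  have hk : LocallyIntegrable (ker δ) := (ker_smooth δ).continuous.locallyIntegrable
  unfold pd
  rw [e]
  have h1 := hc.hasFDerivAt_convolution_right (ContinuousLinearMap.mul ℝ ℝ) hk
    (hf.of_le (by norm_cast)) x
  rw [h1.fderiv, convolution_precompR_apply _ hk (hc.fderiv ℝ)
    (hf.continuous_fderiv (by simp))]
  rfl

private theorem TA2_pair (α β : R4) {A B : ℝ} (hA : ∀ a, |α a| ≤ A) (hB : ∀ a, |β a| ≤ B) :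
    |pair α β| ≤ 4 * (A * B) := by
  have hA0 : 0 ≤ A := (abs_nonneg _).trans (hA 0)
  have h : ∀ a b, |α a * β b| ≤ A * B := fun a b => by
    rw [abs_mul]
    exact mul_le_mul (hA a) (hB b) (abs_nonneg _) hA0
  have h1 := abs_le.1 (h 0 1)
  have h2 := abs_le.1 (h 1 0)
  have h3 := abs_le.1 (h 2 3)
  have h4 := abs_le.1 (h 3 2)
  unfold pair
  rw [abs_le]
  constructor <;> linarith [h1.1, h1.2, h2.1, h2.2, h3.1, h3.2, h4.1, h4.2]

private theorem TA2_smooth {κ u : R4 → ℝ} (hΩ : IsOpen Ω) (hκ : Test Ω κ)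
    (hu : ContDiffOn ℝ ∞ u Ω) : ContDiff ℝ ∞ (fun x => κ x * u x) := by
  rw [contDiff_iff_contDiffAt]
  intro x
  by_cases hx : x ∈ Ω
  · exact hκ.smooth.contDiffAt.mul (hu.contDiffAt (hΩ.mem_nhds hx))
  · have hx' : x ∉ tsupport κ := fun h => hx (hκ.supp h)
    have h1 : (fun x => κ x * u x) =ᶠ[𝓝 x] fun _ => 0 := by
      have h2 : (tsupport κ)ᶜ ∈ 𝓝 x := (isClosed_tsupport κ).isOpen_compl.mem_nhds hx'
      filter_upwards [h2] with y hy
      rw [image_eq_zero_of_notMem_tsupport hy, zero_mul]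
    exact contDiffAt_const.congr_of_eventuallyEq h1

private theorem TA2_hb {f : R4 → ℝ} (hf : ContDiff ℝ ∞ f) (hc : HasCompactSupport f) :
    ∃ L, ∀ a, HB 1 L (pd a f) := by
  have hT : Test univ f := ⟨hf, hc, subset_univ _⟩
  have h : ∀ a, ∃ L, HB 1 L (pd a f) := by
    intro a
    have hp := hT.pd a
    obtain ⟨L, hL⟩ := HB.of_smooth (u := pd a f) (hp.smooth.of_le (by norm_cast)) hp.cpt
    exact ⟨L, hL 1 one_pos le_rfl⟩
  choose L hL using h
  refine ⟨∑ a, L a, fun a => (hL a).mono ?_⟩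
  exact Finset.single_le_sum (fun i _ => (hL i).nonneg) (Finset.mem_univ a)

private theorem TA2_mol_lim {f : R4 → ℝ} {L : ℝ} (h : HB 1 L f) (x : R4) :
    Tendsto (fun n => mol (sc n) f x) atTop (𝓝 (f x)) := by
  rw [tendsto_iff_dist_tendsto_zero]
  have h1 : Tendsto (fun n => L * sc n ^ (1 : ℝ)) atTop (𝓝 0) := by
    have := (TA2_rpow_lim (θ := 1) one_pos).const_mul L
    rwa [mul_zero] at this
  refine squeeze_zero (fun n => dist_nonneg) (fun n => ?_) h1
  rw [Real.dist_eq]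
  exact h.mol_sub one_pos (TA2_sc_pos n) x

theorem T_smooth (b1 : 0 < β₁) (b1' : β₁ ≤ 1) (hΩ : IsOpen Ω) (hv : Vc β₁ Ω v)
    (hu : ContDiffOn ℝ ∞ u Ω) (hw : ContDiffOn ℝ ∞ w Ω) : T v u w = ∫ x, v x * br u w x := by
  have E : Exq β₁ 1 1 := ⟨b1, b1', one_pos, le_rfl, one_pos, le_rfl, by linarith⟩
  obtain ⟨L, hL⟩ := hv.hb
  obtain ⟨κ, hκ, -, O, hO, hKO, hOΩ, hκ1⟩ := cut_ex hΩ hv.cpt hv.supp
  obtain ⟨u1, hu1⟩ : ∃ u1 : R4 → ℝ, u1 = fun x => κ x * u x := ⟨_, rfl⟩
  obtain ⟨w1, hw1⟩ : ∃ w1 : R4 → ℝ, w1 = fun x => κ x * w x := ⟨_, rfl⟩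
  have su : ContDiff ℝ ∞ u1 := by rw [hu1]; exact TA2_smooth hΩ hκ hu
  have sw : ContDiff ℝ ∞ w1 := by rw [hw1]; exact TA2_smooth hΩ hκ hw
  have cu : HasCompactSupport u1 := by rw [hu1]; exact hκ.cpt.mul_right
  have cw : HasCompactSupport w1 := by rw [hw1]; exact hκ.cpt.mul_right
  have eu : ∀ x ∈ O, u1 x = u x := fun x hx => by rw [hu1]; simp only [hκ1 x hx, one_mul]
  have ew : ∀ x ∈ O, w1 x = w x := fun x hx => by rw [hw1]; simp only [hκ1 x hx, one_mul]
  have e1 : T v u1 w1 = T v u w := T_congr hv.cpt hO hKO eu ew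
  have e2 : ∫ x, v x * br u1 w1 x = ∫ x, v x * br u w x := by
    refine integral_congr_ae (ae_of_all _ fun x => ?_)
    by_cases hx : x ∈ tsupport v
    · have hn : O ∈ 𝓝 x := hO.mem_nhds (hKO hx)
      have h1 : u1 =ᶠ[𝓝 x] u := by filter_upwards [hn] with y hy using eu y hy
      have h2 : w1 =ᶠ[𝓝 x] w := by filter_upwards [hn] with y hy using ew y hy
      simp only
      rw [br_congr h1 h2]
    · simp only [image_eq_zero_of_notMem_tsupport hx, zero_mul]
  rw [← e1, ← e2]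
  obtain ⟨Mu, hMu⟩ := HB.of_smooth (su.of_le (by norm_cast)) cu
  obtain ⟨Mw, hMw⟩ := HB.of_smooth (sw.of_le (by norm_cast)) cw
  have t1 := T_lim E hΩ hv (LH.of_hb (hMu 1 one_pos le_rfl) Ω) (LH.of_hb (hMw 1 one_pos le_rfl) Ω)
  refine tendsto_nhds_unique t1 ?_
  obtain ⟨A, hA⟩ := TA2_hb su cu
  obtain ⟨B, hB⟩ := TA2_hb sw cw
  have hbr : ∀ n x, br (mol (sc n) u1) (mol (sc n) w1) x =
      pair (fun a => mol (sc n) (pd a u1) x) (fun a => mol (sc n) (pd a w1) x) := by
    intro n x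
    unfold br
    simp only [mol_pd su cu (TA2_sc_pos n), mol_pd sw cw (TA2_sc_pos n)]
  have iu : LocallyIntegrable u1 := su.continuous.locallyIntegrable
  have iw : LocallyIntegrable w1 := sw.continuous.locallyIntegrable
  have hvc : Continuous v := hL.cont b1
  refine tendsto_integral_of_dominated_convergence (fun x => |v x| * (4 * (A * B))) ?_ ?_ ?_ ?_
  · intro n
    have h1 : Continuous (br (mol (sc n) u1) (mol (sc n) w1)) :=
      (br_smooth (mol_smooth _ iu) (mol_smooth _ iw)).continuous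
    exact (hvc.mul h1).aestronglyMeasurable
  · exact ((hvc.integrable_of_hasCompactSupport hv.cpt).abs).mul_const _
  · intro n
    refine ae_of_all _ fun x => ?_
    rw [Real.norm_eq_abs, abs_mul]
    refine mul_le_mul_of_nonneg_left ?_ (abs_nonneg _)
    rw [hbr]
    exact TA2_pair _ _ (fun a => ((hA a).mol one_pos (TA2_sc_pos n)).le x)
      (fun a => ((hB a).mol one_pos (TA2_sc_pos n)).le x)
  · refine ae_of_all _ fun x => ?_
    simp only [hbr]
    refine Tendsto.const_mul _ ?_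
    have lu := fun a => TA2_mol_lim (hA a) x
    have lw := fun a => TA2_mol_lim (hB a) x
    unfold br pair
    exact (((lu 0).mul (lw 1)).sub ((lu 1).mul (lw 0))).add
      (((lu 2).mul (lw 3)).sub ((lu 3).mul (lw 2)))

private theorem TA2_mol_zero {v : R4 → ℝ} {R : ℝ} (hR : ∀ x, R < ‖x‖ → v x = 0) (n : ℕ) {x : R4}
    (hx : R + 1 < ‖x‖) : mol (sc n) v x = 0 := by
  unfold mol
  have h : ∀ t, ker (sc n) t * v (x - t) = 0 := by
    intro t
    rcases lt_or_ge ‖t‖ (sc n) with ht | ht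
    · have h1 : R < ‖x - t‖ := by
        have h2 := norm_sub_norm_le x t
        have h3 := TA2_sc_le n
        linarith
      rw [hR _ h1, mul_zero]
    · rw [ker_supp ht, zero_mul]
  simp [h]

private theorem TA2_err (E : Exq β₁ β₂ β₃) {L₁ L₂ L₃ R : ℝ} (hv : HB β₁ L₁ v) (hu : HB β₂ L₂ u)
    (hw : HB β₃ L₃ w) (hR : ∀ x, R < ‖x‖ → v x = 0) :
    Tendsto (fun n => Tn n v u w -
      ∫ x, mol (sc n) v x * br (mol (sc n) u) (mol (sc n) w) x) atTop (𝓝 0) := by
  obtain ⟨C, hC0, hC⟩ := HB.pd_mol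
  have iv : LocallyIntegrable v := (hv.cont E.p1).locallyIntegrable
  have iu : LocallyIntegrable u := (hu.cont E.p2).locallyIntegrable
  have iw : LocallyIntegrable w := (hw.cont E.p3).locallyIntegrable
  have hz : ∀ n x, x ∉ Metric.closedBall (0 : R4) (R + 1) → v x = 0 ∧ mol (sc n) v x = 0 := by
    intro n x hx
    rw [Metric.mem_closedBall, dist_zero_right, not_le] at hx
    exact ⟨hR x (by linarith), TA2_mol_zero hR n hx⟩
  have cv : HasCompactSupport v := HasCompactSupport.of_support_subset_isCompact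
    (isCompact_closedBall (0 : R4) (R + 1)) (fun x hx => by
      by_contra h
      exact hx (hz 0 x h).1)
  have cvn : ∀ n, HasCompactSupport (mol (sc n) v) := fun n =>
    HasCompactSupport.of_support_subset_isCompact (isCompact_closedBall (0 : R4) (R + 1))
      (fun x hx => by
        by_contra h
        exact hx (hz n x h).2)
  have hlim : Tendsto (fun n => 4 * (C * L₂ * (C * L₃)) * L₁ * sc n ^ (β₁ + β₂ + β₃ - 2) *
      volume.real (Metric.closedBall (0 : R4) (R + 1))) atTop (𝓝 0) := by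
    have h1 := ((TA2_rpow_lim (θ := β₁ + β₂ + β₃ - 2) (by linarith [E.s])).const_mul
      (4 * (C * L₂ * (C * L₃)) * L₁)).mul_const
      (volume.real (Metric.closedBall (0 : R4) (R + 1)))
    simpa using h1
  refine squeeze_zero_norm (fun n => ?_) hlim
  have hs := TA2_sc_pos n
  have hbc : Continuous (br (mol (sc n) u) (mol (sc n) w)) :=
    (br_smooth (mol_smooth _ iu) (mol_smooth _ iw)).continuous
  have hb : ∀ x, |br (mol (sc n) u) (mol (sc n) w) x| ≤
      4 * ((C * L₂ * sc n ^ (β₂ - 1)) * (C * L₃ * sc n ^ (β₃ - 1))) := fun x =>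
    TA2_pair _ _ (fun a => hC β₂ L₂ u (sc n) a x E.p2 hu hs)
      (fun a => hC β₃ L₃ w (sc n) a x E.p3 hw hs)
  have i1 : Integrable (fun x => v x * br (mol (sc n) u) (mol (sc n) w) x) :=
    ((hv.cont E.p1).mul hbc).integrable_of_hasCompactSupport cv.mul_right
  have i2 : Integrable (fun x => mol (sc n) v x * br (mol (sc n) u) (mol (sc n) w) x) :=
    ((mol_smooth (sc n) iv).continuous.mul hbc).integrable_of_hasCompactSupport (cvn n).mul_right
  have e1 : Tn n v u w - ∫ x, mol (sc n) v x * br (mol (sc n) u) (mol (sc n) w) x =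
      ∫ x in Metric.closedBall (0 : R4) (R + 1), (v x - mol (sc n) v x) *
        br (mol (sc n) u) (mol (sc n) w) x := by
    unfold Tn
    rw [← integral_sub i1 i2, setIntegral_eq_integral_of_forall_compl_eq_zero]
    · refine integral_congr_ae (ae_of_all _ fun x => ?_)
      simp only
      ring
    · intro x hx
      rw [(hz n x hx).1, (hz n x hx).2]
      ring
  rw [e1]
  have hfin : volume (Metric.closedBall (0 : R4) (R + 1)) < ⊤ :=
    (isCompact_closedBall (0 : R4) (R + 1)).measure_lt_top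
  refine (norm_setIntegral_le_of_norm_le_const hfin (C := (L₁ * sc n ^ β₁) *
    (4 * ((C * L₂ * sc n ^ (β₂ - 1)) * (C * L₃ * sc n ^ (β₃ - 1))))) fun x _ => ?_).trans ?_
  · rw [Real.norm_eq_abs, abs_mul]
    refine mul_le_mul ?_ (hb x) (abs_nonneg _) ?_
    · rw [abs_sub_comm]
      exact hv.mol_sub E.p1 hs x
    · exact mul_nonneg hv.nonneg (Real.rpow_nonneg hs.le _)
  · refine mul_le_mul_of_nonneg_right (le_of_eq ?_) measureReal_nonneg
    have e2 : sc n ^ (β₁ + β₂ + β₃ - 2) = sc n ^ β₁ * (sc n ^ (β₂ - 1) * sc n ^ (β₃ - 1)) := by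
      rw [← Real.rpow_add hs, ← Real.rpow_add hs]
      congr 1
      ring
    rw [e2]
    ring

theorem T_cyc (E : Exq β₁ β₂ β₃) (hΩ : IsOpen Ω) (hv : Vc β₁ Ω v) (hu : Vc β₂ Ω u)
    (hw : LH β₃ Ω w) : T v u w = T u w v := by
  have hK : IsCompact (tsupport v ∪ tsupport u) := hv.cpt.isCompact.union hu.cpt.isCompact
  obtain ⟨κ, hκ, -, O, hO, hKO, -, hκ1⟩ := cut_ex hΩ hK (union_subset hv.supp hu.supp)
  obtain ⟨w1, hw1⟩ : ∃ w1 : R4 → ℝ, w1 = fun x => κ x * w x := ⟨_, rfl⟩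
  have ew : ∀ x ∈ O, w1 x = w x := fun x hx => by rw [hw1]; simp only [hκ1 x hx, one_mul]
  have hm : Vc β₃ Ω w1 := by
    rw [hw1]; exact (Vc.of_test hκ E.p3 E.q3).mul_lh hΩ E.p3 hw
  have e1 : T v u w1 = T v u w :=
    T_congr hv.cpt hO (subset_union_left.trans hKO) (fun x _ => rfl) ew
  have e2 : T u w1 v = T u w v :=
    T_congr hu.cpt hO (subset_union_right.trans hKO) ew (fun x _ => rfl)
  rw [← e1, ← e2]
  obtain ⟨L₁, hL₁⟩ := hv.hb
  obtain ⟨L₂, hL₂⟩ := hu.hb
  obtain ⟨L₃, hL₃⟩ := hm.hb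
  obtain ⟨R, hR⟩ := TA2_cpt_of hv.cpt
  obtain ⟨R', hR'⟩ := TA2_cpt_of hu.cpt
  have iv : LocallyIntegrable v := (hL₁.cont E.p1).locallyIntegrable
  have iu : LocallyIntegrable u := (hL₂.cont E.p2).locallyIntegrable
  have iw : LocallyIntegrable w1 := (hL₃.cont E.p3).locallyIntegrable
  have t1 := T_lim E hΩ hv (LH.of_hb hL₂ Ω) (LH.of_hb hL₃ Ω)
  have t2 := T_lim E.rot hΩ hu (LH.of_hb hL₃ Ω) (LH.of_hb hL₁ Ω)
  have r1 := TA2_err E hL₁ hL₂ hL₃ hR
  have r2 := TA2_err E.rot hL₂ hL₃ hL₁ hR'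
  have t3 := t1.sub t2
  have r3 := r1.sub r2
  rw [sub_zero] at r3
  have h := tendsto_nhds_unique t3 (r3.congr fun n => ?_)
  · exact sub_eq_zero.1 h
  · have hc : HasCompactSupport (mol (sc n) v) :=
      HasCompactSupport.of_support_subset_isCompact (isCompact_closedBall (0 : R4) (R + 1))
        (fun x hx => by
          by_contra h
          rw [Metric.mem_closedBall, dist_zero_right, not_le] at h
          exact hx (TA2_mol_zero hR n h))
    have := int_cyc (mol_smooth (sc n) iv) (mol_smooth (sc n) iu) (mol_smooth (sc n) iw) hc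
    rw [this]
    ring

end Pool.Agent.SYQ
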