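import Pool.Agent.SYQ.Tcv
import Pool.Agent.SYQ.TA2

/-!
# SYQ/ExI: extension of the gradient identity to Hölder test functions

`K = tsupport v`; `κ` a test function on `Ω` with `κ = 1` near `K`; `u' = κ u`, of class `Vc α Ω`.  `v_δ = mol δ v`, `u_δ = mol δ u'` are test functions on `Ω` for small `δ`, `v_δ`
vanishes off a fixed compact `K' ⊆ Ω` (`Vc.mol_test`).  `∫ f br v_δ u_δ = T v_δ u_δ f`: with a test function `κ'`, `κ' = 1` near `K'` and the support of `u_δ`: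
`∫ f br v_δ u_δ = ∫ κ' f br v_δ u_δ = T (κ' f) v_δ u_δ` (`T_smooth`) `= T v_δ u_δ (κ' f)` (`T_cyc`) `= T v_δ u_δ f` (`T_congr`).
Let `δ → 0` in `T v_δ u_δ f = Σ_b T (v_δ lam0 (P ·)_b) u_δ P_b - Σ_b T (v_δ lam0 (Q ·)_b) u_δ Q_b`: `T_cv` (`Cv.mol`, `Cv.mul`, `Cv.const`; `lam0` is linear), and `T_congr`
for `u'` and `u`.
-/

open MeasureTheory Set Filter Topology
open scoped ContDiff Matrix ENNReal

namespace Pool.Agent.SYQ

open Pool.Agent.SYH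

/-- `Σ_b T (v lam0 (P)_b) u P_b` `= ∫ v du ∧ P^* λ₀ ∧ ω₀` -/
noncomputable def LamP (P : R4 → R4) (v u : R4 → ℝ) : ℝ :=
  ∑ b, T (fun y => v y * lam0 (P y) b) u (fun y => P y b)

theorem lam_lh {α : ℝ} {Ω : Set R4} {P : R4 → R4} (hP : ∀ b, LH α Ω (fun x => P x b))
    (b : Fin 4) : LH α Ω (fun x => lam0 (P x) b) := by
  have h : LH α Ω (fun x => (1 / 2 * J 0 b) * P x 0 + (1 / 2 * J 1 b) * P x 1 +
      (1 / 2 * J 2 b) * P x 2 + (1 / 2 * J 3 b) * P x 3) :=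
    ((((hP 0).smul _).add ((hP 1).smul _)).add ((hP 2).smul _)).add ((hP 3).smul _)
  refine h.congr fun x _ => ?_
  simp only [lam0, Pi.smul_apply, smul_eq_mul, Matrix.vecMul, dotProduct, Fin.sum_univ_four]
  ring

private theorem ExI_supp_mul {v g : R4 → ℝ} : tsupport (fun x => v x * g x) ⊆ tsupport v := by
  refine closure_mono fun x hx => ?_
  rw [Function.mem_support] at hx ⊢
  exact left_ne_zero_of_mul hx

private theorem ExI_lam_congr {v u u' : R4 → ℝ} (hc : HasCompactSupport v) {O : Set R4}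
    (hO : IsOpen O) (hs : tsupport v ⊆ O) (hu : ∀ x ∈ O, u' x = u x) (P : R4 → R4) :
    LamP P v u' = LamP P v u := by
  refine Finset.sum_congr rfl fun b _ => ?_
  have hsub : tsupport (fun y => v y * lam0 (P y) b) ⊆ tsupport v := ExI_supp_mul
  exact T_congr (hc.of_isClosed_subset (isClosed_tsupport _) hsub) hO (hsub.trans hs) hu
    (fun _ _ => rfl)

private theorem ExI_lam_cv {α : ℝ} (h1 : 2 / 3 < α) (h2 : α ≤ 1) {Ω : Set R4} (hΩ : IsOpen Ω)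
    {P : R4 → R4} (hP : ∀ b, LH α Ω (fun x => P x b)) {v u : R4 → ℝ} (hv : Vc α Ω v)
    (hu : LH α Ω u) {K : Set R4} (hK : IsCompact K) (hs : K ⊆ Ω) (hz' : ∀ x ∉ K, v x = 0)
    (hz : ∀ᶠ δ in 𝓝[>] (0 : ℝ), ∀ x ∉ K, SYH.mol δ v x = 0) :
    Tendsto (fun δ => LamP P (SYH.mol δ v) (SYH.mol δ u)) (𝓝[>] (0 : ℝ)) (𝓝 (LamP P v u)) := by
  have E := Exq.of h1 h2
  have h0 : 0 < α := E.p1
  unfold LamP
  refine tendsto_finsetSum _ fun b _ => ?_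
  refine T_cv (vs := fun δ y => SYH.mol δ v y * lam0 (P y) b) (us := fun δ => SYH.mol δ u)
    (ws := fun _ y => P y b) E hΩ hK hs ?_ ?_ ?_ ?_ ?_
  · filter_upwards [hz] with δ hδ x hx
    rw [hδ x hx, zero_mul]
  · intro x hx
    rw [hz' x hx, zero_mul]
  · exact Cv.mul hΩ h0 (Cv.mol hΩ h0 (hv.lh Ω)) (Cv.const _ (lam_lh hP b))
  · exact Cv.mol hΩ h0 hu
  · exact Cv.const _ (hP b)

private theorem ExI_br_zero {v u : R4 → ℝ} {x : R4} (h : x ∉ tsupport v) : br v u x = 0 := by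
  have : (fun a => pd a v x) = 0 := funext fun a => pd_eq_zero a h
  simp only [br, this]
  simp [pair]

private theorem ExI_test {α : ℝ} (h1 : 2 / 3 < α) (h2 : α ≤ 1) {Ω : Set R4} (hΩ : IsOpen Ω)
    {f : R4 → ℝ} (hf : LH α Ω f) {v u : R4 → ℝ} (hv : Test Ω v) (hu : Test Ω u) :
    T v u f = ∫ x, f x * br v u x := by
  have E := Exq.of h1 h2
  have h0 : 0 < α := E.p1
  obtain ⟨κ, hκ, -, O, hO, hKO, hOΩ, hκ1⟩ := cut_ex hΩ (K := tsupport v) hv.cpt hv.supp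
  have hw : Vc α Ω (fun x => κ x * f x) := (Vc.of_test hκ h0 h2).mul_lh hΩ h0 hf
  have e1 : T v u (fun x => κ x * f x) = T v u f :=
    T_congr hv.cpt hO hKO (fun _ _ => rfl) (fun x hx => by rw [hκ1 x hx, one_mul])
  have e2 : T (fun x => κ x * f x) v u = T v u (fun x => κ x * f x) :=
    T_cyc E hΩ hw (Vc.of_test hv h0 h2) ((Vc.of_test hu h0 h2).lh Ω)
  have e3 : T (fun x => κ x * f x) v u = ∫ x, (κ x * f x) * br v u x :=
    T_smooth h0 h2 hΩ hw hv.smooth.contDiffOn hu.smooth.contDiffOn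
  rw [← e1, ← e2, e3]
  refine integral_congr_ae (Eventually.of_forall fun x => ?_)
  by_cases hx : x ∈ tsupport v
  · simp only [hκ1 x (hKO hx), one_mul]
  · simp only [ExI_br_zero hx, mul_zero]

theorem ext_id {α : ℝ} (h1 : 2 / 3 < α) (h2 : α ≤ 1) {Ω : Set R4} (hΩ : IsOpen Ω) {f : R4 → ℝ}
    (hf : LH α Ω f) {P Q : R4 → R4} (hP : ∀ b, LH α Ω (fun x => P x b))
    (hQ : ∀ b, LH α Ω (fun x => Q x b))
    (h : ∀ v u, Test Ω v → Test Ω u → ∫ x, f x * br v u x = LamP P v u - LamP Q v u)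
    {v u : R4 → ℝ} (hv : Vc α Ω v) (hu : LH α Ω u) : T v u f = LamP P v u - LamP Q v u := by
  have E := Exq.of h1 h2
  have h0 : 0 < α := E.p1
  obtain ⟨κ, hκ, -, O, hO, hKO, hOΩ, hκ1⟩ := cut_ex hΩ (K := tsupport v) hv.cpt hv.supp
  have hw : Vc α Ω (fun x => κ x * u x) := (Vc.of_test hκ h0 h2).mul_lh hΩ h0 hu
  have hk : ∀ x ∈ O, κ x * u x = u x := fun x hx => by rw [hκ1 x hx, one_mul]
  rw [← T_congr hv.cpt hO hKO hk (fun _ _ => rfl) (w := f) (w' := f),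
    ← ExI_lam_congr hv.cpt hO hKO hk P, ← ExI_lam_congr hv.cpt hO hKO hk Q]
  generalize (fun x => κ x * u x) = u' at hw
  obtain ⟨K, hKΩ, hK, hz', hev⟩ := Vc.mol_test hΩ h0 hv
  obtain ⟨K', hKΩ', hK', hzz', hev'⟩ := Vc.mol_test hΩ h0 hw
  have hz : ∀ᶠ δ in 𝓝[>] (0 : ℝ), ∀ x ∉ K, SYH.mol δ v x = 0 := hev.mono fun δ h => h.2
  have l1 : Tendsto (fun δ => T (SYH.mol δ v) (SYH.mol δ u') f) (𝓝[>] (0 : ℝ)) (𝓝 (T v u' f)) :=
    T_cv (vs := fun δ => SYH.mol δ v) (us := fun δ => SYH.mol δ u') (ws := fun _ => f) E hΩ hK hKΩ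
      hz hz' (Cv.mol hΩ h0 (hv.lh Ω)) (Cv.mol hΩ h0 (hw.lh Ω)) (Cv.const _ hf)
  have l2 := (ExI_lam_cv h1 h2 hΩ hP hv (hw.lh Ω) hK hKΩ hz' hz).sub
    (ExI_lam_cv h1 h2 hΩ hQ hv (hw.lh Ω) hK hKΩ hz' hz)
  refine tendsto_nhds_unique (l1.congr' ?_) l2
  filter_upwards [hev, hev'] with δ a b
  rw [ExI_test h1 h2 hΩ hf a.1 b.1, h _ _ a.1 b.1]

end Pool.Agent.SYQ
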