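import Pool.Agent.SYQ.Defs

/-!
# SYQ/HoA: the Hölder norm

`HB.exp`: for `‖x - y‖ ≤ 1`: `‖x - y‖ ^ β ≤ ‖x - y‖ ^ β'`; for `‖x - y‖ > 1`: `|u x - u y| ≤ 2 L`.
`HB.mul`: `|u x u' x - u y u' y| ≤ |u x| |u' x - u' y| + |u' y| |u x - u y|`.
`HB.interp` (`θ = β' / β < 1`): `|u x - u y| ≤ min (2 δ) (L ‖x - y‖ ^ β) ≤ (2 δ) ^ (1 - θ) (L ‖x - y‖ ^ β) ^ θ ≤ 2 δ ^ (1 - θ) L ^ θ ‖x - y‖ ^ β'`, and
`|u x| ≤ δ = δ ^ (1 - θ) δ ^ θ`.
`HB.of_smooth`: `u` is bounded by `M` and Lipschitz with constant `C` (sup norm; bounded `fderiv`); `L = max (2 M) C`.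
-/

open MeasureTheory Set Filter Topology
open scoped ContDiff Matrix ENNReal

namespace Pool.Agent.SYQ

open Pool.Agent.SYH

variable {β β' L L' δ : ℝ} {u u' : R4 → ℝ}

theorem HB.nonneg (h : HB β L u) : 0 ≤ L := (abs_nonneg _).trans (h.le 0)

theorem HB.mono (h : HB β L u) (hL : L ≤ L') : HB β L' u :=
  ⟨fun x => (h.le x).trans hL, fun x y => (h.hd x y).trans
    (mul_le_mul_of_nonneg_right hL (Real.rpow_nonneg (norm_nonneg _) _))⟩

theorem HB.exp (h : HB β L u) (h0 : 0 < β') (hb : β' ≤ β) : HB β' (2 * L) u := by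
  have hL := h.nonneg
  refine ⟨fun x => (h.le x).trans (by linarith), fun x y => ?_⟩
  rcases le_total ‖x - y‖ 1 with h1 | h1
  · refine (h.hd x y).trans ?_
    have h2 : ‖x - y‖ ^ β ≤ ‖x - y‖ ^ β' := by
      rcases (norm_nonneg (x - y)).eq_or_lt with h3 | h3
      · rw [← h3, Real.zero_rpow (by linarith), Real.zero_rpow h0.ne']
      · exact Real.rpow_le_rpow_of_exponent_ge h3 h1 hb
    have h4 : 0 ≤ ‖x - y‖ ^ β' := Real.rpow_nonneg (norm_nonneg _) _
    nlinarith [mul_le_mul_of_nonneg_left h2 hL, mul_nonneg hL h4]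
  · have h2 : (1 : ℝ) ≤ ‖x - y‖ ^ β' := Real.one_le_rpow h1 h0.le
    have h3 : |u x - u y| ≤ 2 * L := by
      have := abs_sub (u x) (u y)
      linarith [h.le x, h.le y]
    nlinarith

theorem HB.cont (h : HB β L u) (h0 : 0 < β) : Continuous u := by
  rw [continuous_iff_continuousAt]
  intro x
  rw [ContinuousAt, tendsto_iff_dist_tendsto_zero]
  have h1 : Tendsto (fun y => L * ‖y - x‖ ^ β) (𝓝 x) (𝓝 0) := by
    have h2 : Continuous fun y : R4 => L * ‖y - x‖ ^ β :=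
      continuous_const.mul ((continuous_id.sub continuous_const).norm.rpow_const fun _ => Or.inr h0.le)
    have h3 := h2.tendsto x
    simpa [Real.zero_rpow h0.ne'] using h3
  exact squeeze_zero (fun _ => dist_nonneg) (fun y => by rw [Real.dist_eq]; exact h.hd y x) h1

theorem HB.add (h : HB β L u) (h' : HB β L' u') : HB β (L + L') (fun x => u x + u' x) := by
  refine ⟨fun x => (abs_add_le _ _).trans (add_le_add (h.le x) (h'.le x)), fun x y => ?_⟩
  have h1 : u x + u' x - (u y + u' y) = (u x - u y) + (u' x - u' y) := by ring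
  rw [h1, add_mul]
  exact (abs_add_le _ _).trans (add_le_add (h.hd x y) (h'.hd x y))

theorem HB.smul (h : HB β L u) (t : ℝ) : HB β (|t| * L) (fun x => t * u x) := by
  refine ⟨fun x => ?_, fun x y => ?_⟩
  · rw [abs_mul]; exact mul_le_mul_of_nonneg_left (h.le x) (abs_nonneg _)
  · rw [← mul_sub, abs_mul, mul_assoc]; exact mul_le_mul_of_nonneg_left (h.hd x y) (abs_nonneg _)

theorem HB.sub (h : HB β L u) (h' : HB β L' u') : HB β (L + L') (fun x => u x - u' x) := by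
  refine ⟨fun x => (abs_sub _ _).trans (add_le_add (h.le x) (h'.le x)), fun x y => ?_⟩
  have h1 : u x - u' x - (u y - u' y) = (u x - u y) - (u' x - u' y) := by ring
  rw [h1, add_mul]
  exact (abs_sub _ _).trans (add_le_add (h.hd x y) (h'.hd x y))

theorem HB.mul (h : HB β L u) (h' : HB β L' u') : HB β (2 * (L * L')) (fun x => u x * u' x) := by
  have hL := h.nonneg
  have hL' := h'.nonneg
  refine ⟨fun x => ?_, fun x y => ?_⟩
  · rw [abs_mul]
    have := mul_le_mul (h.le x) (h'.le x) (abs_nonneg _) hL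
    nlinarith [mul_nonneg hL hL']
  · have h1 : u x * u' x - u y * u' y = u x * (u' x - u' y) + u' y * (u x - u y) := by ring
    rw [h1]
    refine (abs_add_le _ _).trans ?_
    rw [abs_mul, abs_mul]
    have h2 := mul_le_mul (h.le x) (h'.hd x y) (abs_nonneg _) hL
    have h3 := mul_le_mul (h'.le y) (h.hd x y) (abs_nonneg _) hL'
    nlinarith

theorem HB.const (β c : ℝ) : HB β |c| (fun _ => c) := by
  refine ⟨fun x => le_rfl, fun x y => ?_⟩
  simp only [sub_self, abs_zero]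
  exact mul_nonneg (abs_nonneg _) (Real.rpow_nonneg (norm_nonneg _) _)

theorem HB.interp (h : HB β L u) (hδ : ∀ x, |u x| ≤ δ) (h1 : δ ≤ L) (h0 : 0 < β') (hb : β' < β) :
    HB β' (2 * (δ ^ (1 - β' / β) * L ^ (β' / β))) u := by
  have hL := h.nonneg
  have hβ : 0 < β := h0.trans hb
  have hd : 0 ≤ δ := (abs_nonneg _).trans (hδ 0)
  have ht : 0 < β' / β := by positivity
  have ht1 : β' / β < 1 := (div_lt_one hβ).2 hb
  set θ := β' / β with hθ
  have hsp : ∀ s : ℝ, 0 ≤ s → s ^ (1 - θ) * s ^ θ = s := fun s hs => by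
    rcases hs.eq_or_lt with h3 | h3
    · rw [← h3, Real.zero_rpow (by linarith), zero_mul]
    · rw [← Real.rpow_add h3]; simp
  have hD : 0 ≤ δ ^ (1 - θ) := Real.rpow_nonneg hd _
  have hLt : 0 ≤ L ^ θ := Real.rpow_nonneg hL _
  have key : δ ≤ δ ^ (1 - θ) * L ^ θ := by
    calc δ = δ ^ (1 - θ) * δ ^ θ := (hsp δ hd).symm
      _ ≤ δ ^ (1 - θ) * L ^ θ := mul_le_mul_of_nonneg_left (Real.rpow_le_rpow hd h1 ht.le) hD
  refine ⟨fun x => (hδ x).trans (by nlinarith [mul_nonneg hD hLt]), fun x y => ?_⟩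
  have h2 : |u x - u y| ≤ 2 * δ := by
    have := abs_sub (u x) (u y)
    linarith [hδ x, hδ y]
  have h3 := h.hd x y
  set s := |u x - u y| with hs
  have hs0 : 0 ≤ s := abs_nonneg _
  have hn := norm_nonneg (x - y)
  calc s = s ^ (1 - θ) * s ^ θ := (hsp s hs0).symm
    _ ≤ (2 * δ) ^ (1 - θ) * (L * ‖x - y‖ ^ β) ^ θ :=
        mul_le_mul (Real.rpow_le_rpow hs0 h2 (by linarith)) (Real.rpow_le_rpow hs0 h3 ht.le)
          (Real.rpow_nonneg hs0 _) (Real.rpow_nonneg (by linarith) _)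
    _ = 2 ^ (1 - θ) * (δ ^ (1 - θ) * L ^ θ) * ‖x - y‖ ^ β' := by
        rw [Real.mul_rpow (by norm_num) hd, Real.mul_rpow hL (Real.rpow_nonneg hn _),
          ← Real.rpow_mul hn]
        have : β * θ = β' := by rw [hθ]; field_simp
        rw [this]; ring
    _ ≤ 2 * (δ ^ (1 - θ) * L ^ θ) * ‖x - y‖ ^ β' := by
        have h5 : (2 : ℝ) ^ (1 - θ) ≤ 2 := by
          calc (2 : ℝ) ^ (1 - θ) ≤ 2 ^ (1 : ℝ) :=
                Real.rpow_le_rpow_of_exponent_le (by norm_num) (by linarith)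
            _ = 2 := Real.rpow_one 2
        exact mul_le_mul_of_nonneg_right (mul_le_mul_of_nonneg_right h5 (mul_nonneg hD hLt))
          (Real.rpow_nonneg hn _)

theorem HB.of_smooth (hu : ContDiff ℝ 1 u) (hc : HasCompactSupport u) :
    ∃ L, ∀ β, 0 < β → β ≤ 1 → HB β L u := by
  obtain ⟨M, hM⟩ := hc.exists_bound_of_continuous hu.continuous
  obtain ⟨C, hC⟩ := (hc.fderiv (𝕜 := ℝ)).exists_bound_of_continuous (hu.continuous_fderiv one_ne_zero)
  have hM0 : 0 ≤ M := (norm_nonneg _).trans (hM 0)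
  have hC0 : 0 ≤ C := (norm_nonneg _).trans (hC 0)
  refine ⟨max (2 * M) C, fun β h0 h1 => ⟨fun x => ?_, fun x y => ?_⟩⟩
  · have := hM x
    rw [Real.norm_eq_abs] at this
    exact this.trans ((by linarith : M ≤ 2 * M).trans (le_max_left _ _))
  · rcases le_total ‖x - y‖ 1 with h2 | h2
    · have h3 : ‖u x - u y‖ ≤ C * ‖x - y‖ :=
        Convex.norm_image_sub_le_of_norm_fderiv_le (𝕜 := ℝ) (fun z _ => hu.differentiable one_ne_zero z)
          (fun z _ => hC z) convex_univ (mem_univ y) (mem_univ x)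
      have h4 : ‖x - y‖ ≤ ‖x - y‖ ^ β := by
        rcases (norm_nonneg (x - y)).eq_or_lt with h3 | h3
        · rw [← h3, Real.zero_rpow h0.ne']
        · calc ‖x - y‖ = ‖x - y‖ ^ (1 : ℝ) := (Real.rpow_one _).symm
            _ ≤ _ := Real.rpow_le_rpow_of_exponent_ge h3 h2 h1
      calc |u x - u y| ≤ C * ‖x - y‖ := h3
        _ ≤ max (2 * M) C * ‖x - y‖ ^ β :=
          mul_le_mul (le_max_right _ _) h4 (norm_nonneg _) (hC0.trans (le_max_right _ _))
    · have h3 : (1 : ℝ) ≤ ‖x - y‖ ^ β := Real.one_le_rpow h2 h0.le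
      have h4 : |u x - u y| ≤ 2 * M := by
        have h5 := abs_sub (u x) (u y)
        have h6 := hM x
        have h7 := hM y
        rw [Real.norm_eq_abs] at h6 h7
        linarith
      calc |u x - u y| ≤ 2 * M := h4
        _ ≤ max (2 * M) C := le_max_left _ _
        _ ≤ max (2 * M) C * ‖x - y‖ ^ β := le_mul_of_one_le_right
          ((by linarith : (0:ℝ) ≤ 2 * M).trans (le_max_left _ _)) h3

end Pool.Agent.SYQ
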