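import Pool.Agent.SYQ.HoA

/-!
# SYQ/HoL: locally Hölder continuous functions

`LH.loc`: `K ⊆ Ω` compact; for `x ∈ K` choose `r_x > 0` with `closedBall x (2 r_x) ⊆ O`; on `K ∩ closedBall x (2 r_x)` (compact) there is a constant.  Finitely many
`ball x r_x` cover `K`; `r = min r_x`.  If `‖y - z‖ < r` and `y ∈ ball x r_x` both points are in `closedBall x (2 r_x)`; if `‖y - z‖ ≥ r`:
`|u y - u z| ≤ 2 sup_K |u| ≤ (2 sup_K |u| / r ^ β) ‖y - z‖ ^ β` (`u` is bounded on each `K ∩ closedBall` by the Hölder estimate: the diameter is bounded).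
`LH.cont`: on a compact ball around a point.  `LH.exp`: `‖x - y‖ ^ β ≤ diam(K) ^ (β - β') ‖x - y‖ ^ β'`.
`LH.of_smooth`: `LH.loc`; on a closed ball in `Ω` `u` is Lipschitz (`Convex.norm_image_sub_le_of_norm_fderiv_le` and compactness), and
`‖x - y‖ ≤ C ‖x - y‖ ^ β` on bounded sets.
`LH.comp`: `LH.loc`; near `φ x` (on a closed ball in `Ω'`) `U` is Lipschitz, `|U (φ y) - U (φ z)| ≤ C ‖φ y - φ z‖` and
`‖φ y - φ z‖ = max_b |φ y b - φ z b|`.
-/

open MeasureTheory Set Filter Topology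
open scoped ContDiff Matrix ENNReal

namespace Pool.Agent.SYQ

open Pool.Agent.SYH

variable {β β' L : ℝ} {Ω Ω' : Set R4} {u u' : R4 → ℝ}

theorem LH.mono (h : LH β Ω u) (hs : Ω' ⊆ Ω) : LH β Ω' u :=
  fun K hK hc => h K (hK.trans hs) hc

theorem LH.cont (hΩ : IsOpen Ω) (h0 : 0 < β) (h : LH β Ω u) : ContinuousOn u Ω := by
  intro x hx
  apply ContinuousAt.continuousWithinAt
  obtain ⟨r, hr, hb⟩ := Metric.nhds_basis_closedBall.mem_iff.1 (hΩ.mem_nhds hx)
  obtain ⟨L, hL⟩ := h _ hb (isCompact_closedBall x r)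
  have h1 : Tendsto (fun y : R4 => L * ‖y - x‖ ^ β) (𝓝 x) (𝓝 0) := by
    have h3 : ContinuousAt (fun y : R4 => L * ‖y - x‖ ^ β) x := by
      apply ContinuousAt.mul continuousAt_const
      apply ContinuousAt.rpow_const
      · fun_prop
      · right; exact h0.le
    have h2 := h3.tendsto
    simpa [Real.zero_rpow h0.ne'] using h2
  apply tendsto_iff_norm_sub_tendsto_zero.2
  refine squeeze_zero' (Eventually.of_forall fun _ => norm_nonneg _) ?_ h1
  filter_upwards [Metric.closedBall_mem_nhds x hr] with y hy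
  exact hL y hy x (Metric.mem_closedBall_self hr.le)

theorem LH.of_hb (h : HB β L u) (Ω : Set R4) : LH β Ω u :=
  fun _ _ _ => ⟨L, fun x _ y _ => h.hd x y⟩

theorem LH.loc (h0 : 0 < β) (h : ∀ x ∈ Ω, ∃ O, IsOpen O ∧ x ∈ O ∧ LH β (O ∩ Ω) u) : LH β Ω u := by
  intro K hK hc
  have hloc : ∀ x ∈ K, ∃ r, 0 < r ∧ ∃ L, 0 ≤ L ∧ ∀ y ∈ K ∩ Metric.closedBall x r,
      ∀ z ∈ K ∩ Metric.closedBall x r, |u y - u z| ≤ L * ‖y - z‖ ^ β := by
    intro x hx
    obtain ⟨O, hO, hxO, hL⟩ := h x (hK hx)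
    obtain ⟨r, hr, hb⟩ := Metric.nhds_basis_closedBall.mem_iff.1 (hO.mem_nhds hxO)
    obtain ⟨L, hL⟩ := hL (K ∩ Metric.closedBall x r) (fun y hy => ⟨hb hy.2, hK hy.1⟩)
      (hc.inter_right Metric.isClosed_closedBall)
    refine ⟨r, hr, |L|, abs_nonneg _, fun y hy z hz => (hL y hy z hz).trans ?_⟩
    exact mul_le_mul_of_nonneg_right (le_abs_self _) (Real.rpow_nonneg (norm_nonneg _) _)
  have key : ∃ L, ∀ p ∈ K ×ˢ K, |u p.1 - u p.2| ≤ L * ‖p.1 - p.2‖ ^ β := by
    refine IsCompact.induction_on (hc.prod hc)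
      (p := fun S => ∃ L, ∀ p ∈ S, |u p.1 - u p.2| ≤ L * ‖p.1 - p.2‖ ^ β) ?_ ?_ ?_ ?_
    · exact ⟨0, fun p hp => absurd hp (notMem_empty _)⟩
    · rintro s t hst ⟨L, hL⟩
      exact ⟨L, fun p hp => hL p (hst hp)⟩
    · rintro s t ⟨L, hL⟩ ⟨L', hL'⟩
      refine ⟨max L L', fun p hp => ?_⟩
      rcases hp with hp | hp
      · exact (hL p hp).trans (mul_le_mul_of_nonneg_right (le_max_left _ _)
          (Real.rpow_nonneg (norm_nonneg _) _))
      · exact (hL' p hp).trans (mul_le_mul_of_nonneg_right (le_max_right _ _)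
          (Real.rpow_nonneg (norm_nonneg _) _))
    · rintro ⟨x, y⟩ ⟨hx, hy⟩
      simp only at hx hy
      by_cases hxy : x = y
      · subst hxy
        obtain ⟨r, hr, L, hL0, hL⟩ := hloc x hx
        refine ⟨(K ×ˢ K) ∩ (Metric.closedBall x r ×ˢ Metric.closedBall x r), ?_, L, ?_⟩
        · rw [nhdsWithin]
          rw [inter_comm]
          refine Filter.inter_mem_inf ?_ (mem_principal_self _)
          exact prod_mem_nhds (Metric.closedBall_mem_nhds x hr) (Metric.closedBall_mem_nhds x hr)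
        · rintro ⟨p, q⟩ ⟨⟨h1, h2⟩, h3, h4⟩
          exact hL p ⟨h1, h3⟩ q ⟨h2, h4⟩
      · obtain ⟨r, hr, L, hL0, hL⟩ := hloc x hx
        obtain ⟨r', hr', L', hL0', hL'⟩ := hloc y hy
        have hd : 0 < dist x y := dist_pos.2 hxy
        set ρ := min (min r r') (dist x y / 4) with hρ
        have hρ0 : 0 < ρ := lt_min (lt_min hr hr') (by positivity)
        have hρ1 : ρ ≤ r := (min_le_left _ _).trans (min_le_left _ _)
        have hρ2 : ρ ≤ r' := (min_le_left _ _).trans (min_le_right _ _)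
        have hρ3 : ρ ≤ dist x y / 4 := min_le_right _ _
        set M := |u x - u y| + L * ρ ^ β + L' * ρ ^ β with hM
        have hM0 : 0 ≤ M := by positivity
        refine ⟨(K ×ˢ K) ∩ (Metric.closedBall x ρ ×ˢ Metric.closedBall y ρ), ?_,
          M / (dist x y / 2) ^ β, ?_⟩
        · rw [nhdsWithin]
          rw [inter_comm]
          refine Filter.inter_mem_inf ?_ (mem_principal_self _)
          exact prod_mem_nhds (Metric.closedBall_mem_nhds x hρ0) (Metric.closedBall_mem_nhds y hρ0)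
        · rintro ⟨p, q⟩ ⟨⟨h1, h2⟩, h3, h4⟩
          simp only at h1 h2 h3 h4 ⊢
          have e1 : |u p - u x| ≤ L * ρ ^ β := by
            refine (hL p ⟨h1, Metric.closedBall_subset_closedBall hρ1 h3⟩ x
              ⟨hx, Metric.mem_closedBall_self hr.le⟩).trans ?_
            refine mul_le_mul_of_nonneg_left ?_ hL0
            refine Real.rpow_le_rpow (norm_nonneg _) ?_ h0.le
            rw [← dist_eq_norm]; exact h3
          have e2 : |u y - u q| ≤ L' * ρ ^ β := by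
            rw [abs_sub_comm]
            refine (hL' q ⟨h2, Metric.closedBall_subset_closedBall hρ2 h4⟩ y
              ⟨hy, Metric.mem_closedBall_self hr'.le⟩).trans ?_
            refine mul_le_mul_of_nonneg_left ?_ hL0'
            refine Real.rpow_le_rpow (norm_nonneg _) ?_ h0.le
            rw [← dist_eq_norm]; exact h4
          have e3 : |u p - u q| ≤ M := by
            have : u p - u q = (u p - u x) + (u x - u y) + (u y - u q) := by ring
            rw [this]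
            refine (abs_add_le _ _).trans ?_
            have := abs_add_le (u p - u x) (u x - u y)
            rw [hM]; linarith
          have e4 : dist x y / 2 ≤ ‖p - q‖ := by
            rw [← dist_eq_norm]
            have := dist_triangle4 x p q y
            have h5 : dist x p ≤ ρ := by rw [dist_comm]; exact h3
            have h6 : dist q y ≤ ρ := h4
            linarith
          have e5 : (dist x y / 2) ^ β ≤ ‖p - q‖ ^ β := Real.rpow_le_rpow (by positivity) e4 h0.le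
          have e6 : 0 < (dist x y / 2) ^ β := Real.rpow_pos_of_pos (by positivity) _
          refine e3.trans ?_
          rw [div_mul_eq_mul_div, le_div_iff₀ e6]
          exact mul_le_mul_of_nonneg_left e5 hM0
  obtain ⟨L, hL⟩ := key
  exact ⟨L, fun x hx y hy => hL (x, y) ⟨hx, hy⟩⟩

theorem LH.congr (h : LH β Ω u) (hu : ∀ x ∈ Ω, u' x = u x) : LH β Ω u' := by
  intro K hK hc
  obtain ⟨L, hL⟩ := h K hK hc
  refine ⟨L, fun x hx y hy => ?_⟩
  rw [hu x (hK hx), hu y (hK hy)]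
  exact hL x hx y hy

theorem LH.const (β c : ℝ) (Ω : Set R4) : LH β Ω (fun _ => c) :=
  fun _ _ _ => ⟨0, fun x _ y _ => by simp⟩

theorem LH.add (h : LH β Ω u) (h' : LH β Ω u') : LH β Ω (fun x => u x + u' x) := by
  intro K hK hc
  obtain ⟨L, hL⟩ := h K hK hc
  obtain ⟨L', hL'⟩ := h' K hK hc
  refine ⟨L + L', fun x hx y hy => ?_⟩
  have h1 := hL x hx y hy
  have h2 := hL' x hx y hy
  have h3 := abs_add_le (u x - u y) (u' x - u' y)
  have h4 : u x + u' x - (u y + u' y) = (u x - u y) + (u' x - u' y) := by ring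
  rw [h4, add_mul]; linarith

theorem LH.sub (h : LH β Ω u) (h' : LH β Ω u') : LH β Ω (fun x => u x - u' x) := by
  intro K hK hc
  obtain ⟨L, hL⟩ := h K hK hc
  obtain ⟨L', hL'⟩ := h' K hK hc
  refine ⟨L + L', fun x hx y hy => ?_⟩
  have h1 := hL x hx y hy
  have h2 := hL' x hx y hy
  have h3 := abs_sub (u x - u y) (u' x - u' y)
  have h4 : u x - u' x - (u y - u' y) = (u x - u y) - (u' x - u' y) := by ring
  rw [h4, add_mul]; linarith

theorem LH.smul (h : LH β Ω u) (t : ℝ) : LH β Ω (fun x => t * u x) := by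
  intro K hK hc
  obtain ⟨L, hL⟩ := h K hK hc
  refine ⟨|t| * L, fun x hx y hy => ?_⟩
  rw [← mul_sub, abs_mul, mul_assoc]
  exact mul_le_mul_of_nonneg_left (hL x hx y hy) (abs_nonneg _)

theorem LH.mul (hΩ : IsOpen Ω) (h0 : 0 < β) (h : LH β Ω u) (h' : LH β Ω u') :
    LH β Ω (fun x => u x * u' x) := by
  intro K hK hc
  obtain ⟨L, hL⟩ := h K hK hc
  obtain ⟨L', hL'⟩ := h' K hK hc
  obtain ⟨M, hM⟩ := hc.exists_bound_of_continuousOn ((h.cont hΩ h0).mono hK)
  obtain ⟨M', hM'⟩ := hc.exists_bound_of_continuousOn ((h'.cont hΩ h0).mono hK)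
  refine ⟨|M| * |L'| + |M'| * |L|, fun x hx y hy => ?_⟩
  have hn : 0 ≤ ‖x - y‖ ^ β := Real.rpow_nonneg (norm_nonneg _) _
  have h1 : |u x - u y| ≤ |L| * ‖x - y‖ ^ β :=
    (hL x hx y hy).trans (mul_le_mul_of_nonneg_right (le_abs_self _) hn)
  have h2 : |u' x - u' y| ≤ |L'| * ‖x - y‖ ^ β :=
    (hL' x hx y hy).trans (mul_le_mul_of_nonneg_right (le_abs_self _) hn)
  have h3 : |u x| ≤ |M| := (hM x hx).trans (le_abs_self _)
  have h4 : |u' y| ≤ |M'| := (hM' y hy).trans (le_abs_self _)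
  have h5 : u x * u' x - u y * u' y = u x * (u' x - u' y) + u' y * (u x - u y) := by ring
  rw [h5]
  refine (abs_add_le _ _).trans ?_
  rw [abs_mul, abs_mul]
  have h6 : |u x| * |u' x - u' y| ≤ |M| * (|L'| * ‖x - y‖ ^ β) :=
    mul_le_mul h3 h2 (abs_nonneg _) (abs_nonneg _)
  have h7 : |u' y| * |u x - u y| ≤ |M'| * (|L| * ‖x - y‖ ^ β) :=
    mul_le_mul h4 h1 (abs_nonneg _) (abs_nonneg _)
  calc _ ≤ |M| * (|L'| * ‖x - y‖ ^ β) + |M'| * (|L| * ‖x - y‖ ^ β) := add_le_add h6 h7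
    _ = _ := by ring

theorem LH.exp (h : LH β Ω u) (h0 : 0 < β') (hb : β' ≤ β) : LH β' Ω u := by
  intro K hK hc
  obtain ⟨L, hL⟩ := h K hK hc
  refine ⟨|L| * Metric.diam K ^ (β - β'), fun x hx y hy => ?_⟩
  have hn : 0 ≤ ‖x - y‖ ^ β := Real.rpow_nonneg (norm_nonneg _) _
  refine (hL x hx y hy).trans ((mul_le_mul_of_nonneg_right (le_abs_self L) hn).trans ?_)
  rw [mul_assoc]
  refine mul_le_mul_of_nonneg_left ?_ (abs_nonneg _)
  have h1 : ‖x - y‖ ^ β = ‖x - y‖ ^ (β - β') * ‖x - y‖ ^ β' := by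
    rw [← Real.rpow_add_of_nonneg (norm_nonneg _) (by linarith) h0.le]
    congr 1; ring
  rw [h1]
  refine mul_le_mul_of_nonneg_right ?_ (Real.rpow_nonneg (norm_nonneg _) _)
  refine Real.rpow_le_rpow (norm_nonneg _) ?_ (by linarith)
  rw [← dist_eq_norm]
  exact Metric.dist_le_diam_of_mem hc.isBounded hx hy

theorem LH.of_smooth (hΩ : IsOpen Ω) (h0 : 0 < β) (h1 : β ≤ 1) (hu : ContDiffOn ℝ 1 u Ω) :
    LH β Ω u := by
  refine LH.exp (β := 1) ?_ h0 h1
  refine LH.loc one_pos fun x hx => ?_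
  have hx1 : ContDiffAt ℝ 1 u x := hu.contDiffAt (hΩ.mem_nhds hx)
  obtain ⟨C, t, ht, hC⟩ := hx1.exists_lipschitzOnWith
  obtain ⟨O, hOt, hO, hxO⟩ := mem_nhds_iff.1 ht
  refine ⟨O, hO, hxO, fun K hK _ => ⟨C, fun y hy z hz => ?_⟩⟩
  rw [Real.rpow_one]
  have := hC.dist_le_mul y (hOt (hK hy).1) z (hOt (hK hz).1)
  rwa [dist_eq_norm, dist_eq_norm] at this

theorem LH.comp {φ : R4 → R4} {U : R4 → ℝ} (hΩ : IsOpen Ω) (hΩ' : IsOpen Ω') (h0 : 0 < β)
    (hφ : ∀ b, LH β Ω (fun x => φ x b)) (hm : MapsTo φ Ω Ω') (hU : ContDiffOn ℝ 1 U Ω') :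
    LH β Ω (fun x => U (φ x)) := by
  refine LH.loc h0 fun x hx => ?_
  have hx1 : ContDiffAt ℝ 1 U (φ x) := hU.contDiffAt (hΩ'.mem_nhds (hm hx))
  obtain ⟨C, t, ht, hC⟩ := hx1.exists_lipschitzOnWith
  have hφc : ContinuousAt φ x := by
    rw [continuousAt_pi]
    intro b
    exact ((hφ b).cont hΩ h0).continuousAt (hΩ.mem_nhds hx)
  obtain ⟨O, hOt, hO, hxO⟩ := mem_nhds_iff.1 (hφc ht)
  refine ⟨O, hO, hxO, fun K hK hc => ?_⟩
  choose L hL using fun b => hφ b K (hK.trans inter_subset_right) hc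
  refine ⟨C * ∑ b, |L b|, fun y hy z hz => ?_⟩
  have hn : 0 ≤ ‖y - z‖ ^ β := Real.rpow_nonneg (norm_nonneg _) _
  have h1 := hC.dist_le_mul (φ y) (hOt (hK hy).1) (φ z) (hOt (hK hz).1)
  rw [dist_eq_norm, dist_eq_norm] at h1
  refine h1.trans ?_
  rw [mul_assoc]
  refine mul_le_mul_of_nonneg_left ?_ C.2
  refine (pi_norm_le_iff_of_nonneg (mul_nonneg (Finset.sum_nonneg fun _ _ => abs_nonneg _) hn)).2
    fun b => ?_
  refine ((hL b) y hy z hz).trans (mul_le_mul_of_nonneg_right ?_ hn)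
  exact (le_abs_self _).trans
    (Finset.single_le_sum (f := fun b => |L b|) (fun _ _ => abs_nonneg _) (Finset.mem_univ b))

end Pool.Agent.SYQ
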