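import Pool.Agent.SYQ.BrS

/-!
# SYQ/TL: locality of the trilinear form

`O ⊇ tsupport v` open: there is `ε > 0` with `ball x ε ⊆ O` for `x ∈ tsupport v` (`IsCompact.exists_thickening_subset_open`).  If `sc n < ε / 2` then
`mol (sc n) u' = mol (sc n) u` on `ball x (ε / 2)` for `x ∈ tsupport v` (`mol δ u y` depends only on the values of `u` on `ball y δ`: `ker_supp`), so the integrands of
`Tn n` agree (`br_congr`; `v = 0` off `tsupport v`) for all large `n`; `limUnder` of eventually equal sequences (`Filter.map_congr`).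
-/

open MeasureTheory Set Filter Topology
open scoped ContDiff Matrix ENNReal

namespace Pool.Agent.SYQ

open Pool.Agent.SYH

private theorem TL_mol {O : Set R4} {u u' : R4 → ℝ} (hu : ∀ x ∈ O, u' x = u x) {δ : ℝ} {y : R4}
    (hy : ∀ t : R4, ‖t‖ < δ → y - t ∈ O) : mol δ u' y = mol δ u y := by
  unfold mol
  congr 1
  funext t
  rcases lt_or_ge ‖t‖ δ with h | h
  · rw [hu _ (hy t h)]
  · rw [ker_supp h, zero_mul, zero_mul]

private theorem TL_sc {ε : ℝ} (hε : 0 < ε) : ∀ᶠ n : ℕ in atTop, sc n < ε := by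
  have h1 : Tendsto (fun n : ℕ => (1 / 2 : ℝ) ^ n) atTop (𝓝 0) :=
    tendsto_pow_atTop_nhds_zero_of_lt_one (by norm_num) (by norm_num)
  filter_upwards [h1.eventually (gt_mem_nhds hε)] with n hn
  unfold sc
  rw [← one_div_pow]
  exact hn

theorem Tn_congr {v u u' w w' : R4 → ℝ} (hc : HasCompactSupport v) {O : Set R4} (hO : IsOpen O)
    (hs : tsupport v ⊆ O) (hu : ∀ x ∈ O, u' x = u x) (hw : ∀ x ∈ O, w' x = w x) :
    ∀ᶠ n in atTop, Tn n v u' w' = Tn n v u w := by
  obtain ⟨ε, hε, hth⟩ := IsCompact.exists_thickening_subset_open hc hO hs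
  filter_upwards [TL_sc (half_pos hε)] with n hn
  unfold Tn
  congr 1
  funext x
  by_cases hx : x ∈ tsupport v
  · have key : ∀ f g : R4 → ℝ, (∀ x ∈ O, f x = g x) →
        mol (sc n) f =ᶠ[𝓝 x] mol (sc n) g := by
      intro f g hfg
      filter_upwards [Metric.ball_mem_nhds x (half_pos hε)] with y hy
      apply TL_mol hfg
      intro t ht
      apply hth
      rw [Metric.mem_thickening_iff]
      refine ⟨x, hx, ?_⟩
      rw [Metric.mem_ball] at hy
      calc dist (y - t) x ≤ dist (y - t) y + dist y x := dist_triangle _ _ _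
        _ < ε / 2 + ε / 2 := by
          apply add_lt_add _ hy
          rw [dist_eq_norm, sub_sub_cancel_left, norm_neg]
          exact ht.trans hn
        _ = ε := by ring
    rw [br_congr (key u' u hu) (key w' w hw)]
  · rw [image_eq_zero_of_notMem_tsupport hx, zero_mul, zero_mul]

theorem T_congr {v u u' w w' : R4 → ℝ} (hc : HasCompactSupport v) {O : Set R4} (hO : IsOpen O)
    (hs : tsupport v ⊆ O) (hu : ∀ x ∈ O, u' x = u x) (hw : ∀ x ∈ O, w' x = w x) :
    T v u' w' = T v u w := by
  unfold T limUnder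
  rw [Filter.map_congr (Tn_congr hc hO hs hu hw)]

end Pool.Agent.SYQ
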