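import Pool.Agent.SYQ.HoL

/-!
# SYQ/VcA: Hölder functions with compact support

`Vc.of_lh`: `K' ⊆ Ω` a compact neighbourhood of `K` (`exists_compact_between`), `r > 0` with `closedBall x r ⊆ K'` for `x ∈ K`.  For `x, y ∈ K'` use the
constant of `LH`; for `x ∈ K`, `y ∉ K'`: `u y = 0`, `‖x - y‖ ≥ r`, `|u x| ≤ sup_K |u| ≤ (sup_K |u| / r ^ β) ‖x - y‖ ^ β`; if both are not in `K` then
`u x = u y = 0`.  `tsupport u ⊆ K`.
`Vc.mul_lh`, `Vc.add`, ..: `Vc.of_lh` with `K = tsupport v` (`LH.mul`, `LH.of_hb`).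
`cut_ex`: Mathlib `exists_contMDiff_support_eq..`, `exists_smooth_zero_one_of_isClosed`, or a finite sum/product of `ContDiffBump`s as in `SYH`
(`1 - Π (1 - bump_i)` for finitely many bumps equal to `1` on balls which cover `K`).
`Vc.ind`: for `x ∈ Ω` let `U x` be given by `hloc`.  `tsupport v` is covered by finitely many `U x`; smooth partition of unity (as in
`SYH/BasT.Test.split`; e.g. apply `Test.split` to a cutoff function `κ` from `cut_ex` for `K = tsupport v`: `κ = Σ κ_y`, `κ_y` a test function on `U y ∩ Ω`, and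
`v = κ v = Σ κ_y v`), then induction over the finite sum.
-/

open MeasureTheory Set Filter Topology
open scoped ContDiff Matrix ENNReal

namespace Pool.Agent.SYQ

open Pool.Agent.SYH

variable {β L : ℝ} {Ω Ω' K : Set R4} {u v w κ : R4 → ℝ}

private theorem VcA_ts {g : R4 → ℝ} {K : Set R4} (hK : IsClosed K) (hz : ∀ x ∉ K, g x = 0) :
    tsupport g ⊆ K := by
  refine closure_minimal ?_ hK
  intro x hx
  by_contra hc
  exact hx (hz x hc)

private theorem VcA_far (h0 : 0 < β) {K K' : Set R4} {r B : ℝ} (hr : 0 < r) (hB : 0 ≤ B)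
    (hth : Metric.thickening r K ⊆ K') (hb : ∀ x, |u x| ≤ B) (hz : ∀ x ∉ K, u x = 0)
    {x y : R4} (hy : y ∉ K') : |u x - u y| ≤ B / r ^ β * ‖x - y‖ ^ β := by
  have hyK : y ∉ K := fun h => hy (hth (Metric.self_subset_thickening hr K h))
  rw [hz y hyK, sub_zero]
  by_cases hx : x ∈ K
  · have hd : r ≤ ‖x - y‖ := by
      by_contra hc
      push Not at hc
      apply hy
      apply hth
      rw [Metric.mem_thickening_iff]
      exact ⟨x, hx, by rw [dist_comm, dist_eq_norm]; exact hc⟩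
    have h1 : r ^ β ≤ ‖x - y‖ ^ β := Real.rpow_le_rpow hr.le hd h0.le
    have h2 : 0 < r ^ β := Real.rpow_pos_of_pos hr β
    calc |u x| ≤ B := hb x
      _ = B / r ^ β * r ^ β := by field_simp
      _ ≤ B / r ^ β * ‖x - y‖ ^ β := mul_le_mul_of_nonneg_left h1 (by positivity)
  · rw [hz x hx, abs_zero]
    have h2 : 0 < r ^ β := Real.rpow_pos_of_pos hr β
    positivity

theorem Vc.of_lh (hΩ : IsOpen Ω) (h0 : 0 < β) (hK : IsCompact K) (hs : K ⊆ Ω) (hu : LH β Ω u)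
    (hz : ∀ x ∉ K, u x = 0) : Vc β Ω u := by
  obtain ⟨K', hK', hKi, hK'Ω⟩ := exists_compact_between hK hΩ hs
  obtain ⟨r, hr, hth⟩ := hK.exists_thickening_subset_open isOpen_interior hKi
  have hth' : Metric.thickening r K ⊆ K' := hth.trans interior_subset
  obtain ⟨B0, hB0⟩ := hK.exists_bound_of_continuousOn ((hu.cont hΩ h0).mono hs)
  obtain ⟨L1, hL1⟩ := hu K' hK'Ω hK'
  have hB : ∀ x, |u x| ≤ |B0| := by
    intro x
    by_cases hx : x ∈ K
    · exact (hB0 x hx).trans (le_abs_self _)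
    · rw [hz x hx, abs_zero]; exact abs_nonneg _
  have hrβ : 0 < r ^ β := Real.rpow_pos_of_pos hr β
  refine ⟨⟨|B0| + |L1| + |B0| / r ^ β, ?_, ?_⟩, HasCompactSupport.intro hK hz,
    (VcA_ts hK.isClosed hz).trans hs⟩
  · intro x
    have := hB x
    have h1 : 0 ≤ |B0| / r ^ β := by positivity
    have h2 := abs_nonneg L1
    linarith
  · intro x y
    have hn : 0 ≤ ‖x - y‖ ^ β := Real.rpow_nonneg (norm_nonneg _) _
    have h3 : 0 ≤ |B0| / r ^ β := by positivity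
    by_cases hx : x ∈ K'
    · by_cases hy : y ∈ K'
      · refine (hL1 x hx y hy).trans (mul_le_mul_of_nonneg_right ?_ hn)
        have h1 := le_abs_self L1
        have h2 := abs_nonneg B0
        linarith
      · refine (VcA_far h0 hr (abs_nonneg _) hth' hB hz hy).trans
          (mul_le_mul_of_nonneg_right ?_ hn)
        have h1 := abs_nonneg L1
        have h2 := abs_nonneg B0
        linarith
    · have h4 := VcA_far (x := y) h0 hr (abs_nonneg _) hth' hB hz hx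
      rw [abs_sub_comm, norm_sub_rev] at h4
      refine h4.trans (mul_le_mul_of_nonneg_right ?_ hn)
      have h1 := abs_nonneg L1
      have h2 := abs_nonneg B0
      linarith

theorem Vc.lh (h : Vc β Ω v) (Ω' : Set R4) : LH β Ω' v := by
  obtain ⟨L, hL⟩ := h.hb
  exact LH.of_hb hL Ω'

theorem Vc.mono (h : Vc β Ω v) (hs : Ω ⊆ Ω') : Vc β Ω' v :=
  ⟨h.hb, h.cpt, h.supp.trans hs⟩

theorem Vc.mul_lh (hΩ : IsOpen Ω) (h0 : 0 < β) (hv : Vc β Ω v) (hu : LH β Ω u) :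
    Vc β Ω (fun x => v x * u x) := by
  have hc : IsCompact (tsupport v) := hv.cpt
  refine Vc.of_lh hΩ h0 hc hv.supp (LH.mul hΩ h0 (hv.lh Ω) hu) ?_
  intro x hx
  rw [image_eq_zero_of_notMem_tsupport hx, zero_mul]

private theorem VcA_two (hv : Vc β Ω v) (hw : Vc β Ω w) {g : R4 → ℝ} (hb : ∃ L, HB β L g)
    (hg : ∀ x, v x = 0 → w x = 0 → g x = 0) : Vc β Ω g := by
  have hc : IsCompact (tsupport v ∪ tsupport w) := IsCompact.union hv.cpt hw.cpt
  have hz : ∀ x ∉ tsupport v ∪ tsupport w, g x = 0 := by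
    intro x hx
    rw [Set.mem_union, not_or] at hx
    exact hg x (image_eq_zero_of_notMem_tsupport hx.1) (image_eq_zero_of_notMem_tsupport hx.2)
  exact ⟨hb, HasCompactSupport.intro hc hz,
    (VcA_ts hc.isClosed hz).trans
      (union_subset hv.supp hw.supp)⟩

theorem Vc.add (hv : Vc β Ω v) (hw : Vc β Ω w) : Vc β Ω (fun x => v x + w x) := by
  obtain ⟨L, hL⟩ := hv.hb
  obtain ⟨L', hL'⟩ := hw.hb
  refine VcA_two hv hw ⟨_, hL.add hL'⟩ ?_
  intro x h1 h2
  rw [h1, h2, add_zero]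

theorem Vc.sub (hv : Vc β Ω v) (hw : Vc β Ω w) : Vc β Ω (fun x => v x - w x) := by
  obtain ⟨L, hL⟩ := hv.hb
  obtain ⟨L', hL'⟩ := hw.hb
  refine VcA_two hv hw ⟨_, hL.sub hL'⟩ ?_
  intro x h1 h2
  rw [h1, h2, sub_zero]

theorem Vc.smul (hv : Vc β Ω v) (t : ℝ) : Vc β Ω (fun x => t * v x) := by
  obtain ⟨L, hL⟩ := hv.hb
  refine VcA_two hv hv ⟨_, hL.smul t⟩ ?_
  intro x h1 _
  rw [h1, mul_zero]

theorem Vc.of_test (h : Test Ω v) (h0 : 0 < β) (h1 : β ≤ 1) : Vc β Ω v := by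
  obtain ⟨L, hL⟩ := HB.of_smooth (h.smooth.of_le (by simp)) h.cpt
  exact ⟨⟨L, hL β h0 h1⟩, h.cpt, h.supp⟩

theorem cut_ex (hΩ : IsOpen Ω) (hK : IsCompact K) (hs : K ⊆ Ω) :
    ∃ κ : R4 → ℝ, Test Ω κ ∧ (∀ x, 0 ≤ κ x ∧ κ x ≤ 1) ∧
      ∃ O, IsOpen O ∧ K ⊆ O ∧ O ⊆ Ω ∧ ∀ x ∈ O, κ x = 1 := by
  obtain ⟨K', hK', hKi, hK'Ω⟩ := exists_compact_between hK hΩ hs
  obtain ⟨f, hf1, hf0, hf⟩ := exists_contMDiffMap_one_nhds_of_subset_interior (n := (⊤ : ℕ∞))
    (modelWithCornersSelf ℝ R4) hK.isClosed hKi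
  refine ⟨f, ⟨f.contMDiff.contDiff, HasCompactSupport.intro hK' hf0,
    (VcA_ts hK'.isClosed hf0).trans hK'Ω⟩,
    fun x => ⟨(hf x).1, (hf x).2⟩, ?_⟩
  rw [Filter.Eventually, mem_nhdsSet_iff_exists] at hf1
  obtain ⟨O, hO, hKO, hO1⟩ := hf1
  refine ⟨O ∩ Ω, hO.inter hΩ, subset_inter hKO hs, inter_subset_right, ?_⟩
  intro x hx
  exact hO1 hx.1

theorem Vc.ind (h0 : 0 < β) (h1 : β ≤ 1) (hΩ : IsOpen Ω) {P : (R4 → ℝ) → Prop}
    (hz : P (fun _ => 0))
    (hadd : ∀ v w, Vc β Ω v → Vc β Ω w → P v → P w → P (fun x => v x + w x))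
    (hloc : ∀ x ∈ Ω, ∃ U, IsOpen U ∧ x ∈ U ∧ U ⊆ Ω ∧ ∀ v, Vc β U v → P v) (hv : Vc β Ω v) :
    P v := by
  classical
  choose! U hU using hloc
  have hc : IsCompact (tsupport v) := hv.cpt
  obtain ⟨κ, hκ, -, O, hO, hKO, -, hO1⟩ := cut_ex hΩ hc hv.supp
  obtain ⟨s, f, hf, hsum⟩ := hκ.split (U := U) (fun x hx => ⟨(hU x hx).1, (hU x hx).2.1⟩)
  have hterm : ∀ y ∈ s, Vc β (U y) (fun x => f y x * v x) := by
    intro y hy
    obtain ⟨hyΩ, hyt⟩ := hf y hy
    exact Vc.mul_lh (hU y hyΩ).1 h0 (Vc.of_test (hyt.mono inter_subset_left) h0 h1) (hv.lh _)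
  have hzero : Vc β Ω (fun _ : R4 => (0 : ℝ)) := by
    have := hv.smul 0
    simpa using this
  have key : ∀ t ⊆ s, Vc β Ω (fun x => ∑ y ∈ t, f y x * v x) ∧ P (fun x => ∑ y ∈ t, f y x * v x) := by
    intro t
    induction t using Finset.induction_on with
    | empty =>
      intro _
      simp only [Finset.sum_empty]
      exact ⟨hzero, hz⟩
    | insert a t ha ih =>
      intro hts
      have hat : a ∈ s := hts (Finset.mem_insert_self a t)
      obtain ⟨ih1, ih2⟩ := ih ((Finset.subset_insert a t).trans hts)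
      have haΩ := (hf a hat).1
      have hva := hterm a hat
      have hPa := (hU a haΩ).2.2.2 _ hva
      have hva' := hva.mono (hU a haΩ).2.2.1
      simp only [Finset.sum_insert ha]
      exact ⟨hva'.add ih1, hadd _ _ hva' ih1 hPa ih2⟩
  have hfin := (key s (Finset.Subset.refl s)).2
  have e : (fun x => ∑ y ∈ s, f y x * v x) = v := by
    funext x
    rw [← Finset.sum_mul, ← hsum x]
    by_cases hx : x ∈ tsupport v
    · rw [hO1 x (hKO hx), one_mul]
    · rw [image_eq_zero_of_notMem_tsupport hx, mul_zero]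
  rw [e] at hfin
  exact hfin

end Pool.Agent.SYQ
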