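import Pool.Agent.SYQ.TE
import Pool.Agent.SYQ.TL
import Pool.Agent.SYQ.VcA

/-!
# SYQ/TA1: algebra of the trilinear form

`T_lim`: `κ` from `cut_ex` for `K = tsupport v ⊆ Ω`; `κ u`, `κ w` are of class `Vc` (`Vc.mul_lh`), so `HB`; `Tn_congr` (`κ u = u` on `O`), `T_lim0`, `T_congr`.
`T_add₁`, `T_smul₁`: `Tn` is linear in `v` (integrability: after cutting the bracket is continuous; `v` is continuous with compact support).
`T_add₂`, `T_smul₂`: first replace `u, u', w` by `κ u, κ u', κ w` (`κ` for `tsupport v`; `T_congr`); then `mol` is linear (continuous functions of compact support are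
locally integrable), `br_add`, `br_smul`, and `T_lim` with uniqueness of limits.  `T_anti`: `br_anti`.  `T_add₃`, `T_smul₃`: by `T_anti`.
`T_const`: after cutting (or directly) `mol δ c = c`; `T_congr` is not needed: `mol (sc n) (fun _ => c)` is constant, `br_const`.
-/

open MeasureTheory Set Filter Topology
open scoped ContDiff Matrix ENNReal

namespace Pool.Agent.SYQ

open Pool.Agent.SYH

variable {β₁ β₂ β₃ : ℝ} {Ω : Set R4} {v v' u u' w w' : R4 → ℝ}

private theorem TA1_cpt_of {v : R4 → ℝ} (hc : HasCompactSupport v) :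
    ∃ R : ℝ, ∀ x, R < ‖x‖ → v x = 0 := by
  have hb : Bornology.IsBounded (tsupport v) := hc.isBounded
  obtain ⟨R, hR⟩ := hb.subset_closedBall (0 : R4)
  refine ⟨R, fun x hx => ?_⟩
  by_contra h
  have h1 := hR (subset_tsupport v h)
  rw [Metric.mem_closedBall, dist_zero_right] at h1
  linarith

private theorem TA1_cut {β : ℝ} (h0 : 0 < β) (h1 : β ≤ 1) (hΩ : IsOpen Ω) {K : Set R4}
    (hK : IsCompact K) (hs : K ⊆ Ω) {u : R4 → ℝ} (hu : LH β Ω u) :
    ∃ (u' : R4 → ℝ) (L : ℝ), HB β L u' ∧ ∃ O, IsOpen O ∧ K ⊆ O ∧ ∀ x ∈ O, u' x = u x := by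
  obtain ⟨κ, hκ, -, O, hO, hKO, -, h⟩ := cut_ex hΩ hK hs
  have hm := (Vc.of_test hκ h0 h1).mul_lh hΩ h0 hu
  obtain ⟨L, hL⟩ := hm.hb
  exact ⟨_, L, hL, O, hO, hKO, fun x hx => by simp only [h x hx, one_mul]⟩

private theorem TA1_li {β L : ℝ} {u : R4 → ℝ} (h0 : 0 < β) (hu : HB β L u) :
    LocallyIntegrable u := (hu.cont h0).locallyIntegrable

private theorem TA1_int {v u w : R4 → ℝ} (hv : Continuous v) (hc : HasCompactSupport v)
    (hu : LocallyIntegrable u) (hw : LocallyIntegrable w) (n : ℕ) :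
    Integrable (fun x => v x * br (mol (sc n) u) (mol (sc n) w) x) := by
  have h1 : Continuous (br (mol (sc n) u) (mol (sc n) w)) :=
    (br_smooth (mol_smooth _ hu) (mol_smooth _ hw)).continuous
  exact (hv.mul h1).integrable_of_hasCompactSupport hc.mul_right

private theorem TA1_diff {u : R4 → ℝ} (hu : LocallyIntegrable u) (n : ℕ) (x : R4) :
    DifferentiableAt ℝ (mol (sc n) u) x :=
  ((mol_smooth _ hu).differentiable (by simp)).differentiableAt

theorem T_lim (E : Exq β₁ β₂ β₃) (hΩ : IsOpen Ω) (hv : Vc β₁ Ω v) (hu : LH β₂ Ω u)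
    (hw : LH β₃ Ω w) : Tendsto (fun n => Tn n v u w) atTop (𝓝 (T v u w)) := by
  obtain ⟨L, hL⟩ := hv.hb
  obtain ⟨R, hR⟩ := TA1_cpt_of hv.cpt
  obtain ⟨u', L', hL', O, hO, hKO, h⟩ := TA1_cut E.p2 E.q2 hΩ hv.cpt hv.supp hu
  obtain ⟨w', M', hM', O', hO', hKO', h'⟩ := TA1_cut E.p3 E.q3 hΩ hv.cpt hv.supp hw
  have h1 := T_lim0 E hL hL' hM' hR
  have e1 := Tn_congr hv.cpt (hO.inter hO') (subset_inter hKO hKO') (u := u) (u' := u')
    (w := w) (w' := w') (fun x hx => h x hx.1) (fun x hx => h' x hx.2)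
  have e2 := T_congr hv.cpt (hO.inter hO') (subset_inter hKO hKO') (u := u) (u' := u')
    (w := w) (w' := w') (fun x hx => h x hx.1) (fun x hx => h' x hx.2)
  rw [e2] at h1
  exact h1.congr' e1

theorem T_add₁ (E : Exq β₁ β₂ β₃) (hΩ : IsOpen Ω) (hv : Vc β₁ Ω v) (hv' : Vc β₁ Ω v')
    (hu : LH β₂ Ω u) (hw : LH β₃ Ω w) : T (fun x => v x + v' x) u w = T v u w + T v' u w := by
  have hK : IsCompact (tsupport v ∪ tsupport v') := hv.cpt.isCompact.union hv'.cpt.isCompact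
  obtain ⟨L, hL⟩ := hv.hb
  obtain ⟨M, hM⟩ := hv'.hb
  obtain ⟨u', L', hL', O, hO, hKO, h⟩ :=
    TA1_cut E.p2 E.q2 hΩ hK (union_subset hv.supp hv'.supp) hu
  obtain ⟨w', M', hM', O', hO', hKO', h'⟩ :=
    TA1_cut E.p3 E.q3 hΩ hK (union_subset hv.supp hv'.supp) hw
  have hva := hv.add hv'
  have hts : tsupport (fun x => v x + v' x) ⊆ tsupport v ∪ tsupport v' := by
    refine closure_minimal ?_ ((isClosed_tsupport v).union (isClosed_tsupport v'))
    intro x hx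
    by_contra hc
    rw [mem_union, not_or] at hc
    exact hx (by
      simp only [image_eq_zero_of_notMem_tsupport hc.1, image_eq_zero_of_notMem_tsupport hc.2,
        add_zero])
  have ec : ∀ {f : R4 → ℝ}, HasCompactSupport f → tsupport f ⊆ tsupport v ∪ tsupport v' →
      T f u' w' = T f u w := fun hc hs =>
    T_congr hc (hO.inter hO') (hs.trans (subset_inter hKO hKO')) (fun x hx => h x hx.1)
      (fun x hx => h' x hx.2)
  rw [← ec hva.cpt hts, ← ec hv.cpt subset_union_left, ← ec hv'.cpt subset_union_right]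
  have hu2 : LH β₂ Ω u' := LH.of_hb hL' Ω
  have hw2 : LH β₃ Ω w' := LH.of_hb hM' Ω
  have t1 := T_lim E hΩ hva hu2 hw2
  have t2 := (T_lim E hΩ hv hu2 hw2).add (T_lim E hΩ hv' hu2 hw2)
  refine tendsto_nhds_unique t1 (t2.congr fun n => ?_)
  unfold Tn
  rw [← integral_add (TA1_int (hL.cont E.p1) hv.cpt (TA1_li E.p2 hL') (TA1_li E.p3 hM') n)
    (TA1_int (hM.cont E.p1) hv'.cpt (TA1_li E.p2 hL') (TA1_li E.p3 hM') n)]
  refine integral_congr_ae (ae_of_all _ fun x => ?_)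
  simp only
  ring

theorem T_smul₁ (E : Exq β₁ β₂ β₃) (hΩ : IsOpen Ω) (hv : Vc β₁ Ω v) (hu : LH β₂ Ω u)
    (hw : LH β₃ Ω w) (t : ℝ) : T (fun x => t * v x) u w = t * T v u w := by
  have t1 := T_lim E hΩ (hv.smul t) hu hw
  have t2 := (T_lim E hΩ hv hu hw).const_mul t
  refine tendsto_nhds_unique t1 (t2.congr fun n => ?_)
  unfold Tn
  rw [← integral_const_mul]
  refine integral_congr_ae (ae_of_all _ fun x => ?_)
  simp only
  ring

theorem T_add₂ (E : Exq β₁ β₂ β₃) (hΩ : IsOpen Ω) (hv : Vc β₁ Ω v) (hu : LH β₂ Ω u)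
    (hu' : LH β₂ Ω u') (hw : LH β₃ Ω w) :
    T v (fun x => u x + u' x) w = T v u w + T v u' w := by
  obtain ⟨L, hL⟩ := hv.hb
  obtain ⟨u1, L1, hL1, O1, hO1, hK1, h1⟩ := TA1_cut E.p2 E.q2 hΩ hv.cpt hv.supp hu
  obtain ⟨u2, L2, hL2, O2, hO2, hK2, h2⟩ := TA1_cut E.p2 E.q2 hΩ hv.cpt hv.supp hu'
  obtain ⟨w1, L3, hL3, O3, hO3, hK3, h3⟩ := TA1_cut E.p3 E.q3 hΩ hv.cpt hv.supp hw
  have hO := (hO1.inter hO2).inter hO3
  have hK := subset_inter (subset_inter hK1 hK2) hK3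
  have e1 : T v (fun x => u1 x + u2 x) w1 = T v (fun x => u x + u' x) w :=
    T_congr hv.cpt hO hK (fun x hx => by simp only [h1 x hx.1.1, h2 x hx.1.2])
      (fun x hx => h3 x hx.2)
  have e2 : T v u1 w1 = T v u w :=
    T_congr hv.cpt hO hK (fun x hx => h1 x hx.1.1) (fun x hx => h3 x hx.2)
  have e3 : T v u2 w1 = T v u' w :=
    T_congr hv.cpt hO hK (fun x hx => h2 x hx.1.2) (fun x hx => h3 x hx.2)
  rw [← e1, ← e2, ← e3]
  have hw2 : LH β₃ Ω w1 := LH.of_hb hL3 Ω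
  have t1 := T_lim E hΩ hv (LH.of_hb (hL1.add hL2) Ω) hw2
  have t2 := (T_lim E hΩ hv (LH.of_hb hL1 Ω) hw2).add (T_lim E hΩ hv (LH.of_hb hL2 Ω) hw2)
  refine tendsto_nhds_unique t1 (t2.congr fun n => ?_)
  have i1 := TA1_li E.p2 hL1
  have i2 := TA1_li E.p2 hL2
  have i3 := TA1_li E.p3 hL3
  have em : mol (sc n) (fun x => u1 x + u2 x) = fun x => mol (sc n) u1 x + mol (sc n) u2 x := by
    funext x
    unfold mol
    rw [← integral_add (ker_mul_integrable _ i1 x) (ker_mul_integrable _ i2 x)]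
    refine integral_congr_ae (ae_of_all _ fun y => ?_)
    simp only
    ring
  unfold Tn
  rw [em, ← integral_add (TA1_int (hL.cont E.p1) hv.cpt i1 i3 n)
    (TA1_int (hL.cont E.p1) hv.cpt i2 i3 n)]
  refine integral_congr_ae (ae_of_all _ fun x => ?_)
  simp only
  rw [br_add (TA1_diff i1 n x) (TA1_diff i2 n x)]
  ring

theorem T_smul₂ (E : Exq β₁ β₂ β₃) (hΩ : IsOpen Ω) (hv : Vc β₁ Ω v) (hu : LH β₂ Ω u)
    (hw : LH β₃ Ω w) (t : ℝ) : T v (fun x => t * u x) w = t * T v u w := by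
  obtain ⟨L, hL⟩ := hv.hb
  obtain ⟨u1, L1, hL1, O1, hO1, hK1, h1⟩ := TA1_cut E.p2 E.q2 hΩ hv.cpt hv.supp hu
  obtain ⟨w1, L3, hL3, O3, hO3, hK3, h3⟩ := TA1_cut E.p3 E.q3 hΩ hv.cpt hv.supp hw
  have hO := hO1.inter hO3
  have hK := subset_inter hK1 hK3
  have e1 : T v (fun x => t * u1 x) w1 = T v (fun x => t * u x) w :=
    T_congr hv.cpt hO hK (fun x hx => by simp only [h1 x hx.1]) (fun x hx => h3 x hx.2)
  have e2 : T v u1 w1 = T v u w :=
    T_congr hv.cpt hO hK (fun x hx => h1 x hx.1) (fun x hx => h3 x hx.2)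
  rw [← e1, ← e2]
  have hw2 : LH β₃ Ω w1 := LH.of_hb hL3 Ω
  have t1 := T_lim E hΩ hv (LH.of_hb (hL1.smul t) Ω) hw2
  have t2 := (T_lim E hΩ hv (LH.of_hb hL1 Ω) hw2).const_mul t
  refine tendsto_nhds_unique t1 (t2.congr fun n => ?_)
  have i1 := TA1_li E.p2 hL1
  have em : mol (sc n) (fun x => t * u1 x) = fun x => t * mol (sc n) u1 x := by
    funext x
    unfold mol
    rw [← integral_const_mul]
    refine integral_congr_ae (ae_of_all _ fun y => ?_)
    simp only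
    ring
  unfold Tn
  rw [em, ← integral_const_mul]
  refine integral_congr_ae (ae_of_all _ fun x => ?_)
  simp only
  rw [br_smul t (TA1_diff i1 n x)]
  ring

theorem T_anti (E : Exq β₁ β₂ β₃) (hΩ : IsOpen Ω) (hv : Vc β₁ Ω v) (hu : LH β₂ Ω u)
    (hw : LH β₃ Ω w) : T v w u = -T v u w := by
  have t1 := (T_lim E hΩ hv hu hw).neg
  have t2 := T_lim E.swap hΩ hv hw hu
  refine tendsto_nhds_unique t2 (t1.congr fun n => ?_)
  unfold Tn
  rw [← integral_neg]
  refine integral_congr_ae (ae_of_all _ fun x => ?_)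
  simp only
  rw [br_anti (mol (sc n) u) (mol (sc n) w)]
  ring

theorem T_add₃ (E : Exq β₁ β₂ β₃) (hΩ : IsOpen Ω) (hv : Vc β₁ Ω v) (hu : LH β₂ Ω u)
    (hw : LH β₃ Ω w) (hw' : LH β₃ Ω w') :
    T v u (fun x => w x + w' x) = T v u w + T v u w' := by
  rw [T_anti E.swap hΩ hv (hw.add hw') hu, T_anti E.swap hΩ hv hw hu,
    T_anti E.swap hΩ hv hw' hu, T_add₂ E.swap hΩ hv hw hw' hu]
  ring

theorem T_smul₃ (E : Exq β₁ β₂ β₃) (hΩ : IsOpen Ω) (hv : Vc β₁ Ω v) (hu : LH β₂ Ω u)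
    (hw : LH β₃ Ω w) (t : ℝ) : T v u (fun x => t * w x) = t * T v u w := by
  rw [T_anti E.swap hΩ hv (hw.smul t) hu, T_anti E.swap hΩ hv hw hu,
    T_smul₂ E.swap hΩ hv hw hu]
  ring

private theorem TA1_mol_const (n : ℕ) (c : ℝ) :
    mol (sc n) (fun _ => c) = fun _ => ∫ t, ker (sc n) t * c := by
  funext x
  rfl

theorem T_const (v w : R4 → ℝ) (c : ℝ) : T v (fun _ => c) w = 0 := by
  have h : (fun n => Tn n v (fun _ => c) w) = fun _ => 0 := by
    funext n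
    unfold Tn
    rw [TA1_mol_const]
    simp [br_const]
  unfold T
  rw [h]
  exact tendsto_const_nhds.limUnder_eq

theorem T_const' (v u : R4 → ℝ) (c : ℝ) : T v u (fun _ => c) = 0 := by
  have h : (fun n => Tn n v u (fun _ => c)) = fun _ => 0 := by
    funext n
    unfold Tn
    rw [TA1_mol_const]
    have h1 : ∀ x, br (mol (sc n) u) (fun _ => ∫ t, ker (sc n) t * c) x = 0 := by
      intro x
      rw [br_anti, br_const, neg_zero]
    simp [h1]
  unfold T
  rw [h]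
  exact tendsto_const_nhds.limUnder_eq

end Pool.Agent.SYQ
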