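import Pool.Agent.SYQ.CvA
import Pool.Agent.SYQ.TA1

/-!
# SYQ/Tcv: continuity of the trilinear form

`K' ⊆ Ω` a compact neighbourhood of `K`, `κ` a test function on the interior of `K'` with `κ = 1` near `K` (`cut_ex`).
(1) Eventually `vs k` is `HB β₁ L` with `L` independent of `k`: Hölder on `K'` by `bd`, zero off `K`, bounded by `sup |v| + 1` (as in `Vc.of_lh`); the same for `κ us k`, `κ ws k`
and for the limits.  `T_congr`: `T (vs k) (us k) (ws k) = T (vs k) (κ us k) (κ ws k)`.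
(2) Choose `β₁' < β₁`, `β₂' < β₂`, `β₃' < β₃` with `Exq β₁' β₂' β₃'`.  `vs k - v` is `HB β₁ (2 L)` with supremum `→ 0` (eventually `≤ 2 L`), so `HB.interp`: `HB β₁' ε_k` with `ε_k → 0`; likewise
for the others (`κ us k - κ u → 0` uniformly).
(3) `T a b c - T a' b' c' = T (a - a') b c + T a' (b - b') c + T a' b' (c - c')` (`T_add`, `T_smul` on `Ω = univ`), `T_bound` with `R` such that `K ⊆ closedBall 0 R`, exponents
`β_i'` (`HB.exp` for the other factors).
-/

open MeasureTheory Set Filter Topology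
open scoped ContDiff Matrix ENNReal

namespace Pool.Agent.SYQ

open Pool.Agent.SYH

variable {β₁ β₂ β₃ : ℝ} {Ω K : Set R4} {κ : Type*} {l : Filter κ} {vs us ws : κ → R4 → ℝ}
  {v u w : R4 → ℝ}

/-- A function which is Hölder on `K'`, bounded by `M` and zero off `K` is Hölder. -/
private theorem tcv_hb {β r L0 M : ℝ} {K K' : Set R4} {f : R4 → ℝ} (h0 : 0 < β) (hr : 0 < r)
    (hKK : ∀ x ∈ K, ∀ y ∉ K', r ≤ ‖x - y‖) (hM0 : 0 ≤ M)
    (hL : ∀ x ∈ K', ∀ y ∈ K', |f x - f y| ≤ L0 * ‖x - y‖ ^ β) (hM : ∀ x, |f x| ≤ M)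
    (hz : ∀ x ∉ K, f x = 0) : HB β (|L0| + M / r ^ β + M) f := by
  have hrb : 0 < r ^ β := Real.rpow_pos_of_pos hr β
  have hMr : 0 ≤ M / r ^ β := div_nonneg hM0 hrb.le
  have habs : 0 ≤ |L0| := abs_nonneg _
  refine ⟨fun x => (hM x).trans (by linarith), fun x y => ?_⟩
  have hn : 0 ≤ ‖x - y‖ ^ β := Real.rpow_nonneg (norm_nonneg _) β
  -- key: for x ∈ K, y ∉ K'
  have key : ∀ x ∈ K, ∀ y ∉ K', |f x| ≤ (M / r ^ β) * ‖x - y‖ ^ β := by
    intro x hx y hy
    have h1 : r ^ β ≤ ‖x - y‖ ^ β := Real.rpow_le_rpow hr.le (hKK x hx y hy) h0.le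
    calc |f x| ≤ M := hM x
      _ = (M / r ^ β) * r ^ β := by field_simp
      _ ≤ (M / r ^ β) * ‖x - y‖ ^ β := mul_le_mul_of_nonneg_left h1 hMr
  have hbig : ∀ c, c ≤ |L0| + M / r ^ β + M → c * ‖x - y‖ ^ β ≤
      (|L0| + M / r ^ β + M) * ‖x - y‖ ^ β := fun c hc => mul_le_mul_of_nonneg_right hc hn
  by_cases hx : x ∈ K'
  · by_cases hy : y ∈ K'
    · refine (hL x hx y hy).trans (hbig _ ?_)
      have := le_abs_self L0
      linarith
    · have hfy : f y = 0 ∨ y ∈ K := by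
        by_cases h : y ∈ K
        · exact Or.inr h
        · exact Or.inl (hz y h)
      by_cases hxK : x ∈ K
      · by_cases hyK : y ∈ K
        · exfalso
          have := hKK y hyK y hy
          simp at this
          linarith
        · rw [hz y hyK, sub_zero]
          exact (key x hxK y hy).trans (hbig _ (by linarith))
      · by_cases hyK : y ∈ K
        · exfalso
          have := hKK y hyK y hy
          simp at this
          linarith
        · rw [hz x hxK, hz y hyK, sub_zero, abs_zero]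
          exact mul_nonneg (by linarith) hn
  · have hxK : x ∉ K := by
      intro h
      have := hKK x h x hx
      simp at this
      linarith
    rw [hz x hxK, zero_sub, abs_neg]
    by_cases hyK : y ∈ K
    · have h2 := key y hyK x hx
      rw [norm_sub_rev] at h2
      exact h2.trans (hbig _ (by linarith))
    · rw [hz y hyK, abs_zero]
      exact mul_nonneg (by linarith) hn

private theorem tcv_small {β β' L : ℝ} (h0 : 0 < β') (hb : β' < β) (hL : 0 < L) {ε : ℝ}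
    (hε : 0 < ε) : ∃ δ, 0 < δ ∧ δ ≤ L ∧ 2 * (δ ^ (1 - β' / β) * L ^ (β' / β)) ≤ ε := by
  have hβ : 0 < β := h0.trans hb
  have hθ : 0 < 1 - β' / β := by
    have : β' / β < 1 := (div_lt_one hβ).2 hb
    linarith
  have hc : Tendsto (fun δ : ℝ => 2 * (δ ^ (1 - β' / β) * L ^ (β' / β))) (𝓝 0) (𝓝 0) := by
    have h1 : Tendsto (fun δ : ℝ => δ ^ (1 - β' / β)) (𝓝 0) (𝓝 0) := by
      have := (Real.continuousAt_rpow_const (0 : ℝ) (1 - β' / β) (Or.inr hθ.le)).tendsto
      rwa [Real.zero_rpow hθ.ne'] at this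
    have h2 := (h1.mul_const (L ^ (β' / β))).const_mul 2
    simpa using h2
  have hev : ∀ᶠ δ : ℝ in 𝓝 0, 2 * (δ ^ (1 - β' / β) * L ^ (β' / β)) < ε := hc.eventually_lt_const hε
  have hev2 : ∀ᶠ δ : ℝ in 𝓝[>] 0, 2 * (δ ^ (1 - β' / β) * L ^ (β' / β)) < ε :=
    hev.filter_mono nhdsWithin_le_nhds
  have hev3 : ∀ᶠ δ : ℝ in 𝓝[>] 0, δ < L :=
    (eventually_lt_nhds hL).filter_mono nhdsWithin_le_nhds
  obtain ⟨δ, h1, h2, h3⟩ := (hev2.and (hev3.and self_mem_nhdsWithin)).exists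
  exact ⟨δ, h3, h2.le, h1.le⟩

/-- Uniform Hölder bounds for a convergent family of functions vanishing off a compact set, and
convergence in the weaker Hölder norm. -/
private theorem tcv_fam {β : ℝ} {fs : κ → R4 → ℝ} {f : R4 → ℝ} (h0 : 0 < β)
    (hΩ : IsOpen Ω) (hK : IsCompact K) (hs : K ⊆ Ω) (hz : ∀ᶠ k in l, ∀ x ∉ K, fs k x = 0)
    (hz' : ∀ x ∉ K, f x = 0) (hf : Cv β Ω l fs f) :
    ∃ L, 0 < L ∧ HB β L f ∧ (∀ᶠ k in l, HB β L (fs k)) ∧
      ∀ β', 0 < β' → β' < β → ∀ ε > 0, ∀ᶠ k in l, HB β' ε (fun x => fs k x - f x) := by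
  obtain ⟨K', hK', hKi, hK's⟩ := exists_compact_between hK hΩ hs
  obtain ⟨r, hr, hthick⟩ := hK.exists_thickening_subset_open isOpen_interior hKi
  have hKK : ∀ x ∈ K, ∀ y ∉ K', r ≤ ‖x - y‖ := by
    intro x hx y hy
    by_contra hlt
    push Not at hlt
    apply hy
    apply interior_subset
    apply hthick
    rw [Metric.mem_thickening_iff]
    exact ⟨x, hx, by rw [dist_comm, dist_eq_norm]; exact hlt⟩
  -- bounds
  have hcont : ContinuousOn f K' := (LH.cont hΩ h0 hf.lim).mono hK's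
  obtain ⟨M, hM⟩ := hK'.exists_bound_of_continuousOn hcont
  set M0 : ℝ := |M| + 1 with hM0
  have hM0pos : 0 < M0 := by positivity
  have hfM : ∀ x, |f x| ≤ M0 - 1 := by
    intro x
    by_cases hx : x ∈ K'
    · have := hM x hx
      rw [Real.norm_eq_abs] at this
      have h2 := le_abs_self M
      rw [hM0]; linarith
    · have hxK : x ∉ K := fun h => hx (interior_subset (hKi h))
      rw [hz' x hxK, abs_zero, hM0]
      have := abs_nonneg M
      linarith
  obtain ⟨L1, hL1⟩ := hf.lim K' hK's hK'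
  obtain ⟨L2, hL2⟩ := hf.bd K' hK's hK'
  have hun := hf.un K' hK's hK'
  rw [Metric.tendstoUniformlyOn_iff] at hun
  have hsup : ∀ δ > 0, ∀ᶠ k in l, ∀ x, |fs k x - f x| ≤ δ := by
    intro δ hδ
    filter_upwards [hun δ hδ, hz] with k hk hkz x
    by_cases hx : x ∈ K'
    · have := hk x hx
      rw [dist_comm, Real.dist_eq] at this
      exact this.le
    · have hxK : x ∉ K := fun h => hx (interior_subset (hKi h))
      rw [hz' x hxK, hkz x hxK, sub_zero, abs_zero]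
      exact hδ.le
  set L : ℝ := (|L1| + M0 / r ^ β + M0) + (|L2| + M0 / r ^ β + M0) with hLdef
  have hrb : 0 < r ^ β := Real.rpow_pos_of_pos hr β
  have hpos1 : 0 < |L1| + M0 / r ^ β + M0 := by positivity
  have hpos2 : 0 < |L2| + M0 / r ^ β + M0 := by positivity
  have hLpos : 0 < L := by rw [hLdef]; linarith
  have hfL : HB β L f :=
    (tcv_hb h0 hr hKK hM0pos.le hL1 (fun x => (hfM x).trans (by linarith)) hz').mono
      (by rw [hLdef]; linarith)
  have hfsL : ∀ᶠ k in l, HB β L (fs k) := by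
    filter_upwards [hL2, hz, hsup 1 one_pos] with k hk hkz hks
    refine (tcv_hb h0 hr hKK hM0pos.le hk (fun x => ?_) hkz).mono (by rw [hLdef]; linarith)
    have h1 := hks x
    have h2 := hfM x
    have h3 : |fs k x| ≤ |fs k x - f x| + |f x| := by
      have := abs_add_le (fs k x - f x) (f x)
      simpa using this
    linarith
  refine ⟨L, hLpos, hfL, hfsL, fun β' hβ' hb ε hε => ?_⟩
  obtain ⟨δ, hδ, hδL, hδε⟩ := tcv_small hβ' hb (by positivity : 0 < L + L) hε
  filter_upwards [hfsL, hsup δ hδ] with k hk hks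
  exact ((hk.sub hfL).interp hks hδL hβ' hb).mono hδε

theorem T_cv (E : Exq β₁ β₂ β₃) (hΩ : IsOpen Ω) (hK : IsCompact K) (hs : K ⊆ Ω)
    (hz : ∀ᶠ k in l, ∀ x ∉ K, vs k x = 0) (hz' : ∀ x ∉ K, v x = 0) (hv : Cv β₁ Ω l vs v)
    (hu : Cv β₂ Ω l us u) (hw : Cv β₃ Ω l ws w) :
    Tendsto (fun k => T (vs k) (us k) (ws k)) l (𝓝 (T v u w)) := by
  obtain ⟨χ, hχ, hχ01, O, hO, hKO, hOΩ, hχ1⟩ := cut_ex hΩ hK hs
  set K0 := tsupport χ with hK0
  have hK0c : IsCompact K0 := hχ.cpt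
  have hK0s : K0 ⊆ Ω := hχ.supp
  have hχz : ∀ x ∉ K0, χ x = 0 := fun x hx => image_eq_zero_of_notMem_tsupport hx
  have hχ2 : LH β₂ Ω χ := (Vc.of_test hχ E.p2 E.q2).lh Ω
  have hχ3 : LH β₃ Ω χ := (Vc.of_test hχ E.p3 E.q3).lh Ω
  have hub : Cv β₂ Ω l (fun k x => χ x * us k x) (fun x => χ x * u x) :=
    Cv.mul hΩ E.p2 (Cv.const l hχ2) hu
  have hwb : Cv β₃ Ω l (fun k x => χ x * ws k x) (fun x => χ x * w x) :=
    Cv.mul hΩ E.p3 (Cv.const l hχ3) hw
  -- supports
  have hsup : ∀ {f : R4 → ℝ}, (∀ x ∉ K, f x = 0) → HasCompactSupport f ∧ tsupport f ⊆ K := by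
    intro f hf
    have h1 : tsupport f ⊆ K := by
      refine closure_minimal (fun x hx => ?_) hK.isClosed
      by_contra hxK
      exact hx (hf x hxK)
    exact ⟨hK.of_isClosed_subset (isClosed_tsupport f) h1, h1⟩
  have hred : ∀ (f g h : R4 → ℝ), (∀ x ∉ K, f x = 0) →
      T f g h = T f (fun x => χ x * g x) (fun x => χ x * h x) := by
    intro f g h hf
    obtain ⟨h1, h2⟩ := hsup hf
    refine (T_congr h1 hO (h2.trans hKO) (fun x hx => ?_) (fun x hx => ?_)).symm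
    · rw [hχ1 x hx, one_mul]
    · rw [hχ1 x hx, one_mul]
  -- exponents
  obtain ⟨t, ht0, ht1, ht2, ht3, ht4⟩ : ∃ t, 0 < t ∧ t < β₁ ∧ t < β₂ ∧ t < β₃ ∧
      3 * t < β₁ + β₂ + β₃ - 2 := by
    have hm : 0 < min (min β₁ β₂) (min β₃ (β₁ + β₂ + β₃ - 2)) := by
      refine lt_min (lt_min E.p1 E.p2) (lt_min E.p3 ?_)
      linarith [E.s]
    have a1 : min (min β₁ β₂) (min β₃ (β₁ + β₂ + β₃ - 2)) ≤ β₁ :=
      (min_le_left _ _).trans (min_le_left _ _)
    have a2 : min (min β₁ β₂) (min β₃ (β₁ + β₂ + β₃ - 2)) ≤ β₂ :=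
      (min_le_left _ _).trans (min_le_right _ _)
    have a3 : min (min β₁ β₂) (min β₃ (β₁ + β₂ + β₃ - 2)) ≤ β₃ :=
      (min_le_right _ _).trans (min_le_left _ _)
    have a4 : min (min β₁ β₂) (min β₃ (β₁ + β₂ + β₃ - 2)) ≤ β₁ + β₂ + β₃ - 2 :=
      (min_le_right _ _).trans (min_le_right _ _)
    refine ⟨min (min β₁ β₂) (min β₃ (β₁ + β₂ + β₃ - 2)) / 4, by positivity, ?_, ?_, ?_, ?_⟩ <;>
      linarith
  have E' : Exq (β₁ - t) (β₂ - t) (β₃ - t) :=
    ⟨by linarith, by linarith [E.q1], by linarith, by linarith [E.q2], by linarith,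
      by linarith [E.q3], by linarith⟩
  obtain ⟨L1, hL1, hv1, hv2, hv3⟩ := tcv_fam E.p1 hΩ hK hs hz hz' hv
  obtain ⟨L2, hL2, hu1, hu2, hu3⟩ := tcv_fam E.p2 hΩ hK0c hK0s
    (Eventually.of_forall fun k x hx => by simp [hχz x hx])
    (fun x hx => by simp [hχz x hx]) hub
  obtain ⟨L3, hL3, hw1, hw2, hw3⟩ := tcv_fam E.p3 hΩ hK0c hK0s
    (Eventually.of_forall fun k x hx => by simp [hχz x hx])
    (fun x hx => by simp [hχz x hx]) hwb
  obtain ⟨R, hR⟩ := hK.isBounded.subset_closedBall (0 : R4)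
  have hRz : ∀ {f : R4 → ℝ}, (∀ x ∉ K, f x = 0) → ∀ x, R < ‖x‖ → f x = 0 := by
    intro f hf x hx
    refine hf x fun hxK => ?_
    have := hR hxK
    rw [mem_closedBall_zero_iff] at this
    linarith
  obtain ⟨C, hC, hbound⟩ := T_bound R E'
  rw [Metric.tendsto_nhds]
  intro ε hε
  set A1 := 2 * L1 with hA1
  set A2 := 2 * L2 with hA2
  set A3 := 2 * L3 with hA3
  have hD : 0 < C * (A2 * A3 + A1 * A3 + A1 * A2) + 1 := by positivity
  set η := ε / (C * (A2 * A3 + A1 * A3 + A1 * A2) + 1) with hη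
  have hηpos : 0 < η := div_pos hε hD
  have b1 : β₁ - t < β₁ := by linarith
  have b2 : β₂ - t < β₂ := by linarith
  have b3 : β₃ - t < β₃ := by linarith
  filter_upwards [hz, hv2, hu2, hw2, hv3 _ E'.p1 b1 η hηpos, hu3 _ E'.p2 b2 η hηpos,
    hw3 _ E'.p3 b3 η hηpos] with k kz kv ku kw kv' ku' kw'
  rw [hred (vs k) (us k) (ws k) kz, hred v u w hz', Real.dist_eq]
  -- abbreviations
  set a := v
  set b : R4 → ℝ := fun x => χ x * u x with hb
  set c : R4 → ℝ := fun x => χ x * w x with hc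
  set a' := vs k
  set b' : R4 → ℝ := fun x => χ x * us k x with hb'
  set c' : R4 → ℝ := fun x => χ x * ws k x with hc'
  -- exponents β'
  have Va : Vc (β₁ - t) univ a :=
    ⟨⟨_, hv1.exp E'.p1 b1.le⟩, (hsup hz').1, subset_univ _⟩
  have hzd : ∀ x ∉ K, (fun x => a' x - a x) x = 0 := by
    intro x hx
    simp only
    rw [kz x hx, hz' x hx, sub_zero]
  have Vd : Vc (β₁ - t) univ (fun x => a' x - a x) :=
    ⟨⟨_, kv'⟩, (hsup hzd).1, subset_univ _⟩
  have Lb : LH (β₂ - t) univ b := LH.of_hb (hu1.exp E'.p2 b2.le) _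
  have Lb' : LH (β₂ - t) univ b' := LH.of_hb (ku.exp E'.p2 b2.le) _
  have Lbd : LH (β₂ - t) univ (fun x => b' x - b x) := LH.of_hb ku' _
  have Lc : LH (β₃ - t) univ c := LH.of_hb (hw1.exp E'.p3 b3.le) _
  have Lc' : LH (β₃ - t) univ c' := LH.of_hb (kw.exp E'.p3 b3.le) _
  have Lcd : LH (β₃ - t) univ (fun x => c' x - c x) := LH.of_hb kw' _
  have e1 : T a' b' c' = T a b' c' + T (fun x => a' x - a x) b' c' := by
    rw [← T_add₁ E' isOpen_univ Va Vd Lb' Lc']
    have hf : (fun x => a x + (a' x - a x)) = a' := by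
      funext x
      ring
    exact congrArg (fun f => T f b' c') hf.symm
  have e2 : T a b' c' = T a b c' + T a (fun x => b' x - b x) c' := by
    rw [← T_add₂ E' isOpen_univ Va Lb Lbd Lc']
    have hf : (fun x => b x + (b' x - b x)) = b' := by
      funext x
      ring
    exact congrArg (fun f => T a f c') hf.symm
  have e3 : T a b c' = T a b c + T a b (fun x => c' x - c x) := by
    rw [← T_add₃ E' isOpen_univ Va Lb Lc Lcd]
    have hf : (fun x => c x + (c' x - c x)) = c' := by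
      funext x
      ring
    exact congrArg (fun f => T a b f) hf.symm
  have f1 : |T (fun x => a' x - a x) b' c'| ≤ C * (η * A2 * A3) :=
    hbound _ _ _ _ _ _ kv' (ku.exp E'.p2 b2.le) (kw.exp E'.p3 b3.le) (hRz hzd)
  have f2 : |T a (fun x => b' x - b x) c'| ≤ C * (A1 * η * A3) :=
    hbound _ _ _ _ _ _ (hv1.exp E'.p1 b1.le) ku' (kw.exp E'.p3 b3.le) (hRz hz')
  have f3 : |T a b (fun x => c' x - c x)| ≤ C * (A1 * A2 * η) :=
    hbound _ _ _ _ _ _ (hv1.exp E'.p1 b1.le) (hu1.exp E'.p2 b2.le) kw' (hRz hz')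
  have hsum : T a' b' c' - T a b c =
      T (fun x => a' x - a x) b' c' + T a (fun x => b' x - b x) c' +
        T a b (fun x => c' x - c x) := by
    rw [e1, e2, e3]; ring
  rw [hsum]
  have hlt : C * (A2 * A3 + A1 * A3 + A1 * A2) * η < ε := by
    have h1 : (C * (A2 * A3 + A1 * A3 + A1 * A2) + 1) * η = ε := by
      rw [hη]; exact mul_div_cancel₀ _ hD.ne'
    nlinarith [h1, hηpos]
  calc |T (fun x => a' x - a x) b' c' + T a (fun x => b' x - b x) c' +
        T a b (fun x => c' x - c x)|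
      ≤ |T (fun x => a' x - a x) b' c' + T a (fun x => b' x - b x) c'| +
        |T a b (fun x => c' x - c x)| := abs_add_le _ _
    _ ≤ |T (fun x => a' x - a x) b' c'| + |T a (fun x => b' x - b x) c'| +
        |T a b (fun x => c' x - c x)| := by
        gcongr
        exact abs_add_le _ _
    _ ≤ C * (η * A2 * A3) + C * (A1 * η * A3) + C * (A1 * A2 * η) := by
        gcongr
    _ = C * (A2 * A3 + A1 * A3 + A1 * A2) * η := by ring
    _ < ε := hlt

end Pool.Agent.SYQ
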