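import Pool.Agent.SYQ.ApA
import Pool.Agent.SYQ.Tcv
import Pool.Agent.SYQ.TA2

/-!
# SYQ/Inv: smooth functions and Hölder symplectic homeomorphisms

`inv0`: both sides are additive in `v` (`T_add₁`; `χ ∘ e`, `w ∘ e` are `LH α` on `e.source`: `Ap.lh`, `LH.comp`; the right integrand is continuous with compact support in
`e.source`), so by `Vc.ind` one may assume `Vc α W v` with `W, f` from `Ap.cv`.
`χ ∘ f n → χ ∘ e`, `w ∘ f n → w ∘ e` in `Cv α W` (`Cv.comp`, `Ω' = e.target`), so `T v (χ ∘ f n) (w ∘ f n) → T v (χ ∘ e) (w ∘ e)` (`T_cv` with `vs = v`, `K = tsupport v`).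
Let `S ⊆ W` be a compact neighbourhood of `tsupport v`; for large `n` `f n` maps `S` into `e.target` (`Cv.maps`), so on the interior of `S`: `χ ∘ f n`, `w ∘ f n` are smooth,
`T_smooth` and `br_comp`: `T v (χ ∘ f n) (w ∘ f n) = ∫ v x * br χ w (f n x)`, and this tends to `∫ v x * br χ w (e x)` (uniform convergence on `tsupport v`: `br χ w` is continuous
on `e.target`, `br_contOn`).
-/

open MeasureTheory Set Filter Topology
open scoped ContDiff Matrix ENNReal

namespace Pool.Agent.SYQ

open Pool.Agent.SYH

variable {α : ℝ} {e : OpenPartialHomeomorph R4 R4} {v χ w : R4 → ℝ}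

private theorem Inv_int (h1 : 2 / 3 < α) {Ω Ω' : Set R4} (hΩ' : IsOpen Ω') (hv : Vc α Ω v)
    (hχ : ContDiffOn ℝ ∞ χ Ω') (hw : ContDiffOn ℝ ∞ w Ω') {φ : R4 → R4}
    (hφ : ContinuousOn φ (tsupport v)) (hm : MapsTo φ (tsupport v) Ω') :
    Integrable (fun x => v x * br χ w (φ x)) := by
  have h0 : 0 < α := by linarith
  have hvc : ContinuousOn v (tsupport v) :=
    (LH.cont isOpen_univ h0 (hv.lh univ)).mono (subset_univ _)
  have hb : ContinuousOn (fun x => br χ w (φ x)) (tsupport v) :=
    (br_contOn hΩ' hχ hw).continuousOn.comp hφ hm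
  rw [← integrableOn_iff_integrable_of_support_subset (s := tsupport v)]
  · exact (hvc.mul hb).integrableOn_compact hv.cpt
  · intro x hx
    apply subset_tsupport
    intro h
    apply hx
    simp only [h, zero_mul]

theorem inv0 (h1 : 2 / 3 < α) (h2 : α ≤ 1) (h : Ap α e) (hv : Vc α e.source v)
    (hχ : ContDiffOn ℝ ∞ χ e.target) (hw : ContDiffOn ℝ ∞ w e.target) :
    T v (fun x => χ (e x)) (fun x => w (e x)) = ∫ x, v x * br χ w (e x) := by
  have h0 : 0 < α := by linarith
  have E : Exq α α α := ⟨h0, h2, h0, h2, h0, h2, by linarith⟩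
  have hme : MapsTo e e.source e.target := e.mapsTo
  have hχ1 : ContDiffOn ℝ 1 χ e.target := hχ.of_le (by simp)
  have hw1 : ContDiffOn ℝ 1 w e.target := hw.of_le (by simp)
  have hχL : LH α e.source (fun x => χ (e x)) :=
    LH.comp e.open_source e.open_target h0 (fun b => h.lh h0 b) hme hχ1
  have hwL : LH α e.source (fun x => w (e x)) :=
    LH.comp e.open_source e.open_target h0 (fun b => h.lh h0 b) hme hw1
  have hint : ∀ v', Vc α e.source v' → Integrable (fun x => v' x * br χ w (e x)) := fun v' hv' =>
    Inv_int h1 e.open_target hv' hχ hw (e.continuousOn.mono hv'.supp) (hme.mono_left hv'.supp)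
  refine Vc.ind h0 h2 e.open_source
    (P := fun v => T v (fun x => χ (e x)) (fun x => w (e x)) = ∫ x, v x * br χ w (e x))
    ?_ ?_ ?_ hv
  · have h3 := T_smul₁ E e.open_source hv hχL hwL 0
    simp only [zero_mul] at h3
    simp only [zero_mul, integral_zero]
    exact h3
  · intro v1 v2 hv1 hv2 e1 e2
    simp only at e1 e2 ⊢
    rw [T_add₁ E e.open_source hv1 hv2 hχL hwL, e1, e2, ← integral_add (hint v1 hv1) (hint v2 hv2)]
    congr 1
    funext x
    ring
  · intro x hx
    obtain ⟨W, hW, hxW, hWs, f, hf, hJ, hcv⟩ := h.cv h0 hx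
    refine ⟨W, hW, hxW, hWs, fun v hv => ?_⟩
    have hmW : MapsTo e W e.target := hme.mono_left hWs
    have hK : IsCompact (tsupport v) := hv.cpt
    have c1 : Cv α W atTop (fun k x => χ (f k x)) (fun x => χ (e x)) :=
      Cv.comp hW e.open_target h0 hcv hmW hχ1
    have c2 : Cv α W atTop (fun k x => w (f k x)) (fun x => w (e x)) :=
      Cv.comp hW e.open_target h0 hcv hmW hw1
    have c3 : Cv α W atTop (fun k x => br χ w (f k x)) (fun x => br χ w (e x)) :=
      Cv.comp hW e.open_target h0 hcv hmW ((br_contOn e.open_target hχ hw).of_le (by simp))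
    have hz : ∀ x ∉ tsupport v, v x = 0 := fun x hx => image_eq_zero_of_notMem_tsupport hx
    have t1 : Tendsto (fun k => T v (fun x => χ (f k x)) (fun x => w (f k x))) atTop
        (𝓝 (T v (fun x => χ (e x)) (fun x => w (e x)))) :=
      T_cv E hW hK hv.supp (Eventually.of_forall fun _ => hz) hz (Cv.const atTop (hv.lh W)) c1 c2
    obtain ⟨S, hS, hKS, hSW⟩ := exists_compact_between hK hW hv.supp
    have hmaps := Cv.maps hW e.open_target h0 hcv hmW hS hSW
    have hvS : Vc α (interior S) v := ⟨hv.hb, hv.cpt, hKS⟩
    have e3 : ∀ᶠ k in atTop, T v (fun x => χ (f k x)) (fun x => w (f k x)) =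
        ∫ x, v x * br χ w (f k x) := by
      filter_upwards [hmaps] with k hk
      have hfS : ContDiffOn ℝ ∞ (f k) (interior S) := (hf k).mono (interior_subset.trans hSW)
      have hkS : MapsTo (f k) (interior S) e.target := fun y hy => hk y (interior_subset hy)
      refine (T_smooth h0 h2 isOpen_interior hvS (hχ.comp hfS hkS) (hw.comp hfS hkS)).trans ?_
      congr 1
      funext y
      by_cases hy : y ∈ interior S
      · congr 1
        have hyW : y ∈ W := hSW (interior_subset hy)
        have hty : f k y ∈ e.target := hkS hy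
        refine br_comp ?_ (hJ k y hyW) ?_ ?_
        · exact ((hf k).differentiableOn (by simp)).differentiableAt (hW.mem_nhds hyW)
        · exact (hχ.differentiableOn (by simp)).differentiableAt (e.open_target.mem_nhds hty)
        · exact (hw.differentiableOn (by simp)).differentiableAt (e.open_target.mem_nhds hty)
      · rw [hz y (fun h => hy (hKS h)), zero_mul, zero_mul]
    have hvi : Integrable (fun x => |v x|) := by
      have hc : Continuous v := by
        rw [← continuousOn_univ]
        exact LH.cont isOpen_univ h0 (hv.lh univ)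
      exact (hc.integrable_of_hasCompactSupport hv.cpt).abs
    have hint' := hint v (hv.mono hWs)
    have t2 : Tendsto (fun k => ∫ x, v x * br χ w (f k x)) atTop
        (𝓝 (∫ x, v x * br χ w (e x))) := by
      rw [Metric.tendsto_nhds]
      intro ε hε
      have hI : 0 ≤ ∫ x, |v x| := integral_nonneg fun x => abs_nonneg _
      have hε' : 0 < ε / (2 * (1 + ∫ x, |v x|)) := by positivity
      have hun := Metric.tendstoUniformlyOn_iff.1 (c3.un (tsupport v) hv.supp hK) _ hε'
      filter_upwards [hun, hmaps] with k hk hkm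
      have hik : Integrable (fun x => v x * br χ w (f k x)) := by
        refine Inv_int h1 e.open_target hv hχ hw ((hf k).continuousOn.mono hv.supp) ?_
        intro y hy
        exact hkm y (interior_subset (hKS hy))
      rw [dist_eq_norm, ← integral_sub hik hint']
      have h5 : ‖∫ x, (v x * br χ w (f k x) - v x * br χ w (e x))‖ ≤
          ∫ x, |v x| * (ε / (2 * (1 + ∫ x, |v x|))) := by
        refine norm_integral_le_of_norm_le (hvi.mul_const _) (Eventually.of_forall fun y => ?_)
        by_cases hy : y ∈ tsupport v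
        · rw [← mul_sub, norm_mul, Real.norm_eq_abs (v y)]
          refine mul_le_mul_of_nonneg_left ?_ (abs_nonneg _)
          have h6 := hk y hy
          rw [dist_comm, dist_eq_norm] at h6
          exact h6.le
        · rw [hz y hy]
          simp
      rw [integral_mul_const] at h5
      refine h5.trans_lt ?_
      rw [mul_div_assoc']
      rw [div_lt_iff₀ (by positivity)]
      nlinarith
    exact tendsto_nhds_unique (t1.congr' e3) t2

end Pool.Agent.SYQ
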