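import Pool.Agent.SYQ.Sew
import Pool.Agent.SYH.PoS

/-!
# SYQ/Pot: potentials of `f^* λ₀ - λ₀` for smooth symplectic maps

`prim_ex`: `κ` a smooth cutoff function, `κ = 1` on `closedBall z R'`, with support in `ball z R` (e.g. a `ContDiffBump`); `β a x = κ x * (Σ_b lam0 (f x) b * jac f x b a - lam0 x a)`,
smooth on the whole space.  On `closedBall z R'` (use a slightly larger ball for the derivatives; `κ = 1` on `closedBall z R''`, `R' < R'' < R`): `pd a (β b) = pd b (β a)`, because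
`∂_a (Σ_c lam0 (f)_c ∂_b f_c) - ∂_b (..)= (jacᵀ J jac)_{ab} = J_{ab}` and `∂_a lam0_b - ∂_b lam0_a = J_{ab}`.  `poincare_smooth`.
`pot_hold`: for `y, y' ∈ ball z R` let `γ t = f (y' + t (y - y'))`, `L' = L ‖y - y'‖ ^ α`.  `F y - F y' = ∫_0^1 d/dt F (y' + t (y - y')) dt =
∫_0^1 Σ_b lam0 (γ t) b * γ' t b dt - ∫_0^1 Σ_a lam0 (y' + t (y - y')) a * (y - y') a dt`; the first integral differs from `Σ_b lam0 (f y') b * (f y b - f y' b)` by at most
`C L² ‖y - y'‖ ^ (2 α)` (`sew`), and `|Σ_b ..| ≤ 2 M L ‖y - y'‖ ^ α`; the second is at most `2 (‖z‖ + R) ‖y - y'‖`.  `‖y - y'‖ ≤ 2 R`, so all are `≤ C' ‖y - y'‖ ^ α`.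
-/

open MeasureTheory Set Filter Topology
open scoped ContDiff Matrix ENNReal

namespace Pool.Agent.SYQ

open Pool.Agent.SYH

/-- `F` is a potential of `f^* λ₀ - λ₀` on `B` -/
def IsPot (f : R4 → R4) (F : R4 → ℝ) (B : Set R4) : Prop :=
  ContDiffOn ℝ ∞ F B ∧ ∀ y ∈ B, ∀ a, pd a F y = ∑ b, lam0 (f y) b * jac f y b a - lam0 y a

theorem Pot_jac {g : R4 → R4} {x : R4} (hg : DifferentiableAt ℝ g x) (a b : Fin 4) :
    jac g x b a = pd a (fun y => g y b) x := by
  have h1 : HasFDerivAt (fun y => g y b)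
      ((ContinuousLinearMap.proj (R := ℝ) (φ := fun _ : Fin 4 => ℝ) b).comp (fderiv ℝ g x)) x :=
    (ContinuousLinearMap.proj (R := ℝ) (φ := fun _ : Fin 4 => ℝ) b).hasFDerivAt.comp x
      hg.hasFDerivAt
  unfold pd
  rw [h1.fderiv]
  rfl

theorem Pot_lam (x : R4) (b : Fin 4) : lam0 x b = ∑ c, (1 / 2 * J c b) * x c := by
  simp only [lam0, Pi.smul_apply, smul_eq_mul, Matrix.vecMul, dotProduct, Finset.mul_sum]
  exact Finset.sum_congr rfl fun c _ => by ring

/-- the linear form `x ↦ lam0 x b` -/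
noncomputable def Pot_L (b : Fin 4) : R4 →L[ℝ] ℝ :=
  ∑ c, (1 / 2 * J c b) • (ContinuousLinearMap.proj (R := ℝ) (φ := fun _ : Fin 4 => ℝ) c)

theorem Pot_L_eq (b : Fin 4) : (fun x : R4 => lam0 x b) = Pot_L b := by
  funext x
  rw [Pot_lam]
  simp [Pot_L, sum_apply]

theorem Pot_lam_smooth (b : Fin 4) : ContDiff ℝ ∞ (fun x : R4 => lam0 x b) := by
  rw [Pot_L_eq]
  exact (Pot_L b).contDiff

theorem Pot_pd_lam (a b : Fin 4) (x : R4) : pd a (fun x : R4 => lam0 x b) x = 1 / 2 * J a b := by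
  unfold pd
  rw [Pot_L_eq, (Pot_L b).fderiv, ← congrFun (Pot_L_eq b), Pot_lam]
  simp [Pi.single_apply]

theorem Pot_pd_B {u w : R4 → R4} {x : R4} (a : Fin 4)
    (hu : ∀ c, DifferentiableAt ℝ (fun y => u y c) x) (hw : ∀ c, DifferentiableAt ℝ (fun y => w y c) x) :
    pd a (fun y => Sew_B (u y) (w y)) x =
      Sew_B (fun c => pd a (fun y => u y c) x) (w x) +
        Sew_B (u x) (fun c => pd a (fun y => w y c) x) := by
  have hu' := fun c => (hu c).hasFDerivAt
  have hw' := fun c => (hw c).hasFDerivAt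
  have h := (((((hu' 0).mul (hw' 1)).sub ((hu' 1).mul (hw' 0))).add ((hu' 2).mul (hw' 3))).sub
    ((hu' 3).mul (hw' 2))).const_mul (1 / 2)
  have h2 : HasFDerivAt (fun y => Sew_B (u y) (w y)) _ x :=
    h.congr_of_eventuallyEq (Eventually.of_forall fun y => by
      simp only [Sew_B, Pi.mul_apply, Pi.sub_apply, Pi.add_apply]
      ring)
  unfold pd
  rw [h2.fderiv]
  simp only [Sew_B, FunLike.coe_add, Pi.add_apply, FunLike.coe_sub, Pi.sub_apply, FunLike.coe_smul,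
    Pi.smul_apply, smul_eq_mul]
  ring

theorem Pot_pd_sub {ψ χ : R4 → ℝ} (a : Fin 4) {x : R4} (h : DifferentiableAt ℝ ψ x)
    (h' : DifferentiableAt ℝ χ x) :
    pd a (fun x => ψ x - χ x) x = pd a ψ x - pd a χ x := by
  unfold pd
  rw [fderiv_fun_sub h h']
  rfl

theorem Pot_glob {g : R4 → R4} {z : R4} {R' : ℝ} (hg : ContDiff ℝ ∞ g)
    (hJ : ∀ y ∈ Metric.closedBall z R', (jac g y)ᵀ * J * jac g y = J) :
    ∃ F : R4 → ℝ, ContDiff ℝ ∞ F ∧ F z = 0 ∧ ∀ y ∈ Metric.ball z R', ∀ a,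
      pd a F y = ∑ b, lam0 (g y) b * jac g y b a - lam0 y a := by
  have hgc : ∀ c, ContDiff ℝ ∞ (fun y => g y c) := fun c => (contDiff_pi.1 hg) c
  have hgd : Differentiable ℝ g := hg.differentiable (by simp)
  have hpd : ∀ a c, ContDiff ℝ ∞ (fun y => pd a (fun y => g y c) y) := fun a c =>
    pd_smooth a (hgc c)
  set β : Fin 4 → R4 → ℝ := fun a x =>
    Sew_B (g x) (fun c => pd a (fun y => g y c) x) - lam0 x a with hβd
  have hBs : ∀ a, ContDiff ℝ ∞ (fun x => Sew_B (g x) (fun c => pd a (fun y => g y c) x)) := by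
    intro a
    unfold Sew_B
    exact (((((hgc 0).mul (hpd a 1)).sub ((hgc 1).mul (hpd a 0))).add ((hgc 2).mul (hpd a 3))).sub
      ((hgc 3).mul (hpd a 2))).div_const 2
  have hβ : ∀ a, ContDiff ℝ ∞ (β a) := fun a => (hBs a).sub (Pot_lam_smooth a)
  have hpdβ : ∀ a b x, pd a (β b) x =
      Sew_B (fun c => pd a (fun y => g y c) x) (fun c => pd b (fun y => g y c) x) +
      Sew_B (g x) (fun c => pd a (pd b (fun y => g y c)) x) - 1 / 2 * J a b := by
    intro a b x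
    rw [hβd]
    simp only []
    rw [Pot_pd_sub a ((hBs b).differentiable (by simp) x)
      ((Pot_lam_smooth b).differentiable (by simp) x), Pot_pd_lam,
      Pot_pd_B a (fun c => (hgc c).differentiable (by simp) x)
        (fun c => (hpd b c).differentiable (by simp) x)]
  have hclosed : ∀ x ∈ Metric.closedBall z R', ∀ a b, pd a (β b) x = pd b (β a) x := by
    intro x hx a b
    rw [hpdβ, hpdβ]
    have h1 : (fun c => pd a (pd b (fun y => g y c)) x) = fun c => pd b (pd a (fun y => g y c)) x :=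
      funext fun c => pd_comm a b (hgc c) x
    rw [h1]
    have h2 := congrFun (congrFun (hJ x hx) a) b
    simp only [Matrix.mul_apply, Matrix.transpose_apply, Pot_jac (hgd x), Fin.sum_univ_four] at h2
    have h3 : J b a = - J a b := by
      fin_cases a <;> fin_cases b <;> simp [J]
    rw [h3]
    simp only [Sew_B]
    rw [← h2]
    simp [J]
    ring
  obtain ⟨F, h1, h2, h3⟩ := poincare_smooth hβ hclosed
  refine ⟨F, h1, h2, fun y hy a => ?_⟩
  rw [h3 y hy a]
  simp only [hβd]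
  rw [← Sew_B_eq]
  simp only [Pot_jac (hgd y)]

theorem prim_ex {f : R4 → R4} {z : R4} {R R' : ℝ} (h0 : 0 < R') (hR : R' < R)
    (hf : ContDiffOn ℝ ∞ f (Metric.ball z R))
    (hJ : ∀ y ∈ Metric.ball z R, (jac f y)ᵀ * J * jac f y = J) :
    ∃ F, F z = 0 ∧ IsPot f F (Metric.ball z R') := by
  set κ : ContDiffBump z := ⟨(R' + R) / 2, (R' + 3 * R) / 4, by linarith, by linarith⟩ with hκ
  have hin : κ.rIn = (R' + R) / 2 := rfl
  have hout : κ.rOut = (R' + 3 * R) / 4 := rfl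
  set g : R4 → R4 := fun x => κ x • f x with hgd
  have hg : ContDiff ℝ ∞ g := by
    rw [contDiff_iff_contDiffAt]
    intro x
    by_cases hx : x ∈ tsupport g
    swap
    · exact (contDiffAt_const (c := (0 : R4))).congr_of_eventuallyEq
        (notMem_tsupport_iff_eventuallyEq.1 hx)
    have h1 : tsupport g ⊆ tsupport κ := by
      refine closure_mono fun x hx => ?_
      rw [Function.mem_support] at hx ⊢
      intro hc
      exact hx (by simp only [hgd, hc, zero_smul])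
    have h2 : x ∈ Metric.ball z R := by
      have h3 := h1 hx
      rw [κ.tsupport_eq, Metric.mem_closedBall, hout] at h3
      rw [Metric.mem_ball]
      linarith
    exact (κ.contDiff.contDiffAt).smul (hf.contDiffAt (Metric.isOpen_ball.mem_nhds h2))
  have heq : ∀ x ∈ Metric.closedBall z R', g =ᶠ[𝓝 x] f := by
    intro x hx
    have h1 : x ∈ Metric.ball z κ.rIn := by
      rw [Metric.mem_closedBall] at hx
      rw [Metric.mem_ball, hin]
      linarith
    filter_upwards [Metric.isOpen_ball.mem_nhds h1] with y hy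
    simp only [hgd]
    rw [κ.one_of_mem_closedBall (Metric.ball_subset_closedBall hy), one_smul]
  have hjac : ∀ x ∈ Metric.closedBall z R', jac g x = jac f x := by
    intro x hx
    unfold jac
    rw [(heq x hx).fderiv_eq]
  obtain ⟨F, h1, h2, h3⟩ := Pot_glob (z := z) (R' := R') hg (fun y hy => by
    rw [hjac y hy]
    refine hJ y ?_
    rw [Metric.mem_closedBall] at hy
    rw [Metric.mem_ball]
    linarith)
  refine ⟨F, h2, h1.contDiffOn, fun y hy a => ?_⟩
  have hy' := Metric.ball_subset_closedBall hy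
  rw [h3 y hy a, hjac y hy', (heq y hy').eq_of_nhds]

theorem pot_hold {α : ℝ} (hα : 1 / 2 < α) (h2 : α ≤ 1) (z : R4) (R M L : ℝ) (hR : 0 < R) :
    ∃ C, 0 ≤ C ∧ ∀ (f : R4 → R4) (F : R4 → ℝ), ContDiffOn ℝ ∞ f (Metric.ball z R) →
      (∀ y ∈ Metric.ball z R, ‖f y‖ ≤ M) →
      (∀ y ∈ Metric.ball z R, ∀ y' ∈ Metric.ball z R, ‖f y - f y'‖ ≤ L * ‖y - y'‖ ^ α) →
      IsPot f F (Metric.ball z R) → ∀ y ∈ Metric.ball z R, ∀ y' ∈ Metric.ball z R,
        |F y - F y'| ≤ C * ‖y - y'‖ ^ α := by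
  obtain ⟨Cs, hCs, hsew⟩ := sew hα
  have hα0 : 0 < α := lt_trans (by norm_num) hα
  refine ⟨Cs * |L| ^ 2 * (2 * R) ^ α + 2 * |M| * |L| + 2 * (‖z‖ + R) * (2 * R) ^ (1 - α),
    by positivity, ?_⟩
  intro f F hf hM hH hF y hy y' hy'
  set w : R4 := y - y' with hw
  set c : ℝ → R4 := fun t => y' + t • w with hc
  have hcB : ∀ t ∈ Icc (0 : ℝ) 1, c t ∈ Metric.ball z R := by
    intro t ht
    have h1 := (convex_ball z R) hy' hy (sub_nonneg.2 ht.2) ht.1 (by ring)
    have h2 : c t = (1 - t) • y' + t • y := by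
      simp only [hc, hw, smul_sub, sub_smul, one_smul]
      abel
    rw [h2]
    exact h1
  have hcd : ∀ t, HasDerivAt c w t := by
    intro t
    have h1 := ((hasDerivAt_id t).smul_const w).const_add y'
    rw [one_smul] at h1
    exact h1
  have hcc : Continuous c := by
    simp only [hc]
    fun_prop
  have hfd : ∀ x ∈ Metric.ball z R, DifferentiableAt ℝ f x := fun x hx =>
    (hf.contDiffAt (Metric.isOpen_ball.mem_nhds hx)).differentiableAt (by simp)
  have hFd : ∀ x ∈ Metric.ball z R, DifferentiableAt ℝ F x := fun x hx =>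
    (hF.1.contDiffAt (Metric.isOpen_ball.mem_nhds hx)).differentiableAt (by simp)
  set γ : ℝ → R4 := fun t => f (c t) with hγ
  set γ' : ℝ → R4 := fun t => fderiv ℝ f (c t) w with hγ'
  have hγd : ∀ t ∈ Icc (0 : ℝ) 1, HasDerivAt γ (γ' t) t := by
    intro t ht
    exact ((hfd _ (hcB t ht)).hasFDerivAt).comp_hasDerivAt t (hcd t)
  have hγ'c : ContinuousOn γ' (Icc 0 1) := by
    have h1 : ContinuousOn (fderiv ℝ f) (Metric.ball z R) :=
      hf.continuousOn_fderiv_of_isOpen Metric.isOpen_ball (by simp)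
    exact (h1.comp hcc.continuousOn hcB).clm_apply continuousOn_const
  have hGd : ∀ t ∈ Icc (0 : ℝ) 1, HasDerivAt (fun t => F (c t)) (fderiv ℝ F (c t) w) t := by
    intro t ht
    exact ((hFd _ (hcB t ht)).hasFDerivAt).comp_hasDerivAt t (hcd t)
  have hG'c : ContinuousOn (fun t => fderiv ℝ F (c t) w) (Icc 0 1) := by
    have h1 : ContinuousOn (fderiv ℝ F) (Metric.ball z R) :=
      hF.1.continuousOn_fderiv_of_isOpen Metric.isOpen_ball (by simp)
    exact (h1.comp hcc.continuousOn hcB).clm_apply continuousOn_const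
  have hγh : ∀ s ∈ Icc (0 : ℝ) 1, ∀ t ∈ Icc (0 : ℝ) 1,
      ‖γ s - γ t‖ ≤ (|L| * ‖w‖ ^ α) * |s - t| ^ α := by
    intro s hs t ht
    have h1 := hH _ (hcB s hs) _ (hcB t ht)
    have h2 : c s - c t = (s - t) • w := by
      simp only [hc, sub_smul]
      abel
    rw [h2, norm_smul, Real.norm_eq_abs, Real.mul_rpow (abs_nonneg _) (norm_nonneg _)] at h1
    refine h1.trans ?_
    have h3 : L * (|s - t| ^ α * ‖w‖ ^ α) ≤ |L| * (|s - t| ^ α * ‖w‖ ^ α) :=
      mul_le_mul_of_nonneg_right (le_abs_self L) (by positivity)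
    refine h3.trans (le_of_eq (by ring))
  have hs := hsew γ γ' (|L| * ‖w‖ ^ α) (by positivity) hγd hγ'c hγh
  have hc0 : c 0 = y' := by simp [hc]
  have hc1 : c 1 = y := by simp [hc, hw]
  have hint : F y - F y' = ∫ t in (0 : ℝ)..1, fderiv ℝ F (c t) w := by
    rw [intervalIntegral.integral_eq_sub_of_hasDerivAt (f := fun t => F (c t))
      (fun t ht => hGd t (by rwa [uIcc_of_le zero_le_one] at ht))
      (ContinuousOn.intervalIntegrable (by rw [uIcc_of_le zero_le_one]; exact hG'c))]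
    simp only [hc0, hc1]
  have hG' : ∀ t ∈ Icc (0 : ℝ) 1, fderiv ℝ F (c t) w =
      (∑ b, lam0 (γ t) b * γ' t b) - Sew_B (c t) w := by
    intro t ht
    have h1 : ∀ b, γ' t b = ∑ a, w a * jac f (c t) b a := by
      intro b
      have h2 : w = ∑ a, w a • (Pi.single a (1 : ℝ) : R4) := by
        ext i
        simp [Finset.sum_apply, Pi.single_apply]
      simp only [hγ']
      conv_lhs => rw [h2]
      rw [map_sum, Finset.sum_apply]
      refine Finset.sum_congr rfl fun a _ => ?_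
      rw [map_smul]
      rfl
    rw [fderiv_eq_sum, ← Sew_B_eq]
    have h4 : ∀ a, w a * pd a F (c t) =
        (∑ b, lam0 (γ t) b * (w a * jac f (c t) b a)) - lam0 (c t) a * w a := by
      intro a
      rw [hF.2 _ (hcB t ht) a, mul_sub, Finset.mul_sum]
      congr 1
      · exact Finset.sum_congr rfl fun b _ => by simp only [hγ]; ring
      · ring
    simp only [h4, Finset.sum_sub_distrib, h1, Finset.mul_sum]
    rw [Finset.sum_comm]
  have hBc : ContinuousOn (fun t => Sew_B (c t) w) (Icc 0 1) := by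
    have h1 : ∀ a : Fin 4, ContinuousOn (fun t => c t a) (Icc 0 1) := fun a =>
      (continuous_apply a).comp_continuousOn hcc.continuousOn
    unfold Sew_B
    exact (((((h1 0).mul continuousOn_const).sub ((h1 1).mul continuousOn_const)).add
      ((h1 2).mul continuousOn_const)).sub ((h1 3).mul continuousOn_const)).div_const 2
  have hlc : ContinuousOn (fun t => ∑ b, lam0 (γ t) b * γ' t b) (Icc 0 1) := by
    have h1 : ContinuousOn (fun t => fderiv ℝ F (c t) w + Sew_B (c t) w) (Icc 0 1) := hG'c.add hBc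
    refine h1.congr fun t ht => ?_
    simp only []
    rw [hG' t ht]
    ring
  have hII : ∀ {g : ℝ → ℝ}, ContinuousOn g (Icc 0 1) → IntervalIntegrable g volume 0 1 := by
    intro g hg
    exact ContinuousOn.intervalIntegrable (by rw [uIcc_of_le zero_le_one]; exact hg)
  have hsplit : F y - F y' = (∫ t in (0 : ℝ)..1, ∑ b, lam0 (γ t) b * γ' t b) -
      ∫ t in (0 : ℝ)..1, Sew_B (c t) w := by
    rw [hint, ← intervalIntegral.integral_sub (hII hlc) (hII hBc)]
    refine intervalIntegral.integral_congr fun t ht => ?_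
    rw [uIcc_of_le zero_le_one] at ht
    exact hG' t ht
  have hb2 : |∫ t in (0 : ℝ)..1, Sew_B (c t) w| ≤ 2 * (‖z‖ + R) * ‖w‖ := by
    have h1 := intervalIntegral.norm_integral_le_of_norm_le_const (a := (0 : ℝ)) (b := 1)
      (f := fun t => Sew_B (c t) w) (C := 2 * (‖z‖ + R) * ‖w‖) (by
        intro t ht
        rw [uIoc_of_le zero_le_one] at ht
        have h2 := hcB t (Ioc_subset_Icc_self ht)
        rw [Real.norm_eq_abs]
        refine (Sew_B_le _ _).trans ?_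
        have h3 : ‖c t‖ ≤ ‖z‖ + R := by
          rw [Metric.mem_ball, dist_eq_norm] at h2
          have h4 : c t = z + (c t - z) := by abel
          rw [h4]
          exact (norm_add_le _ _).trans (by linarith)
        gcongr)
    simpa using h1
  have hb1 : |∑ b, lam0 (γ 0) b * (γ 1 b - γ 0 b)| ≤ 2 * |M| * |L| * ‖w‖ ^ α := by
    have h1 := Sew_B_eq (γ 0) (γ 1 - γ 0)
    simp only [Pi.sub_apply] at h1
    rw [h1]
    refine (Sew_B_le _ _).trans ?_
    have h2 : ‖γ 0‖ ≤ |M| := by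
      simp only [hγ]
      exact (hM _ (hcB 0 ⟨le_rfl, zero_le_one⟩)).trans (le_abs_self M)
    have h3 := hγh 1 ⟨zero_le_one, le_rfl⟩ 0 ⟨le_rfl, zero_le_one⟩
    rw [sub_zero, abs_one, Real.one_rpow, mul_one] at h3
    calc 2 * ‖γ 0‖ * ‖γ 1 - γ 0‖ ≤ 2 * |M| * (|L| * ‖w‖ ^ α) := by gcongr
      _ = 2 * |M| * |L| * ‖w‖ ^ α := by ring
  have hwR : ‖w‖ ≤ 2 * R := by
    rw [Metric.mem_ball] at hy hy'
    rw [hw, ← dist_eq_norm]
    have h1 := dist_triangle_right y y' z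
    linarith
  have hp1 : ‖w‖ ≤ ‖w‖ ^ α * (2 * R) ^ (1 - α) := by
    rcases (norm_nonneg w).eq_or_lt with h | h
    · rw [← h, Real.zero_rpow hα0.ne', zero_mul]
    · have h1 : ‖w‖ = ‖w‖ ^ α * ‖w‖ ^ (1 - α) := by
        rw [← Real.rpow_add h, add_sub_cancel, Real.rpow_one]
      conv_lhs => rw [h1]
      have h2 : ‖w‖ ^ (1 - α) ≤ (2 * R) ^ (1 - α) :=
        Real.rpow_le_rpow h.le hwR (by linarith)
      gcongr
  have hp2 : ‖w‖ ^ α ≤ (2 * R) ^ α := Real.rpow_le_rpow (norm_nonneg _) hwR hα0.le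
  rw [hsplit]
  have h5 : |(∫ t in (0 : ℝ)..1, ∑ b, lam0 (γ t) b * γ' t b) -
      ∫ t in (0 : ℝ)..1, Sew_B (c t) w| ≤ Cs * (|L| * ‖w‖ ^ α) ^ 2 + 2 * |M| * |L| * ‖w‖ ^ α +
      2 * (‖z‖ + R) * ‖w‖ := by
    have h6 : (∫ t in (0 : ℝ)..1, ∑ b, lam0 (γ t) b * γ' t b) -
      ∫ t in (0 : ℝ)..1, Sew_B (c t) w =
      ((∫ t in (0 : ℝ)..1, ∑ b, lam0 (γ t) b * γ' t b) -
        ∑ b, lam0 (γ 0) b * (γ 1 b - γ 0 b)) + (∑ b, lam0 (γ 0) b * (γ 1 b - γ 0 b)) +
        (- ∫ t in (0 : ℝ)..1, Sew_B (c t) w) := by ring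
    rw [h6]
    refine (abs_add_le _ _).trans (add_le_add ((abs_add_le _ _).trans (add_le_add hs hb1)) ?_)
    rw [abs_neg]
    exact hb2
  refine h5.trans ?_
  have h7 : Cs * (|L| * ‖w‖ ^ α) ^ 2 ≤ Cs * |L| ^ 2 * (2 * R) ^ α * ‖w‖ ^ α := by
    have h8 : Cs * (|L| * ‖w‖ ^ α) ^ 2 = Cs * |L| ^ 2 * (‖w‖ ^ α) * ‖w‖ ^ α := by ring
    rw [h8]
    gcongr
  have h9 : 2 * (‖z‖ + R) * ‖w‖ ≤ 2 * (‖z‖ + R) * (2 * R) ^ (1 - α) * ‖w‖ ^ α := by
    have h10 : 2 * (‖z‖ + R) * (2 * R) ^ (1 - α) * ‖w‖ ^ α =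
        2 * (‖z‖ + R) * (‖w‖ ^ α * (2 * R) ^ (1 - α)) := by ring
    rw [h10]
    exact mul_le_mul_of_nonneg_left hp1 (by positivity)
  have h11 : (Cs * |L| ^ 2 * (2 * R) ^ α + 2 * |M| * |L| + 2 * (‖z‖ + R) * (2 * R) ^ (1 - α)) *
      ‖w‖ ^ α = Cs * |L| ^ 2 * (2 * R) ^ α * ‖w‖ ^ α + 2 * |M| * |L| * ‖w‖ ^ α +
      2 * (‖z‖ + R) * (2 * R) ^ (1 - α) * ‖w‖ ^ α := by ring
  rw [h11]
  linarith

end Pool.Agent.SYQ
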