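import Pool.Agent.SYQ.Pot
import Pool.Agent.SYQ.Asc
import Pool.Agent.SYQ.ExI
import Pool.Agent.SYQ.ApA

/-!
# SYQ/PtX: potentials of `e^* λ₀ - λ₀` for Hölder symplectic homeomorphisms

`W, f, L` near `x` from `Ap`; `closedBall x (2 R) ⊆ W`; `f n` is bounded on `ball x (2 R)`, uniformly in `n` for large `n` (uniform convergence; `e` is bounded on `closedBall x (2 R)`); drop finitely many
`n`.  `prim_ex` (`z = x`, radii `R < 2 R`): `F n` on `B = ball x R`, `F n x = 0`; `pot_hold`: uniform Hölder constant; `asc` along `U = hyperfilter ℕ`: `F n → G` in `Cv α B U`.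
For test functions `v, u` on `B`: `∫ F n br v u = ∫ v br u (F n)` (`int_cyc` after multiplying `F n` by a cutoff function; or `T_smooth` and `T_cyc`), and by `IsPot`
`br u (F n) = Σ_b lam0 (f n)_b br u (f n)_b - Σ_b lam0_b br u x_b` on `B`, so by `T_smooth` `∫ F n br v u = LamP (f n) v u - LamP id v u`.  Let `n → U`: the left side tends to
`∫ G br v u` (uniform convergence on `tsupport v`), and `LamP (f n) v u → LamP e v u` (`T_cv`, `Cv.mul`; `Cv α B U (f n)_b e_b` from `Ap`).
-/

open MeasureTheory Set Filter Topology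
open scoped ContDiff Matrix ENNReal

namespace Pool.Agent.SYQ

open Pool.Agent.SYH

private theorem PtX_pd {g : R4 → R4} {y : R4} (hg : DifferentiableAt ℝ g y) (a b : Fin 4) :
    pd a (fun z => g z b) y = jac g y b a := by
  have h1 : HasFDerivAt (fun z => g z b)
      ((ContinuousLinearMap.proj (R := ℝ) (φ := fun _ : Fin 4 => ℝ) b).comp (fderiv ℝ g y)) y :=
    (hasFDerivAt_pi'.1 hg.hasFDerivAt) b
  unfold pd
  rw [h1.fderiv]
  rfl

private theorem PtX_pdid (y : R4) (a b : Fin 4) :
    pd a (fun z : R4 => z b) y = if a = b then 1 else 0 := by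
  have h1 : HasFDerivAt (fun z : R4 => z b)
      (ContinuousLinearMap.proj (R := ℝ) (φ := fun _ : Fin 4 => ℝ) b) y :=
    hasFDerivAt_apply b y
  unfold pd
  rw [h1.fderiv]
  show (Pi.single a (1 : ℝ) : R4) b = _
  rw [Pi.single_apply]
  by_cases h : a = b
  · rw [if_pos h, if_pos h.symm]
  · rw [if_neg h, if_neg (fun h' => h h'.symm)]

private theorem PtX_lam (b : Fin 4) : ContDiff ℝ ∞ (fun x : R4 => lam0 x b) := by
  have h : (fun x : R4 => lam0 x b) = fun x : R4 => (1 / 2 : ℝ) * ∑ a, x a * J a b := by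
    funext x
    simp only [lam0, Pi.smul_apply, Matrix.vecMul, dotProduct, smul_eq_mul]
  rw [h]
  refine contDiff_const.mul (ContDiff.sum fun a _ => ?_)
  exact (contDiff_apply ℝ ℝ a).mul contDiff_const

private theorem PtX_T {α : ℝ} (h0 : 0 < α) (h2 : α ≤ 1) {B : Set R4} (hB : IsOpen B)
    {g : R4 → R4} (hg : ContDiffOn ℝ ∞ g B) {v u : R4 → ℝ} (hv : Test B v) (hu : Test B u) :
    LamP g v u = ∫ y, v y * ∑ b, lam0 (g y) b * br u (fun z => g z b) y := by
  have hgb : ∀ b, ContDiffOn ℝ ∞ (fun y => g y b) B := fun b => (contDiffOn_pi.1 hg) b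
  have hlb : ∀ b, ContDiffOn ℝ ∞ (fun y => lam0 (g y) b) B := fun b =>
    (PtX_lam b).comp_contDiffOn hg
  have hbr : ∀ b, ContDiffOn ℝ ∞ (br u (fun z => g z b)) B := fun b =>
    br_contOn hB hu.smooth.contDiffOn (hgb b)
  have hT : ∀ b, T (fun y => v y * lam0 (g y) b) u (fun y => g y b) =
      ∫ y, (v y * lam0 (g y) b) * br u (fun z => g z b) y := by
    intro b
    refine T_smooth h0 h2 hB ?_ hu.smooth.contDiffOn (hgb b)
    exact Vc.mul_lh hB h0 (Vc.of_test hv h0 h2)
      (LH.of_smooth hB h0 h2 ((hlb b).of_le (by exact_mod_cast le_top)))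
  have hint : ∀ b, Integrable (fun y => (v y * lam0 (g y) b) * br u (fun z => g z b) y) := by
    intro b
    have h1 := LpL.int (LpL.of_cont (p := 1) hB ((hlb b).continuousOn.mul (hbr b).continuousOn))
      hv.smooth.continuous hv.cpt hv.supp
    refine h1.congr (Filter.Eventually.of_forall fun y => ?_)
    show lam0 (g y) b * br u (fun z => g z b) y * v y = _
    ring
  unfold LamP
  rw [Finset.sum_congr rfl fun b _ => hT b, ← integral_finsetSum _ fun b _ => hint b]
  refine integral_congr_ae (Filter.Eventually.of_forall fun y => ?_)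
  show ∑ b, v y * lam0 (g y) b * br u (fun z => g z b) y =
    v y * ∑ b, lam0 (g y) b * br u (fun z => g z b) y
  rw [Finset.mul_sum]
  exact Finset.sum_congr rfl fun b _ => by ring

private theorem PtX_br {B : Set R4} (hB : IsOpen B) {f : R4 → R4} {F : R4 → ℝ}
    (hf : ContDiffOn ℝ ∞ f B) (hF : IsPot f F B) (u : R4 → ℝ) {y : R4} (hy : y ∈ B) :
    br u F y = ∑ b, lam0 (f y) b * br u (fun z => f z b) y -
      ∑ b, lam0 y b * br u (fun z : R4 => z b) y := by
  have hd : DifferentiableAt ℝ f y :=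
    (hf.contDiffAt (hB.mem_nhds hy)).differentiableAt (by simp)
  have h1 := hF.2 y hy
  simp only [br, pair, h1, PtX_pd hd, PtX_pdid, Fin.sum_univ_four]
  simp only [show ((0 : Fin 4) = 1) = False from by simp, show ((0 : Fin 4) = 2) = False from by simp,
    show ((0 : Fin 4) = 3) = False from by simp, show ((1 : Fin 4) = 0) = False from by simp,
    show ((1 : Fin 4) = 2) = False from by simp, show ((1 : Fin 4) = 3) = False from by simp,
    show ((2 : Fin 4) = 0) = False from by simp, show ((2 : Fin 4) = 1) = False from by simp,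
    show ((2 : Fin 4) = 3) = False from by simp, show ((3 : Fin 4) = 0) = False from by simp,
    show ((3 : Fin 4) = 1) = False from by simp, show ((3 : Fin 4) = 2) = False from by simp,
    if_true, if_false]
  ring

theorem pot_ex {α : ℝ} (h1 : 2 / 3 < α) (h2 : α ≤ 1) {e : OpenPartialHomeomorph R4 R4}
    (h : Ap α e) {x : R4} (hx : x ∈ e.source) :
    ∃ r > 0, Metric.ball x r ⊆ e.source ∧ ∃ G, LH α (Metric.ball x r) G ∧
      ∀ v u, Test (Metric.ball x r) v → Test (Metric.ball x r) u →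
        ∫ y, G y * br v u y = LamP e v u - LamP id v u := by
  have h0 : 0 < α := by linarith
  have E := Exq.of h1 h2
  obtain ⟨W, hW, hxW, hWs, f, L, hsm, -, hsy, hun, hho⟩ := h x hx
  obtain ⟨ρ, hρ, hρW⟩ := Metric.isOpen_iff.1 hW x hxW
  obtain ⟨R, hR⟩ : ∃ R : ℝ, R = ρ / 2 := ⟨_, rfl⟩
  have hR0 : 0 < R := by rw [hR]; positivity
  have h2R : Metric.ball x (2 * R) ⊆ W := by
    rw [hR, mul_div_cancel₀ _ (two_ne_zero)]
    exact hρW
  have hRR : Metric.ball x R ⊆ Metric.ball x (2 * R) := Metric.ball_subset_ball (by linarith)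
  have hRW : Metric.ball x R ⊆ W := hRR.trans h2R
  -- uniform bound
  have hcx : Tendsto (fun n => f n x) atTop (𝓝 (e x)) := hun.tendsto_at hxW
  obtain ⟨M0, hM0⟩ := isBounded_iff_forall_norm_le.1 (Metric.isBounded_range_of_tendsto _ hcx)
  obtain ⟨M, hM⟩ : ∃ M : ℝ, M = M0 + |L| * (2 * R) ^ α := ⟨_, rfl⟩
  have hMb : ∀ n, ∀ y ∈ Metric.ball x (2 * R), ‖f n y‖ ≤ M := by
    intro n y hy
    have e1 := hho n y (h2R hy) x hxW
    have e2 : ‖y - x‖ ≤ 2 * R := by
      rw [← dist_eq_norm]
      exact (Metric.mem_ball.1 hy).le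
    have e3 : L * ‖y - x‖ ^ α ≤ |L| * (2 * R) ^ α :=
      (mul_le_mul_of_nonneg_right (le_abs_self L) (Real.rpow_nonneg (norm_nonneg _) α)).trans
        (mul_le_mul_of_nonneg_left (Real.rpow_le_rpow (norm_nonneg _) e2 h0.le) (abs_nonneg L))
    have e4 := hM0 (f n x) (Set.mem_range_self n)
    have e5 : f n y = (f n y - f n x) + f n x := by abel
    rw [e5, hM]
    refine (norm_add_le _ _).trans ?_
    linarith
  -- potentials
  have hpr : ∀ n, ∃ F, F x = 0 ∧ IsPot (f n) F (Metric.ball x R) := fun n =>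
    prim_ex hR0 (by linarith) ((hsm n).mono h2R) (fun y hy => hsy n y (h2R hy))
  choose F hF0 hF using hpr
  obtain ⟨C, -, hC⟩ := pot_hold (α := α) (by linarith) h2 x R M L hR0
  have hFh : ∀ n, ∀ y ∈ Metric.ball x R, ∀ y' ∈ Metric.ball x R,
      |F n y - F n y'| ≤ C * ‖y - y'‖ ^ α := fun n =>
    hC (f n) (F n) ((hsm n).mono hRW) (fun y hy => hMb n y (hRR hy))
      (fun y hy y' hy' => hho n y (hRW hy) y' (hRW hy')) (hF n)
  obtain ⟨G, hG⟩ := asc h0 (Filter.hyperfilter ℕ) hF0 hR0 hFh
  have hB : IsOpen (Metric.ball x R) := Metric.isOpen_ball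
  have hle : ((Filter.hyperfilter ℕ : Ultrafilter ℕ) : Filter ℕ) ≤ atTop :=
    Nat.hyperfilter_le_atTop
  have hcvf : ∀ b, Cv α (Metric.ball x R) ((Filter.hyperfilter ℕ : Ultrafilter ℕ) : Filter ℕ)
      (fun n y => f n y b) (fun y => e y b) := by
    intro b
    refine Cv.le ?_ hle
    refine ⟨(Ap.lh h0 h b).mono (hRW.trans hWs), ?_, ?_⟩
    · intro K hK _
      rw [Metric.tendstoUniformlyOn_iff]
      intro ε hε
      filter_upwards [(Metric.tendstoUniformlyOn_iff.1 hun) ε hε] with n hn y hy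
      refine lt_of_le_of_lt ?_ (hn y (hRW (hK hy)))
      rw [Real.dist_eq, dist_eq_norm]
      exact norm_le_pi_norm (e y - f n y) b
    · intro K hK _
      refine ⟨L, Filter.Eventually.of_forall fun n y hy y' hy' => ?_⟩
      exact (norm_le_pi_norm (f n y - f n y') b).trans (hho n y (hRW (hK hy)) y' (hRW (hK hy')))
  refine ⟨R, hR0, hRW.trans hWs, G, hG.lim, fun v u hv hu => ?_⟩
  obtain ⟨κ, hκ, -, O, hO, hKO, -, hO1⟩ := cut_ex hB hv.cpt hv.supp
  have hvV : Vc α (Metric.ball x R) v := Vc.of_test hv h0 h2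
  have huV : Vc α (Metric.ball x R) u := Vc.of_test hu h0 h2
  have hv0 : ∀ y ∉ tsupport v, v y = 0 := fun y hy => image_eq_zero_of_notMem_tsupport hy
  -- the limit of the left side
  have hl1 : Tendsto (fun n => T v u (F n)) ((Filter.hyperfilter ℕ : Ultrafilter ℕ) : Filter ℕ)
      (𝓝 (T v u G)) :=
    T_cv E hB hv.cpt hv.supp (Filter.Eventually.of_forall fun _ => hv0) hv0
      (Cv.const _ (hvV.lh _)) (Cv.const _ (huV.lh _)) hG
  -- for every n
  have hn : ∀ n, T v u (F n) = LamP (f n) v u - LamP id v u := by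
    intro n
    have hfn := (hsm n).mono hRW
    rw [T_smooth h0 h2 hB hvV hu.smooth.contDiffOn (hF n).1, PtX_T h0 h2 hB hfn hv hu,
      PtX_T h0 h2 hB (g := id) contDiffOn_id hv hu]
    have hi : ∀ g : R4 → R4, ContDiffOn ℝ ∞ g (Metric.ball x R) → Integrable
        (fun y => v y * ∑ b, lam0 (g y) b * br u (fun z => g z b) y) := by
      intro g hg
      have hgb : ∀ b, ContDiffOn ℝ ∞ (fun y => g y b) (Metric.ball x R) := fun b =>
        (contDiffOn_pi.1 hg) b
      have hs : ContinuousOn (fun y => ∑ b, lam0 (g y) b * br u (fun z => g z b) y)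
          (Metric.ball x R) := by
        refine continuousOn_finsetSum _ fun b _ => ?_
        exact ((PtX_lam b).comp_contDiffOn hg).continuousOn.mul
          (br_contOn hB hu.smooth.contDiffOn (hgb b)).continuousOn
      have h1 := LpL.int (LpL.of_cont (p := 1) hB hs) hv.smooth.continuous hv.cpt hv.supp
      refine h1.congr (Filter.Eventually.of_forall fun y => ?_)
      show _ * v y = v y * _
      ring
    rw [← integral_sub (hi _ hfn) (hi id contDiffOn_id)]
    refine integral_congr_ae (Filter.Eventually.of_forall fun y => ?_)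
    show v y * br u (F n) y = v y * _ - v y * _
    by_cases hy : y ∈ tsupport v
    · rw [PtX_br hB hfn (hF n) u (hv.supp hy), mul_sub]
      rfl
    · rw [hv0 y hy]
      ring
  -- the limit of the right side
  have hl2 : Tendsto (fun n => LamP (f n) v u)
      ((Filter.hyperfilter ℕ : Ultrafilter ℕ) : Filter ℕ) (𝓝 (LamP e v u)) := by
    unfold LamP
    refine tendsto_finsetSum _ fun b _ => ?_
    have hlam : Cv α (Metric.ball x R) ((Filter.hyperfilter ℕ : Ultrafilter ℕ) : Filter ℕ)
        (fun n y => lam0 (f n y) b) (fun y => lam0 (e y) b) :=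
      Cv.comp hB isOpen_univ h0 hcvf (Set.mapsTo_univ _ _)
        (U := fun y => lam0 y b) (((PtX_lam b).of_le (by exact_mod_cast le_top)).contDiffOn)
    refine T_cv E hB hv.cpt hv.supp (Filter.Eventually.of_forall fun n y hy => ?_)
      (fun y hy => ?_) (Cv.mul hB h0 (Cv.const _ (hvV.lh _)) hlam) (Cv.const _ (huV.lh _))
      (hcvf b)
    · rw [hv0 y hy, zero_mul]
    · rw [hv0 y hy, zero_mul]
  have hl3 : Tendsto (fun n => T v u (F n)) ((Filter.hyperfilter ℕ : Ultrafilter ℕ) : Filter ℕ)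
      (𝓝 (LamP e v u - LamP id v u)) := by
    have h3 := hl2.sub_const (LamP id v u)
    refine h3.congr fun n => (hn n).symm
  have hTG : T v u G = LamP e v u - LamP id v u := tendsto_nhds_unique hl1 hl3
  rw [← hTG]
  -- the left side
  have hκG : Vc α (Metric.ball x R) (fun y => κ y * G y) :=
    Vc.mul_lh hB h0 (Vc.of_test hκ h0 h2) hG.lim
  have hA : T v u G = T v u (fun y => κ y * G y) :=
    (T_congr hv.cpt hO hKO (fun _ _ => rfl) (fun y hy => by rw [hO1 y hy, one_mul])).symm
  have hA2 : T (fun y => κ y * G y) v u = T v u (fun y => κ y * G y) :=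
    T_cyc E hB hκG hvV (huV.lh _)
  rw [hA, ← hA2, T_smooth h0 h2 hB hκG hv.smooth.contDiffOn hu.smooth.contDiffOn]
  refine integral_congr_ae (Filter.Eventually.of_forall fun y => ?_)
  show G y * br v u y = κ y * G y * br v u y
  by_cases hy : y ∈ tsupport v
  · rw [hO1 y (hKO hy), one_mul]
  · have h5 : br v u y = 0 := by
      simp only [br, pair, pd_eq_zero _ hy]
      ring
    rw [h5, mul_zero, mul_zero]

end Pool.Agent.SYQ
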