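import Pool.Agent.SYQ.ExI
import Pool.Agent.SYQ.ApA

/-!
# SYQ/QA: elementary facts on the atlas
-/

open MeasureTheory Set Filter Topology
open scoped ContDiff Matrix ENNReal

namespace Pool.Agent.SYQ

open Pool.Agent.SYH

namespace At

variable {α : ℝ} {M : Type*} [TopologicalSpace M] {ι : Type*} (A : At α M ι)

theorem mem_D {i : ι} {V : Set M} {y : R4} :
    y ∈ A.D i V ↔ y ∈ (A.x i).target ∧ (A.x i).symm y ∈ V := by
  exact Iff.rfl

theorem D_open (i : ι) {V : Set M} (hV : IsOpen V) : IsOpen (A.D i V) := by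
  exact (A.x i).isOpen_inter_preimage_symm hV

theorem D_mono (i : ι) {V W : Set M} (h : V ⊆ W) : A.D i V ⊆ A.D i W := by
  exact fun y hy => ⟨hy.1, h hy.2⟩

theorem D_inter (i : ι) (V W : Set M) : A.D i (V ∩ W) = A.D i V ∩ A.D i W := by
  ext y
  simp only [D, mem_inter_iff, mem_preimage]
  tauto

theorem x_mem_D {i : ι} {V : Set M} {m : M} (h : m ∈ (A.x i).source) (h' : m ∈ V) :
    A.x i m ∈ A.D i V := by
  refine ⟨(A.x i).map_source h, ?_⟩
  rw [mem_preimage, (A.x i).left_inv h]
  exact h'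

theorem tr_source (i j : ι) : (A.tr i j).source = A.D i (A.x j).source := by
  rw [tr, OpenPartialHomeomorph.trans_source, OpenPartialHomeomorph.symm_source]
  rfl

theorem tr_target (i j : ι) : (A.tr i j).target = A.D j (A.x i).source := by
  rw [tr, OpenPartialHomeomorph.trans_target, OpenPartialHomeomorph.symm_target]
  rfl

theorem tr_apply (i j : ι) (y : R4) : A.tr i j y = A.x j ((A.x i).symm y) := by
  rfl

theorem symm_tr {i j : ι} {y : R4} (h : y ∈ A.D i (A.x j).source) :
    (A.x j).symm (A.tr i j y) = (A.x i).symm y := by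
  rw [tr_apply, (A.x j).left_inv h.2]

theorem D_tr (i j : ι) (V : Set M) :
    A.D i (V ∩ (A.x j).source) = (A.tr i j).source ∩ A.tr i j ⁻¹' (A.D j (V ∩ (A.x i).source)) := by
  ext y
  rw [tr_source]
  simp only [mem_inter_iff, mem_preimage]
  constructor
  · intro h
    have h1 : y ∈ A.D i (A.x j).source := ⟨h.1, h.2.2⟩
    refine ⟨h1, ?_, ?_⟩
    · rw [tr_apply]
      exact (A.x j).map_source h.2.2
    · rw [mem_preimage, A.symm_tr h1]
      exact ⟨h.2.1, (A.x i).map_target h.1⟩
  · rintro ⟨h1, h2⟩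
    have h3 := h2.2
    rw [mem_preimage, A.symm_tr h1] at h3
    exact ⟨h1.1, h3.1, h1.2⟩

theorem mpre (i j : ι) : MPre (A.tr i j) := A.mp i j

theorem apx (i j : ι) : Ap α (A.tr i j) := A.ap i j

theorem tr_symm (i j : ι) : (A.tr i j).symm = A.tr j i := by
  unfold tr
  rw [OpenPartialHomeomorph.trans_symm_eq_symm_trans_symm, OpenPartialHomeomorph.symm_symm]

include A in
theorem h0 : 0 < α := by
  have := A.h1
  linarith

theorem Lam_eq (r j : ι) (v u : R4 → ℝ) : A.Lam r j v u = LamP (A.tr r j) v u := rfl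

end At

end Pool.Agent.SYQ
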