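import Pool.Agent.SYQ.QA

/-!
# SYQ/QB: Hölder functions on the manifold

Chart by chart (`LH.*`, `A.D_open`, `A.D_mono`, `A.D_inter`).  `HC.loc`: `LH.loc` on `D r V`: for `y ∈ D r V` and `m = (x r).symm y` use `D r O`.
`HC.cont`: near `m ∈ V ∩ (x i).source`: `u = lc i u ∘ x i` (`LH.cont`).
`HC.of_sc`: on `D r V`: `lc r u y = lc i u (tr r i y)` (`symm_tr`); `LH.comp` with `φ = tr r i` (`Ap.lh (A.apx r i)`; `D r V ⊆ (tr r i).source`), `Ω' = D i V`.
`Vm`: Hölder functions with compact support in `V`.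
`Vm.of`: `T` is closed; `HC.loc` with the open sets `V` and `Tᶜ` (where `v = 0`).
-/

open MeasureTheory Set Filter Topology
open scoped ContDiff Matrix ENNReal

namespace Pool.Agent.SYQ

open Pool.Agent.SYH

namespace At

variable {α : ℝ} {M : Type*} [TopologicalSpace M] {ι : Type*} {A : At α M ι}
  {V W : Set M} {u v w : M → ℝ} {i : ι}

theorem HC.mono (h : A.HC V u) (hs : W ⊆ V) : A.HC W u := by
  exact fun i => (h i).mono (A.D_mono i hs)

theorem HC.const (A : At α M ι) (V : Set M) (c : ℝ) : A.HC V (fun _ => c) := by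
  exact fun i => LH.const α c _

theorem HC.add (h : A.HC V u) (h' : A.HC V v) : A.HC V (fun m => u m + v m) := by
  exact fun i => (h i).add (h' i)

theorem HC.sub (h : A.HC V u) (h' : A.HC V v) : A.HC V (fun m => u m - v m) := by
  exact fun i => (h i).sub (h' i)

theorem HC.neg (h : A.HC V u) : A.HC V (fun m => -u m) := by
  have h1 : A.HC V (fun m => (-1) * u m) := fun i => (h i).smul (-1)
  have h2 : (fun m => -u m) = fun m => (-1) * u m := by
    funext m
    ring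
  rw [h2]
  exact h1

theorem HC.smul (h : A.HC V u) (t : ℝ) : A.HC V (fun m => t * u m) := by
  exact fun i => (h i).smul t

theorem HC.mul (hV : IsOpen V) (h : A.HC V u) (h' : A.HC V v) : A.HC V (fun m => u m * v m) := by
  exact fun i => (h i).mul (A.D_open i hV) A.h0 (h' i)

theorem HC.congr (h : A.HC V u) (he : ∀ m ∈ V, v m = u m) : A.HC V v := by
  exact fun i => (h i).congr fun y hy => he _ hy.2

theorem HC.loc (h : ∀ m ∈ V, ∃ O, IsOpen O ∧ m ∈ O ∧ A.HC (O ∩ V) u) : A.HC V u := by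
  intro i
  refine LH.loc A.h0 fun y hy => ?_
  obtain ⟨O, hO, hm, hc⟩ := h ((A.x i).symm y) hy.2
  refine ⟨A.D i O, A.D_open i hO, ⟨hy.1, hm⟩, ?_⟩
  rw [← A.D_inter]
  exact hc i

theorem HC.cont (hV : IsOpen V) (h : A.HC V u) : ContinuousOn u V := by
  intro m hm
  obtain ⟨i, hi⟩ := A.cov m
  have h1 : ContinuousAt (A.lc i u) (A.x i m) :=
    ((h i).cont (A.D_open i hV) A.h0).continuousAt
      ((A.D_open i hV).mem_nhds (A.x_mem_D hi hm))
  have h2 : ContinuousAt (fun m' => A.lc i u (A.x i m')) m :=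
    ContinuousAt.comp (f := A.x i) (g := A.lc i u) h1 ((A.x i).continuousAt hi)
  refine ContinuousAt.continuousWithinAt (h2.congr ?_)
  filter_upwards [(A.x i).open_source.mem_nhds hi] with m' hm'
  show u ((A.x i).symm (A.x i m')) = u m'
  rw [(A.x i).left_inv hm']

theorem HC.of_sc (hV : IsOpen V) (hs : V ⊆ (A.x i).source) (h : A.SC i V u) : A.HC V u := by
  intro r
  have h1 : LH α (A.D r V) (fun y => A.lc i u (A.tr r i y)) := by
    refine LH.comp (A.D_open r hV) (A.D_open i hV) A.h0 (fun b => ?_) ?_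
      (ContDiffOn.of_le h (by norm_cast))
    · refine (Ap.lh A.h0 (A.apx r i) b).mono ?_
      rw [A.tr_source]
      exact A.D_mono r hs
    · intro y hy
      rw [A.tr_apply]
      exact A.x_mem_D (hs hy.2) hy.2
  refine h1.congr fun y hy => ?_
  show u ((A.x r).symm y) = u ((A.x i).symm (A.tr r i y))
  rw [A.symm_tr (A.D_mono r hs hy)]

/-- a Hölder function with compact support in `V` -/
def Vm (A : At α M ι) (V : Set M) (v : M → ℝ) : Prop :=
  A.HC univ v ∧ ∃ T, IsCompact T ∧ T ⊆ V ∧ ∀ m ∉ T, v m = 0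

theorem Vm.of [T2Space M] {T : Set M} (hV : IsOpen V) (h : A.HC V v) (hT : IsCompact T)
    (hs : T ⊆ V) (h0 : ∀ m ∉ T, v m = 0) : A.Vm V v := by
  refine ⟨HC.loc fun m _ => ?_, T, hT, hs, h0⟩
  by_cases hm : m ∈ V
  · exact ⟨V, hV, hm, h.mono inter_subset_left⟩
  · refine ⟨Tᶜ, hT.isClosed.isOpen_compl, fun hmT => hm (hs hmT), ?_⟩
    exact (HC.const A _ 0).congr fun m' hm' => h0 m' hm'.1

theorem Vm.mono (h : A.Vm V v) (hs : V ⊆ W) : A.Vm W v := by
  obtain ⟨h1, T, hT, hTV, h0⟩ := h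
  exact ⟨h1, T, hT, hTV.trans hs, h0⟩

theorem Vm.add (h : A.Vm V v) (h' : A.Vm V w) : A.Vm V (fun m => v m + w m) := by
  obtain ⟨h1, T, hT, hTV, h0⟩ := h
  obtain ⟨h1', T', hT', hTV', h0'⟩ := h'
  refine ⟨h1.add h1', T ∪ T', hT.union hT', union_subset hTV hTV', fun m hm => ?_⟩
  show v m + w m = 0
  rw [h0 m fun hc => hm (Or.inl hc), h0' m fun hc => hm (Or.inr hc), add_zero]

theorem Vm.sub (h : A.Vm V v) (h' : A.Vm V w) : A.Vm V (fun m => v m - w m) := by
  obtain ⟨h1, T, hT, hTV, h0⟩ := h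
  obtain ⟨h1', T', hT', hTV', h0'⟩ := h'
  refine ⟨h1.sub h1', T ∪ T', hT.union hT', union_subset hTV hTV', fun m hm => ?_⟩
  show v m - w m = 0
  rw [h0 m fun hc => hm (Or.inl hc), h0' m fun hc => hm (Or.inr hc), sub_zero]

theorem Vm.smul (h : A.Vm V v) (t : ℝ) : A.Vm V (fun m => t * v m) := by
  obtain ⟨h1, T, hT, hTV, h0⟩ := h
  refine ⟨h1.smul t, T, hT, hTV, fun m hm => ?_⟩
  show t * v m = 0
  rw [h0 m hm, mul_zero]

theorem Vm.mul [T2Space M] (hV : IsOpen V) (h : A.Vm V v) (h' : A.HC V u) :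
    A.Vm V (fun m => v m * u m) := by
  obtain ⟨h1, T, hT, hTV, h0⟩ := h
  refine Vm.of hV ((h1.mono (subset_univ V)).mul hV h') hT hTV fun m hm => ?_
  rw [h0 m hm, zero_mul]

/-- the support of the product is in both supports -/
theorem Vm.mul_vm [T2Space M] (h : A.Vm V v) (h' : A.Vm W w) :
    A.Vm (V ∩ W) (fun m => v m * w m) := by
  obtain ⟨h1, T, hT, hTV, h0⟩ := h
  obtain ⟨h1', T', hT', hTV', h0'⟩ := h'
  refine ⟨h1.mul isOpen_univ h1', T ∩ T', hT.inter hT', inter_subset_inter hTV hTV',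
    fun m hm => ?_⟩
  show v m * w m = 0
  by_cases hc : m ∈ T
  · rw [h0' m fun hc' => hm ⟨hc, hc'⟩, mul_zero]
  · rw [h0 m hc, zero_mul]

end At

end Pool.Agent.SYQ
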