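import Pool.Agent.SYQ.QB

/-!
# SYQ/QC: functions in a chart, extended by zero

`Vm.ex`: `Vc.of_lh` with `K = x i '' T` (compact, `⊆ D i V`); `ex i v = lc i v` on `(x i).target` (`LH.congr`), and `ex i v y = 0` for `y ∉ K`.
`pl_ex` (`e = tr i r`, `e.target = D r (x i).source`): for `z` in it: `ex i v (tr r i z) = v ((x i).symm (tr r i z)) = v ((x r).symm z)` (`symm_tr`); for `z ∈ (x r).target` not in it
`(x r).symm z ∉ (x i).source`, so `v` vanishes there.
-/

open MeasureTheory Set Filter Topology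
open scoped ContDiff Matrix ENNReal

namespace Pool.Agent.SYQ

open Pool.Agent.SYH

namespace At

variable {α : ℝ} {M : Type*} [TopologicalSpace M] {ι : Type*} {A : At α M ι}
  {V W : Set M} {u v w : M → ℝ} {i r : ι}

theorem ex_of {y : R4} (hy : y ∈ (A.x i).target) (v : M → ℝ) : A.ex i v y = A.lc i v y := by
  unfold ex
  exact Set.indicator_of_mem hy _

theorem ex_off {y : R4} (hy : y ∉ (A.x i).target) (v : M → ℝ) : A.ex i v y = 0 := by
  unfold ex
  exact Set.indicator_of_notMem hy _

theorem Vm.ex [T2Space M] (h : A.Vm V v) (hV : IsOpen V) (hs : V ⊆ (A.x i).source) :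
    Vc α (A.D i V) (A.ex i v) := by
  obtain ⟨h1, T, hT, hTV, h0⟩ := h
  have hTs : T ⊆ (A.x i).source := hTV.trans hs
  apply Vc.of_lh (K := A.x i '' T) (A.D_open i hV) A.h0
  · exact hT.image_of_continuousOn ((A.x i).continuousOn.mono hTs)
  · rintro _ ⟨m, hm, rfl⟩
    exact A.x_mem_D (hTs hm) (hTV hm)
  · apply LH.congr ((h1 i).mono (A.D_mono i (Set.subset_univ V)))
    intro y hy
    exact ex_of hy.1 v
  · intro y hy
    by_cases ht : y ∈ (A.x i).target
    · rw [ex_of ht]
      apply h0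
      intro hmT
      exact hy ⟨(A.x i).symm y, hmT, (A.x i).right_inv ht⟩
    · exact ex_off ht v

theorem ex_add (A : At α M ι) (i : ι) (v w : M → ℝ) :
    A.ex i (fun m => v m + w m) = fun y => A.ex i v y + A.ex i w y := by
  funext y
  by_cases ht : y ∈ (A.x i).target
  · rw [ex_of ht, ex_of ht, ex_of ht]; rfl
  · rw [ex_off ht, ex_off ht, ex_off ht, add_zero]

theorem ex_smul (A : At α M ι) (i : ι) (t : ℝ) (v : M → ℝ) :
    A.ex i (fun m => t * v m) = fun y => t * A.ex i v y := by
  funext y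
  by_cases ht : y ∈ (A.x i).target
  · rw [ex_of ht, ex_of ht]; rfl
  · rw [ex_off ht, ex_off ht, mul_zero]

theorem ex_mul (A : At α M ι) (i : ι) (v u : M → ℝ) :
    A.ex i (fun m => v m * u m) = fun y => A.ex i v y * A.lc i u y := by
  funext y
  by_cases ht : y ∈ (A.x i).target
  · rw [ex_of ht, ex_of ht]; rfl
  · rw [ex_off ht, ex_off ht, zero_mul]

theorem pl_ex (h : A.Vm V v) (hs : V ⊆ (A.x i).source ∩ (A.x r).source) :
    pl (A.tr i r).symm (A.ex i v) = A.ex r v := by
  obtain ⟨_, T, _, hTV, h0⟩ := h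
  rw [A.tr_symm]
  funext z
  unfold pl
  by_cases hz : z ∈ (A.tr r i).source
  · rw [Set.indicator_of_mem hz]
    have hz' := hz
    rw [A.tr_source] at hz'
    have h1 : A.tr r i z ∈ (A.x i).target := by
      rw [A.tr_apply]
      exact (A.x i).map_source hz'.2
    rw [ex_of h1, ex_of hz'.1]
    unfold lc
    rw [A.symm_tr hz']
  · rw [Set.indicator_of_notMem hz]
    rw [A.tr_source] at hz
    by_cases ht : z ∈ (A.x r).target
    · rw [ex_of ht]
      symm
      apply h0
      intro hmT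
      exact hz ⟨ht, (hs (hTV hmT)).1⟩
    · rw [ex_off ht]

end At

end Pool.Agent.SYQ
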