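import Pool.Agent.SYQ.CC2

/-!
# SYQ/TrT: change of charts, one function smooth in the target

`κ` a test function on `e.source`, `κ = 1` near `tsupport v`; `u' = κ u`, of class `Vc α e.source`; `u'_δ = mol δ u'` (smooth on the whole space).  `cc2` with `a = u'_δ`:
`T v u'_δ (w ∘ e) = T (pl e.symm v) (u'_δ ∘ e.symm) w`.  Let `δ → 0`.
Left side: `T_cv` with the exponents `(α, α, α)` (`Cv.mol`), limit `T v u' (w ∘ e) = T v u (w ∘ e)` (`T_congr`).
Right side: `u'_δ ∘ e.symm → u' ∘ e.symm` in `Cv (α * α)` on `e.target` (`Cv.hcomp` with `φ = e.symm`, `Ap.lh` for `e.symm`); `T_cv` with the exponents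
`(α, α * α, 1)`; the limit is `T (pl e.symm v) (u' ∘ e.symm) w = T (pl e.symm v) (u ∘ e.symm) w` (`T_congr`: `u' ∘ e.symm = u ∘ e.symm` on the open set
`e.target ∩ e.symm ⁻¹' O`, where `κ = 1` on `O`; it contains `tsupport (pl e.symm v) = e '' tsupport v` (or `⊆`)).
-/

open MeasureTheory Set Filter Topology
open scoped ContDiff Matrix ENNReal

namespace Pool.Agent.SYQ

open Pool.Agent.SYH

variable {α : ℝ} {e : OpenPartialHomeomorph R4 R4} {v u w : R4 → ℝ}

theorem pl_tsupport (hc : HasCompactSupport v) (hs : tsupport v ⊆ e.source) :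
    HasCompactSupport (pl e.symm v) ∧ tsupport (pl e.symm v) ⊆ e '' tsupport v := by
  have hK : IsCompact (e '' tsupport v) :=
    IsCompact.image_of_continuousOn hc (e.continuousOn.mono hs)
  have hsup : Function.support (pl e.symm v) ⊆ e '' tsupport v := by
    intro x hx
    rw [Function.mem_support] at hx
    unfold pl at hx
    by_cases hxs : x ∈ e.symm.source
    · rw [Set.indicator_of_mem hxs] at hx
      exact ⟨e.symm x, subset_tsupport _ hx, e.right_inv hxs⟩
    · exact absurd (Set.indicator_of_notMem hxs _) hx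
  have hts : tsupport (pl e.symm v) ⊆ e '' tsupport v := closure_minimal hsup hK.isClosed
  exact ⟨hK.of_isClosed_subset (isClosed_tsupport _) hts, hts⟩

theorem trans3 (h1 : 2 / 3 < α) (h2 : α ≤ 1) (h : Ap α e) (h' : Ap α e.symm) (hm : MPre e)
    (hv : Vc α e.source v) (hv' : Vc α e.target (pl e.symm v)) (hu : LH α e.source u)
    (hw : ContDiffOn ℝ ∞ w e.target) :
    T v u (fun x => w (e x)) = T (pl e.symm v) (fun z => u (e.symm z)) w := by
  have h0 : 0 < α := by linarith
  obtain ⟨V, hV⟩ : ∃ V, V = pl e.symm v := ⟨_, rfl⟩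
  have hsy : e.symm.source = e.target := rfl
  obtain ⟨κ, hκ, -, O, hO, hvO, hOs, hκ1⟩ := cut_ex e.open_source hv.cpt hv.supp
  have hκv : Vc α e.source κ := Vc.of_test hκ h0 h2
  -- the cut off function
  obtain ⟨u', hu'⟩ : ∃ u' : R4 → ℝ, u' = fun x => κ x * u x := ⟨_, rfl⟩
  have hu'v : Vc α e.source u' := by
    rw [hu']
    exact hκv.mul_lh e.open_source h0 hu
  have hu'O : ∀ x ∈ O, u' x = u x := by
    intro x hx
    rw [hu']
    simp only
    rw [hκ1 x hx, one_mul]
  have hts := pl_tsupport hv.cpt hv.supp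
  rw [← hV] at hv' hts ⊢
  have hlwe : LH α e.source (fun x => w (e x)) :=
    LH.comp e.open_source e.open_target h0 (fun b => Ap.lh h0 h b) e.mapsTo (hw.of_le (by simp))
  have hlw : LH 1 e.target w := LH.of_smooth e.open_target one_pos le_rfl (hw.of_le (by simp))
  obtain ⟨L, hHB⟩ := hu'v.hb
  have hpos : ∀ᶠ δ in 𝓝[>] (0 : ℝ), 0 < δ := eventually_mem_nhdsWithin
  have hun : TendstoUniformly (fun δ => mol δ u') u' (𝓝[>] (0 : ℝ)) := by
    rw [Metric.tendstoUniformly_iff]
    intro ε hε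
    have ht : Tendsto (fun δ : ℝ => L * δ ^ α) (𝓝[>] (0 : ℝ)) (𝓝 0) := by
      have h4 : Tendsto (fun δ : ℝ => L * δ ^ α) (𝓝 (0 : ℝ)) (𝓝 (L * (0 : ℝ) ^ α)) :=
        ((Real.continuousAt_rpow_const 0 α (Or.inr h0.le)).tendsto).const_mul L
      rw [Real.zero_rpow h0.ne', mul_zero] at h4
      exact h4.mono_left nhdsWithin_le_nhds
    filter_upwards [hpos, ht.eventually (gt_mem_nhds hε)] with δ hδ hδ2 x
    rw [dist_comm, Real.dist_eq]
    exact lt_of_le_of_lt (HB.mol_sub hHB h0 hδ x) hδ2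
  have hL : Tendsto (fun δ => T v (mol δ u') (fun x => w (e x))) (𝓝[>] (0 : ℝ))
      (𝓝 (T v u' (fun x => w (e x)))) := by
    have E : Exq α α α := ⟨h0, h2, h0, h2, h0, h2, by linarith⟩
    exact T_cv E e.open_source hv.cpt hv.supp
      (Eventually.of_forall fun δ x hx => image_eq_zero_of_notMem_tsupport hx)
      (fun x hx => image_eq_zero_of_notMem_tsupport hx)
      (Cv.const _ (hv.lh _)) (Cv.mol e.open_source h0 (hu'v.lh _)) (Cv.const _ hlwe)
  have hR : Tendsto (fun δ => T V (fun z => mol δ u' (e.symm z)) w) (𝓝[>] (0 : ℝ))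
      (𝓝 (T V (fun z => u' (e.symm z)) w)) := by
    have E : Exq α (α * α) 1 :=
      ⟨h0, h2, mul_pos h0 h0, by nlinarith, one_pos, le_rfl, by nlinarith⟩
    have hcv : Cv (α * α) e.target (𝓝[>] (0 : ℝ)) (fun δ z => mol δ u' (e.symm z))
        (fun z => u' (e.symm z)) :=
      Cv.hcomp h0 hHB (hpos.mono fun δ hδ => HB.mol hHB h0 hδ) hun
        (fun b => Ap.lh h0 h' b)
    exact T_cv E e.open_target hv'.cpt hv'.supp
      (Eventually.of_forall fun δ x hx => image_eq_zero_of_notMem_tsupport hx)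
      (fun x hx => image_eq_zero_of_notMem_tsupport hx)
      (Cv.const _ (hv'.lh _)) hcv (Cv.const _ hlw)
  have he : ∀ᶠ δ in 𝓝[>] (0 : ℝ),
      T V (fun z => mol δ u' (e.symm z)) w = T v (mol δ u') (fun x => w (e x)) := by
    refine hpos.mono fun δ hδ => ?_
    have hsm : ContDiff ℝ ∞ (mol δ u') :=
      mol_smooth δ (hHB.cont h0).locallyIntegrable
    have := cc2 h1 h2 h h' hm hv (hV ▸ hv') hsm.contDiffOn hw
    rw [this, hV]
  have hlim : T v u' (fun x => w (e x)) = T V (fun z => u' (e.symm z)) w :=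
    tendsto_nhds_unique hL (hR.congr' he)
  -- remove the cut off
  have e1 : T v u' (fun x => w (e x)) = T v u (fun x => w (e x)) :=
    T_congr hv.cpt hO hvO hu'O (fun x _ => rfl)
  have hO' : IsOpen (e.target ∩ e.symm ⁻¹' O) := e.symm.isOpen_inter_preimage hO
  have e2 : T V (fun z => u' (e.symm z)) w = T V (fun z => u (e.symm z)) w := by
    refine T_congr hv'.cpt hO' ?_ (fun x hx => hu'O _ hx.2) (fun x _ => rfl)
    intro z hz
    obtain ⟨x, hx, rfl⟩ := hts.2 hz
    have hxs : x ∈ e.source := hv.supp hx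
    refine ⟨e.map_source hxs, ?_⟩
    rw [Set.mem_preimage, e.left_inv hxs]
    exact hvO hx
  rw [← e1, hlim, e2]

end Pool.Agent.SYQ
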