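import Pool.Agent.SYQ.QC
import Pool.Agent.SYQ.TrT

/-!
# SYQ/QD: change of charts on the manifold

`e = (tr i r).restrOpen (D i V) _`: source `D i V`, target `D r V` (as `V ⊆ (x i).source ∩ (x r).source`), `e = tr i r` and `e.symm = tr r i` as functions.  `Ap.sub` for
`e` and `e.symm`, `MPre e` (subset of `A.mpre i r`).  `lc i w = lc r w ∘ tr i r` on `D i V`; `trans3`; `pl e.symm (ex i v) = ex r v` (as `pl_ex`; the support of `v` is in `V`);
`lc i u ∘ e.symm = lc r u` on `D r V` (`T_congr`: the supports of `ex i v`, `ex r v` are compact in `D i V`, `D r V`).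
`trans_u`: `T_anti` (on `D i V` and on `D r V`) and `trans_w`.
`restr_ex` is a general statement on restrictions which can be used for both.
-/

open MeasureTheory Set Filter Topology
open scoped ContDiff Matrix ENNReal

namespace Pool.Agent.SYQ

open Pool.Agent.SYH

namespace At

variable {α : ℝ} {M : Type*} [TopologicalSpace M] [T2Space M] {ι : Type*} {A : At α M ι}
  {V : Set M} {u v w : M → ℝ} {i r : ι}

omit [T2Space M] in
private theorem tr_maps (hs : V ⊆ (A.x i).source ∩ (A.x r).source) {y : R4} (hy : y ∈ A.D i V) :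
    A.tr i r y ∈ A.D r V ∧ A.tr r i (A.tr i r y) = y ∧
      (A.x r).symm (A.tr i r y) = (A.x i).symm y := by
  have h1 : y ∈ A.D i (A.x r).source := ⟨hy.1, (hs hy.2).2⟩
  have h2 := A.symm_tr h1
  refine ⟨⟨(A.x r).map_source h1.2, ?_⟩, ?_, h2⟩
  · rw [mem_preimage, h2]
    exact hy.2
  · rw [A.tr_apply r i, h2, (A.x i).right_inv hy.1]

/-- the restriction of the transition map to `V` -/
theorem restr_ex (A : At α M ι) (hV : IsOpen V) (hs : V ⊆ (A.x i).source ∩ (A.x r).source) :
    ∃ e : OpenPartialHomeomorph R4 R4, e.source = A.D i V ∧ e.target = A.D r V ∧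
      (∀ y, e y = A.tr i r y) ∧ (∀ z, e.symm z = A.tr r i z) ∧ Ap α e ∧ Ap α e.symm ∧ MPre e := by
  have hs' : V ⊆ (A.x r).source ∩ (A.x i).source := fun m hm => ⟨(hs hm).2, (hs hm).1⟩
  obtain ⟨e, he⟩ : ∃ e, e = (A.tr i r).restrOpen (A.D i V) (A.D_open i hV) := ⟨_, rfl⟩
  have hsub : A.D i V ⊆ (A.tr i r).source := by
    rw [tr_source]
    exact A.D_mono i fun m hm => (hs hm).2
  have hsub' : A.D r V ⊆ (A.tr r i).source := by
    rw [tr_source]
    exact A.D_mono r fun m hm => (hs hm).1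
  have hsrc : e.source = A.D i V := by
    rw [he, OpenPartialHomeomorph.restrOpen_source]
    exact inter_eq_right.mpr hsub
  have hfun : ∀ y, e y = A.tr i r y := by
    intro y
    rw [he, OpenPartialHomeomorph.coe_restrOpen]
  have hsym : ∀ z, e.symm z = A.tr r i z := by
    intro z
    rw [he, OpenPartialHomeomorph.coe_restrOpen_symm, tr_symm]
  have htgt : e.target = A.D r V := by
    rw [← e.image_source_eq_target, hsrc]
    ext z
    constructor
    · rintro ⟨y, hy, rfl⟩
      rw [hfun]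
      exact (tr_maps hs hy).1
    · intro hz
      have h3 := tr_maps hs' hz
      exact ⟨A.tr r i z, h3.1, by rw [hfun]; exact h3.2.1⟩
  refine ⟨e, hsrc, htgt, hfun, hsym, ?_, ?_, ?_⟩
  · refine (A.apx i r).sub ?_ fun x _ => hfun x
    rw [hsrc]
    exact hsub
  · refine (A.apx r i).sub ?_ fun x _ => hsym x
    rw [e.symm_source, htgt]
    exact hsub'
  · intro B hB hm
    rw [hsrc] at hB
    have h4 := A.mpre i r B (hB.trans hsub) hm
    rw [← h4]
    congr 1
    exact image_congr fun y _ => hfun y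

private theorem pl_ex' (hs : V ⊆ (A.x i).source ∩ (A.x r).source) (hv : A.Vm V v)
    {e : OpenPartialHomeomorph R4 R4} (he : e.target = A.D r V)
    (hsym : ∀ z, e.symm z = A.tr r i z) : pl e.symm (A.ex i v) = A.ex r v := by
  have hs' : V ⊆ (A.x r).source ∩ (A.x i).source := fun m hm => ⟨(hs hm).2, (hs hm).1⟩
  obtain ⟨_, T, _, hT, hz⟩ := hv
  funext z
  unfold pl
  by_cases h : z ∈ A.D r V
  · have h1 : z ∈ e.symm.source := by
      rw [e.symm_source, he]
      exact h
    obtain ⟨h3, _, h4⟩ := tr_maps hs' h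
    rw [indicator_of_mem h1, hsym, ex_of h3.1, ex_of h.1]
    unfold lc
    rw [h4]
  · have h1 : z ∉ e.symm.source := by
      rw [e.symm_source, he]
      exact h
    rw [indicator_of_notMem h1]
    by_cases h2 : z ∈ (A.x r).target
    · rw [ex_of h2]
      unfold lc
      refine (hz _ fun h5 => h ⟨h2, hT h5⟩).symm
    · rw [ex_off h2]

theorem trans_w (hV : IsOpen V) (hs : V ⊆ (A.x i).source ∩ (A.x r).source) (hv : A.Vm V v)
    (hu : A.HC V u) (hw : A.SC r V w) :
    T (A.ex i v) (A.lc i u) (A.lc i w) = T (A.ex r v) (A.lc r u) (A.lc r w) := by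
  have hs' : V ⊆ (A.x r).source ∩ (A.x i).source := fun m hm => ⟨(hs hm).2, (hs hm).1⟩
  obtain ⟨e, hsrc, htgt, hfun, hsym, ha, ha', hm⟩ := A.restr_ex hV hs
  have hp := pl_ex' hs hv htgt hsym
  have hvi : Vc α (A.D i V) (A.ex i v) := hv.ex hV fun m hm => (hs hm).1
  have hvr : Vc α (A.D r V) (A.ex r v) := hv.ex hV fun m hm => (hs hm).2
  have h3 := trans3 (v := A.ex i v) (u := A.lc i u) (w := A.lc r w) A.h1 A.h2 ha ha' hm
    (by rw [hsrc]; exact hvi) (by rw [hp, htgt]; exact hvr) (by rw [hsrc]; exact hu i)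
    (by rw [htgt]; exact hw)
  rw [hp] at h3
  have h4 : T (A.ex i v) (A.lc i u) (fun x => A.lc r w (e x)) =
      T (A.ex i v) (A.lc i u) (A.lc i w) := by
    refine T_congr hvi.cpt (A.D_open i hV) hvi.supp (fun _ _ => rfl) fun y hy => ?_
    show w ((A.x r).symm (e y)) = w ((A.x i).symm y)
    rw [hfun, (tr_maps hs hy).2.2]
  have h5 : T (A.ex r v) (fun z => A.lc i u (e.symm z)) (A.lc r w) =
      T (A.ex r v) (A.lc r u) (A.lc r w) := by
    refine T_congr hvr.cpt (A.D_open r hV) hvr.supp (fun z hz => ?_) fun _ _ => rfl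
    show u ((A.x i).symm (e.symm z)) = u ((A.x r).symm z)
    rw [hsym, (tr_maps hs' hz).2.2]
  rw [← h4, ← h5]
  exact h3

theorem trans_u (hV : IsOpen V) (hs : V ⊆ (A.x i).source ∩ (A.x r).source) (hv : A.Vm V v)
    (hu : A.SC r V u) (hw : A.HC V w) :
    T (A.ex i v) (A.lc i u) (A.lc i w) = T (A.ex r v) (A.lc r u) (A.lc r w) := by
  have hvi : Vc α (A.D i V) (A.ex i v) := hv.ex hV fun m hm => (hs hm).1
  have hvr : Vc α (A.D r V) (A.ex r v) := hv.ex hV fun m hm => (hs hm).2
  have hu' : A.HC V u := HC.of_sc hV (fun m hm => (hs hm).2) hu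
  have h1 := T_anti (Exq.of A.h1 A.h2) (A.D_open i hV) hvi (hw i) (hu' i)
  have h2 := T_anti (Exq.of A.h1 A.h2) (A.D_open r hV) hvr (hw r) (hu' r)
  rw [h1, h2, trans_w hV hs hv hw hu]

end At

end Pool.Agent.SYQ
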