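import Pool.Agent.SYQ.QD

/-!
# SYQ/QE: the potential in the other charts

`e` from `restr_ex` for `V = O ∩ (x r).source` (source `Ω = D i V`, target `D r V = D r O`).  `v' = pl e v`, `u' = pl e u`: of class `Vc α Ω` (`pl_vc`).  `ext_id` on `D i O` with
`P = tr i j`, `Q = tr i i` (`Lam_eq`) for `f = lc i f`: `T v' u' (lc i f) = Lam i j v' u' - Lam i i v' u'`.
Left side: `= T (κ lc i f) v' u'` (`κ` a test function on `Ω`, `κ = 1` near the supports; `T_congr`, `T_cyc`) `= ∫ κ lc i f · (br v u) ∘ e` (`T_congr`: `v' = v ∘ e` on `Ω`; `inv0`)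
`= ∫ lc r f · br v u` (`int_comp` for `MPre e`; `lc i f (e.symm z) = lc r f z` on `D r O`; `br v u = 0` off the supports).
Right side: each term `T (v' lam0 (tr i j)_b) u' (tr i j)_b` is `T (pl e.symm (..)) (u' ∘ e.symm = u) ((tr i j)_b ∘ e.symm)` by `T_anti` and `trans3` (`w = u` is smooth in the target), and
`(tr i j) (e.symm z) = tr r j z` for `z ∈ D r O` (`O ⊆ (x j).source`), `pl e.symm (v' lam0 (tr i j)_b) = v lam0 (tr r j)_b`.  In the same way for `tr i i`: `(tr i i) (e.symm z) = tr r i z`.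
-/

open MeasureTheory Set Filter Topology
open scoped ContDiff Matrix ENNReal

namespace Pool.Agent.SYQ

open Pool.Agent.SYH

namespace At

variable {α : ℝ} {M : Type*} [TopologicalSpace M] [T2Space M] {ι : Type*} {A : At α M ι}
  {O : Set M} {f : M → ℝ} {i j : ι}

private theorem QE_br_off {v u : R4 → ℝ} {z : R4} (hz : z ∉ tsupport v) : br v u z = 0 := by
  unfold br pair
  simp only [pd_eq_zero _ hz, zero_mul, sub_zero, add_zero]

private theorem QE_test_mono {Ω Ω' : Set R4} {v : R4 → ℝ} (h : Test Ω v) (hs : Ω ⊆ Ω') : Test Ω' v :=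
  ⟨h.smooth, h.cpt, h.supp.trans hs⟩

/-- one term of the right side -/
private theorem QE_term (A : At α M ι) {V : Set M} (hV : IsOpen V) {r k : ι}
    (hk : V ⊆ (A.x k).source) (hs : V ⊆ (A.x i).source ∩ (A.x r).source)
    {e : OpenPartialHomeomorph R4 R4} (es : e.source = A.D i V) (et : e.target = A.D r V)
    (ee : ∀ y, e y = A.tr i r y) (ee' : ∀ z, e.symm z = A.tr r i z) (ap : Ap α e)
    (ap' : Ap α e.symm) (mp : MPre e) {v u : R4 → ℝ} (hv : Test e.target v)
    (hu : Test e.target u) : LamP (A.tr i k) (pl e v) (pl e u) = LamP (A.tr r k) v u := by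
  have h0 : 0 < α := A.h0
  have hE := Exq.of A.h1 A.h2
  have hΩ : IsOpen e.source := e.open_source
  have hT : IsOpen e.target := e.open_target
  have vv : Vc α e.source (pl e v) := pl_vc A.h1 A.h2 ap hv
  have vu : Vc α e.source (pl e u) := pl_vc A.h1 A.h2 ap hu
  have hsub1 : e.source ⊆ (A.tr i k).source := by
    rw [es, A.tr_source]
    exact A.D_mono i hk
  have hsub2 : e.target ⊆ (A.tr r k).source := by
    rw [et, A.tr_source]
    exact A.D_mono r hk
  have lh1 : ∀ b, LH α e.source (fun y => A.tr i k y b) := fun b =>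
    (Ap.lh h0 (A.apx i k) b).mono hsub1
  have lh2 : ∀ b, LH α e.target (fun y => A.tr r k y b) := fun b =>
    (Ap.lh h0 (A.apx r k) b).mono hsub2
  have key : ∀ z ∈ e.target, A.tr i k (e.symm z) = A.tr r k z := by
    intro z hz
    rw [et] at hz
    rw [ee', A.tr_apply i k, A.symm_tr (A.D_mono r (fun m hm => (hs hm).1) hz), A.tr_apply r k]
  unfold LamP
  refine Finset.sum_congr rfl fun b _ => ?_
  have va : Vc α e.source (fun y => pl e v y * lam0 (A.tr i k y) b) :=
    Vc.mul_lh hΩ h0 vv (lam_lh lh1 b)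
  have vA : Vc α e.target (fun z => v z * lam0 (A.tr r k z) b) :=
    Vc.mul_lh hT h0 (Vc.of_test hv h0 A.h2) (lam_lh lh2 b)
  have hpl : pl e.symm (fun y => pl e v y * lam0 (A.tr i k y) b) =
      fun z => v z * lam0 (A.tr r k z) b := by
    funext z
    by_cases hz : z ∈ e.target
    · have hz' : z ∈ e.symm.source := hz
      have h1 : e.symm z ∈ e.source := e.map_target hz
      show e.symm.source.indicator _ z = _
      rw [indicator_of_mem hz']
      show pl e v (e.symm z) * lam0 (A.tr i k (e.symm z)) b = _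
      rw [key z hz]
      unfold pl
      rw [indicator_of_mem h1, e.right_inv hz]
    · have hz' : z ∉ e.symm.source := hz
      show e.symm.source.indicator _ z = _
      rw [indicator_of_notMem hz']
      have : v z = 0 := image_eq_zero_of_notMem_tsupport (fun h => hz (hv.supp h))
      rw [this, zero_mul]
  have hu' : ∀ y ∈ e.source, pl e u y = u (e y) := by
    intro y hy
    unfold pl
    rw [indicator_of_mem hy]
  have s1 : T (fun y => pl e v y * lam0 (A.tr i k y) b) (pl e u) (fun y => A.tr i k y b) =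
      -T (fun y => pl e v y * lam0 (A.tr i k y) b) (fun y => A.tr i k y b) (pl e u) :=
    T_anti hE hΩ va (lh1 b) (vu.lh _)
  have s2 : T (fun y => pl e v y * lam0 (A.tr i k y) b) (fun y => A.tr i k y b) (pl e u) =
      T (fun y => pl e v y * lam0 (A.tr i k y) b) (fun y => A.tr i k y b) (fun y => u (e y)) :=
    T_congr va.cpt hΩ va.supp (fun _ _ => rfl) hu'
  have s3 : T (fun y => pl e v y * lam0 (A.tr i k y) b) (fun y => A.tr i k y b)
      (fun y => u (e y)) =
      T (pl e.symm (fun y => pl e v y * lam0 (A.tr i k y) b))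
        (fun z => (fun y => A.tr i k y b) (e.symm z)) u := by
    refine trans3 A.h1 A.h2 ap ap' mp va ?_ (lh1 b) hu.smooth.contDiffOn
    rw [hpl]
    exact vA
  have s4 : T (fun z => v z * lam0 (A.tr r k z) b)
        (fun z => (fun y => A.tr i k y b) (e.symm z)) u =
      T (fun z => v z * lam0 (A.tr r k z) b) (fun z => A.tr r k z b) u := by
    refine T_congr vA.cpt hT vA.supp ?_ (fun _ _ => rfl)
    intro z hz
    show A.tr i k (e.symm z) b = A.tr r k z b
    rw [key z hz]
  have s5 : T (fun z => v z * lam0 (A.tr r k z) b) (fun z => A.tr r k z b) u =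
      -T (fun z => v z * lam0 (A.tr r k z) b) u (fun z => A.tr r k z b) :=
    T_anti hE hT vA ((Vc.of_test hu h0 A.h2).lh _) (lh2 b)
  rw [s1, s2, s3, hpl, s4, s5, neg_neg]

theorem fo_pot (hO : IsOpen O) (hs : O ⊆ (A.x i).source ∩ (A.x j).source)
    (hf : LH α (A.D i O) (A.lc i f))
    (h : ∀ v u, Test (A.D i O) v → Test (A.D i O) u →
      ∫ y, A.lc i f y * br v u y = A.Lam i j v u - A.Lam i i v u) (r : ι) {v u : R4 → ℝ}
    (hv : Test (A.D r O) v) (hu : Test (A.D r O) u) :
    ∫ y, A.lc r f y * br v u y = A.Lam r j v u - A.Lam r i v u := by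
  have h0 : 0 < α := A.h0
  have hE := Exq.of A.h1 A.h2
  have hV : IsOpen (O ∩ (A.x r).source) := hO.inter (A.x r).open_source
  have hsV : O ∩ (A.x r).source ⊆ (A.x i).source ∩ (A.x r).source :=
    fun m hm => ⟨(hs hm.1).1, hm.2⟩
  have hsj : O ∩ (A.x r).source ⊆ (A.x j).source := fun m hm => (hs hm.1).2
  have hsi : O ∩ (A.x r).source ⊆ (A.x i).source := fun m hm => (hs hm.1).1
  have hsO : O ∩ (A.x r).source ⊆ O := fun m hm => hm.1
  obtain ⟨e, es, et, ee, ee', ap, ap', mp⟩ := restr_ex A hV hsV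
  have hD : A.D r O = e.target := by
    rw [et]
    ext y
    rw [A.mem_D, A.mem_D]
    exact ⟨fun h => ⟨h.1, h.2, (A.x r).map_target h.1⟩, fun h => ⟨h.1, h.2.1⟩⟩
  rw [hD] at hv hu
  have hΩ : IsOpen e.source := e.open_source
  have hT : IsOpen e.target := e.open_target
  have vv : Vc α e.source (pl e v) := pl_vc A.h1 A.h2 ap hv
  have vu : Vc α e.source (pl e u) := pl_vc A.h1 A.h2 ap hu
  have hΩO : e.source ⊆ A.D i O := by
    rw [es]
    exact A.D_mono i hsO
  have hf' : LH α e.source (A.lc i f) := hf.mono hΩO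
  have hjs : e.source ⊆ (A.tr i j).source := by
    rw [es, A.tr_source]
    exact A.D_mono i hsj
  have his : e.source ⊆ (A.tr i i).source := by
    rw [es, A.tr_source]
    exact A.D_mono i hsi
  have hid : T (pl e v) (pl e u) (A.lc i f) =
      LamP (A.tr i j) (pl e v) (pl e u) - LamP (A.tr i i) (pl e v) (pl e u) := by
    refine ext_id A.h1 A.h2 hΩ hf' (fun b => (Ap.lh h0 (A.apx i j) b).mono hjs)
      (fun b => (Ap.lh h0 (A.apx i i) b).mono his) ?_ vv (vu.lh _)
    intro a c ha hc
    exact h a c (QE_test_mono ha hΩO) (QE_test_mono hc hΩO)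
  rw [QE_term A hV hsj hsV es et ee ee' ap ap' mp hv hu,
    QE_term A hV hsi hsV es et ee ee' ap ap' mp hv hu] at hid
  have hgoal : A.Lam r j v u - A.Lam r i v u = LamP (A.tr r j) v u - LamP (A.tr r i) v u := rfl
  rw [hgoal, ← hid]
  -- the left side
  have hKc : IsCompact (e.symm '' tsupport v) :=
    (show IsCompact (tsupport v) from hv.cpt).image_of_continuousOn
      (e.symm.continuousOn.mono hv.supp)
  have hKs : e.symm '' tsupport v ⊆ e.source := by
    rintro _ ⟨z, hz, rfl⟩
    exact e.map_target (hv.supp hz)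
  obtain ⟨κ, hκ, -, O1, hO1, hKO, hOΩ, hκ1⟩ := cut_ex hΩ hKc hKs
  have vF : Vc α e.source (fun y => κ y * A.lc i f y) :=
    Vc.mul_lh hΩ h0 (Vc.of_test hκ h0 A.h2) hf'
  have hts : tsupport (pl e v) ⊆ e.symm '' tsupport v := by
    have := (pl_tsupport (e := e.symm) (v := v) hv.cpt hv.supp).2
    rwa [OpenPartialHomeomorph.symm_symm] at this
  have t1 : T (pl e v) (pl e u) (A.lc i f) = T (pl e v) (pl e u) (fun y => κ y * A.lc i f y) := by
    refine T_congr vv.cpt hO1 (hts.trans hKO) (fun _ _ => rfl) ?_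
    intro y hy
    rw [hκ1 y hy, one_mul]
  have t2 : T (fun y => κ y * A.lc i f y) (pl e v) (pl e u) =
      T (pl e v) (pl e u) (fun y => κ y * A.lc i f y) :=
    T_cyc hE hΩ vF vv (vu.lh _)
  have hpl : ∀ (w : R4 → ℝ), ∀ y ∈ e.source, pl e w y = w (e y) := by
    intro w y hy
    unfold pl
    rw [indicator_of_mem hy]
  have t3 : T (fun y => κ y * A.lc i f y) (pl e v) (pl e u) =
      T (fun y => κ y * A.lc i f y) (fun y => v (e y)) (fun y => u (e y)) :=
    T_congr vF.cpt hΩ vF.supp (hpl v) (hpl u)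
  have t4 := inv0 A.h1 A.h2 ap vF (χ := v) (w := u) hv.smooth.contDiffOn hu.smooth.contDiffOn
  rw [t1, ← t2, t3, t4]
  have hpre : e.source ∩ e ⁻¹' e.target = e.source := by
    ext y
    exact ⟨fun h => h.1, fun h => ⟨h, e.map_source h⟩⟩
  have hint := int_comp mp (B := e.target) hT.measurableSet Subset.rfl
    (fun z => A.lc r f z * br v u z)
  rw [hpre] at hint
  have u1 : ∫ z, A.lc r f z * br v u z = ∫ z in e.target, A.lc r f z * br v u z := by
    symm
    refine setIntegral_eq_integral_of_forall_compl_eq_zero ?_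
    intro z hz
    rw [QE_br_off (fun h => hz (hv.supp h)), mul_zero]
  have u2 : ∫ y, κ y * A.lc i f y * br v u (e y) =
      ∫ y in e.source, κ y * A.lc i f y * br v u (e y) := by
    symm
    refine setIntegral_eq_integral_of_forall_compl_eq_zero ?_
    intro y hy
    have : κ y = 0 := image_eq_zero_of_notMem_tsupport (fun h => hy (hκ.supp h))
    rw [this, zero_mul, zero_mul]
  rw [u1, u2, ← hint]
  refine setIntegral_congr_fun hΩ.measurableSet ?_
  intro y hy
  show A.lc r f (e y) * br v u (e y) = κ y * A.lc i f y * br v u (e y)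
  by_cases hz : e y ∈ tsupport v
  · have hyK : y ∈ e.symm '' tsupport v := ⟨e y, hz, e.left_inv hy⟩
    rw [hκ1 y (hKO hyK), one_mul]
    congr 1
    unfold At.lc
    rw [ee]
    rw [es] at hy
    rw [A.symm_tr (A.D_mono i (fun m hm => hm.2) hy)]
  · rw [QE_br_off hz, mul_zero, mul_zero]

end At

end Pool.Agent.SYQ
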