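import Pool.Agent.SYQ.VcA
import Pool.Agent.SYQ.BrS
import Pool.Agent.SYH.SgL

/-!
# SYQ/Uq: a continuous function with vanishing weak brackets is locally constant

Let `v` be a test function on `Ω`, `κ` a test function on `Ω` with `κ = 1` near `tsupport v` (`cut_ex`), `u = κ x_b` (a test function).  On `tsupport v`:
`br v u = pair (∇v) e_b`, which is `± pd a v` (`b = 1`: `pd 0 v`; `b = 0`: `- pd 1 v`; `b = 3`: `pd 2 v`; `b = 2`: `- pd 3 v`), and `0` elsewhere.  So `∫ f pd a v = 0` for all `a` and `v`:
`WG Ω f 0`; `locConstAe` (`SYH/SgL`): `f = c` almost everywhere on a ball around `x` in `Ω`, so everywhere on it by continuity.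
-/

open MeasureTheory Set Filter Topology
open scoped ContDiff Matrix ENNReal

namespace Pool.Agent.SYQ

open Pool.Agent.SYH

private theorem Uq_coord (a b : Fin 4) (x : R4) :
    pd a (fun y : R4 => y b) x = if a = b then 1 else 0 := by
  unfold pd
  have h : HasFDerivAt (fun y : R4 => y b) (ContinuousLinearMap.proj (R := ℝ) b) x :=
    (ContinuousLinearMap.proj (R := ℝ) (φ := fun _ : Fin 4 => ℝ) b).hasFDerivAt
  rw [h.fderiv]
  simp only [ContinuousLinearMap.proj_apply, Pi.single_apply]
  by_cases hab : a = b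
  · simp [hab]
  · simp [hab, Ne.symm hab]

/-- the bracket with a cut off coordinate -/
private theorem Uq_br {Ω : Set R4} (hΩ : IsOpen Ω) {v : R4 → ℝ} (hv : Test Ω v) (b : Fin 4) :
    ∃ u, Test Ω u ∧ ∀ x, br v u x =
      pair (fun a => pd a v x) (fun a => if a = b then 1 else 0) := by
  obtain ⟨κ, hκ, -, O, hO, hKO, -, h1⟩ := cut_ex hΩ hv.cpt hv.supp
  refine ⟨fun x => (fun y : R4 => y b) x * κ x, hκ.mul (contDiff_apply ℝ ℝ b), fun x => ?_⟩
  by_cases hx : x ∈ tsupport v
  · have hev : (fun x => (fun y : R4 => y b) x * κ x) =ᶠ[𝓝 x] fun y : R4 => y b := by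
      filter_upwards [hO.mem_nhds (hKO hx)] with y hy
      rw [h1 y hy, mul_one]
    unfold br
    congr 1
    funext a
    have : pd a (fun x => (fun y : R4 => y b) x * κ x) x = pd a (fun y : R4 => y b) x := by
      unfold pd
      rw [hev.fderiv_eq]
    rw [this, Uq_coord]
  · have h0 : (fun a => pd a v x) = fun _ => 0 := by
      funext a
      exact pd_eq_zero a hx
    unfold br
    rw [h0]
    simp [pair]

theorem const_of_br {Ω : Set R4} (hΩ : IsOpen Ω) {f : R4 → ℝ} (hf : ContinuousOn f Ω)
    (h : ∀ v u, Test Ω v → Test Ω u → ∫ x, f x * br v u x = 0) {x : R4} (hx : x ∈ Ω) :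
    ∃ r > 0, Metric.ball x r ⊆ Ω ∧ ∃ c, ∀ y ∈ Metric.ball x r, f y = c := by
  have key : ∀ v, Test Ω v → ∀ b : Fin 4,
      ∫ x, f x * pair (fun a => pd a v x) (fun a => if a = b then 1 else 0) = 0 := by
    intro v hv b
    obtain ⟨u, hu, hb⟩ := Uq_br hΩ hv b
    have := h v u hv hu
    simpa only [hb] using this
  have hW : WG Ω f (fun _ => 0) := by
    intro v hv a
    have hz : (-∫ x, ((fun _ => 0 : R4 → R4) x) a * v x) = 0 := by simp
    rw [hz]
    fin_cases a
    · have := key v hv 1
      simpa [pair] using this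
    · have := key v hv 0
      simp only [pair] at this
      simpa [integral_neg] using this
    · have := key v hv 3
      simpa [pair] using this
    · have := key v hv 2
      simp only [pair] at this
      simpa [integral_neg] using this
  obtain ⟨r, hr, hb, c, hc⟩ := locConstAe hΩ (LpL.of_cont hΩ hf) hW hx
  refine ⟨r, hr, hb, c, ?_⟩
  have h1 : f =ᵐ[volume.restrict (Metric.ball x r)] fun _ => c :=
    (ae_restrict_iff' measurableSet_ball).2 hc
  have h2 := Measure.eqOn_open_of_ae_eq h1 Metric.isOpen_ball (hf.mono hb) continuousOn_const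
  intro y hy
  exact h2 hy

end Pool.Agent.SYQ
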