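import Pool.Agent.SYQ.QE
import Pool.Agent.SYQ.Uq
import Pool.Agent.SYQ.PtX

/-!
# SYQ/QF: existence of potentials

`fo_hc`: let `y ∈ D r O` (a chart `r`).  `pot_ex` for `e = tr r j` and for `e = tr r i` at `y` (both are defined at `y`, as `O ⊆ (x i).source ∩ (x j).source`): `G_j, G_i` on a ball `B' ⊆ D r O`
around `y`, with `∫ G_j br v u = Lam r j v u - LamP id v u`, `∫ G_i br v u = Lam r i v u - LamP id v u`.  `g = lc r f - (G_j - G_i)` is continuous on `B'` (`lc r f = lc i f ∘ tr r i`), and
`∫ g br v u = 0` for all test functions on `B'`: `const_of_br`: `g` is constant on a smaller ball, so `lc r f` is `LH α` there; `LH.loc`.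
`Fg_ex`: `pot_ex` for `tr i j` at `x i m`: `G` on the ball `B ⊆ D i (x j).source`; `O = (x i).source ∩ x i ⁻¹' B` (`D i O = B`), `f = G ∘ x i`, so `lc i f = G` on `D i O`;
`LamP id v u = Lam i i v u` for test functions on `D i O` (`tr i i = id` on `(x i).target`; `T_congr`).  `fo_pot`, `fo_hc`.
-/

open MeasureTheory Set Filter Topology
open scoped ContDiff Matrix ENNReal

namespace Pool.Agent.SYQ

open Pool.Agent.SYH

private theorem br_zero {v u : R4 → ℝ} {x : R4} (h : x ∉ tsupport v) : br v u x = 0 := by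
  unfold br pair
  simp only [pd_eq_zero _ h]
  ring

private theorem intg {Ω : Set R4} (_ : IsOpen Ω) {g v u : R4 → ℝ} (hg : ContinuousOn g Ω)
    (hv : Test Ω v) (hu : Test Ω u) : Integrable (fun x => g x * br v u x) := by
  have hb : Continuous (br v u) := (br_smooth hv.smooth hu.smooth).continuous
  have hK : IsCompact (tsupport v) := hv.cpt
  have h1 : IntegrableOn (fun x => g x * br v u x) (tsupport v) :=
    ((hg.mono hv.supp).mul hb.continuousOn).integrableOn_compact hK
  refine (integrableOn_iff_integrable_of_support_subset ?_).mp h1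
  intro x hx
  by_contra h
  refine hx ?_
  show g x * br v u x = 0
  rw [br_zero h, mul_zero]

namespace At

variable {α : ℝ} {M : Type*} [TopologicalSpace M] [T2Space M] {ι : Type*} {A : At α M ι}
  {O : Set M} {f : M → ℝ} {i j : ι}

omit [T2Space M] in
private theorem trc (A : At α M ι) (r i : ι) : ContinuousOn (A.tr r i) (A.D r (A.x i).source) := by
  rw [← A.tr_source r i]
  exact (A.tr r i).continuousOn

theorem fo_hc (hO : IsOpen O) (hs : O ⊆ (A.x i).source ∩ (A.x j).source)
    (hf : LH α (A.D i O) (A.lc i f))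
    (h : ∀ r v u, Test (A.D r O) v → Test (A.D r O) u →
      ∫ y, A.lc r f y * br v u y = A.Lam r j v u - A.Lam r i v u) : A.HC O f := by
  intro r
  have h0 : 0 < α := A.h0
  refine LH.loc h0 fun y hy => ?_
  have hyj : y ∈ (A.tr r j).source := by
    rw [tr_source]
    exact A.D_mono r (fun m hm => (hs hm).2) hy
  have hyi : y ∈ (A.tr r i).source := by
    rw [tr_source]
    exact A.D_mono r (fun m hm => (hs hm).1) hy
  obtain ⟨r1, hr1, hb1, Gj, hGj, hj⟩ := pot_ex A.h1 A.h2 (A.apx r j) hyj
  obtain ⟨r2, hr2, hb2, Gi, hGi, hi⟩ := pot_ex A.h1 A.h2 (A.apx r i) hyi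
  obtain ⟨r3, hr3, hb3⟩ := Metric.isOpen_iff.mp (A.D_open r hO) y hy
  obtain ⟨s, hs0, hs1, hs2, hs3⟩ : ∃ s > 0, s ≤ r1 ∧ s ≤ r2 ∧ s ≤ r3 :=
    ⟨min r1 (min r2 r3), lt_min hr1 (lt_min hr2 hr3), min_le_left _ _,
      (min_le_right _ _).trans (min_le_left _ _), (min_le_right _ _).trans (min_le_right _ _)⟩
  have hB1 : Metric.ball y s ⊆ Metric.ball y r1 := Metric.ball_subset_ball hs1
  have hB2 : Metric.ball y s ⊆ Metric.ball y r2 := Metric.ball_subset_ball hs2
  have hB3 : Metric.ball y s ⊆ A.D r O := (Metric.ball_subset_ball hs3).trans hb3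
  have hlc : ContinuousOn (A.lc i f) (A.D i O) := hf.cont (A.D_open i hO) h0
  -- the function `lc r f` is continuous
  have hcr : ContinuousOn (A.lc r f) (A.D r O) := by
    have hm : MapsTo (A.tr r i) (A.D r O) (A.D i O) := by
      intro z hz
      have hz1 : z ∈ A.D r (A.x i).source := ⟨hz.1, (hs hz.2).1⟩
      refine ⟨?_, ?_⟩
      · rw [tr_apply]
        exact (A.x i).map_source hz1.2
      · rw [mem_preimage, A.symm_tr hz1]
        exact hz.2
    have hc := hlc.comp ((trc A r i).mono (A.D_mono r fun m hm => (hs hm).1)) hm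
    refine hc.congr fun z hz => ?_
    have hz1 : z ∈ A.D r (A.x i).source := ⟨hz.1, (hs hz.2).1⟩
    show f ((A.x r).symm z) = f ((A.x i).symm (A.tr r i z))
    rw [A.symm_tr hz1]
  have hc1 : ContinuousOn Gj (Metric.ball y s) := (hGj.cont Metric.isOpen_ball h0).mono hB1
  have hc2 : ContinuousOn Gi (Metric.ball y s) := (hGi.cont Metric.isOpen_ball h0).mono hB2
  have hc3 : ContinuousOn (A.lc r f) (Metric.ball y s) := hcr.mono hB3
  have hg : ContinuousOn (fun z => A.lc r f z - (Gj z - Gi z)) (Metric.ball y s) :=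
    hc3.sub (hc1.sub hc2)
  obtain ⟨ρ, hρ, hsub, c, hc⟩ := const_of_br Metric.isOpen_ball hg (fun v u hv hu => by
    have e1 := hj v u (hv.mono hB1) (hu.mono hB1)
    have e2 := hi v u (hv.mono hB2) (hu.mono hB2)
    have e3 := h r v u (hv.mono hB3) (hu.mono hB3)
    have i1 := intg Metric.isOpen_ball hc1 hv hu
    have i2 := intg Metric.isOpen_ball hc2 hv hu
    have i3 := intg Metric.isOpen_ball hc3 hv hu
    have e4 : (fun x => (A.lc r f x - (Gj x - Gi x)) * br v u x) =
        fun x => A.lc r f x * br v u x - (Gj x * br v u x - Gi x * br v u x) := by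
      funext x
      ring
    have i4 : Integrable fun x => Gj x * br v u x - Gi x * br v u x := i1.sub i2
    rw [e4, integral_sub i3 i4, integral_sub i1 i2, e1, e2, e3, Lam_eq, Lam_eq]
    ring) (Metric.mem_ball_self hs0)
  refine ⟨Metric.ball y ρ, Metric.isOpen_ball, Metric.mem_ball_self hρ, ?_⟩
  have hL : LH α (Metric.ball y ρ ∩ A.D r O) (fun z => c + (Gj z - Gi z)) := by
    refine (LH.const α c _).add (LH.sub ?_ ?_)
    · exact hGj.mono fun z hz => hB1 (hsub hz.1)
    · exact hGi.mono fun z hz => hB2 (hsub hz.1)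
  refine hL.congr fun z hz => ?_
  have := hc z hz.1
  linarith

theorem Fg_ex (A : At α M ι) {m : M} (hi : m ∈ (A.x i).source) (hj : m ∈ (A.x j).source) :
    ∃ f, A.Fg i j m f := by
  have hm : A.x i m ∈ (A.tr i j).source := by
    rw [tr_source]
    exact A.x_mem_D hi hj
  obtain ⟨s, hs, hb, G, hG, hI⟩ := pot_ex A.h1 A.h2 (A.apx i j) hm
  rw [tr_source] at hb
  have hO : IsOpen ((A.x i).source ∩ A.x i ⁻¹' Metric.ball (A.x i m) s) :=
    (A.x i).isOpen_inter_preimage Metric.isOpen_ball
  have hsub : (A.x i).source ∩ A.x i ⁻¹' Metric.ball (A.x i m) s ⊆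
      (A.x i).source ∩ (A.x j).source := by
    intro m' hm'
    refine ⟨hm'.1, ?_⟩
    have h1 := (hb hm'.2).2
    rw [mem_preimage, (A.x i).left_inv hm'.1] at h1
    exact h1
  have hD : A.D i ((A.x i).source ∩ A.x i ⁻¹' Metric.ball (A.x i m) s) =
      Metric.ball (A.x i m) s := by
    ext y
    constructor
    · rintro ⟨h1, h2⟩
      have h3 := h2.2
      rw [mem_preimage, (A.x i).right_inv h1] at h3
      exact h3
    · intro hy
      have h1 := (hb hy).1
      refine ⟨h1, (A.x i).map_target h1, ?_⟩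
      rw [mem_preimage, (A.x i).right_inv h1]
      exact hy
  have hlc : ∀ y ∈ Metric.ball (A.x i m) s, A.lc i (fun m' => G (A.x i m')) y = G y := by
    intro y hy
    show G (A.x i ((A.x i).symm y)) = G y
    rw [(A.x i).right_inv (hb hy).1]
  have hid : ∀ y ∈ (A.x i).target, A.tr i i y = y := by
    intro y hy
    rw [tr_apply, (A.x i).right_inv hy]
  have hf : LH α (A.D i ((A.x i).source ∩ A.x i ⁻¹' Metric.ball (A.x i m) s))
      (A.lc i fun m' => G (A.x i m')) := by
    rw [hD]
    exact hG.congr hlc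
  have hpot : ∀ v u, Test (A.D i ((A.x i).source ∩ A.x i ⁻¹' Metric.ball (A.x i m) s)) v →
      Test (A.D i ((A.x i).source ∩ A.x i ⁻¹' Metric.ball (A.x i m) s)) u →
      ∫ y, A.lc i (fun m' => G (A.x i m')) y * br v u y = A.Lam i j v u - A.Lam i i v u := by
    intro v u hv hu
    rw [hD] at hv hu
    have h1 : ∫ y, A.lc i (fun m' => G (A.x i m')) y * br v u y = ∫ y, G y * br v u y := by
      refine integral_congr_ae (Eventually.of_forall fun y => ?_)
      show A.lc i (fun m' => G (A.x i m')) y * br v u y = G y * br v u y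
      by_cases hy : y ∈ tsupport v
      · rw [hlc y (hv.supp hy)]
      · rw [br_zero hy, mul_zero, mul_zero]
    have hz : ∀ y ∉ tsupport v, v y = 0 := fun y hy => image_eq_zero_of_notMem_tsupport hy
    have h2 : LamP id v u = A.Lam i i v u := by
      rw [Lam_eq]
      unfold LamP
      refine Finset.sum_congr rfl fun b _ => ?_
      have h3 : (fun y => v y * lam0 (A.tr i i y) b) = fun y => v y * lam0 (id y) b := by
        funext y
        by_cases hy : y ∈ tsupport v
        · rw [hid y (hb (hv.supp hy)).1, id]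
        · rw [hz y hy, zero_mul, zero_mul]
      rw [h3]
      have hts : tsupport (fun y => v y * lam0 (id y) b) ⊆ tsupport v :=
        closure_mono fun y hy => fun h => hy (by show v y * _ = 0; rw [h, zero_mul])
      have hcp : HasCompactSupport (fun y => v y * lam0 (id y) b) := by
        refine HasCompactSupport.of_support_subset_isCompact hv.cpt ?_
        exact (subset_tsupport _).trans hts
      symm
      refine T_congr hcp Metric.isOpen_ball (hts.trans hv.supp) (fun _ _ => rfl) fun y hy => ?_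
      show A.tr i i y b = id y b
      rw [hid y (hb hy).1, id]
    rw [h1, hI v u hv hu, Lam_eq, h2]
  have heq : ∀ r v u, Test (A.D r ((A.x i).source ∩ A.x i ⁻¹' Metric.ball (A.x i m) s)) v →
      Test (A.D r ((A.x i).source ∩ A.x i ⁻¹' Metric.ball (A.x i m) s)) u →
      ∫ y, A.lc r (fun m' => G (A.x i m')) y * br v u y = A.Lam r j v u - A.Lam r i v u :=
    fun r v u hv hu => fo_pot hO hsub hf hpot r hv hu
  refine ⟨fun m' => G (A.x i m'), (A.x i).source ∩ A.x i ⁻¹' Metric.ball (A.x i m) s,
    ⟨hi, Metric.mem_ball_self hs⟩, ?_⟩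
  exact ⟨hO, hsub, fo_hc hO hsub hf heq, heq⟩

end At

end Pool.Agent.SYQ
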