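import Pool.Agent.SYQ.QB
import Pool.Agent.SYQ.Uq

/-!
# SYQ/QG: the germs `Eg`, `Pg`, `Fg`

`Fg.sub`: `O ∩ O'`; in the chart `i` the function `lc i f - lc i g` is continuous on `D i (O ∩ O')` and `∫ (lc i f - lc i g) br v u = 0`; `const_of_br` at `x i m`: `f - g = c` on
`(x i).source ∩ x i ⁻¹' (ball)`.  `Fg.add`, `Fg.neg`: on `O ∩ O'`; the integrals exist (continuous functions on `D r O` times `br v u`, continuous with compact support in `D r O`).
`Fg.const`: `O = (x i).source`; `∫ c br v u = 0` (`int_cyc` with a cutoff function, or `∫ br v u = 0`).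
-/

open MeasureTheory Set Filter Topology
open scoped ContDiff Matrix ENNReal

namespace Pool.Agent.SYQ

open Pool.Agent.SYH

private theorem QG_br_off {Ω : Set R4} {v : R4 → ℝ} (hv : Test Ω v) (u : R4 → ℝ) {y : R4}
    (hy : y ∉ tsupport v) : br v u y = 0 := by
  have h : v =ᶠ[𝓝 y] fun _ => 0 := by
    have h1 : (tsupport v)ᶜ ∈ 𝓝 y := (isClosed_tsupport v).isOpen_compl.mem_nhds hy
    filter_upwards [h1] with z hz
    exact image_eq_zero_of_notMem_tsupport hz
  rw [br_congr h (Filter.EventuallyEq.refl _ u), br_const]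

private theorem QG_int {Ω : Set R4} {f v u : R4 → ℝ} (hΩ : IsOpen Ω) (hf : ContinuousOn f Ω)
    (hv : Test Ω v) (hu : Test Ω u) : Integrable (fun y => f y * br v u y) := by
  have hb : ContDiff ℝ ∞ (br v u) := br_smooth hv.smooth hu.smooth
  have hs : Function.support (br v u) ⊆ tsupport v := by
    intro y hy
    by_contra hc
    exact hy (QG_br_off hv u hc)
  have hs' : tsupport (br v u) ⊆ tsupport v := closure_minimal hs (isClosed_tsupport v)
  have hcp : HasCompactSupport (br v u) := hv.cpt.mono' hs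
  exact (LpL.of_cont (p := 1) hΩ hf).int hb.continuous hcp (hs'.trans hv.supp)

private theorem QG_const {Ω : Set R4} {v u : R4 → ℝ} (c : ℝ) (hv : Test Ω v) (hu : Test Ω u) :
    ∫ y, c * br v u y = 0 := by
  have h1 := int_cyc (v := u) (u := fun _ => c) (w := v) hu.smooth contDiff_const hv.smooth hu.cpt
  rw [← h1]
  simp only [br_const, mul_zero, integral_zero]

namespace At

variable {α : ℝ} {M : Type*} [TopologicalSpace M] {ι : Type*} {A : At α M ι}
  {m : M} {f g h f' g' : M → ℝ} {i j k : ι}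

theorem Eg.near (h : A.Eg m f g) : ∀ᶠ m' in 𝓝 m, A.Eg m' f g := by
  exact eventually_eventually_nhds.2 h

theorem Eg.of (A : At α M ι) (h : ∀ᶠ m' in 𝓝 m, f m' = g m') : A.Eg m f g := by
  exact h

theorem Eg.symm (h : A.Eg m f g) : A.Eg m g f := by
  filter_upwards [h] with x hx using hx.symm

theorem Eg.trans (h1 : A.Eg m f g) (h2 : A.Eg m g h) : A.Eg m f h := by
  filter_upwards [h1, h2] with x hx hx' using hx.trans hx'

theorem Eg.add (h1 : A.Eg m f g) (h2 : A.Eg m f' g') :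
    A.Eg m (fun x => f x + f' x) (fun x => g x + g' x) := by
  filter_upwards [h1, h2] with x hx hx'
  rw [hx, hx']

theorem Eg.neg (h1 : A.Eg m f g) : A.Eg m (fun x => -f x) (fun x => -g x) := by
  filter_upwards [h1] with x hx
  rw [hx]

theorem Eg.const {c c' : ℝ} (h : A.Eg m (fun _ => c) (fun _ => c')) : c = c' := by
  exact h.self_of_nhds

theorem Eg.pw {O : Set M} (hO : IsOpen O)
    (h : ∀ᶠ m' in 𝓝 m, (m' ∈ O → A.Eg m' f g) ∧ (m' ∉ O → f m' = g m')) : A.Eg m f g := by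
  filter_upwards [h] with x hx
  by_cases hxO : x ∈ O
  · exact (hx.1 hxO).self_of_nhds
  · exact hx.2 hxO

theorem Pg.congr (h : A.Pg m f) (h' : A.Eg m f g) : A.Pg m g := by
  obtain ⟨O, hO, hm, hf⟩ := h
  obtain ⟨O', hO'1, hO'2, hm'⟩ := eventually_nhds_iff.1 h'
  exact ⟨O ∩ O', hO.inter hO'2, ⟨hm, hm'⟩,
    (hf.mono inter_subset_left).congr fun x hx => (hO'1 x hx.2).symm⟩

theorem Pg.add (h : A.Pg m f) (h' : A.Pg m g) : A.Pg m (fun x => f x + g x) := by
  obtain ⟨O, hO, hm, hf⟩ := h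
  obtain ⟨O', hO', hm', hg⟩ := h'
  exact ⟨O ∩ O', hO.inter hO', ⟨hm, hm'⟩, (hf.mono inter_subset_left).add
    (hg.mono inter_subset_right)⟩

theorem Pg.neg (h : A.Pg m f) : A.Pg m (fun x => -f x) := by
  obtain ⟨O, hO, hm, hf⟩ := h
  exact ⟨O, hO, hm, hf.neg⟩

theorem Pg.const (A : At α M ι) (m : M) (c : ℝ) : A.Pg m (fun _ => c) := by
  exact ⟨univ, isOpen_univ, mem_univ m, HC.const A univ c⟩

theorem Pg.mul (h : A.HC univ g) (h' : A.Pg m f) : A.Pg m (fun x => g x * f x) := by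
  obtain ⟨O, hO, hm, hf⟩ := h'
  exact ⟨O, hO, hm, HC.mul hO (h.mono (subset_univ O)) hf⟩

private theorem QG_restr {O O' : Set M} (hf : A.Fo i j O f) (hO' : IsOpen O')
    (he : ∀ m ∈ O ∩ O', f m = g m) : A.Fo i j (O ∩ O') g where
  op := hf.op.inter hO'
  sub := inter_subset_left.trans hf.sub
  hc := (hf.hc.mono inter_subset_left).congr fun x hx => (he x hx).symm
  eq := by
    intro r v u hv hu
    have hs : A.D r (O ∩ O') ⊆ A.D r O := A.D_mono r inter_subset_left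
    rw [← hf.eq r v u (hv.mono hs) (hu.mono hs)]
    refine integral_congr_ae (Eventually.of_forall fun y => ?_)
    change A.lc r g y * br v u y = A.lc r f y * br v u y
    by_cases hy : y ∈ tsupport v
    · have h1 : y ∈ A.D r (O ∩ O') := hv.supp hy
      have h2 : A.lc r g y = A.lc r f y := (he _ h1.2).symm
      rw [h2]
    · rw [QG_br_off hv u hy, mul_zero, mul_zero]

theorem Fg.near (h : A.Fg i j m f) : ∀ᶠ m' in 𝓝 m, A.Fg i j m' f := by
  obtain ⟨O, hm, hf⟩ := h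
  filter_upwards [hf.op.mem_nhds hm] with x hx
  exact ⟨O, hx, hf⟩

theorem Fg.congr (h : A.Fg i j m f) (h' : A.Eg m f g) : A.Fg i j m g := by
  obtain ⟨O, hm, hf⟩ := h
  obtain ⟨O', hO'1, hO'2, hm'⟩ := eventually_nhds_iff.1 h'
  exact ⟨O ∩ O', ⟨hm, hm'⟩, QG_restr hf hO'2 fun x hx => hO'1 x hx.2⟩

theorem Fg.pg (h : A.Fg i j m f) : A.Pg m f := by
  obtain ⟨O, hm, hf⟩ := h
  exact ⟨O, hf.op, hm, hf.hc⟩

theorem Fg.sub (h : A.Fg i j m f) (h' : A.Fg i j m g) :
    ∃ c : ℝ, A.Eg m (fun x => f x - g x) (fun _ => c) := by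
  obtain ⟨O, hm, hf⟩ := h
  obtain ⟨O', hm', hg⟩ := h'
  have hf1 : A.Fo i j (O ∩ O') f := QG_restr hf hg.op fun _ _ => rfl
  have hg1 : A.Fo i j (O ∩ O') g := by
    rw [inter_comm]
    exact QG_restr hg hf.op fun _ _ => rfl
  have hmi : m ∈ (A.x i).source := (hf.sub hm).1
  have hΩ : IsOpen (A.D i (O ∩ O')) := A.D_open i hf1.op
  have hcf : ContinuousOn (A.lc i f) (A.D i (O ∩ O')) := (hf1.hc i).cont hΩ A.h0
  have hcg : ContinuousOn (A.lc i g) (A.D i (O ∩ O')) := (hg1.hc i).cont hΩ A.h0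
  have hx : A.x i m ∈ A.D i (O ∩ O') := x_mem_D A hmi ⟨hm, hm'⟩
  obtain ⟨r, hr, hrs, c, hc⟩ := const_of_br hΩ (hcf.sub hcg) (by
    intro v u hv hu
    have h1 := hf1.eq i v u hv hu
    have h2 := hg1.eq i v u hv hu
    have h3 : (fun y => (A.lc i f - A.lc i g) y * br v u y) =
        fun y => A.lc i f y * br v u y - A.lc i g y * br v u y := by
      funext y
      simp only [Pi.sub_apply]
      ring
    have h4 := integral_sub (QG_int hΩ hcf hv hu) (QG_int hΩ hcg hv hu)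
    rw [h3, h4, h1, h2, sub_self]) hx
  refine ⟨c, ?_⟩
  have h5 : (A.x i).source ∩ A.x i ⁻¹' (Metric.ball (A.x i m) r) ∈ 𝓝 m :=
    ((A.x i).isOpen_inter_preimage Metric.isOpen_ball).mem_nhds
      ⟨hmi, Metric.mem_ball_self hr⟩
  filter_upwards [h5] with x hx5
  have h6 := hc _ hx5.2
  simp only [Pi.sub_apply, lc, (A.x i).left_inv hx5.1] at h6
  exact h6

theorem Fg.add (h : A.Fg i j m f) (h' : A.Fg j k m g) : A.Fg i k m (fun x => f x + g x) := by
  obtain ⟨O, hm, hf⟩ := h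
  obtain ⟨O', hm', hg⟩ := h'
  have hf1 : A.Fo i j (O ∩ O') f := QG_restr hf hg.op fun _ _ => rfl
  have hg1 : A.Fo j k (O ∩ O') g := by
    rw [inter_comm]
    exact QG_restr hg hf.op fun _ _ => rfl
  refine ⟨O ∩ O', ⟨hm, hm'⟩, hf1.op, fun x hx => ⟨(hf1.sub hx).1, (hg1.sub hx).2⟩,
    hf1.hc.add hg1.hc, ?_⟩
  intro r v u hv hu
  have hΩ : IsOpen (A.D r (O ∩ O')) := A.D_open r hf1.op
  have hcf : ContinuousOn (A.lc r f) (A.D r (O ∩ O')) := (hf1.hc r).cont hΩ A.h0
  have hcg : ContinuousOn (A.lc r g) (A.D r (O ∩ O')) := (hg1.hc r).cont hΩ A.h0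
  have h1 := hf1.eq r v u hv hu
  have h2 := hg1.eq r v u hv hu
  have h3 : (fun y => A.lc r (fun x => f x + g x) y * br v u y) =
      fun y => A.lc r f y * br v u y + A.lc r g y * br v u y := by
    funext y
    simp only [lc]
    ring
  have h4 := integral_add (QG_int hΩ hcf hv hu) (QG_int hΩ hcg hv hu)
  rw [h3, h4, h1, h2]
  ring

theorem Fg.neg (h : A.Fg i j m f) : A.Fg j i m (fun x => -f x) := by
  obtain ⟨O, hm, hf⟩ := h
  refine ⟨O, hm, hf.op, fun x hx => ⟨(hf.sub hx).2, (hf.sub hx).1⟩, hf.hc.neg, ?_⟩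
  intro r v u hv hu
  have h1 := hf.eq r v u hv hu
  have h3 : (fun y => A.lc r (fun x => -f x) y * br v u y) =
      fun y => -(A.lc r f y * br v u y) := by
    funext y
    simp only [lc]
    ring
  rw [h3, integral_neg, h1]
  ring

theorem Fg.const (c : ℝ) (h : m ∈ (A.x i).source) : A.Fg i i m (fun _ => c) := by
  refine ⟨(A.x i).source, h, (A.x i).open_source, fun x hx => ⟨hx, hx⟩, HC.const A _ c, ?_⟩
  intro r v u hv hu
  rw [sub_self]
  exact QG_const c hv hu

end At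

end Pool.Agent.SYQ
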