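import Pool.Agent.SYQ.QB

/-!
# SYQ/QH: bump functions and cutoff functions on the manifold

`bump`: `ψ` a `ContDiffBump` at `x i m` with `tsupport ψ = closedBall (x i m) r ⊆ D i O`; `b = ψ ∘ x i` on `(x i).source`, `0` elsewhere (compare `SYD/Bmp`, `SYD/BmP`); `T = (x i).symm '' tsupport ψ`.
`HC.of_sc` and `Vm.of`.
`cutoff`: for `m ∈ K₂` a bump function `b_m` with support in `K₁ᶜ`, `b_m = 1` on the open `N_m ∋ m`; finitely many `N_m` cover the compact `K₂`;
`ρ = 1 - Π (1 - b_m)` (`HC.mul`, `HC.sub`); `ρ = 1` on `⋃ N_m`; `ρ = 0` off the union of the (compact) supports, an open set which contains `K₁`.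
`cut_m`: `K₁ = Oᶜ`, `K₂ = K`.
-/

open MeasureTheory Set Filter Topology
open scoped ContDiff Matrix ENNReal

namespace Pool.Agent.SYQ

open Pool.Agent.SYH

namespace At

variable {α : ℝ} {M : Type*} [TopologicalSpace M] [T2Space M] {ι : Type*} (A : At α M ι)

theorem bump {i : ι} {m : M} (hm : m ∈ (A.x i).source) {O : Set M} (hO : IsOpen O) (hmO : m ∈ O) :
    ∃ b : M → ℝ, A.SC i (A.x i).source b ∧ A.Vm (O ∩ (A.x i).source) b ∧
      (∀ m', 0 ≤ b m' ∧ b m' ≤ 1) ∧ ∀ᶠ m' in 𝓝 m, b m' = 1 := by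
  classical
  have hD : IsOpen (A.D i O) := A.D_open i hO
  have hmD : A.x i m ∈ A.D i O := A.x_mem_D hm hmO
  obtain ⟨r, hr, hb⟩ := Metric.nhds_basis_closedBall.mem_iff.1 (hD.mem_nhds hmD)
  let ψ : ContDiffBump (A.x i m) := ⟨r / 2, r, by positivity, by linarith⟩
  have hψs : ContDiff ℝ ∞ (ψ : R4 → ℝ) := ψ.contDiff
  have hts : tsupport (ψ : R4 → ℝ) = Metric.closedBall (A.x i m) r := ψ.tsupport_eq
  set S := (A.x i).source with hS
  have hSo : IsOpen S := (A.x i).open_source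
  let η : M → ℝ := fun m' => if m' ∈ S then ψ (A.x i m') else 0
  let T : Set M := (A.x i).symm '' Metric.closedBall (A.x i m) r
  have hbt : Metric.closedBall (A.x i m) r ⊆ (A.x i).target := hb.trans inter_subset_left
  have hTc : IsCompact T :=
    (isCompact_closedBall _ _).image_of_continuousOn ((A.x i).continuousOn_symm.mono hbt)
  have hTs : T ⊆ O ∩ S := by
    rintro _ ⟨y, hy, rfl⟩
    exact ⟨(hb hy).2, (A.x i).map_target (hbt hy)⟩
  have hnb : ∀ m' ∈ S, m' ∉ T → A.x i m' ∉ Metric.closedBall (A.x i m) r := by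
    intro m' hm' hT h
    exact hT ⟨A.x i m', h, (A.x i).left_inv hm'⟩
  have hη0 : ∀ m' ∉ T, η m' = 0 := by
    intro m' hm'
    by_cases h : m' ∈ S
    · have h1 := hnb m' h hm'
      show (if m' ∈ S then ψ (A.x i m') else 0) = 0
      rw [if_pos h]
      rw [← hts] at h1
      exact image_eq_zero_of_notMem_tsupport h1
    · show (if m' ∈ S then ψ (A.x i m') else 0) = 0
      rw [if_neg h]
  have hηS : ∀ m' ∈ S, η m' = ψ (A.x i m') := fun m' h => if_pos h
  have hSC : A.SC i S η := by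
    refine (hψs.contDiffOn (s := A.D i S)).congr fun y hy => ?_
    show η ((A.x i).symm y) = ψ y
    rw [hηS _ hy.2, (A.x i).right_inv hy.1]
  refine ⟨η, hSC, ?_, ?_, ?_⟩
  · have hOS : IsOpen (O ∩ S) := hO.inter hSo
    refine Vm.of hOS ?_ hTc hTs hη0
    exact HC.of_sc (i := i) hOS inter_subset_right (hSC.mono (A.D_mono i inter_subset_right))
  · intro m'
    by_cases h : m' ∈ S
    · rw [hηS m' h]
      exact ⟨ψ.nonneg, ψ.le_one⟩
    · have : η m' = 0 := if_neg h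
      rw [this]
      exact ⟨le_rfl, zero_le_one⟩
  · have hN : IsOpen (S ∩ A.x i ⁻¹' Metric.ball (A.x i m) (r / 2)) :=
      (A.x i).isOpen_inter_preimage Metric.isOpen_ball
    filter_upwards [hN.mem_nhds ⟨hm, Metric.mem_ball_self (by positivity)⟩] with m' hm'
    rw [hηS m' hm'.1]
    exact ψ.one_of_mem_closedBall (Metric.ball_subset_closedBall hm'.2)

/-- products of finitely many functions `1 - b` -/
private theorem qh_prod {K₁ : Set M} (N : M → Set M) (t : Finset M)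
    (H : ∀ m ∈ t, ∃ b : M → ℝ, A.Vm K₁ᶜ b ∧ ∀ m' ∈ N m, b m' = 1) :
    ∃ (g : M → ℝ) (T : Set M), A.HC univ g ∧ IsCompact T ∧ T ⊆ K₁ᶜ ∧ (∀ m' ∉ T, g m' = 1) ∧
      ∀ m ∈ t, ∀ m' ∈ N m, g m' = 0 := by
  classical
  induction t using Finset.induction_on with
  | empty =>
    exact ⟨fun _ => 1, ∅, HC.const A univ 1, isCompact_empty, empty_subset _, fun _ _ => rfl,
      fun m hm => absurd hm (Finset.notMem_empty m)⟩
  | insert a t _ ih =>
    obtain ⟨g, T, h1, h2, h3, h4, h5⟩ := ih fun m hm => H m (Finset.mem_insert_of_mem hm)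
    obtain ⟨b, ⟨hb, T', hT', hTs, hb0⟩, hb1⟩ := H a (Finset.mem_insert_self a t)
    refine ⟨fun m => (1 - b m) * g m, T' ∪ T, ?_, hT'.union h2, union_subset hTs h3, ?_, ?_⟩
    · exact HC.mul isOpen_univ (HC.sub (HC.const A univ 1) hb) h1
    · intro m' hm'
      rw [mem_union, not_or] at hm'
      simp only
      rw [hb0 m' hm'.1, h4 m' hm'.2]
      norm_num
    · intro m hm m' hm'
      simp only
      rcases Finset.mem_insert.1 hm with rfl | hm
      · rw [hb1 m' hm']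
        norm_num
      · rw [h5 m hm m' hm', mul_zero]

theorem cutoff [CompactSpace M] {K₁ K₂ : Set M} (h1 : IsClosed K₁) (h2 : IsClosed K₂)
    (hd : Disjoint K₁ K₂) : ∃ (ρ : M → ℝ) (O₁ O₂ : Set M), A.HC univ ρ ∧ IsOpen O₁ ∧ IsOpen O₂ ∧
      K₁ ⊆ O₁ ∧ K₂ ⊆ O₂ ∧ (∀ m ∈ O₁, ρ m = 0) ∧ ∀ m ∈ O₂, ρ m = 1 := by
  classical
  have hK1 : IsOpen K₁ᶜ := h1.isOpen_compl
  have key : ∀ m ∈ K₂, ∃ (N : Set M) (b : M → ℝ), IsOpen N ∧ m ∈ N ∧ A.Vm K₁ᶜ b ∧
      ∀ m' ∈ N, b m' = 1 := by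
    intro m hm
    obtain ⟨i, hi⟩ := A.cov m
    have hm1 : m ∈ K₁ᶜ := fun h => Set.disjoint_left.1 hd h hm
    obtain ⟨b, -, hb, -, hb1⟩ := A.bump hi hK1 hm1
    obtain ⟨N, hN, hNo, hmN⟩ := eventually_nhds_iff.1 hb1
    exact ⟨N, b, hNo, hmN, hb.mono inter_subset_left, hN⟩
  let N : M → Set M := fun m => if h : m ∈ K₂ then (key m h).choose else univ
  have hNe : ∀ m (h : m ∈ K₂), N m = (key m h).choose := fun m h => dif_pos h
  have hNo : ∀ m, IsOpen (N m) := by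
    intro m
    by_cases h : m ∈ K₂
    · rw [hNe m h]
      exact (key m h).choose_spec.choose_spec.1
    · have : N m = univ := dif_neg h
      rw [this]
      exact isOpen_univ
  obtain ⟨t, ht, hcov⟩ := h2.isCompact.elim_nhds_subcover N (fun m hm => (hNo m).mem_nhds (by
    rw [hNe m hm]
    exact (key m hm).choose_spec.choose_spec.2.1))
  obtain ⟨g, T, g1, g2, g3, g4, g5⟩ := A.qh_prod N t (K₁ := K₁) (fun m hm => by
    have hm2 := ht m hm
    refine ⟨(key m hm2).choose_spec.choose, (key m hm2).choose_spec.choose_spec.2.2.1, ?_⟩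
    rw [hNe m hm2]
    exact (key m hm2).choose_spec.choose_spec.2.2.2)
  refine ⟨fun m => 1 - g m, Tᶜ, ⋃ m ∈ t, N m, HC.sub (HC.const A univ 1) g1,
    g2.isClosed.isOpen_compl, isOpen_biUnion fun m _ => hNo m, ?_, hcov, ?_, ?_⟩
  · intro m hm hT
    exact g3 hT hm
  · intro m hm
    simp only
    rw [g4 m hm, sub_self]
  · intro m hm
    simp only
    rw [mem_iUnion₂] at hm
    obtain ⟨m0, hm0, hm1⟩ := hm
    rw [g5 m0 hm0 m hm1, sub_zero]

theorem cut_m [CompactSpace M] {K O : Set M} (hK : IsClosed K) (hO : IsOpen O) (hs : K ⊆ O) :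
    ∃ κ : M → ℝ, A.Vm O κ ∧ ∃ O', IsOpen O' ∧ K ⊆ O' ∧ ∀ m ∈ O', κ m = 1 := by
  obtain ⟨ρ, O₁, O₂, h1, h2, h3, h4, h5, h6, h7⟩ := A.cutoff (K₁ := Oᶜ) (K₂ := K)
    hO.isClosed_compl hK (Set.disjoint_left.2 fun m hm hmK => hm (hs hmK))
  refine ⟨ρ, ⟨h1, O₁ᶜ, h2.isClosed_compl.isCompact, ?_, ?_⟩, O₂, h3, h5, h7⟩
  · intro m hm
    by_contra h
    exact hm (h4 h)
  · intro m hm
    rw [mem_compl_iff, not_not] at hm
    exact h6 m hm

end At

end Pool.Agent.SYQ
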