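import Pool.Agent.SYQ.QF
import Pool.Agent.SYQ.QG
import Pool.Agent.SYQ.QH

/-!
# SYQ/QI: the atlas defines a system of germs
-/

open MeasureTheory Set Filter Topology
open scoped ContDiff Matrix ENNReal

namespace Pool.Agent.SYQ

open Pool.Agent.SYH

namespace At

variable {α : ℝ} {M : Type*} [TopologicalSpace M] [T2Space M] [CompactSpace M] {ι : Type*}

def sys (A : At α M ι) : SYT.Sys M ι where
  U := fun i => (A.x i).source
  opU := fun i => (A.x i).open_source
  cov := A.cov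
  E := A.Eg
  P := A.Pg
  F := A.Fg
  E_near := Eg.near
  E_of := Eg.of A
  E_symm := Eg.symm
  E_trans := Eg.trans
  E_add := Eg.add
  E_neg := Eg.neg
  E_const := Eg.const
  E_pw := Eg.pw
  P_congr := Pg.congr
  P_add := Pg.add
  P_neg := Pg.neg
  P_const := fun {m} c => Pg.const A m c
  cut := by
    intro K₁ K₂ h1 h2 hd
    obtain ⟨ρ, O₁, O₂, hρ, o1, o2, k1, k2, z1, z2⟩ := A.cutoff h1 h2 hd
    exact ⟨ρ, O₁, O₂, o1, o2, k1, k2, z1, z2, fun m f hf => Pg.mul hρ hf⟩
  F_near := Fg.near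
  F_congr := Fg.congr
  F_P := Fg.pg
  F_sub := Fg.sub
  F_add := Fg.add
  F_neg := Fg.neg
  F_const := Fg.const
  F_ex := A.Fg_ex

end At

end Pool.Agent.SYQ
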