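import Pool.Agent.SYQ.QI

/-!
# SYQ/QJ: a finite family of local primitives

`σ` is a primitive on `univ` (`Coh`).  For every `m`: `Pg m (σ m)` gives an open `O₁ ∋ m` with `HC O₁ (σ m)`; there is an open `O₂ ∋ m` with `Fg (c m) (c m') m' (σ m - σ m')` for `m' ∈ O₂`;
`N m = O₁ ∩ O₂ ∩ (x (c m)).source`.  For `m'' ∈ N m ∩ N m'`: `Fg (c m) (c m') m'' (σ m - σ m')`: `Fg.add` of `Fg (c m) (c m'') m'' (σ m - σ m'')` and `Fg.neg` of
`Fg (c m') (c m'') m'' (σ m' - σ m'')`, `Fg.congr`.  `bump` at `m` in the chart `c m` with `O = N m`: `b_m`, with `b_m = 1` on an open `P m ∋ m`.  Finitely many `P m` cover the compact space `M`: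
`m_0, .., m_{n-1}`, `n ≥ 1` (`M` is not empty); for `k ≥ n` let `m_k = m_0`.  `N k = N (m_k)`, `h k = σ (m_k)`, `b k = b_{m_k}`, and `κ k` from `cut_m` for the compact (closed) support `T` of `b k` and
`O = N k`.
-/

open MeasureTheory Set Filter Topology
open scoped ContDiff Matrix ENNReal

namespace Pool.Agent.SYQ

open Pool.Agent.SYH

namespace At

variable {α : ℝ} {M : Type*} [TopologicalSpace M] {ι : Type*}

/-- a family of local primitives `λ_{c k} + d (h k)` on `N k` of the symplectic form, and bump functions `b k` (smooth in the chart `c k`); `κ k` is a cutoff function on `N k` which is `1`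
near the support of `b k` -/
structure Fam (A : At α M ι) (n : ℕ) (c : ℕ → ι) (N : ℕ → Set M) (h b κ : ℕ → M → ℝ) : Prop where
  op : ∀ k, IsOpen (N k)
  sub : ∀ k, N k ⊆ (A.x (c k)).source
  hh : ∀ k, A.HC (N k) (h k)
  co : ∀ k l, ∀ m ∈ N k ∩ N l, A.Fg (c k) (c l) m (fun x => h k x - h l x)
  bs : ∀ k, A.SC (c k) (A.x (c k)).source (b k)
  bv : ∀ k, A.Vm (N k) (b k)
  bb : ∀ k m, 0 ≤ b k m ∧ b k m ≤ 1
  kv : ∀ k, A.Vm (N k) (κ k)
  kb : ∀ k, ∃ T O, IsClosed T ∧ IsOpen O ∧ T ⊆ O ∧ (∀ m ∉ T, b k m = 0) ∧ ∀ m ∈ O, κ k m = 1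
  cv : ∀ m, ∃ k < n, ∀ᶠ m' in 𝓝 m, b k m' = 1

theorem fam_of_coh [T2Space M] [CompactSpace M] [Nonempty M] (A : At α M ι) {c : M → ι}
    (hc : ∀ m, m ∈ (A.x (c m)).source) {σ : M → M → ℝ} (h : A.sys.Coh c univ σ) :
    ∃ n c' N h b κ, A.Fam n c' N h b κ := by
  classical
  have h1 : ∀ m, ∃ O, IsOpen O ∧ m ∈ O ∧ A.HC O (σ m) := fun m => (h m (mem_univ m)).1
  have h2 : ∀ m, ∃ O, IsOpen O ∧ m ∈ O ∧
      ∀ m' ∈ O, A.Fg (c m) (c m') m' (fun x => σ m x - σ m' x) := by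
    intro m
    obtain ⟨O, o1, o2, o3⟩ := eventually_nhds_iff.1 (h m (mem_univ m)).2
    exact ⟨O, o2, o3, o1⟩
  choose O₁ a1 a2 a3 using h1
  choose O₂ b1 b2 b3 using h2
  obtain ⟨N, hN⟩ : ∃ N : M → Set M, ∀ m, N m = O₁ m ∩ O₂ m ∩ (A.x (c m)).source := ⟨_, fun _ => rfl⟩
  have Nop : ∀ m, IsOpen (N m) := fun m => by
    rw [hN]
    exact ((a1 m).inter (b1 m)).inter (A.x (c m)).open_source
  have Nm : ∀ m, m ∈ N m := fun m => by
    rw [hN]
    exact ⟨⟨a2 m, b2 m⟩, hc m⟩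
  have N1 : ∀ m, N m ⊆ O₁ m := fun m => by
    rw [hN]
    exact fun x hx => hx.1.1
  have N2 : ∀ m, N m ⊆ O₂ m := fun m => by
    rw [hN]
    exact fun x hx => hx.1.2
  have N3 : ∀ m, N m ⊆ (A.x (c m)).source := fun m => by
    rw [hN]
    exact fun x hx => hx.2
  have h3 : ∀ m, ∃ b : M → ℝ, A.SC (c m) (A.x (c m)).source b ∧
      A.Vm (N m ∩ (A.x (c m)).source) b ∧ (∀ m', 0 ≤ b m' ∧ b m' ≤ 1) ∧ ∀ᶠ m' in 𝓝 m, b m' = 1 :=
    fun m => A.bump (hc m) (Nop m) (Nm m)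
  choose b c1 c2 c3 c4 using h3
  have h4 : ∀ m, ∃ κ : M → ℝ, A.Vm (N m) κ ∧ ∃ T O, IsClosed T ∧ IsOpen O ∧ T ⊆ O ∧
      (∀ m' ∉ T, b m m' = 0) ∧ ∀ m' ∈ O, κ m' = 1 := by
    intro m
    obtain ⟨-, T, t1, t2, t3⟩ := c2 m
    obtain ⟨κ, k1, O', k2, k3, k4⟩ := A.cut_m t1.isClosed (Nop m) (t2.trans inter_subset_left)
    exact ⟨κ, k1, T, O', t1.isClosed, k2, k3, t3, k4⟩
  choose κ d1 d2 using h4
  obtain ⟨t, ht⟩ := CompactSpace.elim_nhds_subcover (fun m => interior {m' | b m m' = 1})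
    (fun m => interior_mem_nhds.2 (c4 m))
  obtain ⟨mm, hmm⟩ : ∃ mm : ℕ → M, ∀ x ∈ t, ∃ k < t.card, mm k = x := by
    refine ⟨fun k => if hk : k < t.card then (t.equivFin.symm ⟨k, hk⟩ : M) else
      Classical.arbitrary M, fun x hx => ⟨t.equivFin ⟨x, hx⟩, (t.equivFin ⟨x, hx⟩).2, ?_⟩⟩
    have hk : ((t.equivFin ⟨x, hx⟩ : Fin t.card) : ℕ) < t.card := (t.equivFin ⟨x, hx⟩).2
    simp only [hk, dif_pos]
    simp
  refine ⟨t.card, fun k => c (mm k), fun k => N (mm k), fun k => σ (mm k), fun k => b (mm k),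
    fun k => κ (mm k), ?_⟩
  refine ⟨fun k => Nop _, fun k => N3 _, fun k => (a3 _).mono (N1 _), ?_, fun k => c1 _,
    fun k => (c2 _).mono inter_subset_left, fun k => c3 _, fun k => d1 _, fun k => d2 _, ?_⟩
  · intro k l m hm
    have f1 := b3 (mm k) m (N2 _ hm.1)
    have f2 := b3 (mm l) m (N2 _ hm.2)
    have f3 := f1.add f2.neg
    have e : (fun x => σ (mm k) x - σ m x + -(σ (mm l) x - σ m x)) =
        fun x => σ (mm k) x - σ (mm l) x := by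
      funext x
      ring
    rwa [e] at f3
  · intro m
    have hm : m ∈ ⋃ x ∈ t, interior {m' | b x m' = 1} := by
      rw [ht]
      trivial
    obtain ⟨x, hx, hmx⟩ := mem_iUnion₂.1 hm
    obtain ⟨k, hk, rfl⟩ := hmm x hx
    refine ⟨k, hk, ?_⟩
    filter_upwards [isOpen_interior.mem_nhds hmx] with m' hm'
    have := interior_subset hm'
    exact this

end At

end Pool.Agent.SYQ
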