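import Pool.Agent.SYQ.Tcv
import Pool.Agent.SYQ.TA2

/-!
# SYQ/TLb: the Leibniz rule

`K = tsupport v`, `κ` from `cut_ex` for `K`; by `T_congr` one may replace `u, u', w` by `κ u, κ u', κ w` (in all three terms; `tsupport (v u) ⊆ tsupport v`), of class `Vc`.
`u_δ = mol δ (κ u)`, .. (smooth functions, `Cv.mol`, `Cv.mul`): by `T_smooth` and `br_mul`
`T v (u_δ u'_δ) w_δ = T (v u_δ) u'_δ w_δ + T (v u'_δ) u_δ w_δ`; let `δ → 0` (`T_cv`; `𝓝[>] 0` is not `⊥`).
`T_grad_zero`: `w_δ = mol δ (κ w)`: `T v u w_δ = ∫ v br u w_δ = 0` (`T_smooth`; `br` only involves `v ∂_a u`); `T_cv` with `vs = v`, `us = u` (`LH.of_smooth`).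
-/

open MeasureTheory Set Filter Topology
open scoped ContDiff Matrix ENNReal

namespace Pool.Agent.SYQ

open Pool.Agent.SYH

variable {β₁ β₂ β₃ : ℝ} {Ω : Set R4} {v u u' w : R4 → ℝ}

private theorem TLb_int {α : ℝ} (h0 : 0 < α) {Ω : Set R4} {v f g : R4 → ℝ} (hv : Vc α Ω v)
    (hf : ContDiff ℝ ∞ f) (hg : Continuous g) : Integrable fun x => v x * f x * g x := by
  obtain ⟨L, hL⟩ := hv.hb
  have hc : Continuous v := hL.cont h0
  refine ((hc.mul hf.continuous).mul hg).integrable_of_hasCompactSupport ?_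
  exact (hv.cpt.mul_right).mul_right

theorem T_leib {α : ℝ} (h1 : 2 / 3 < α) (h2 : α ≤ 1) (hΩ : IsOpen Ω) (hv : Vc α Ω v)
    (hu : LH α Ω u) (hu' : LH α Ω u') (hw : LH α Ω w) :
    T v (fun x => u x * u' x) w = T (fun x => v x * u x) u' w + T (fun x => v x * u' x) u w := by
  have h0 : 0 < α := by linarith
  have E := Exq.of h1 h2
  obtain ⟨κ, hκ, -, O, hO, hKO, hOΩ, hκ1⟩ := cut_ex hΩ hv.cpt.isCompact hv.supp
  have hκv : Vc α Ω κ := Vc.of_test hκ h0 h2
  have hvz : ∀ x ∉ tsupport v, v x = 0 := fun x hx => image_eq_zero_of_notMem_tsupport hx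
  have hvκ : ∀ (f : R4 → ℝ) x, v x * (κ x * f x) = v x * f x := by
    intro f x
    by_cases hx : x ∈ tsupport v
    · rw [hκ1 x (hKO hx), one_mul]
    · rw [hvz x hx, zero_mul, zero_mul]
  have lU : LH α univ (fun x => κ x * u x) := (Vc.mul_lh hΩ h0 hκv hu).lh univ
  have lU' : LH α univ (fun x => κ x * u' x) := (Vc.mul_lh hΩ h0 hκv hu').lh univ
  have lW : LH α univ (fun x => κ x * w x) := (Vc.mul_lh hΩ h0 hκv hw).lh univ
  have hvu : Vc α univ v := hv.mono (subset_univ _)
  have lv : LH α univ v := hv.lh univ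
  have cU := Cv.mol isOpen_univ h0 lU
  have cU' := Cv.mol isOpen_univ h0 lU'
  have cW := Cv.mol isOpen_univ h0 lW
  have cv : Cv α univ (𝓝[>] (0 : ℝ)) (fun _ => v) v := Cv.const _ lv
  have hK := hv.cpt.isCompact
  have q1 := T_cv E isOpen_univ hK (subset_univ _) (Eventually.of_forall fun _ => hvz) hvz cv
    (cU.mul isOpen_univ h0 cU') cW
  have q2 := T_cv E isOpen_univ hK (subset_univ _)
    (Eventually.of_forall fun δ x hx => by rw [hvz x hx, zero_mul])
    (fun x hx => by rw [hvz x hx, zero_mul]) (cv.mul isOpen_univ h0 cU) cU' cW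
  have q3 := T_cv E isOpen_univ hK (subset_univ _)
    (Eventually.of_forall fun δ x hx => by rw [hvz x hx, zero_mul])
    (fun x hx => by rw [hvz x hx, zero_mul]) (cv.mul isOpen_univ h0 cU') cU cW
  have hcU : Continuous fun x => κ x * u x := by
    obtain ⟨L, hL⟩ := (Vc.mul_lh hΩ h0 hκv hu).hb
    exact hL.cont h0
  have hcU' : Continuous fun x => κ x * u' x := by
    obtain ⟨L, hL⟩ := (Vc.mul_lh hΩ h0 hκv hu').hb
    exact hL.cont h0
  have hcW : Continuous fun x => κ x * w x := by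
    obtain ⟨L, hL⟩ := (Vc.mul_lh hΩ h0 hκv hw).hb
    exact hL.cont h0
  have key : ∀ δ : ℝ, T v (fun x => SYH.mol δ (fun x => κ x * u x) x *
      SYH.mol δ (fun x => κ x * u' x) x) (SYH.mol δ (fun x => κ x * w x)) =
      T (fun x => v x * SYH.mol δ (fun x => κ x * u x) x) (SYH.mol δ (fun x => κ x * u' x))
        (SYH.mol δ (fun x => κ x * w x)) +
      T (fun x => v x * SYH.mol δ (fun x => κ x * u' x) x) (SYH.mol δ (fun x => κ x * u x))
        (SYH.mol δ (fun x => κ x * w x)) := by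
    intro δ
    have sU : ContDiff ℝ ∞ (SYH.mol δ (fun x => κ x * u x)) := mol_smooth δ hcU.locallyIntegrable
    have sU' : ContDiff ℝ ∞ (SYH.mol δ (fun x => κ x * u' x)) := mol_smooth δ hcU'.locallyIntegrable
    have sW : ContDiff ℝ ∞ (SYH.mol δ (fun x => κ x * w x)) := mol_smooth δ hcW.locallyIntegrable
    have v1 : Vc α univ (fun x => v x * SYH.mol δ (fun x => κ x * u x) x) :=
      Vc.mul_lh isOpen_univ h0 hvu (LH.of_smooth isOpen_univ h0 h2 (sU.of_le (by simp)).contDiffOn)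
    have v2 : Vc α univ (fun x => v x * SYH.mol δ (fun x => κ x * u' x) x) :=
      Vc.mul_lh isOpen_univ h0 hvu
        (LH.of_smooth isOpen_univ h0 h2 (sU'.of_le (by simp)).contDiffOn)
    rw [T_smooth h0 h2 isOpen_univ hvu (sU.mul sU').contDiffOn sW.contDiffOn,
      T_smooth h0 h2 isOpen_univ v1 sU'.contDiffOn sW.contDiffOn,
      T_smooth h0 h2 isOpen_univ v2 sU.contDiffOn sW.contDiffOn,
      ← integral_add (TLb_int h0 hvu sU (br_smooth sU' sW).continuous)
        (TLb_int h0 hvu sU' (br_smooth sU sW).continuous)]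
    refine integral_congr_ae (Eventually.of_forall fun x => ?_)
    show _ * _ = _ * _ * _ + _ * _ * _
    rw [br_mul (sU.differentiable (by simp)).differentiableAt
      (sU'.differentiable (by simp)).differentiableAt]
    ring
  have q4 := tendsto_nhds_unique (q1.congr key) (q2.add q3)
  have e1 : T v (fun x => u x * u' x) w =
      T v (fun x => κ x * u x * (κ x * u' x)) (fun x => κ x * w x) :=
    (T_congr hv.cpt hO hKO (fun x hx => by rw [hκ1 x hx, one_mul, one_mul])
      (fun x hx => by rw [hκ1 x hx, one_mul])).symm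
  have hs1 : ∀ f : R4 → ℝ, tsupport (fun x => v x * f x) ⊆ O := fun f =>
    (tsupport_mul_subset_left (f := v) (g := f)).trans hKO
  have e2 : T (fun x => v x * u x) u' w =
      T (fun x => v x * (κ x * u x)) (fun x => κ x * u' x) (fun x => κ x * w x) := by
    rw [show (fun x => v x * (κ x * u x)) = fun x => v x * u x from funext (hvκ u)]
    exact (T_congr (hv.cpt.mul_right) hO (hs1 u) (fun x hx => by rw [hκ1 x hx, one_mul])
      (fun x hx => by rw [hκ1 x hx, one_mul])).symm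
  have e3 : T (fun x => v x * u' x) u w =
      T (fun x => v x * (κ x * u' x)) (fun x => κ x * u x) (fun x => κ x * w x) := by
    rw [show (fun x => v x * (κ x * u' x)) = fun x => v x * u' x from funext (hvκ u')]
    exact (T_congr (hv.cpt.mul_right) hO (hs1 u') (fun x hx => by rw [hκ1 x hx, one_mul])
      (fun x hx => by rw [hκ1 x hx, one_mul])).symm
  rw [e1, e2, e3]
  exact q4

/-- a smooth function and a function which is constant where it matters -/
theorem T_grad_zero {α : ℝ} (h1 : 2 / 3 < α) (h2 : α ≤ 1) (hΩ : IsOpen Ω) (hv : Vc α Ω v)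
    (hu : ContDiffOn ℝ ∞ u Ω) (hz : ∀ x ∈ Ω, ∀ a, v x * pd a u x = 0) (hw : LH α Ω w) :
    T v u w = 0 := by
  have h0 : 0 < α := by linarith
  have E := Exq.of h1 h2
  obtain ⟨κ, hκ, -, O, hO, hKO, hOΩ, hκ1⟩ := cut_ex hΩ hv.cpt.isCompact hv.supp
  have hκv : Vc α Ω κ := Vc.of_test hκ h0 h2
  have hvz : ∀ x ∉ tsupport v, v x = 0 := fun x hx => image_eq_zero_of_notMem_tsupport hx
  have vW := Vc.mul_lh hΩ h0 hκv hw
  have hcW : Continuous fun x => κ x * w x := by
    obtain ⟨L, hL⟩ := vW.hb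
    exact hL.cont h0
  have q1 := T_cv E hΩ hv.cpt.isCompact hv.supp
    (Eventually.of_forall fun _ => hvz : ∀ᶠ _ : ℝ in 𝓝[>] (0 : ℝ), ∀ x ∉ tsupport v, v x = 0)
    hvz (Cv.const _ (hv.lh Ω))
    (Cv.const _ (LH.of_smooth hΩ h0 h2 (hu.of_le (by simp)))) (Cv.mol hΩ h0 (vW.lh Ω))
  have key : ∀ δ : ℝ, T v u (SYH.mol δ (fun x => κ x * w x)) = 0 := by
    intro δ
    rw [T_smooth h0 h2 hΩ hv hu (mol_smooth δ hcW.locallyIntegrable).contDiffOn]
    refine integral_eq_zero_of_ae (Eventually.of_forall fun x => ?_)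
    show v x * br u _ x = 0
    by_cases hx : x ∈ Ω
    · have a0 := hz x hx 0
      have a1 := hz x hx 1
      have a2 := hz x hx 2
      have a3 := hz x hx 3
      unfold br pair
      linear_combination (pd 1 (SYH.mol δ (fun x => κ x * w x)) x) * a0 -
        (pd 0 (SYH.mol δ (fun x => κ x * w x)) x) * a1 +
        (pd 3 (SYH.mol δ (fun x => κ x * w x)) x) * a2 -
        (pd 2 (SYH.mol δ (fun x => κ x * w x)) x) * a3
    · rw [hvz x fun h => hx (hv.supp h), zero_mul]
  have e1 : T v u (fun x => κ x * w x) = T v u w :=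
    T_congr hv.cpt hO hKO (fun x _ => rfl) (fun x hx => by rw [hκ1 x hx, one_mul])
  rw [← e1]
  have q2 := q1.congr key
  exact (tendsto_nhds_unique q2 tendsto_const_nhds)

end Pool.Agent.SYQ
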