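import Pool.Agent.SYQ.QC
import Pool.Agent.SYQ.TLb

/-!
# SYQ/QK: algebra of `B i h v u = ∫ v du ∧ (λ_i + dh) ∧ ω`

`B i h v u = T (ex i v) (lc i u) (lc i h) + Σ_b T (ex i v · lam0 (tr i i)_b) (lc i u) (tr i i)_b`, all functions are `Vc α` resp. `LH α` on `Ω = D i N` (`Vm.ex`; `lam_lh`, `Ap.lh (A.apx i i)`,
`(tr i i).source = D i (x i).source`, `Vc.mul_lh`).  `ex_add`, `ex_smul`, `ex_mul` and `T_add`, `T_smul`, `T_leib`, `T_const` for each of the five terms.
`B_one_sub`: `T_add₂`, `T_smul₂` (`1 - u = 1 + (-1) u`), `T_const`.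
-/

open MeasureTheory Set Filter Topology
open scoped ContDiff Matrix ENNReal

namespace Pool.Agent.SYQ

open Pool.Agent.SYH

namespace At

variable {α : ℝ} {M : Type*} [TopologicalSpace M] [T2Space M] {ι : Type*} {A : At α M ι}
  {N : Set M} {h v v' u u' : M → ℝ} {i : ι}

private theorem QK_P (hs : N ⊆ (A.x i).source) (b : Fin 4) :
    LH α (A.D i N) (fun y => A.tr i i y b) := by
  refine (Ap.lh A.h0 (A.apx i i) b).mono ?_
  rw [A.tr_source]
  exact A.D_mono i hs

private theorem QK_vl (hN : IsOpen N) (hs : N ⊆ (A.x i).source) (hv : A.Vm N v) (b : Fin 4) :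
    Vc α (A.D i N) (fun y => A.ex i v y * lam0 (A.tr i i y) b) :=
  (hv.ex hN hs).mul_lh (A.D_open i hN) A.h0 (lam_lh (fun b => QK_P hs b) b)

private theorem QK_B (i : ι) (h v u : M → ℝ) : A.B i h v u =
    T (A.ex i v) (A.lc i u) (A.lc i h) +
      ∑ b, T (fun y => A.ex i v y * lam0 (A.tr i i y) b) (A.lc i u) (fun y => A.tr i i y b) := rfl

private theorem QK_add (i : ι) (v v' : M → ℝ) (b : Fin 4) :
    (fun y => A.ex i (fun m => v m + v' m) y * lam0 (A.tr i i y) b) =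
      fun y => A.ex i v y * lam0 (A.tr i i y) b + A.ex i v' y * lam0 (A.tr i i y) b := by
  funext y
  rw [ex_add A i v v']
  ring

private theorem QK_smul (i : ι) (t : ℝ) (v : M → ℝ) (b : Fin 4) :
    (fun y => A.ex i (fun m => t * v m) y * lam0 (A.tr i i y) b) =
      fun y => t * (A.ex i v y * lam0 (A.tr i i y) b) := by
  funext y
  rw [ex_smul A i t v]
  ring

private theorem QK_mul (i : ι) (v u : M → ℝ) (b : Fin 4) :
    (fun y => A.ex i (fun m => v m * u m) y * lam0 (A.tr i i y) b) =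
      fun y => A.ex i v y * lam0 (A.tr i i y) b * A.lc i u y := by
  funext y
  rw [ex_mul A i v u]
  ring

theorem B_add₁ (hN : IsOpen N) (hs : N ⊆ (A.x i).source) (hh : A.HC N h) (hv : A.Vm N v)
    (hv' : A.Vm N v') (hu : A.HC N u) :
    A.B i h (fun m => v m + v' m) u = A.B i h v u + A.B i h v' u := by
  have E := Exq.of A.h1 A.h2
  have hΩ := A.D_open i hN
  rw [QK_B, QK_B, QK_B, ex_add A i v v',
    T_add₁ E hΩ (hv.ex hN hs) (hv'.ex hN hs) (hu i) (hh i)]
  have h1 : ∀ b : Fin 4, T (fun y => (fun y => A.ex i v y + A.ex i v' y) y *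
        lam0 (A.tr i i y) b) (A.lc i u) (fun y => A.tr i i y b) =
      T (fun y => A.ex i v y * lam0 (A.tr i i y) b) (A.lc i u) (fun y => A.tr i i y b) +
        T (fun y => A.ex i v' y * lam0 (A.tr i i y) b) (A.lc i u) (fun y => A.tr i i y b) := by
    intro b
    rw [← T_add₁ E hΩ (QK_vl hN hs hv b) (QK_vl hN hs hv' b) (hu i) (QK_P hs b),
      ← QK_add, ex_add A i v v']
  rw [Finset.sum_congr rfl fun b _ => h1 b, Finset.sum_add_distrib]
  ring

theorem B_smul₁ (hN : IsOpen N) (hs : N ⊆ (A.x i).source) (hh : A.HC N h) (hv : A.Vm N v)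
    (hu : A.HC N u) (t : ℝ) : A.B i h (fun m => t * v m) u = t * A.B i h v u := by
  have E := Exq.of A.h1 A.h2
  have hΩ := A.D_open i hN
  rw [QK_B, QK_B, ex_smul A i t v, T_smul₁ E hΩ (hv.ex hN hs) (hu i) (hh i)]
  have h1 : ∀ b : Fin 4, T (fun y => (fun y => t * A.ex i v y) y *
        lam0 (A.tr i i y) b) (A.lc i u) (fun y => A.tr i i y b) =
      t * T (fun y => A.ex i v y * lam0 (A.tr i i y) b) (A.lc i u) (fun y => A.tr i i y b) := by
    intro b
    rw [← T_smul₁ E hΩ (QK_vl hN hs hv b) (hu i) (QK_P hs b), ← QK_smul, ex_smul A i t v]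
  rw [Finset.sum_congr rfl fun b _ => h1 b, ← Finset.mul_sum]
  ring

theorem B_add₂ (hN : IsOpen N) (hs : N ⊆ (A.x i).source) (hh : A.HC N h) (hv : A.Vm N v)
    (hu : A.HC N u) (hu' : A.HC N u') :
    A.B i h v (fun m => u m + u' m) = A.B i h v u + A.B i h v u' := by
  have E := Exq.of A.h1 A.h2
  have hΩ := A.D_open i hN
  have hl : A.lc i (fun m => u m + u' m) = fun y => A.lc i u y + A.lc i u' y := rfl
  rw [QK_B, QK_B, QK_B, hl, T_add₂ E hΩ (hv.ex hN hs) (hu i) (hu' i) (hh i),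
    Finset.sum_congr rfl fun b _ => T_add₂ E hΩ (QK_vl hN hs hv b) (hu i) (hu' i) (QK_P hs b),
    Finset.sum_add_distrib]
  ring

theorem B_const (A : At α M ι) (i : ι) (h v : M → ℝ) (c : ℝ) : A.B i h v (fun _ => c) = 0 := by
  have hl : A.lc i (fun _ => c) = fun _ => c := rfl
  rw [QK_B, hl, T_const, Finset.sum_congr rfl fun b _ => T_const _ _ c]
  simp

theorem B_one_sub (hN : IsOpen N) (hs : N ⊆ (A.x i).source) (hh : A.HC N h) (hv : A.Vm N v)
    (hu : A.HC N u) : A.B i h v (fun m => 1 - u m) = -A.B i h v u := by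
  have E := Exq.of A.h1 A.h2
  have hΩ := A.D_open i hN
  have h1 : (fun m => 1 - u m) = fun m => 1 + (-1) * u m := by
    funext m
    ring
  rw [h1, B_add₂ hN hs hh hv (HC.const A N 1) (hu.smul (-1)), B_const, zero_add]
  have hl : A.lc i (fun m => (-1) * u m) = fun y => (-1) * A.lc i u y := rfl
  rw [QK_B, QK_B, hl, T_smul₂ E hΩ (hv.ex hN hs) (hu i) (hh i),
    Finset.sum_congr rfl fun b _ => T_smul₂ E hΩ (QK_vl hN hs hv b) (hu i) (QK_P hs b) (-1),
    ← Finset.mul_sum]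
  ring

theorem B_leib (hN : IsOpen N) (hs : N ⊆ (A.x i).source) (hh : A.HC N h) (hv : A.Vm N v)
    (hu : A.HC N u) (hu' : A.HC N u') :
    A.B i h v (fun m => u m * u' m) =
      A.B i h (fun m => v m * u m) u' + A.B i h (fun m => v m * u' m) u := by
  have hΩ := A.D_open i hN
  have hl : A.lc i (fun m => u m * u' m) = fun y => A.lc i u y * A.lc i u' y := rfl
  rw [QK_B, QK_B, QK_B, hl, T_leib A.h1 A.h2 hΩ (hv.ex hN hs) (hu i) (hu' i) (hh i),
    Finset.sum_congr rfl fun b _ =>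
      T_leib A.h1 A.h2 hΩ (QK_vl hN hs hv b) (hu i) (hu' i) (QK_P hs b),
    Finset.sum_add_distrib]
  simp only [QK_mul]
  rw [ex_mul A i v u, ex_mul A i v u']
  ring

end At

end Pool.Agent.SYQ
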