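import Pool.Agent.SYQ.QK

/-!
# SYQ/QL: Stokes, locality, functions which are constant where it matters

`B_stokes`: `V = ex i v`, `Vc α (D i N)`; `K = ex i κ` is `1` on the open set `D i (N ∩ O)`, which contains `tsupport V` (`tsupport V ⊆ x i '' (T ∩ T')`, `T'` the compact support of `v`).
`T K V (lc i h) = T V (lc i h) K` (`T_cyc` twice: `K`, `V` have compact support: `T K V w = T V w K`) `= T V (lc i h) 1 = 0` (`T_congr`, `T_const'`).
`Σ_b T (K lam0 (tr i i)_b) V (tr i i)_b = Σ_b T V (tr i i)_b (K lam0 (tr i i)_b) = Σ_b T V x_b lam0_b` (`T_congr`: `tr i i = id` on `(x i).target`, `K = 1`)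
`= Σ_b ∫ V br x_b lam0_b = -2 ∫ V` (`T_smooth`, `br_lam`).
`B_local`: `lc i u = 0` on the open set `D i (N ∩ O)`, which contains `tsupport (ex i v)`: `T_congr`, `T_const`.
`B_grad`: `T_grad_zero` on `Ω = D i N` for all five terms: if `ex i v y ≠ 0` then `lc i b = 1` near `y`, so `pd a (lc i b) y = 0`.
-/

open MeasureTheory Set Filter Topology
open scoped ContDiff Matrix ENNReal

namespace Pool.Agent.SYQ

open Pool.Agent.SYH

namespace At

variable {α : ℝ} {M : Type*} [TopologicalSpace M] [T2Space M] {ι : Type*} {A : At α M ι}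
  {N : Set M} {h v u b κ : M → ℝ} {i : ι}

omit [T2Space M] in
private theorem QL_vm (hv : A.Vm N v) {T O : Set M} (hT : IsClosed T) (hTO : T ⊆ O)
    (h0 : ∀ m ∉ T, v m = 0) : A.Vm (N ∩ O) v := by
  obtain ⟨hc, T', hT', hsub, hz⟩ := hv
  refine ⟨hc, T' ∩ T, hT'.inter_right hT, fun m hm => ⟨hsub hm.1, hTO hm.2⟩, fun m hm => ?_⟩
  by_cases h1 : m ∈ T'
  · exact h0 m fun h2 => hm ⟨h1, h2⟩
  · exact hz m h1

omit [T2Space M] in
private theorem QL_trlh (hs : N ⊆ (A.x i).source) (b : Fin 4) :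
    LH α (A.D i N) (fun y => A.tr i i y b) := by
  have h1 := Ap.lh A.h0 (A.apx i i) b
  apply h1.mono
  rw [A.tr_source]
  exact A.D_mono i hs

omit [T2Space M] in
private theorem QL_lamlh (hs : N ⊆ (A.x i).source) (b : Fin 4) :
    LH α (A.D i N) (fun y => lam0 (A.tr i i y) b) :=
  lam_lh (fun b => QL_trlh hs b) b

theorem B_stokes (hN : IsOpen N) (hs : N ⊆ (A.x i).source) (hh : A.HC N h) (hv : A.Vm N v)
    (hκ : A.Vm N κ) {T O : Set M} (hT : IsClosed T) (hO : IsOpen O) (hTO : T ⊆ O)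
    (h0 : ∀ m ∉ T, v m = 0) (h1 : ∀ m ∈ O, κ m = 1) :
    A.B i h κ v = -2 * ∫ y, A.ex i v y := by
  have hΩ : IsOpen (A.D i N) := A.D_open i hN
  have hNO : IsOpen (N ∩ O) := hN.inter hO
  have hΩO : IsOpen (A.D i (N ∩ O)) := A.D_open i hNO
  have E := Exq.of A.h1 A.h2
  have hV : Vc α (A.D i N) (A.ex i v) := hv.ex hN hs
  have hV' : Vc α (A.D i (N ∩ O)) (A.ex i v) :=
    (QL_vm hv hT hTO h0).ex hNO fun m hm => hs hm.1
  have hK : Vc α (A.D i N) (A.ex i κ) := hκ.ex hN hs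
  have hK1 : ∀ y ∈ A.D i (N ∩ O), A.ex i κ y = 1 := by
    intro y hy
    rw [ex_of hy.1]
    exact h1 _ hy.2.2
  have hVlc : ∀ y ∈ A.D i N, A.lc i v y = A.ex i v y := fun y hy => (ex_of hy.1 v).symm
  have htr : ∀ y ∈ A.D i (N ∩ O), A.tr i i y = y := by
    intro y hy
    rw [A.tr_apply]
    exact (A.x i).right_inv hy.1
  -- the first term
  have e1 : SYQ.T (A.ex i κ) (A.lc i v) (A.lc i h) = 0 := by
    rw [T_congr hK.cpt hΩ hK.supp hVlc (fun y _ => rfl), T_cyc E hΩ hK hV (hh i),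
      T_congr (w' := A.ex i κ) (w := fun _ => 1) hV'.cpt hΩO hV'.supp (fun y _ => rfl) hK1]
    exact T_const' _ _ 1
  -- the other terms
  have e2 : ∀ b : Fin 4, SYQ.T (fun y => A.ex i κ y * lam0 (A.tr i i y) b) (A.lc i v)
      (fun y => A.tr i i y b) =
      ∫ y, A.ex i v y * br (fun y => y b) (fun y => lam0 y b) y := by
    intro b
    have hKl : Vc α (A.D i N) (fun y => A.ex i κ y * lam0 (A.tr i i y) b) :=
      hK.mul_lh hΩ A.h0 (QL_lamlh hs b)
    rw [T_congr hKl.cpt hΩ hKl.supp hVlc (fun y _ => rfl), T_cyc E hΩ hKl hV (QL_trlh hs b),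
      T_congr (u' := fun y => A.tr i i y b) (u := fun y => y b)
        (w' := fun y => A.ex i κ y * lam0 (A.tr i i y) b) (w := fun y => lam0 y b)
        hV'.cpt hΩO hV'.supp (fun y hy => by simp only [htr y hy])
        (fun y hy => by simp only [htr y hy, hK1 y hy, one_mul])]
    apply T_smooth A.h0 A.h2 hΩ hV
    · exact (contDiff_apply ℝ ℝ b).contDiffOn
    · have hl : ContDiff ℝ ∞ (fun y : R4 => lam0 y b) := by
        unfold lam0 Matrix.vecMul
        simp only [Pi.smul_apply, dotProduct]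
        fun_prop
      exact hl.contDiffOn
  unfold At.B At.Lam
  rw [e1, zero_add, Finset.sum_congr rfl fun b _ => e2 b]
  have hVc : Continuous (A.ex i v) := by
    obtain ⟨L, hL⟩ := hV.hb
    exact hL.cont A.h0
  have hbc : ∀ b : Fin 4, Continuous (br (fun y : R4 => y b) (fun y => lam0 y b)) := by
    intro b
    apply (br_smooth _ _).continuous
    · exact contDiff_apply ℝ ℝ b
    · unfold lam0 Matrix.vecMul
      simp only [Pi.smul_apply, dotProduct]
      fun_prop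
  have hint : ∀ b ∈ (Finset.univ : Finset (Fin 4)), Integrable
      (fun y => A.ex i v y * br (fun y => y b) (fun y => lam0 y b) y) := fun b _ =>
    (hVc.mul (hbc b)).integrable_of_hasCompactSupport hV.cpt.mul_right
  rw [← integral_finsetSum _ hint, ← integral_const_mul]
  apply integral_congr_ae
  refine Filter.Eventually.of_forall fun y => ?_
  simp only
  rw [← Finset.mul_sum, br_lam, mul_comm]

theorem B_local (hN : IsOpen N) (hs : N ⊆ (A.x i).source) (hh : A.HC N h) (hv : A.Vm N v)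
    {T O : Set M} (hT : IsClosed T) (hO : IsOpen O) (hTO : T ⊆ O) (h0 : ∀ m ∉ T, v m = 0)
    (h1 : ∀ m ∈ O, u m = 0) : A.B i h v u = 0 := by
  have hNO : IsOpen (N ∩ O) := hN.inter hO
  have hΩO : IsOpen (A.D i (N ∩ O)) := A.D_open i hNO
  have hsO : N ∩ O ⊆ (A.x i).source := fun m hm => hs hm.1
  have hV' : Vc α (A.D i (N ∩ O)) (A.ex i v) := (QL_vm hv hT hTO h0).ex hNO hsO
  have hu0 : ∀ y ∈ A.D i (N ∩ O), A.lc i u y = 0 := fun y hy => h1 _ hy.2.2
  unfold At.B At.Lam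
  rw [T_congr (u' := A.lc i u) (u := fun _ => 0) hV'.cpt hΩO hV'.supp hu0 (fun y _ => rfl),
    T_const, zero_add]
  apply Finset.sum_eq_zero
  intro b _
  have hVl : Vc α (A.D i (N ∩ O)) (fun y => A.ex i v y * lam0 (A.tr i i y) b) :=
    hV'.mul_lh hΩO A.h0 (QL_lamlh hsO b)
  rw [T_congr (u' := A.lc i u) (u := fun _ => 0) hVl.cpt hΩO hVl.supp hu0 (fun y _ => rfl),
    T_const]

theorem B_grad (hN : IsOpen N) (hs : N ⊆ (A.x i).source) (hh : A.HC N h) (hv : A.Vm N v)
    (hb : A.SC i N b) (hz : ∀ m, v m ≠ 0 → ∀ᶠ m' in 𝓝 m, b m' = 1) : A.B i h v b = 0 := by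
  have hΩ : IsOpen (A.D i N) := A.D_open i hN
  have hV : Vc α (A.D i N) (A.ex i v) := hv.ex hN hs
  have hpd : ∀ y ∈ A.D i N, ∀ a, A.ex i v y * pd a (A.lc i b) y = 0 := by
    intro y hy a
    by_cases h1 : A.ex i v y = 0
    · rw [h1, zero_mul]
    · rw [ex_of hy.1] at h1
      have h2 := hz _ h1
      have h3 : ContinuousAt (A.x i).symm y := (A.x i).symm.continuousAt hy.1
      have h4 : ∀ᶠ z in 𝓝 y, b ((A.x i).symm z) = 1 := h3.eventually h2
      have h5 : A.lc i b =ᶠ[𝓝 y] fun _ => (1 : ℝ) := h4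
      have h6 : pd a (A.lc i b) y = 0 := by
        unfold pd
        rw [h5.fderiv_eq]
        simp
      rw [h6, mul_zero]
  unfold At.B At.Lam
  rw [T_grad_zero A.h1 A.h2 hΩ hV hb hpd (hh i), zero_add]
  apply Finset.sum_eq_zero
  intro c _
  apply T_grad_zero A.h1 A.h2 hΩ (hV.mul_lh hΩ A.h0 (QL_lamlh hs c)) hb _ (QL_trlh hs c)
  intro y hy a
  have := hpd y hy a
  calc A.ex i v y * lam0 (A.tr i i y) c * pd a (A.lc i b) y =
        (A.ex i v y * pd a (A.lc i b) y) * lam0 (A.tr i i y) c := by ring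
    _ = 0 := by rw [this, zero_mul]

end At

end Pool.Agent.SYQ
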