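import Pool.Agent.SYQ.QK
import Pool.Agent.SYQ.QD

/-!
# SYQ/QM: change of the local primitive

`V = N ∩ N'`, `X_b m = x i m b` (`lc i X_b = (tr i i)_b`, `lc j X_b = (tr j i)_b`; `HC V X_b`: `lc r X_b = (tr r i)_b`, `Ap.lh`).
`trans_u` (`b` is smooth in the chart `j`): `T (ex i v) (lc i b) (lc i h) = T (ex j v) (lc j b) (lc j h)`, and for each `b'`
`T (ex i v · lam0 (tr i i)_b') (lc i b) (tr i i)_b' = T (ex j v · lam0 (tr j i)_b') (lc j b) (tr j i)_b'` (`trans_u` for `v · lam0 (X)_b'`, `ex_mul`).  So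
`B i h v b = T (ex j v) (lc j b) (lc j h) + Lam j i (ex j v) (lc j b)`.
It remains: `T (ex j v) (lc j b) (lc j (h - h')) = Lam j j (ex j v) (lc j b) - Lam j i (ex j v) (lc j b)`.  More generally for all `w` of class `Vc α (D j V)` instead of `ex j v`: by `Vc.ind`
(both sides are additive in `w`: `T_add₁`) one may assume that `w` is of class `Vc α (D j O)` with `O ⊆ V`, `Fo i j O' (h - h')`, `O ⊆ O'` (`Fg i j m (h - h')` for `m ∈ V`): `ext_id` for
`Fo.eq` with `r = j` (`Lam_eq`).
-/

open MeasureTheory Set Filter Topology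
open scoped ContDiff Matrix ENNReal

namespace Pool.Agent.SYQ

open Pool.Agent.SYH

namespace At

variable {α : ℝ} {M : Type*} [TopologicalSpace M] [T2Space M] {ι : Type*} {A : At α M ι}
  {N N' : Set M} {h h' v b : M → ℝ} {i j : ι}

omit [T2Space M] in
private theorem QM_lh (r k : ι) {V : Set M} (hV : V ⊆ (A.x k).source) (a : Fin 4) :
    LH α (A.D r V) (fun y => A.tr r k y a) := by
  refine (Ap.lh A.h0 (A.apx r k) a).mono ?_
  rw [A.tr_source]
  exact A.D_mono r hV

private theorem QM_zero (u w : R4 → ℝ) : T (fun _ => 0) u w = 0 := by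
  have h : ∀ n, Tn n (fun _ => 0) u w = 0 := by
    intro n
    unfold Tn
    simp
  unfold T
  simp only [h]
  exact tendsto_const_nhds.limUnder_eq

omit [T2Space M] in
private theorem QM_hX (i : ι) {V : Set M} (hV : V ⊆ (A.x i).source) (a : Fin 4) :
    A.HC V (fun m => A.x i m a) := fun r => QM_lh r i hV a

omit [T2Space M] in
private theorem QM_hL (i : ι) {V : Set M} (hV : V ⊆ (A.x i).source) (a : Fin 4) :
    A.HC V (fun m => lam0 (A.x i m) a) := by
  intro r
  exact lam_lh (P := A.tr r i) (fun b => QM_lh r i hV b) a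

theorem B_change (hN : IsOpen N) (hs : N ⊆ (A.x i).source) (hh : A.HC N h) (hN' : IsOpen N')
    (hs' : N' ⊆ (A.x j).source) (hh' : A.HC N' h')
    (hc : ∀ m ∈ N ∩ N', A.Fg i j m (fun x => h x - h' x)) (hv : A.Vm (N ∩ N') v)
    (hb : A.SC j N' b) (hb' : A.HC univ b) : A.B i h v b = A.B j h' v b := by
  set V := N ∩ N' with hVdef
  have hV : IsOpen V := hN.inter hN'
  have hVi : V ⊆ (A.x i).source := inter_subset_left.trans hs
  have hVj : V ⊆ (A.x j).source := inter_subset_right.trans hs'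
  have hVij : V ⊆ (A.x i).source ∩ (A.x j).source := subset_inter hVi hVj
  have hbV : A.SC j V b := ContDiffOn.mono hb (A.D_mono j inter_subset_right)
  have hhV : A.HC V h := hh.mono inter_subset_left
  have hhV' : A.HC V h' := hh'.mono inter_subset_right
  have hbV' : A.HC V b := hb'.mono (subset_univ V)
  have e1 : T (A.ex i v) (A.lc i b) (A.lc i h) = T (A.ex j v) (A.lc j b) (A.lc j h) :=
    trans_u hV hVij hv hbV hhV
  have e2 : A.Lam i i (A.ex i v) (A.lc i b) = A.Lam j i (A.ex j v) (A.lc j b) := by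
    unfold Lam
    refine Finset.sum_congr rfl fun a _ => ?_
    have h3 := trans_u hV hVij (Vm.mul hV hv (QM_hL i hVi a)) hbV (QM_hX i hVi a)
    rw [ex_mul, ex_mul] at h3
    exact h3
  unfold B
  rw [e1, e2]
  have hE := Exq.of A.h1 A.h2
  have hD : IsOpen (A.D j V) := A.D_open j hV
  have key : ∀ w, Vc α (A.D j V) w →
      T w (A.lc j b) (A.lc j h) + A.Lam j i w (A.lc j b) =
        T w (A.lc j b) (A.lc j h') + A.Lam j j w (A.lc j b) := by
    intro w hw
    refine Vc.ind (P := fun w => T w (A.lc j b) (A.lc j h) + A.Lam j i w (A.lc j b) =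
        T w (A.lc j b) (A.lc j h') + A.Lam j j w (A.lc j b)) A.h0 A.h2 hD ?_ ?_ ?_ hw
    · unfold Lam
      simp only [zero_mul, QM_zero]
    · intro v1 v2 hv1 hv2 p1 p2
      have a1 : ∀ k, V ⊆ (A.x k).source → A.Lam j k (fun x => v1 x + v2 x) (A.lc j b) =
          A.Lam j k v1 (A.lc j b) + A.Lam j k v2 (A.lc j b) := by
        intro k hk
        unfold Lam
        rw [← Finset.sum_add_distrib]
        refine Finset.sum_congr rfl fun a _ => ?_
        have h5 : LH α (A.D j V) (fun y => lam0 (A.tr j k y) a) :=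
          lam_lh (P := A.tr j k) (fun b => QM_lh j k hk b) a
        have h6 := T_add₁ hE hD (hv1.mul_lh hD A.h0 h5) (hv2.mul_lh hD A.h0 h5) (hbV' j)
          (QM_lh j k hk a)
        rw [← h6]
        congr 1
        funext y
        ring
      have a2 := T_add₁ hE hD hv1 hv2 (hbV' j) (hhV j)
      have a3 := T_add₁ hE hD hv1 hv2 (hbV' j) (hhV' j)
      beta_reduce at p1 p2 ⊢
      rw [a1 i hVi, a1 j hVj, a2, a3]
      linarith
    · intro x hx
      obtain ⟨O, hm, hf⟩ := hc ((A.x j).symm x) hx.2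
      have hO : IsOpen (O ∩ V) := hf.op.inter hV
      refine ⟨A.D j (O ∩ V), A.D_open j hO, ⟨hx.1, hm, hx.2⟩, A.D_mono j inter_subset_right, ?_⟩
      intro w hw
      have hU : IsOpen (A.D j (O ∩ V)) := A.D_open j hO
      have hOO : A.D j (O ∩ V) ⊆ A.D j O := A.D_mono j inter_subset_left
      have hOV : A.D j (O ∩ V) ⊆ A.D j V := A.D_mono j inter_subset_right
      have hbO : LH α (A.D j (O ∩ V)) (A.lc j b) := (hbV' j).mono hOV
      have h7 := ext_id A.h1 A.h2 hU ((hf.hc j).mono hOO) (P := A.tr j j) (Q := A.tr j i)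
        (fun a => (QM_lh j j hVj a).mono hOV) (fun a => (QM_lh j i hVi a).mono hOV)
        (fun v' u' hv' hu' => hf.eq j v' u' (hv'.mono hOO) (hu'.mono hOO)) hw hbO
      have h8 := T_add₃ hE hU hw hbO ((hf.hc j).mono hOO) ((hhV' j).mono hOV)
      have h9 : (fun x => A.lc j (fun x => h x - h' x) x + A.lc j h' x) = A.lc j h := by
        funext y
        simp only [lc]
        ring
      rw [h9, h7] at h8
      change _ = A.Lam j j w (A.lc j b) - A.Lam j i w (A.lc j b) + _ at h8
      change T w (A.lc j b) (A.lc j h) + A.Lam j i w (A.lc j b) =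
        T w (A.lc j b) (A.lc j h') + A.Lam j j w (A.lc j b)
      rw [h8]
      ring
  exact key _ (hv.ex hV hVj)

end At

end Pool.Agent.SYQ
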