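import Pool.Agent.SYQ.QJ
import Pool.Agent.SYQ.QL
import Pool.Agent.SYQ.QM

/-!
# SYQ/QN: the identity for one function of the partition of unity

`g j = Π_{l < j} (1 - b l)`, `w l j = Π_{l' < j, l' ≠ l} (1 - b l')`, `A' l v = B (c l) (h l) (κ l v) (b l)`.
`fam_prod`: induction over `j`: `g (j+1) = g j (1 - b j)`, `B_leib`: `B v (g j (1 - b j)) = B (v g j) (1 - b j) + B (v (1 - b j)) (g j) = - B (v g j) (b j) - Σ_{l < j} B (v (1 - b j) w l j) (b l)`
(`B_one_sub`), and `w j (j+1) = g j`, `w l (j+1) = (1 - b j) w l j` for `l < j`; `g 0 = 1` (`B_const`).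
`fam_conv` (`v` of class `Vm (N k)`): `v = κ l v + (1 - κ l) v`; `(1 - κ l) v = 0` on the open set `O` (`κ l = 1`), so it vanishes off the closed set `Oᶜ`, which is contained in the open set `Tᶜ`, where
`b l = 0`: `B_local`.  `κ l v` is of class `Vm (N k ∩ N l)` (`Vm.mul_vm`): `B_change`.
`fam_star`: `B_stokes` for `v = b k g k`, `κ = κ k`; `B_leib`: `B κ_k (b k g k) = B (κ_k b k) (g k) + B (κ_k g k) (b k)`, `κ_k b k = b k`; `fam_prod` with `v = b k`, `fam_conv`.
-/

open MeasureTheory Set Filter Topology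
open scoped ContDiff Matrix ENNReal

namespace Pool.Agent.SYQ

open Pool.Agent.SYH

namespace At

variable {α : ℝ} {M : Type*} [TopologicalSpace M] [T2Space M] {ι : Type*} {A : At α M ι}
  {n : ℕ} {c : ℕ → ι} {N : ℕ → Set M} {h b κ : ℕ → M → ℝ}

/-- `Π_{l' < j} (1 - b l')` -/
def gg (b : ℕ → M → ℝ) (j : ℕ) (m : M) : ℝ := ∏ l ∈ Finset.range j, (1 - b l m)

/-- `Π_{l' < j, l' ≠ l} (1 - b l')` -/
def ww (b : ℕ → M → ℝ) (l j : ℕ) (m : M) : ℝ := ∏ l' ∈ (Finset.range j).erase l, (1 - b l' m)

private theorem QN_prod (hb : ∀ l, A.HC univ (b l)) (s : Finset ℕ) :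
    A.HC univ (fun m => ∏ l ∈ s, (1 - b l m)) := by
  classical
  induction s using Finset.induction_on with
  | empty =>
    simp only [Finset.prod_empty]
    exact HC.const A univ 1
  | insert a s ha ih =>
    refine (HC.mul isOpen_univ ((HC.const A univ 1).sub (hb a)) ih).congr fun m _ => ?_
    rw [Finset.prod_insert ha]

private theorem QN_gg (b : ℕ → M → ℝ) (j : ℕ) :
    gg b (j + 1) = fun m => gg b j m * (1 - b j m) := by
  funext m
  unfold gg
  rw [Finset.prod_range_succ]

private theorem QN_ww_self (b : ℕ → M → ℝ) (j : ℕ) : ww b j (j + 1) = gg b j := by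
  funext m
  unfold ww gg
  rw [Finset.range_add_one, Finset.erase_insert Finset.notMem_range_self]

private theorem QN_ww (b : ℕ → M → ℝ) {l j : ℕ} (hl : l < j) :
    ww b l (j + 1) = fun m => (1 - b j m) * ww b l j m := by
  funext m
  unfold ww
  rw [Finset.range_add_one, Finset.erase_insert_of_ne hl.ne', Finset.prod_insert]
  intro hc
  exact Finset.notMem_range_self (Finset.mem_of_mem_erase hc)

theorem fam_hc (F : A.Fam n c N h b κ) (l j : ℕ) : A.HC univ (gg b j) ∧ A.HC univ (ww b l j) := by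
  exact ⟨QN_prod (fun l => (F.bv l).1) _, QN_prod (fun l => (F.bv l).1) _⟩

theorem fam_prod (F : A.Fam n c N h b κ) (k j : ℕ) {v : M → ℝ} (hv : A.Vm (N k) v) :
    A.B (c k) (h k) v (gg b j) =
      -∑ l ∈ Finset.range j, A.B (c k) (h k) (fun m => v m * ww b l j m) (b l) := by
  induction j generalizing v with
  | zero =>
    have h1 : gg b 0 = fun _ => (1 : ℝ) := by
      funext m
      unfold gg
      simp
    rw [h1, B_const]
    simp
  | succ j ih =>
    have hg : A.HC (N k) (gg b j) := (fam_hc F 0 j).1.mono (subset_univ _)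
    have hbj : A.HC (N k) (b j) := (F.bv j).1.mono (subset_univ _)
    have hb1 : A.HC (N k) (fun m => 1 - b j m) := (HC.const A _ 1).sub hbj
    rw [QN_gg, B_leib (F.op k) (F.sub k) (F.hh k) hv hg hb1,
      B_one_sub (F.op k) (F.sub k) (F.hh k) (hv.mul (F.op k) hg) hbj,
      ih (hv.mul (F.op k) hb1), Finset.sum_range_succ, QN_ww_self]
    have h2 : ∀ l ∈ Finset.range j,
        A.B (c k) (h k) (fun m => v m * ww b l (j + 1) m) (b l) =
          A.B (c k) (h k) (fun m => v m * (1 - b j m) * ww b l j m) (b l) := by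
      intro l hl
      have h3 : (fun m => v m * ww b l (j + 1) m) =
          fun m => v m * (1 - b j m) * ww b l j m := by
        funext m
        rw [QN_ww b (Finset.mem_range.1 hl)]
        ring
      rw [h3]
    rw [Finset.sum_congr rfl h2]
    ring

theorem fam_conv (F : A.Fam n c N h b κ) (k l : ℕ) {v : M → ℝ} (hv : A.Vm (N k) v) :
    A.B (c k) (h k) v (b l) = A.B (c l) (h l) (fun m => κ l m * v m) (b l) := by
  obtain ⟨T, O, hT, hO, hTO, hb0, hκ1⟩ := F.kb l
  have hbl : A.HC (N k) (b l) := (F.bv l).1.mono (subset_univ _)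
  have hκ : A.HC (N k) (κ l) := (F.kv l).1.mono (subset_univ _)
  have e1 : (fun m => κ l m * v m) = fun m => v m * κ l m := by
    funext m
    ring
  have e2 : (fun m => (1 - κ l m) * v m) = fun m => v m * (1 - κ l m) := by
    funext m
    ring
  have v1 : A.Vm (N k) (fun m => κ l m * v m) := by
    rw [e1]
    exact hv.mul (F.op k) hκ
  have v2 : A.Vm (N k) (fun m => (1 - κ l m) * v m) := by
    rw [e2]
    exact hv.mul (F.op k) ((HC.const A _ 1).sub hκ)
  have h1 : v = fun m => κ l m * v m + (1 - κ l m) * v m := by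
    funext m
    ring
  have h2 : A.B (c k) (h k) v (b l) = A.B (c k) (h k) (fun m => κ l m * v m) (b l) +
      A.B (c k) (h k) (fun m => (1 - κ l m) * v m) (b l) := by
    rw [← B_add₁ (F.op k) (F.sub k) (F.hh k) v1 v2 hbl, ← h1]
  have h3 : A.B (c k) (h k) (fun m => (1 - κ l m) * v m) (b l) = 0 := by
    refine B_local (F.op k) (F.sub k) (F.hh k) v2 hO.isClosed_compl hT.isOpen_compl
      (compl_subset_compl.2 hTO) (fun m hm => ?_) fun m hm => hb0 m hm
    show (1 - κ l m) * v m = 0
    rw [hκ1 m (by_contra fun hc => hm hc)]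
    ring
  have v3 : A.Vm (N k ∩ N l) (fun m => κ l m * v m) := by
    rw [inter_comm]
    exact (F.kv l).mul_vm hv
  rw [h2, h3, add_zero]
  exact B_change (F.op k) (F.sub k) (F.hh k) (F.op l) (F.sub l) (F.hh l) (F.co k l) v3
    (ContDiffOn.mono (F.bs l) (A.D_mono (c l) (F.sub l))) (F.bv l).1

theorem fam_star (F : A.Fam n c N h b κ) (k : ℕ) :
    -2 * ∫ y, A.ex (c k) (fun m => b k m * gg b k m) y =
      A.B (c k) (h k) (fun m => κ k m * gg b k m) (b k) -
        ∑ l ∈ Finset.range k,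
          A.B (c l) (h l) (fun m => κ l m * (b k m * ww b l k m)) (b l) := by
  obtain ⟨T, O, hT, hO, hTO, hb0, hκ1⟩ := F.kb k
  have hg : A.HC (N k) (gg b k) := (fam_hc F 0 k).1.mono (subset_univ _)
  have hbk : A.HC (N k) (b k) := (F.bv k).1.mono (subset_univ _)
  have h1 := B_stokes (F.op k) (F.sub k) (F.hh k) ((F.bv k).mul (F.op k) hg) (F.kv k) hT hO hTO
    (fun m hm => by show b k m * gg b k m = 0; rw [hb0 m hm, zero_mul]) hκ1
  rw [← h1, B_leib (F.op k) (F.sub k) (F.hh k) (F.kv k) hbk hg]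
  have h2 : (fun m => κ k m * b k m) = b k := by
    funext m
    by_cases hm : m ∈ T
    · rw [hκ1 m (hTO hm), one_mul]
    · rw [hb0 m hm, mul_zero]
  rw [h2, fam_prod F k k (F.bv k)]
  have h3 : ∀ l ∈ Finset.range k,
      A.B (c k) (h k) (fun m => b k m * ww b l k m) (b l) =
        A.B (c l) (h l) (fun m => κ l m * (b k m * ww b l k m)) (b l) := fun l _ =>
    fam_conv F k l ((F.bv k).mul (F.op k) ((fam_hc F l k).2.mono (subset_univ _)))
  rw [Finset.sum_congr rfl h3]
  ring

end At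

end Pool.Agent.SYQ
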