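import Pool.Agent.SYQ.QN

/-!
# SYQ/QO: the contradiction

`fam_sum`: induction over `j`: add `fam_star` for `k = j`; `B_add₁`, `B_smul₁`: for `l < j`: `κ l w l j - κ l b j w l j = κ l w l (j+1)`; `w j (j+1) = g j`.
`fam_zero`: `B_grad` (`i = c l`, `N = N l`): if `κ l m · w l n m ≠ 0` then `b l' m ≠ 1` for all `l' < n`, `l' ≠ l`, so by `cv` `b l = 1` near `m`.
`no_fam`: by `fam_sum` (`j = n`) and `fam_zero`: `Σ_{k < n} ∫ ex (c k) (ρ k) = 0` with `ρ k = b k g k ≥ 0` (`bb`), so each integral is zero (they are nonnegative), `ex (c k) (ρ k)` is continuous (`Vm.ex`,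
`HB.cont`) with compact support, so it is zero, hence `ρ k = 0` on `N k`, and everywhere.  But `Σ_{k < n} ρ k = 1 - g n = 1` (`cv`: some `b k m = 1`), a contradiction as `M` is not empty.
-/

open MeasureTheory Set Filter Topology
open scoped ContDiff Matrix ENNReal

namespace Pool.Agent.SYQ

open Pool.Agent.SYH

namespace At

variable {α : ℝ} {M : Type*} [TopologicalSpace M] [T2Space M] {ι : Type*} {A : At α M ι}
  {n : ℕ} {c : ℕ → ι} {N : ℕ → Set M} {h b κ : ℕ → M → ℝ}

private theorem QO_vm (F : A.Fam n c N h b κ) (l j : ℕ) :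
    A.Vm (N l) (fun m => κ l m * ww b l j m) :=
  Vm.mul (F.op l) (F.kv l) ((fam_hc F l j).2.mono (subset_univ _))

private theorem QO_vg (F : A.Fam n c N h b κ) (k : ℕ) :
    A.Vm (N k) (fun m => b k m * gg b k m) :=
  Vm.mul (F.op k) (F.bv k) ((fam_hc F k k).1.mono (subset_univ _))

omit [TopologicalSpace M] [T2Space M] in
private theorem QO_ww1 (b : ℕ → M → ℝ) (j : ℕ) : ww b j (j + 1) = gg b j := by
  funext m
  unfold ww gg
  congr 1
  ext x
  simp only [Finset.mem_erase, Finset.mem_range]
  omega

omit [TopologicalSpace M] [T2Space M] in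
private theorem QO_ww2 (b : ℕ → M → ℝ) {l j : ℕ} (hl : l < j) (m : M) :
    ww b l (j + 1) m = (1 - b j m) * ww b l j m := by
  unfold ww
  have h1 : (Finset.range (j + 1)).erase l = insert j ((Finset.range j).erase l) := by
    ext x
    simp only [Finset.mem_erase, Finset.mem_range, Finset.mem_insert]
    omega
  rw [h1, Finset.prod_insert (by simp)]

omit [TopologicalSpace M] [T2Space M] in
private theorem QO_gg (b : ℕ → M → ℝ) (j : ℕ) (m : M) :
    gg b (j + 1) m = gg b j m - b j m * gg b j m := by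
  unfold gg
  rw [Finset.prod_range_succ]
  ring

private theorem QO_gg_nonneg (F : A.Fam n c N h b κ) (j : ℕ) (m : M) : 0 ≤ gg b j m :=
  Finset.prod_nonneg fun l _ => by linarith [(F.bb l m).2]

theorem fam_sum (F : A.Fam n c N h b κ) (j : ℕ) :
    ∑ k ∈ Finset.range j, (-2 * ∫ y, A.ex (c k) (fun m => b k m * gg b k m) y) =
      ∑ l ∈ Finset.range j, A.B (c l) (h l) (fun m => κ l m * ww b l j m) (b l) := by
  induction j with
  | zero => simp
  | succ j ih =>
    rw [Finset.sum_range_succ, ih, fam_star F j, Finset.sum_range_succ, QO_ww1]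
    have key : ∀ l ∈ Finset.range j, A.B (c l) (h l) (fun m => κ l m * ww b l (j + 1) m) (b l) =
        A.B (c l) (h l) (fun m => κ l m * ww b l j m) (b l) -
          A.B (c l) (h l) (fun m => κ l m * (b j m * ww b l j m)) (b l) := by
      intro l hl
      have hl' : l < j := Finset.mem_range.1 hl
      have hbl : A.HC (N l) (b l) := (F.bv l).1.mono (subset_univ _)
      have hv1 := QO_vm F l j
      have hv2 : A.Vm (N l) (fun m => κ l m * (b j m * ww b l j m)) := by
        refine Vm.mul (F.op l) (F.kv l) ?_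
        exact HC.mul (F.op l) ((F.bv j).1.mono (subset_univ _))
          ((fam_hc F l j).2.mono (subset_univ _))
      have h1 := B_add₁ (F.op l) (F.sub l) (F.hh l) hv1 (hv2.smul (-1)) hbl
      have h2 := B_smul₁ (F.op l) (F.sub l) (F.hh l) hv2 hbl (-1)
      have h3 : (fun m => κ l m * ww b l (j + 1) m) = fun m => κ l m * ww b l j m +
          -1 * (κ l m * (b j m * ww b l j m)) := by
        funext m
        rw [QO_ww2 b hl']
        ring
      rw [h3, h1, h2]
      ring
    rw [Finset.sum_congr rfl key, Finset.sum_sub_distrib]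
    ring

theorem fam_zero (F : A.Fam n c N h b κ) {l : ℕ} (hl : l < n) :
    A.B (c l) (h l) (fun m => κ l m * ww b l n m) (b l) = 0 := by
  refine B_grad (F.op l) (F.sub l) (F.hh l) (QO_vm F l n) (ContDiffOn.mono (F.bs l) (A.D_mono _ (F.sub l)))
    fun m hm => ?_
  obtain ⟨k, hk, hk1⟩ := F.cv m
  have h1 : b k m = 1 := hk1.self_of_nhds
  by_cases hkl : k = l
  · rw [← hkl]
    exact hk1
  · exfalso
    apply hm
    have h2 : ww b l n m = 0 := by
      unfold ww
      refine Finset.prod_eq_zero (i := k) ?_ (by rw [h1, sub_self])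
      simp only [Finset.mem_erase, Finset.mem_range]
      exact ⟨hkl, hk⟩
    rw [h2, mul_zero]

theorem no_fam [Nonempty M] (F : A.Fam n c N h b κ) : False := by
  have hpos : ∀ k m, 0 ≤ b k m * gg b k m := fun k m =>
    mul_nonneg (F.bb k m).1 (QO_gg_nonneg F k m)
  have hexn : ∀ k y, 0 ≤ A.ex (c k) (fun m => b k m * gg b k m) y := by
    intro k y
    unfold ex
    refine indicator_nonneg (fun y _ => ?_) y
    exact hpos k _
  have hint : ∀ k, 0 ≤ ∫ y, A.ex (c k) (fun m => b k m * gg b k m) y := fun k =>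
    integral_nonneg (hexn k)
  have hsum := fam_sum F n
  rw [Finset.sum_eq_zero (s := Finset.range n) (fun l hl => fam_zero F (Finset.mem_range.1 hl)),
    ← Finset.mul_sum] at hsum
  have hsum' : ∑ k ∈ Finset.range n, ∫ y, A.ex (c k) (fun m => b k m * gg b k m) y = 0 := by
    linarith
  have hz := (Finset.sum_eq_zero_iff_of_nonneg fun k _ => hint k).1 hsum'
  have hρ : ∀ k < n, ∀ m, b k m * gg b k m = 0 := by
    intro k hk m
    by_cases hm : m ∈ N k
    · have h1 := (QO_vg F k).ex (F.op k) (F.sub k)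
      obtain ⟨L, hL⟩ := h1.hb
      have hcont := hL.cont A.h0
      have hi : Integrable (A.ex (c k) (fun m => b k m * gg b k m)) :=
        hcont.integrable_of_hasCompactSupport h1.cpt
      have h2 := (integral_eq_zero_iff_of_nonneg (hexn k) hi).1 (hz k (Finset.mem_range.2 hk))
      have h3 := (Continuous.ae_eq_iff_eq volume hcont continuous_const).1 h2
      have h4 := congrFun h3 (A.x (c k) m)
      have hms := F.sub k hm
      rw [ex_of ((A.x (c k)).map_source hms)] at h4
      unfold lc at h4
      rw [(A.x (c k)).left_inv hms] at h4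
      exact h4
    · obtain ⟨-, T, -, hT, h0⟩ := F.bv k
      rw [h0 m fun hc => hm (hT hc), zero_mul]
  obtain ⟨m⟩ := ‹Nonempty M›
  have hg : ∀ j ≤ n, gg b j m = 1 := by
    intro j
    induction j with
    | zero =>
      intro _
      simp [gg]
    | succ j ih =>
      intro hj
      rw [QO_gg, hρ j (by omega) m, ih (by omega), sub_zero]
  obtain ⟨k, hk, hk1⟩ := F.cv m
  have h1 : b k m = 1 := hk1.self_of_nhds
  have h2 : gg b n m = 0 := by
    unfold gg
    exact Finset.prod_eq_zero (Finset.mem_range.2 hk) (by rw [h1, sub_self])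
  have h3 := hg n le_rfl
  rw [h2] at h3
  exact zero_ne_one h3

end At

end Pool.Agent.SYQ
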