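import Pool.Agent.SYQ.Defs

/-!
# SYQ/Sew: the Young integral of a curve (sewing)

`λ(x) (w) = Σ_b lam0 x b * w b` is bilinear in `x, w`, `|λ(x)(w)| ≤ 2 ‖x‖ ‖w‖`.  For the dyadic partition `t_j = j / 2^k` let
`I_k = Σ_{j < 2^k} λ(γ t_j)(γ t_{j+1} - γ t_j)`.  With the midpoint `m_j`: `I_{k+1} - I_k = Σ_j λ(γ m_j - γ t_j)(γ t_{j+1} - γ m_j)`, so
`|I_{k+1} - I_k| ≤ 2^k 2 L² (2^{-(k+1)})^{2 α} ≤ 2 L² 2^{-k (2 α - 1)}`, summable as `2 α > 1`.  `I_0 = λ(γ 0)(γ 1 - γ 0)`, and `I_k → ∫_0^1 λ(γ t)(γ' t) dt`: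
`λ(γ t_j)(γ t_{j+1} - γ t_j) = ∫_{t_j}^{t_{j+1}} λ(γ t_j)(γ' t) dt` (fundamental theorem), and `|λ(γ t_j)(γ' t) - λ(γ t)(γ' t)| ≤ 2 ‖γ t_j - γ t‖ sup ‖γ'‖ → 0` uniformly.
-/

open MeasureTheory Set Filter Topology
open scoped ContDiff Matrix ENNReal

namespace Pool.Agent.SYQ

open Pool.Agent.SYH

/-- `λ(x)(w)`, explicitly -/
noncomputable def Sew_B (x w : R4) : ℝ := (x 0 * w 1 - x 1 * w 0 + x 2 * w 3 - x 3 * w 2) / 2

theorem Sew_B_eq (x w : R4) : ∑ b, lam0 x b * w b = Sew_B x w := by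
  simp [lam0, J, Matrix.vecHead, Matrix.vecTail, Fin.sum_univ_four, Sew_B]
  ring

theorem Sew_B_le (x w : R4) : |Sew_B x w| ≤ 2 * ‖x‖ * ‖w‖ := by
  have h : ∀ a b : Fin 4, |x a * w b| ≤ ‖x‖ * ‖w‖ := by
    intro a b
    rw [abs_mul]
    exact mul_le_mul (norm_le_pi_norm x a) (norm_le_pi_norm w b) (abs_nonneg _) (norm_nonneg _)
  have h1 := abs_le.mp (h 0 1)
  have h2 := abs_le.mp (h 1 0)
  have h3 := abs_le.mp (h 2 3)
  have h4 := abs_le.mp (h 3 2)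
  have h5 : 2 * ‖x‖ * ‖w‖ = 2 * (‖x‖ * ‖w‖) := by ring
  unfold Sew_B
  rw [abs_le, h5]
  constructor <;> linarith [h1.1, h1.2, h2.1, h2.2, h3.1, h3.2, h4.1, h4.2]

theorem Sew_pair (f : ℕ → ℝ) (n : ℕ) :
    ∑ i ∈ Finset.range (2 * n), f i = ∑ j ∈ Finset.range n, (f (2 * j) + f (2 * j + 1)) := by
  induction n with
  | zero => simp
  | succ n ih =>
    rw [show 2 * (n + 1) = 2 * n + 1 + 1 from by ring, Finset.sum_range_succ, Finset.sum_range_succ,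
      ih, Finset.sum_range_succ]
    ring

/-- the dyadic sum -/
noncomputable def Sew_I (γ : ℝ → R4) (k : ℕ) : ℝ :=
  ∑ j ∈ Finset.range (2 ^ k), Sew_B (γ ((j : ℝ) / 2 ^ k))
    (γ (((j + 1 : ℕ) : ℝ) / 2 ^ k) - γ ((j : ℝ) / 2 ^ k))

theorem Sew_pow (α : ℝ) (k : ℕ) : ((1 : ℝ) / 2 ^ k) ^ α = ((1 / 2 : ℝ) ^ α) ^ k := by
  rw [← Real.rpow_natCast ((1 / 2 : ℝ) ^ α) k, ← Real.rpow_mul (by norm_num), mul_comm,
    Real.rpow_mul (by norm_num), Real.rpow_natCast]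
  congr 1
  rw [one_div_pow]

theorem Sew_mem {k j : ℕ} (h : j ≤ 2 ^ k) : (j : ℝ) / 2 ^ k ∈ Icc (0 : ℝ) 1 := by
  refine ⟨by positivity, ?_⟩
  rw [div_le_one (by positivity)]
  exact_mod_cast h

theorem Sew_step {α : ℝ} {γ : ℝ → R4} {L : ℝ} (hL : 0 ≤ L)
    (hH : ∀ s ∈ Icc (0 : ℝ) 1, ∀ t ∈ Icc (0 : ℝ) 1, ‖γ s - γ t‖ ≤ L * |s - t| ^ α) (k : ℕ)
    (hq : (1 / 2 : ℝ) ^ α ≤ 1) :
    |Sew_I γ (k + 1) - Sew_I γ k| ≤ 2 * L ^ 2 * (2 * ((1 / 2 : ℝ) ^ α) ^ 2) ^ k := by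
  set q : ℝ := (1 / 2 : ℝ) ^ α with hqd
  have hq0 : 0 < q := by positivity
  have e1 : Sew_I γ (k + 1) - Sew_I γ k = ∑ j ∈ Finset.range (2 ^ k),
      Sew_B (γ (((2 * j + 1 : ℕ) : ℝ) / 2 ^ (k + 1)) - γ ((j : ℝ) / 2 ^ k))
        (γ (((j + 1 : ℕ) : ℝ) / 2 ^ k) - γ (((2 * j + 1 : ℕ) : ℝ) / 2 ^ (k + 1))) := by
    unfold Sew_I
    rw [show (2 : ℕ) ^ (k + 1) = 2 * 2 ^ k from by ring, Sew_pair, ← Finset.sum_sub_distrib]
    refine Finset.sum_congr rfl fun j _ => ?_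
    have h1 : ((2 * j : ℕ) : ℝ) / 2 ^ (k + 1) = (j : ℝ) / 2 ^ k := by
      push_cast
      rw [pow_succ]
      field_simp
    have h2 : ((2 * j + 1 + 1 : ℕ) : ℝ) / 2 ^ (k + 1) = ((j + 1 : ℕ) : ℝ) / 2 ^ k := by
      push_cast
      rw [pow_succ]
      field_simp
      ring
    rw [h1, h2]
    simp only [Sew_B, Pi.sub_apply]
    ring
  rw [e1]
  have hterm : ∀ j ∈ Finset.range (2 ^ k),
      |Sew_B (γ (((2 * j + 1 : ℕ) : ℝ) / 2 ^ (k + 1)) - γ ((j : ℝ) / 2 ^ k))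
        (γ (((j + 1 : ℕ) : ℝ) / 2 ^ k) - γ (((2 * j + 1 : ℕ) : ℝ) / 2 ^ (k + 1)))| ≤
      2 * (L * q ^ (k + 1)) * (L * q ^ (k + 1)) := by
    intro j hj
    rw [Finset.mem_range] at hj
    have m1 : (j : ℝ) / 2 ^ k ∈ Icc (0 : ℝ) 1 := Sew_mem hj.le
    have m2 : ((j + 1 : ℕ) : ℝ) / 2 ^ k ∈ Icc (0 : ℝ) 1 := Sew_mem hj
    have m3 : ((2 * j + 1 : ℕ) : ℝ) / 2 ^ (k + 1) ∈ Icc (0 : ℝ) 1 := Sew_mem (by rw [pow_succ]; omega)
    have d1 : |((2 * j + 1 : ℕ) : ℝ) / 2 ^ (k + 1) - (j : ℝ) / 2 ^ k| = 1 / 2 ^ (k + 1) := by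
      have : ((2 * j + 1 : ℕ) : ℝ) / 2 ^ (k + 1) - (j : ℝ) / 2 ^ k = 1 / 2 ^ (k + 1) := by
        push_cast
        rw [pow_succ]
        field_simp
        ring
      rw [this, abs_of_pos (by positivity)]
    have d2 : |((j + 1 : ℕ) : ℝ) / 2 ^ k - ((2 * j + 1 : ℕ) : ℝ) / 2 ^ (k + 1)| = 1 / 2 ^ (k + 1) := by
      have : ((j + 1 : ℕ) : ℝ) / 2 ^ k - ((2 * j + 1 : ℕ) : ℝ) / 2 ^ (k + 1) = 1 / 2 ^ (k + 1) := by
        push_cast
        rw [pow_succ]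
        field_simp
        ring
      rw [this, abs_of_pos (by positivity)]
    have b1 := hH _ m3 _ m1
    have b2 := hH _ m2 _ m3
    rw [d1, Sew_pow] at b1
    rw [d2, Sew_pow] at b2
    refine (Sew_B_le _ _).trans ?_
    have hp : 0 ≤ L * q ^ (k + 1) := by positivity
    exact mul_le_mul (mul_le_mul_of_nonneg_left b1 (by norm_num)) b2 (norm_nonneg _) (by positivity)
  refine (Finset.abs_sum_le_sum_abs _ _).trans ((Finset.sum_le_sum hterm).trans ?_)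
  rw [Finset.sum_const, Finset.card_range, nsmul_eq_mul]
  push_cast
  have e2 : (2 : ℝ) ^ k * (2 * (L * q ^ (k + 1)) * (L * q ^ (k + 1))) =
      2 * L ^ 2 * (2 * q ^ 2) ^ k * q ^ 2 := by
    rw [mul_pow, ← pow_mul, mul_comm 2 k, pow_mul]
    ring
  rw [e2]
  have h3 : q ^ 2 ≤ 1 := pow_le_one₀ hq0.le hq
  have h4 : 0 ≤ 2 * L ^ 2 * (2 * q ^ 2) ^ k := by positivity
  exact mul_le_of_le_one_right h4 h3

theorem Sew_lim {α : ℝ} {γ γ' : ℝ → R4} {L M : ℝ} (hL : 0 ≤ L) (hα : 0 ≤ α)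
    (hd : ∀ t ∈ Icc (0 : ℝ) 1, HasDerivAt γ (γ' t) t) (hc : ContinuousOn γ' (Icc 0 1))
    (hM : ∀ t ∈ Icc (0 : ℝ) 1, ‖γ' t‖ ≤ M)
    (hH : ∀ s ∈ Icc (0 : ℝ) 1, ∀ t ∈ Icc (0 : ℝ) 1, ‖γ s - γ t‖ ≤ L * |s - t| ^ α) (k : ℕ) :
    |(∫ t in (0 : ℝ)..1, Sew_B (γ t) (γ' t)) - Sew_I γ k| ≤
      2 * (L * ((1 / 2 : ℝ) ^ α) ^ k) * M := by
  have hM0 : 0 ≤ M := (norm_nonneg _).trans (hM 0 ⟨le_rfl, zero_le_one⟩)
  have hγc : ContinuousOn γ (Icc 0 1) := fun t ht => (hd t ht).continuousAt.continuousWithinAt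
  have hγa : ∀ a : Fin 4, ContinuousOn (fun t => γ t a) (Icc 0 1) := fun a =>
    (continuous_apply a).comp_continuousOn hγc
  have hγa' : ∀ a : Fin 4, ContinuousOn (fun t => γ' t a) (Icc 0 1) := fun a =>
    (continuous_apply a).comp_continuousOn hc
  have hgc : ContinuousOn (fun t => Sew_B (γ t) (γ' t)) (Icc 0 1) := by
    unfold Sew_B
    exact (((((hγa 0).mul (hγa' 1)).sub ((hγa 1).mul (hγa' 0))).add ((hγa 2).mul (hγa' 3))).sub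
      ((hγa 3).mul (hγa' 2))).div_const 2
  have hhc : ∀ x : R4, ContinuousOn (fun t => Sew_B x (γ' t)) (Icc 0 1) := by
    intro x
    unfold Sew_B
    exact ((((continuousOn_const.mul (hγa' 1)).sub (continuousOn_const.mul (hγa' 0))).add
      (continuousOn_const.mul (hγa' 3))).sub (continuousOn_const.mul (hγa' 2))).div_const 2
  set τ : ℕ → ℝ := fun j => (j : ℝ) / 2 ^ k with hτ
  have hτs : ∀ j, τ j ≤ τ (j + 1) := by
    intro j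
    simp only [hτ]
    gcongr
    exact_mod_cast Nat.le_succ j
  have hτi : ∀ j < 2 ^ k, Icc (τ j) (τ (j + 1)) ⊆ Icc 0 1 := by
    intro j hj
    exact Icc_subset_Icc (Sew_mem hj.le).1 (Sew_mem (j := j + 1) hj).2
  have hint : ∀ (g : ℝ → ℝ), ContinuousOn g (Icc 0 1) → ∀ j < 2 ^ k,
      IntervalIntegrable g volume (τ j) (τ (j + 1)) := by
    intro g hg j hj
    refine ContinuousOn.intervalIntegrable ?_
    rw [uIcc_of_le (hτs j)]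
    exact hg.mono (hτi j hj)
  have e1 : (∫ t in (0 : ℝ)..1, Sew_B (γ t) (γ' t)) =
      ∑ j ∈ Finset.range (2 ^ k), ∫ t in (τ j)..(τ (j + 1)), Sew_B (γ t) (γ' t) := by
    rw [intervalIntegral.sum_integral_adjacent_intervals (fun j hj => hint _ hgc j hj)]
    congr 1
    · simp [hτ]
    · simp only [hτ]
      push_cast
      rw [div_self (by positivity)]
  have e2 : ∀ j ∈ Finset.range (2 ^ k), Sew_B (γ (τ j)) (γ (τ (j + 1)) - γ (τ j)) =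
      ∫ t in (τ j)..(τ (j + 1)), Sew_B (γ (τ j)) (γ' t) := by
    intro j hj
    rw [Finset.mem_range] at hj
    have hder : ∀ t ∈ uIcc (τ j) (τ (j + 1)), HasDerivAt (fun t => Sew_B (γ (τ j)) (γ t))
        (Sew_B (γ (τ j)) (γ' t)) t := by
      intro t ht
      rw [uIcc_of_le (hτs j)] at ht
      have h1 := hd t (hτi j hj ht)
      have h2 : ∀ a, HasDerivAt (fun t => γ t a) (γ' t a) t := fun a => (hasDerivAt_pi.1 h1) a
      unfold Sew_B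
      exact (((((h2 1).const_mul _).sub ((h2 0).const_mul _)).add ((h2 3).const_mul _)).sub
        ((h2 2).const_mul _)).div_const 2
    rw [intervalIntegral.integral_eq_sub_of_hasDerivAt hder (hint _ (hhc _) j hj)]
    simp only [Sew_B, Pi.sub_apply]
    ring
  have e3 : Sew_I γ k = ∑ j ∈ Finset.range (2 ^ k), ∫ t in (τ j)..(τ (j + 1)),
      Sew_B (γ (τ j)) (γ' t) := Finset.sum_congr rfl e2
  rw [e1, e3, ← Finset.sum_sub_distrib]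
  have hterm : ∀ j ∈ Finset.range (2 ^ k),
      |(∫ t in (τ j)..(τ (j + 1)), Sew_B (γ t) (γ' t)) -
        ∫ t in (τ j)..(τ (j + 1)), Sew_B (γ (τ j)) (γ' t)| ≤
      2 * (L * ((1 / 2 : ℝ) ^ α) ^ k) * M * (1 / 2 ^ k) := by
    intro j hj
    rw [Finset.mem_range] at hj
    rw [← intervalIntegral.integral_sub (hint _ hgc j hj) (hint _ (hhc _) j hj)]
    have hτd : τ (j + 1) - τ j = 1 / 2 ^ k := by
      simp only [hτ]
      push_cast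
      field_simp
      ring
    have h3 := intervalIntegral.norm_integral_le_of_norm_le_const (a := τ j) (b := τ (j + 1))
      (f := fun t => Sew_B (γ t) (γ' t) - Sew_B (γ (τ j)) (γ' t))
      (C := 2 * (L * ((1 / 2 : ℝ) ^ α) ^ k) * M) (by
        intro t ht
        rw [uIoc_of_le (hτs j)] at ht
        have ht' : t ∈ Icc (0 : ℝ) 1 := hτi j hj (Ioc_subset_Icc_self ht)
        have h4 : Sew_B (γ t) (γ' t) - Sew_B (γ (τ j)) (γ' t) = Sew_B (γ t - γ (τ j)) (γ' t) := by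
          simp only [Sew_B, Pi.sub_apply]
          ring
        rw [h4, Real.norm_eq_abs]
        have h5 := hH t ht' (τ j) (Sew_mem hj.le)
        have h6 : |t - τ j| ≤ 1 / 2 ^ k := by
          rw [abs_of_nonneg (by linarith [ht.1]), ← hτd]
          linarith [ht.2]
        have h7 : |t - τ j| ^ α ≤ ((1 / 2 : ℝ) ^ α) ^ k := by
          rw [← Sew_pow]
          exact Real.rpow_le_rpow (abs_nonneg _) h6 hα
        refine (Sew_B_le _ _).trans ?_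
        refine mul_le_mul (mul_le_mul_of_nonneg_left (h5.trans
          (mul_le_mul_of_nonneg_left h7 hL)) (by norm_num)) (hM t ht') (norm_nonneg _) (by positivity))
    rw [Real.norm_eq_abs, hτd, abs_of_nonneg (by positivity : (0 : ℝ) ≤ 1 / 2 ^ k)] at h3
    exact h3
  refine (Finset.abs_sum_le_sum_abs _ _).trans ((Finset.sum_le_sum hterm).trans (le_of_eq ?_))
  rw [Finset.sum_const, Finset.card_range, nsmul_eq_mul]
  push_cast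
  field_simp

theorem sew {α : ℝ} (hα : 1 / 2 < α) : ∃ C, 0 ≤ C ∧ ∀ (γ γ' : ℝ → R4) (L : ℝ), 0 ≤ L →
    (∀ t ∈ Icc (0 : ℝ) 1, HasDerivAt γ (γ' t) t) → ContinuousOn γ' (Icc 0 1) →
    (∀ s ∈ Icc (0 : ℝ) 1, ∀ t ∈ Icc (0 : ℝ) 1, ‖γ s - γ t‖ ≤ L * |s - t| ^ α) →
    |(∫ t in (0 : ℝ)..1, ∑ b, lam0 (γ t) b * γ' t b) - ∑ b, lam0 (γ 0) b * (γ 1 b - γ 0 b)| ≤
      C * L ^ 2 := by
  set q : ℝ := (1 / 2 : ℝ) ^ α with hqd
  have hα0 : 0 < α := lt_trans (by norm_num) hα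
  have hq0 : 0 < q := by positivity
  have hq1 : q < 1 := Real.rpow_lt_one (by norm_num) (by norm_num) hα0
  have hr : 2 * q ^ 2 < 1 := by
    have h1 : q < (1 / 2 : ℝ) ^ (1 / 2 : ℝ) :=
      Real.rpow_lt_rpow_of_exponent_gt (by norm_num) (by norm_num) hα
    have h2 : ((1 / 2 : ℝ) ^ (1 / 2 : ℝ)) ^ 2 = 1 / 2 := by
      rw [← Real.rpow_natCast, ← Real.rpow_mul (by norm_num)]
      norm_num
    have h3 : q ^ 2 < ((1 / 2 : ℝ) ^ (1 / 2 : ℝ)) ^ 2 := by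
      gcongr
    linarith
  have hr0 : 0 ≤ 2 * q ^ 2 := by positivity
  refine ⟨2 * (1 - 2 * q ^ 2)⁻¹, by
    have : 0 < 1 - 2 * q ^ 2 := by linarith
    positivity, ?_⟩
  intro γ γ' L hL hd hc hH
  obtain ⟨M, hM⟩ := isCompact_Icc.exists_bound_of_continuousOn hc
  have hI : ∀ k, |Sew_I γ k - Sew_I γ 0| ≤ 2 * L ^ 2 * ∑ i ∈ Finset.range k, (2 * q ^ 2) ^ i := by
    intro k
    induction k with
    | zero => simp
    | succ k ih =>
      have h1 := Sew_step hL hH k hq1.le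
      rw [Finset.sum_range_succ, mul_add]
      have h2 : Sew_I γ (k + 1) - Sew_I γ 0 =
          (Sew_I γ (k + 1) - Sew_I γ k) + (Sew_I γ k - Sew_I γ 0) := by ring
      rw [h2]
      refine (abs_add_le _ _).trans ?_
      linarith
  have hI' : ∀ k, |Sew_I γ k - Sew_I γ 0| ≤ 2 * (1 - 2 * q ^ 2)⁻¹ * L ^ 2 := by
    intro k
    refine (hI k).trans ?_
    have h1 : ∑ i ∈ Finset.range k, (2 * q ^ 2) ^ i ≤ (1 - 2 * q ^ 2)⁻¹ := by
      rw [← tsum_geometric_of_lt_one hr0 hr]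
      exact (summable_geometric_of_lt_one hr0 hr).sum_le_tsum _ (fun i _ => by positivity)
    have h2 : 2 * (1 - 2 * q ^ 2)⁻¹ * L ^ 2 = 2 * L ^ 2 * (1 - 2 * q ^ 2)⁻¹ := by ring
    rw [h2]
    exact mul_le_mul_of_nonneg_left h1 (by positivity)
  have e0 : Sew_I γ 0 = ∑ b, lam0 (γ 0) b * (γ 1 b - γ 0 b) := by
    have h1 := Sew_B_eq (γ 0) (γ 1 - γ 0)
    simp only [Pi.sub_apply] at h1
    rw [h1]
    simp [Sew_I]
  rw [← e0]
  have e1 : (∫ t in (0 : ℝ)..1, ∑ b, lam0 (γ t) b * γ' t b) =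
      ∫ t in (0 : ℝ)..1, Sew_B (γ t) (γ' t) := by
    congr 1
    funext t
    exact Sew_B_eq _ _
  rw [e1]
  have hlim : ∀ k, |(∫ t in (0 : ℝ)..1, Sew_B (γ t) (γ' t)) - Sew_I γ 0| ≤
      2 * (L * q ^ k) * M + 2 * (1 - 2 * q ^ 2)⁻¹ * L ^ 2 := by
    intro k
    have h1 := Sew_lim hL hα0.le hd hc hM hH k
    have h2 := hI' k
    have h3 : (∫ t in (0 : ℝ)..1, Sew_B (γ t) (γ' t)) - Sew_I γ 0 =
        ((∫ t in (0 : ℝ)..1, Sew_B (γ t) (γ' t)) - Sew_I γ k) + (Sew_I γ k - Sew_I γ 0) := by ring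
    rw [h3]
    refine (abs_add_le _ _).trans ?_
    exact add_le_add h1 h2
  have ht : Tendsto (fun k : ℕ => 2 * (L * q ^ k) * M + 2 * (1 - 2 * q ^ 2)⁻¹ * L ^ 2) atTop
      (𝓝 (2 * (L * 0) * M + 2 * (1 - 2 * q ^ 2)⁻¹ * L ^ 2)) := by
    have h1 : Tendsto (fun k : ℕ => q ^ k) atTop (𝓝 0) :=
      tendsto_pow_atTop_nhds_zero_of_lt_one hq0.le hq1
    exact (((h1.const_mul L).const_mul 2).mul_const M).add_const _
  have h5 := ge_of_tendsto' ht hlim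
  simpa using h5

end Pool.Agent.SYQ
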