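import Pool.Agent.SYQ.TnE

/-!
# SYQ/TE: existence of the trilinear form

`Σ_n sc n ^ θ`, `θ = β₁ + β₂ + β₃ - 2 > 0`, is a convergent geometric series (`sc n ^ θ = (1/2 ^ θ) ^ n`); `Tn_step`: `Tn n v u w` is a Cauchy sequence
(`cauchySeq_of_le_geometric`), the limit is `T v u w` (`CauchySeq.tendsto_limUnder`), and `|T| ≤ |Tn 0| + Σ_n |Tn (n+1) - Tn n|` (`Tn_zero`).
-/

open MeasureTheory Set Filter Topology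
open scoped ContDiff Matrix ENNReal

namespace Pool.Agent.SYQ

open Pool.Agent.SYH

theorem Exq.swap {β₁ β₂ β₃ : ℝ} (E : Exq β₁ β₂ β₃) : Exq β₁ β₃ β₂ :=
  ⟨E.p1, E.q1, E.p3, E.q3, E.p2, E.q2, by linarith [E.s]⟩

theorem Exq.rot {β₁ β₂ β₃ : ℝ} (E : Exq β₁ β₂ β₃) : Exq β₂ β₃ β₁ :=
  ⟨E.p2, E.q2, E.p3, E.q3, E.p1, E.q1, by linarith [E.s]⟩

theorem Exq.of {α : ℝ} (h1 : 2 / 3 < α) (h2 : α ≤ 1) : Exq α α α :=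
  ⟨by linarith, h2, by linarith, h2, by linarith, h2, by linarith⟩

private theorem TE_sc (θ : ℝ) (n : ℕ) : sc n ^ θ = ((1 / 2 : ℝ) ^ θ) ^ n := by
  have h1 : sc n = (1 / 2 : ℝ) ^ n := by
    unfold sc
    rw [one_div_pow]
  rw [h1, ← Real.rpow_natCast, ← Real.rpow_mul (by norm_num), ← Real.rpow_natCast,
    ← Real.rpow_mul (by norm_num), mul_comm]

private theorem TE_r {θ : ℝ} (h : 0 < θ) : 0 ≤ (1 / 2 : ℝ) ^ θ ∧ (1 / 2 : ℝ) ^ θ < 1 :=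
  ⟨by positivity, Real.rpow_lt_one (by norm_num) (by norm_num) h⟩

theorem T_lim0 {R β₁ β₂ β₃ L₁ L₂ L₃ : ℝ} {v u w : R4 → ℝ} (E : Exq β₁ β₂ β₃)
    (hv : HB β₁ L₁ v) (hu : HB β₂ L₂ u) (hw : HB β₃ L₃ w) (hR : ∀ x, R < ‖x‖ → v x = 0) :
    Tendsto (fun n => Tn n v u w) atTop (𝓝 (T v u w)) := by
  obtain ⟨C, hC, h⟩ := Tn_step R
  have hθ : 0 < β₁ + β₂ + β₃ - 2 := by linarith [E.s]
  have hr := TE_r hθ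
  have hcs : CauchySeq (fun n => Tn n v u w) := by
    refine cauchySeq_of_le_geometric _ (C * (L₁ * L₂ * L₃)) hr.2 ?_
    intro n
    rw [dist_comm, Real.dist_eq, ← TE_sc]
    exact h β₁ β₂ β₃ L₁ L₂ L₃ v u w n E.p1 E.q1 E.p2 E.q2 E.p3 E.q3 hv hu hw hR
  exact hcs.tendsto_limUnder

theorem T_bound (R : ℝ) {β₁ β₂ β₃ : ℝ} (E : Exq β₁ β₂ β₃) : ∃ C, 0 ≤ C ∧
    ∀ (L₁ L₂ L₃ : ℝ) (v u w : R4 → ℝ), HB β₁ L₁ v → HB β₂ L₂ u → HB β₃ L₃ w →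
      (∀ x, R < ‖x‖ → v x = 0) → |T v u w| ≤ C * (L₁ * L₂ * L₃) := by
  obtain ⟨C, hC, h⟩ := Tn_step R
  obtain ⟨C0, hC0, h0⟩ := Tn_zero R
  have hθ : 0 < β₁ + β₂ + β₃ - 2 := by linarith [E.s]
  have hr := TE_r hθ
  have h1r : 0 < 1 - (1 / 2 : ℝ) ^ (β₁ + β₂ + β₃ - 2) := by linarith [hr.2]
  refine ⟨C0 + C / (1 - (1 / 2 : ℝ) ^ (β₁ + β₂ + β₃ - 2)), by positivity, ?_⟩
  intro L₁ L₂ L₃ v u w hv hu hw hR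
  have hlim := T_lim0 E hv hu hw hR
  have hd : ∀ n, dist (Tn n v u w) (Tn (n + 1) v u w) ≤
      C * (L₁ * L₂ * L₃) * ((1 / 2 : ℝ) ^ (β₁ + β₂ + β₃ - 2)) ^ n := by
    intro n
    rw [dist_comm, Real.dist_eq, ← TE_sc]
    exact h β₁ β₂ β₃ L₁ L₂ L₃ v u w n E.p1 E.q1 E.p2 E.q2 E.p3 E.q3 hv hu hw hR
  have h1 := dist_le_of_le_geometric_of_tendsto₀ _ _ hr.2 hd hlim
  have h2 := h0 β₁ β₂ β₃ L₁ L₂ L₃ v u w E.p1 E.q1 E.p2 E.q2 E.p3 E.q3 hv hu hw hR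
  rw [dist_comm, Real.dist_eq] at h1
  have h3 : |T v u w| ≤ |T v u w - Tn 0 v u w| + |Tn 0 v u w| := by
    have := abs_add_le (T v u w - Tn 0 v u w) (Tn 0 v u w)
    rwa [sub_add_cancel] at this
  have h4 : (C0 + C / (1 - (1 / 2 : ℝ) ^ (β₁ + β₂ + β₃ - 2))) * (L₁ * L₂ * L₃) =
      C0 * (L₁ * L₂ * L₃) + C * (L₁ * L₂ * L₃) / (1 - (1 / 2 : ℝ) ^ (β₁ + β₂ + β₃ - 2)) := by
    ring
  rw [h4]
  linarith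

end Pool.Agent.SYQ
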