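import Pool.Agent.SYQ.MoH
import Pool.Agent.SYQ.BrS

/-!
# SYQ/TnE: the basic estimate

`f_n = mol (sc n) f`.  `|f_n - f|, |f_{n+1} - f_n| ≤ 2 L (sc n) ^ β` (`HB.mol_sub`), `|∂_a f_n|, |∂_a f_{n+1}| ≤ 2 C L (sc n) ^ (β - 1)` (`HB.pd_mol`; `0 < β ≤ 1`, so
`(sc (n+1)) ^ (β - 1) ≤ 2 (sc n) ^ (β - 1)`).  `D = br u_{n+1} w_{n+1} - br u_n w_n`,
`Tn (n+1) v u w - Tn n v u w = ∫ v D = ∫ (v - v_n) D + ∫ v_n D`.  The integrands vanish off `closedBall 0 (R + 1)`.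
(1) `|(v - v_n) D| ≤ L₁ (sc n) ^ β₁ c L₂ L₃ (sc n) ^ (β₂ - 1 + β₃ - 1)`.
(2) `D = br (u_{n+1} - u_n) w_{n+1} + br u_n (w_{n+1} - w_n)`, and (`int_cyc`; `v_n` is smooth with compact support)
`∫ v_n br (u_{n+1} - u_n) w_{n+1} = ∫ (u_{n+1} - u_n) br w_{n+1} v_n`, `∫ v_n br u_n (w_{n+1} - w_n) = ∫ (w_{n+1} - w_n) br v_n u_n` (twice `int_cyc`), with the bounds
`c L₂ (sc n) ^ β₂ L₃ (sc n) ^ (β₃ - 1) L₁ (sc n) ^ (β₁ - 1)`, and similarly for the second.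
`Tn_zero`: `|v| ≤ L₁`, `|br u_0 w_0| ≤ c L₂ L₃`.
-/

open MeasureTheory Set Filter Topology
open scoped ContDiff Matrix ENNReal

namespace Pool.Agent.SYQ

open Pool.Agent.SYH

/-- the volume of the ball of radius `R + 1` -/
private noncomputable def V (R : ℝ) : ℝ := volume.real (Metric.closedBall (0 : R4) (R + 1))

private theorem V_nonneg (R : ℝ) : 0 ≤ V R := measureReal_nonneg

private theorem int_bd {R c : ℝ} {f : R4 → ℝ} (hf : ∀ x, |f x| ≤ c)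
    (h0 : ∀ x, R + 1 < ‖x‖ → f x = 0) : |∫ x, f x| ≤ V R * c := by
  have h1 : ∫ x in Metric.closedBall (0 : R4) (R + 1), f x = ∫ x, f x := by
    apply setIntegral_eq_integral_of_forall_compl_eq_zero
    intro x hx
    apply h0
    simpa using hx
  rw [← h1, ← Real.norm_eq_abs, mul_comm]
  exact norm_setIntegral_le_of_norm_le_const
    (isCompact_closedBall (0 : R4) (R + 1)).measure_lt_top (fun x _ => hf x)

private theorem pair_bd {α β : R4} {a b : ℝ} (ha : ∀ i, |α i| ≤ a) (hb : ∀ i, |β i| ≤ b) :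
    |pair α β| ≤ 4 * (a * b) := by
  have h : ∀ i j, |α i * β j| ≤ a * b := fun i j => by
    rw [abs_mul]
    exact mul_le_mul (ha i) (hb j) (abs_nonneg _) ((abs_nonneg _).trans (ha i))
  unfold pair
  have h1 := abs_le.1 (h 0 1)
  have h2 := abs_le.1 (h 1 0)
  have h3 := abs_le.1 (h 2 3)
  have h4 := abs_le.1 (h 3 2)
  rw [abs_le]
  constructor <;> linarith [h1.1, h1.2, h2.1, h2.2, h3.1, h3.2, h4.1, h4.2]

private theorem br_bd {u w : R4 → ℝ} {x : R4} {a b : ℝ} (ha : ∀ i, |pd i u x| ≤ a)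
    (hb : ∀ i, |pd i w x| ≤ b) : |br u w x| ≤ 4 * (a * b) := pair_bd ha hb

private theorem sc_pos (n : ℕ) : 0 < sc n := by unfold sc; positivity

private theorem sc_succ (n : ℕ) : sc (n + 1) = sc n / 2 := by
  unfold sc; rw [pow_succ]; field_simp

private theorem sc_le_one (n : ℕ) : sc n ≤ 1 := by
  unfold sc
  rw [div_le_one (by positivity)]
  exact one_le_pow₀ (by norm_num)

private theorem sc_succ_rpow {β : ℝ} (h0 : 0 < β) (n : ℕ) :
    sc (n + 1) ^ β ≤ sc n ^ β := by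
  apply Real.rpow_le_rpow (sc_pos _).le _ h0.le
  rw [sc_succ]
  linarith [sc_pos n]

private theorem sc_succ_rpow' {β : ℝ} (h0 : 0 < β) (n : ℕ) :
    sc (n + 1) ^ (β - 1) ≤ 2 * sc n ^ (β - 1) := by
  rw [sc_succ, Real.div_rpow (sc_pos n).le (by norm_num), div_eq_mul_inv,
    ← Real.rpow_neg (by norm_num), mul_comm]
  apply mul_le_mul_of_nonneg_right _ (Real.rpow_nonneg (sc_pos n).le _)
  calc (2 : ℝ) ^ (-(β - 1)) ≤ 2 ^ (1 : ℝ) :=
        Real.rpow_le_rpow_of_exponent_le (by norm_num) (by linarith)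
    _ = 2 := Real.rpow_one 2

private theorem mol_zero_off {R : ℝ} {v : R4 → ℝ} (hv : ∀ x, R < ‖x‖ → v x = 0) {δ : ℝ}
    (h1 : δ ≤ 1) {x : R4} (hx : R + 1 < ‖x‖) : mol δ v x = 0 := by
  unfold mol
  have : ∀ t, SYH.ker δ t * v (x - t) = 0 := by
    intro t
    by_cases ht : δ ≤ ‖t‖
    · rw [ker_supp ht, zero_mul]
    · rw [hv, mul_zero]
      have := norm_sub_norm_le x t
      linarith [not_le.1 ht]
  simp [this]

private theorem cpt_of {R : ℝ} {v : R4 → ℝ} (hv : ∀ x, R + 1 < ‖x‖ → v x = 0) :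
    HasCompactSupport v := by
  apply HasCompactSupport.intro (isCompact_closedBall (0 : R4) (R + 1))
  intro x hx
  apply hv
  simpa using hx

private theorem pd_zero_off {R : ℝ} {v : R4 → ℝ} (hv : ∀ x, R + 1 < ‖x‖ → v x = 0) {x : R4}
    (hx : R + 1 < ‖x‖) (a : Fin 4) : pd a v x = 0 := by
  apply pd_eq_zero
  intro h
  have h1 : tsupport v ⊆ Metric.closedBall (0 : R4) (R + 1) := by
    apply closure_minimal _ Metric.isClosed_closedBall
    intro y hy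
    by_contra hy'
    exact hy (hv y (by simpa using hy'))
  have := h1 h
  rw [Metric.mem_closedBall, dist_zero_right] at this
  linarith

private theorem br_zero_off {R : ℝ} {v : R4 → ℝ} (hv : ∀ x, R + 1 < ‖x‖ → v x = 0) (w : R4 → ℝ)
    {x : R4} (hx : R + 1 < ‖x‖) : br w v x = 0 := by
  unfold br pair
  simp [pd_zero_off hv hx]

private theorem hb_smooth {β L δ : ℝ} {u : R4 → ℝ} (h : HB β L u) (h0 : 0 < β) :
    ContDiff ℝ ∞ (mol δ u) := mol_smooth δ (h.cont h0).locallyIntegrable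

/-- bounds for the mollified functions -/
private theorem bds {C₀ : ℝ} (hC₀ : 0 ≤ C₀)
    (hC : ∀ (β L : ℝ) (u : R4 → ℝ) (δ : ℝ) (a : Fin 4) (x : R4),
      0 < β → HB β L u → 0 < δ → |pd a (SYH.mol δ u) x| ≤ C₀ * L * δ ^ (β - 1))
    {β L : ℝ} {u : R4 → ℝ} (h : HB β L u) (h0 : 0 < β) (n : ℕ) (x : R4) :
    |mol (sc n) u x - u x| ≤ L * sc n ^ β ∧
    |mol (sc (n + 1)) u x - mol (sc n) u x| ≤ 2 * (L * sc n ^ β) ∧
    (∀ a, |pd a (mol (sc n) u) x| ≤ 2 * (C₀ * L * sc n ^ (β - 1))) ∧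
    (∀ a, |pd a (mol (sc (n + 1)) u) x| ≤ 2 * (C₀ * L * sc n ^ (β - 1))) := by
  have hL : 0 ≤ L := h.nonneg
  have hp : 0 ≤ sc n ^ (β - 1) := Real.rpow_nonneg (sc_pos n).le _
  have hCL : 0 ≤ C₀ * L := mul_nonneg hC₀ hL
  have h1 := h.mol_sub h0 (sc_pos n) x
  have h2 := h.mol_sub h0 (sc_pos (n + 1)) x
  have h3 : L * sc (n + 1) ^ β ≤ L * sc n ^ β :=
    mul_le_mul_of_nonneg_left (sc_succ_rpow h0 n) hL
  refine ⟨h1, ?_, fun a => ?_, fun a => ?_⟩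
  · rw [abs_le] at h1 h2 ⊢
    constructor <;> linarith [h1.1, h1.2, h2.1, h2.2]
  · have := hC β L u (sc n) a x h0 h (sc_pos n)
    have h4 : 0 ≤ C₀ * L * sc n ^ (β - 1) := mul_nonneg hCL hp
    linarith
  · have := hC β L u (sc (n + 1)) a x h0 h (sc_pos (n + 1))
    have h4 : C₀ * L * sc (n + 1) ^ (β - 1) ≤ C₀ * L * (2 * sc n ^ (β - 1)) :=
      mul_le_mul_of_nonneg_left (sc_succ_rpow' h0 n) hCL
    linarith

theorem Tn_step (R : ℝ) : ∃ C, 0 ≤ C ∧ ∀ (β₁ β₂ β₃ L₁ L₂ L₃ : ℝ) (v u w : R4 → ℝ) (n : ℕ),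
    0 < β₁ → β₁ ≤ 1 → 0 < β₂ → β₂ ≤ 1 → 0 < β₃ → β₃ ≤ 1 →
    HB β₁ L₁ v → HB β₂ L₂ u → HB β₃ L₃ w → (∀ x, R < ‖x‖ → v x = 0) →
    |Tn (n + 1) v u w - Tn n v u w| ≤ C * (L₁ * L₂ * L₃) * sc n ^ (β₁ + β₂ + β₃ - 2) := by
  obtain ⟨C₀, hC₀, hC⟩ := HB.pd_mol
  refine ⟨V R * (96 * C₀ ^ 2), mul_nonneg (V_nonneg R) (by positivity), ?_⟩
  intro β₁ β₂ β₃ L₁ L₂ L₃ v u w n p1 q1 p2 q2 p3 q3 hv hu hw hR
  have hL₁ : 0 ≤ L₁ := hv.nonneg
  have hL₂ : 0 ≤ L₂ := hu.nonneg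
  have hL₃ : 0 ≤ L₃ := hw.nonneg
  have bv := fun x => bds hC₀ hC hv p1 n x
  have bu := fun x => bds hC₀ hC hu p2 n x
  have bw := fun x => bds hC₀ hC hw p3 n x
  have sp := sc_pos n
  -- notation
  set v₀ := mol (sc n) v with hv₀
  set u₀ := mol (sc n) u with hu₀
  set w₀ := mol (sc n) w with hw₀
  set u₁ := mol (sc (n + 1)) u with hu₁
  set w₁ := mol (sc (n + 1)) w with hw₁
  have sv₀ : ContDiff ℝ ∞ v₀ := hb_smooth hv p1
  have su₀ : ContDiff ℝ ∞ u₀ := hb_smooth hu p2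
  have sw₀ : ContDiff ℝ ∞ w₀ := hb_smooth hw p3
  have su₁ : ContDiff ℝ ∞ u₁ := hb_smooth hu p2
  have sw₁ : ContDiff ℝ ∞ w₁ := hb_smooth hw p3
  have su : ContDiff ℝ ∞ (fun x => u₁ x - u₀ x) := su₁.sub su₀
  have sw : ContDiff ℝ ∞ (fun x => w₁ x - w₀ x) := sw₁.sub sw₀
  have hR' : ∀ x, R + 1 < ‖x‖ → v x = 0 := fun x hx => hR x (by linarith)
  have hR₀ : ∀ x, R + 1 < ‖x‖ → v₀ x = 0 := fun x hx => mol_zero_off hR (sc_le_one n) hx
  have cv : HasCompactSupport v := cpt_of hR'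
  have cv₀ : HasCompactSupport v₀ := cpt_of hR₀
  have contv : Continuous v := hv.cont p1
  -- differentiability
  have du₀ : Differentiable ℝ u₀ := su₀.differentiable (by simp)
  have du₁ : Differentiable ℝ u₁ := su₁.differentiable (by simp)
  have dw₀ : Differentiable ℝ w₀ := sw₀.differentiable (by simp)
  have dw₁ : Differentiable ℝ w₁ := sw₁.differentiable (by simp)
  -- integrability
  have ib : ∀ {f g h : R4 → ℝ}, Continuous f → HasCompactSupport f → ContDiff ℝ ∞ g →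
      ContDiff ℝ ∞ h → Integrable (fun x => f x * br g h x) := by
    intro f g h hf hc hg hh
    exact (hf.mul (br_smooth hg hh).continuous).integrable_of_hasCompactSupport hc.mul_right
  set P := fun x => br u₁ w₁ x - br u₀ w₀ x with hP
  -- the difference of brackets
  have hD : ∀ x, P x = br (fun y => u₁ y - u₀ y) w₁ x + br u₀ (fun y => w₁ y - w₀ y) x := by
    intro x
    have e1 : br (fun y => u₁ y - u₀ y) w₁ x = br u₁ w₁ x - br u₀ w₁ x := by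
      have h1 : (fun y => u₁ y - u₀ y) = fun y => u₁ y + (-1) * u₀ y := by
        ext y; ring
      rw [h1, br_add (du₁ x) ((du₀ x).const_mul (-1)), br_smul (-1) (du₀ x)]
      ring
    have e2 : br u₀ (fun y => w₁ y - w₀ y) x = br u₀ w₁ x - br u₀ w₀ x := by
      have h1 : (fun y => w₁ y - w₀ y) = fun y => w₁ y + (-1) * w₀ y := by
        ext y; ring
      rw [br_anti, h1, br_add (dw₁ x) ((dw₀ x).const_mul (-1)), br_smul (-1) (dw₀ x),
        br_anti u₀ w₁, br_anti u₀ w₀]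
      ring
    simp only [hP, e1, e2]
    ring
  have e0 : Tn (n + 1) v u w - Tn n v u w = (∫ x, (v x - v₀ x) * P x) +
      ((∫ x, (u₁ x - u₀ x) * br w₁ v₀ x) + (-∫ x, (w₁ x - w₀ x) * br u₀ v₀ x)) := by
    have i1 := ib contv cv su₁ sw₁
    have i0 := ib contv cv su₀ sw₀
    have j1 := ib sv₀.continuous cv₀ su₁ sw₁
    have j0 := ib sv₀.continuous cv₀ su₀ sw₀
    have k1 := ib sv₀.continuous cv₀ su sw₁
    have k2 := ib sv₀.continuous cv₀ su₀ sw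
    have a1 : ∫ x, v₀ x * P x = (∫ x, v₀ x * br (fun y => u₁ y - u₀ y) w₁ x) +
        ∫ x, v₀ x * br u₀ (fun y => w₁ y - w₀ y) x := by
      rw [← integral_add k1 k2]
      congr 1
      ext x
      rw [hD x]
      ring
    have a2 : ∫ x, v₀ x * br (fun y => u₁ y - u₀ y) w₁ x = ∫ x, (u₁ x - u₀ x) * br w₁ v₀ x :=
      int_cyc sv₀ su sw₁ cv₀
    have a3 : ∫ x, v₀ x * br u₀ (fun y => w₁ y - w₀ y) x = -∫ x, (w₁ x - w₀ x) * br u₀ v₀ x := by
      rw [← int_cyc sv₀ sw su₀ cv₀, ← integral_neg]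
      congr 1
      ext x
      rw [br_anti (fun y => w₁ y - w₀ y) u₀]
      ring
    have a4 : ∫ x, (v x - v₀ x) * P x = (∫ x, v x * P x) - ∫ x, v₀ x * P x := by
      have i2 : Integrable (fun x => v x * P x) := by
        have := i1.sub i0
        refine this.congr (Eventually.of_forall fun x => ?_)
        simp only [Pi.sub_apply, hP]
        ring
      have j2 : Integrable (fun x => v₀ x * P x) := by
        have := j1.sub j0
        refine this.congr (Eventually.of_forall fun x => ?_)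
        simp only [Pi.sub_apply, hP]
        ring
      rw [← integral_sub i2 j2]
      congr 1
      ext x
      ring
    have a5 : Tn (n + 1) v u w - Tn n v u w = ∫ x, v x * P x := by
      unfold Tn
      rw [← integral_sub i1 i0]
      congr 1
      ext x
      simp only [hP]
      ring
    rw [a5, ← a2, ← a3, ← a1, a4]
    ring
  -- the bound
  set s := sc n with hs
  have hq : ∀ {a b c : ℝ}, a + b + c = β₁ + β₂ + β₃ - 2 →
      s ^ a * s ^ b * s ^ c = s ^ (β₁ + β₂ + β₃ - 2) := by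
    intro a b c h
    rw [← Real.rpow_add sp, ← Real.rpow_add sp, h]
  have nn : ∀ β : ℝ, 0 ≤ s ^ β := fun β => Real.rpow_nonneg sp.le β
  set Q := s ^ (β₁ + β₂ + β₃ - 2) with hQ
  have hQ0 : 0 ≤ Q := nn _
  set A := 2 * (C₀ * L₂ * s ^ (β₂ - 1)) with hA
  set B := 2 * (C₀ * L₃ * s ^ (β₃ - 1)) with hB
  set A₁ := 2 * (C₀ * L₁ * s ^ (β₁ - 1)) with hA₁
  have t1 : |∫ x, (v x - v₀ x) * P x| ≤ V R * (L₁ * s ^ β₁ * (8 * (A * B))) := by
    apply int_bd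
    · intro x
      rw [abs_mul]
      have h1 := (bv x).1
      rw [abs_sub_comm] at h1
      have h2 : |P x| ≤ 8 * (A * B) := by
        have b1 : |br u₁ w₁ x| ≤ 4 * (A * B) := br_bd (bu x).2.2.2 (bw x).2.2.2
        have b2 : |br u₀ w₀ x| ≤ 4 * (A * B) := br_bd (bu x).2.2.1 (bw x).2.2.1
        simp only [hP]
        rw [abs_le] at b1 b2 ⊢
        constructor <;> linarith [b1.1, b1.2, b2.1, b2.2]
      exact mul_le_mul h1 h2 (abs_nonneg _) (mul_nonneg hL₁ (nn _))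
    · intro x hx
      rw [hR' x hx, hR₀ x hx]
      ring
  have t2 : |∫ x, (u₁ x - u₀ x) * br w₁ v₀ x| ≤ V R * (2 * (L₂ * s ^ β₂) * (4 * (B * A₁))) := by
    apply int_bd
    · intro x
      rw [abs_mul]
      have b1 : |br w₁ v₀ x| ≤ 4 * (B * A₁) := br_bd (bw x).2.2.2 (bv x).2.2.1
      exact mul_le_mul (bu x).2.1 b1 (abs_nonneg _)
        (mul_nonneg zero_le_two (mul_nonneg hL₂ (nn _)))
    · intro x hx
      rw [br_zero_off hR₀ _ hx, mul_zero]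
  have t3 : |∫ x, (w₁ x - w₀ x) * br u₀ v₀ x| ≤ V R * (2 * (L₃ * s ^ β₃) * (4 * (A * A₁))) := by
    apply int_bd
    · intro x
      rw [abs_mul]
      have b1 : |br u₀ v₀ x| ≤ 4 * (A * A₁) := br_bd (bu x).2.2.1 (bv x).2.2.1
      exact mul_le_mul (bw x).2.1 b1 (abs_nonneg _)
        (mul_nonneg zero_le_two (mul_nonneg hL₃ (nn _)))
    · intro x hx
      rw [br_zero_off hR₀ _ hx, mul_zero]
  have r1 : L₁ * s ^ β₁ * (8 * (A * B)) = 32 * C₀ ^ 2 * (L₁ * L₂ * L₃) * Q := by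
    rw [← hq (a := β₁) (b := β₂ - 1) (c := β₃ - 1) (by ring), hA, hB]
    ring
  have r2 : 2 * (L₂ * s ^ β₂) * (4 * (B * A₁)) = 32 * C₀ ^ 2 * (L₁ * L₂ * L₃) * Q := by
    rw [← hq (a := β₂) (b := β₃ - 1) (c := β₁ - 1) (by ring), hA₁, hB]
    ring
  have r3 : 2 * (L₃ * s ^ β₃) * (4 * (A * A₁)) = 32 * C₀ ^ 2 * (L₁ * L₂ * L₃) * Q := by
    rw [← hq (a := β₃) (b := β₂ - 1) (c := β₁ - 1) (by ring), hA₁, hA]
    ring
  rw [r1] at t1
  rw [r2] at t2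
  rw [r3] at t3
  rw [e0]
  have t4 : V R * (96 * C₀ ^ 2) * (L₁ * L₂ * L₃) * Q = V R * (32 * C₀ ^ 2 * (L₁ * L₂ * L₃) * Q) +
      V R * (32 * C₀ ^ 2 * (L₁ * L₂ * L₃) * Q) + V R * (32 * C₀ ^ 2 * (L₁ * L₂ * L₃) * Q) := by
    ring
  rw [t4]
  rw [abs_le] at t1 t2 t3 ⊢
  constructor <;> linarith [t1.1, t1.2, t2.1, t2.2, t3.1, t3.2]

theorem Tn_zero (R : ℝ) : ∃ C, 0 ≤ C ∧ ∀ (β₁ β₂ β₃ L₁ L₂ L₃ : ℝ) (v u w : R4 → ℝ),
    0 < β₁ → β₁ ≤ 1 → 0 < β₂ → β₂ ≤ 1 → 0 < β₃ → β₃ ≤ 1 →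
    HB β₁ L₁ v → HB β₂ L₂ u → HB β₃ L₃ w → (∀ x, R < ‖x‖ → v x = 0) →
    |Tn 0 v u w| ≤ C * (L₁ * L₂ * L₃) := by
  obtain ⟨C₀, hC₀, hC⟩ := HB.pd_mol
  refine ⟨V R * (4 * C₀ ^ 2), mul_nonneg (V_nonneg R) (by positivity), ?_⟩
  intro β₁ β₂ β₃ L₁ L₂ L₃ v u w p1 q1 p2 q2 p3 q3 hv hu hw hR
  have hL₁ : 0 ≤ L₁ := hv.nonneg
  have s0 : sc 0 = 1 := by simp [sc]
  have h : |Tn 0 v u w| ≤ V R * (L₁ * (4 * ((C₀ * L₂) * (C₀ * L₃)))) := by
    unfold Tn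
    apply int_bd
    · intro x
      rw [abs_mul]
      refine mul_le_mul (hv.le x) ?_ (abs_nonneg _) hL₁
      apply br_bd
      · intro i
        have := hC β₂ L₂ u (sc 0) i x p2 hu (sc_pos 0)
        rw [s0] at this ⊢
        simpa using this
      · intro i
        have := hC β₃ L₃ w (sc 0) i x p3 hw (sc_pos 0)
        rw [s0] at this ⊢
        simpa using this
    · intro x hx
      rw [hR x (by linarith), zero_mul]
  calc |Tn 0 v u w| ≤ V R * (L₁ * (4 * ((C₀ * L₂) * (C₀ * L₃)))) := h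
    _ = V R * (4 * C₀ ^ 2) * (L₁ * L₂ * L₃) := by ring

end Pool.Agent.SYQ
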